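import Mathlib

set_option autoImplicit false

namespace Pool.Agent.Lib.MP_16ef92_ag

open Polynomial

noncomputable section

section Galois

variable (F : Type) [Field F] (L : Type) [Field L] [Algebra (RatFunc F) L]

/-- The Galois group of `L` over `K = F(t)`, with the Krull topology.  In the result `L` is a
separable closure of `K`. -/
abbrev GalK : Type := L ≃ₐ[RatFunc F] L

/-- The geometric Galois group: the automorphisms that fix every constant, that is, every element
algebraic over `F`.  It is the Galois group of `L` over `k(t)`, `k` the algebraic closure. -/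
def GalGeo [Algebra F L] : Subgroup (GalK F L) :=
  fixingSubgroup (GalK F L) {c : L | IsAlgebraic F c}

variable {F}

/-- The group of points of `W` over `L`. -/
abbrev Pts (W : WeierstrassCurve (RatFunc F)) : Type := (W.baseChange L).toAffine.Point

variable {L} [DecidableEq L] {W : WeierstrassCurve (RatFunc F)}

/-- Membership in the 2-adic Tate module: `P 0 = 0` and `2 P (n+1) = P n`. -/
def InTate (P : ℕ → Pts L W) : Prop :=
  P 0 = 0 ∧ ∀ n, 2 • P (n + 1) = P n

/-- The Galois action on sequences of points. -/
def act (g : GalK F L) (P : ℕ → Pts L W) : ℕ → Pts L W :=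
  fun n => WeierstrassCurve.Affine.Point.map (W' := W.toAffine) (g : L →ₐ[RatFunc F] L) (P n)

/-- The operator `s - 1` on cochains, where `(s c) (g) = s (c (s⁻¹ g s))`. -/
def subOne (s : GalK F L) (c : GalK F L → ℕ → Pts L W) : GalK F L → ℕ → Pts L W :=
  fun g => act s (c (s⁻¹ * g * s)) - c g

variable [Algebra F L]

/-- `c` is a continuous 1-cocycle of the geometric Galois group with values in the Tate module,
whose class is torsion on every inertia group (the stabiliser of a proper valuation subring). -/
def IsClass (c : GalK F L → ℕ → Pts L W) : Prop :=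
  (∀ g ∈ GalGeo F L, InTate (c g)) ∧
  (∀ g ∈ GalGeo F L, ∀ h ∈ GalGeo F L, c (g * h) = c g + act g (c h)) ∧
  (∀ n, IsLocallyConstant fun g : GalGeo F L => c g n) ∧
  ∀ O : ValuationSubring L, O ≠ ⊤ → ∃ (j : ℕ) (m : ℕ → Pts L W), InTate m ∧
    ∀ g ∈ GalGeo F L, (∀ z, g z ∈ O ↔ z ∈ O) → 2 ^ j • c g = act g m - m

/-- The class of `c` is torsion: `2^j c` is a coboundary for some `j`. -/
def IsNull (c : GalK F L → ℕ → Pts L W) : Prop :=
  ∃ (j : ℕ) (m : ℕ → Pts L W), InTate m ∧ ∀ g ∈ GalGeo F L, 2 ^ j • c g = act g m - m

end Galois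

section Curve

variable {F : Type} [Field F]

/-- A polynomial as an element of `K = F(t)`. -/
abbrev rf (p : F[X]) : RatFunc F := algebraMap F[X] (RatFunc F) p

/-- The curve `y^2 = x (x - D A) (x - D B)` over `K = F(t)`. -/
def curve (A B D : F[X]) : WeierstrassCurve (RatFunc F) :=
  ⟨0, -(rf (D * A) + rf (D * B)), 0, rf (D * A) * rf (D * B), 0⟩

end Curve

end

end Pool.Agent.Lib.MP_16ef92_ag
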