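import Mathlib
import Pool.Agent.Lib.MP_16ef92_ag.Defs

set_option autoImplicit false

namespace Pool.Agent.Lib.MP_16ef92_ag

open Polynomial

noncomputable section

open scoped Classical

variable {F : Type} [Field F]

/-- `z` is a nonzero square in the completion of `K` at the prime `p`. -/
def LocSq (p : F[X]) (z : RatFunc F) : Prop :=
  ∃ (y : RatFunc F) (a b : F[X]), y ≠ 0 ∧ ¬ p ∣ b ∧ z = y ^ 2 * (1 + rf p * rf a / rf b)

/-- The pair `(d₁, d₂)` represents an element of the 2-Selmer group of `curve A B D`. -/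
def IsSel (A B D d₁ d₂ : F[X]) : Prop :=
  d₁ ∣ A * B * (A - B) * D ∧ d₂ ∣ A * B * (A - B) * D ∧ Even d₁.natDegree ∧ Even d₂.natDegree ∧
  ∀ p : F[X], Irreducible p → p ∣ A * B * (A - B) * D → ∃ x : RatFunc F,
    LocSq p (rf d₁ * x) ∧ LocSq p (rf d₂ * (x - rf (D * A))) ∧
      LocSq p (rf (d₁ * d₂) * (x - rf (D * B)))

/-- The weight of a pair: ramified places count once, those dividing `D` twice. -/
def wt (D d₁ d₂ : F[X]) : ℕ := (lcm d₁ d₂).natDegree + (gcd (lcm d₁ d₂) D).natDegree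

/-- The pair `(d₁, d₂)` is, up to squares, the descent image of a point of order 1 or 2. -/
def IsTorsImage (A B D d₁ d₂ : F[X]) : Prop :=
  (IsSquare d₁ ∧ IsSquare d₂) ∨ (IsSquare (d₁ * (A * B)) ∧ IsSquare (d₂ * (-(D * A)))) ∨
  (IsSquare (d₁ * (D * A)) ∧ IsSquare (d₂ * (A * (A - B)))) ∨
  (IsSquare (d₁ * (D * B)) ∧ IsSquare (d₂ * (-(D * (A - B)))))

end

end Pool.Agent.Lib.MP_16ef92_ag
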