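import Mathlib
import Pool.Agent.Lib.MP_16ef92_ag.DefsSel

set_option autoImplicit false

namespace Pool.Agent.Lib.MP_16ef92_ag

open Polynomial

noncomputable section

/-- A chosen separable closure of `F(t)`, bundled for use inside the proofs. -/
class Clos (F : Type) [Field F] where
  L : Type
  fld : Field L
  dec : DecidableEq L
  algK : Algebra (RatFunc F) L
  algF : Algebra F L
  tower : IsScalarTower F (RatFunc F) L
  sep : IsSepClosure (RatFunc F) L

attribute [instance] Clos.fld Clos.dec Clos.algK Clos.algF Clos.tower Clos.sep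

variable (F : Type) [Field F] [Clos F]

/-- The chosen separable closure. -/
abbrev Om : Type := Clos.L F

/-- Its Galois group. -/
abbrev Gam : Type := GalK F (Om F)

/-- The geometric Galois group, with a convenient membership condition. -/
def Geo : Subgroup (Gam F) where
  carrier := {g | ∀ c : Om F, IsAlgebraic F c → g c = c}
  mul_mem' := by
    intro a b ha hb c hc
    rw [AlgEquiv.mul_apply, hb c hc, ha c hc]
  one_mem' := fun _ _ => rfl
  inv_mem' := by
    intro a ha c hc
    have h := ha c hc
    rw [AlgEquiv.aut_inv, AlgEquiv.symm_apply_eq]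
    exact h.symm

lemma galGeo_eq : GalGeo F (Om F) = Geo F := by
  ext g
  unfold GalGeo
  rw [mem_fixingSubgroup_iff]
  rfl

variable {F}

/-- Points over the chosen closure. -/
abbrev Pt (W : WeierstrassCurve (RatFunc F)) : Type := Pts (Om F) W

instance omSepClosed : IsSepClosed (Om F) := IsSepClosure.sep_closed (RatFunc F)

instance omGalois : IsGalois (RatFunc F) (Om F) := inferInstance

instance omAlgPoly : Algebra F[X] (Om F) :=
  ((algebraMap (RatFunc F) (Om F)).comp (algebraMap F[X] (RatFunc F))).toAlgebra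

instance omTowerPoly : IsScalarTower F[X] (RatFunc F) (Om F) :=
  IsScalarTower.of_algebraMap_eq fun _ => rfl

instance omTowerPoly' : IsScalarTower F F[X] (Om F) :=
  IsScalarTower.of_algebraMap_eq fun x => by
    rw [IsScalarTower.algebraMap_apply F[X] (RatFunc F) (Om F), ← IsScalarTower.algebraMap_apply F F[X] (RatFunc F),
      ← IsScalarTower.algebraMap_apply F (RatFunc F) (Om F)]

section
variable {W : WeierstrassCurve (RatFunc F)} {c : Gam F → ℕ → Pt W}

lemma IsClass.mem (h : IsClass c) : ∀ g ∈ Geo F, InTate (c g) := by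
  have := h.1
  rwa [galGeo_eq] at this

lemma IsClass.mul (h : IsClass c) : ∀ g ∈ Geo F, ∀ h ∈ Geo F, c (g * h) = c g + act g (c h) := by
  have := h.2.1
  rwa [galGeo_eq] at this

lemma IsClass.cont (h : IsClass c) : ∀ n, IsLocallyConstant fun g : Geo F => c g n := by
  have := h.2.2.1
  rwa [galGeo_eq] at this

lemma IsClass.loc (h : IsClass c) : ∀ O : ValuationSubring (Om F), O ≠ ⊤ →
    ∃ (j : ℕ) (m : ℕ → Pt W), InTate m ∧
    ∀ g ∈ Geo F, (∀ z, g z ∈ O ↔ z ∈ O) → 2 ^ j • c g = act g m - m := by
  have := h.2.2.2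
  rwa [galGeo_eq] at this

lemma isNull_iff : IsNull c ↔
    ∃ (j : ℕ) (m : ℕ → Pt W), InTate m ∧ ∀ g ∈ Geo F, 2 ^ j • c g = act g m - m := by
  unfold IsNull
  rw [galGeo_eq]

end

end

end Pool.Agent.Lib.MP_16ef92_ag
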