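import Mathlib

set_option autoImplicit false
set_option linter.unusedSectionVars false
set_option linter.unusedVariables false

namespace Pool.Agent.Lib.MP_16ef92_ag

open Polynomial
open scoped Classical Pointwise

section near

variable {K L : Type} [Field K] [Field L] [Algebra K L]

/-- `P` holds for all automorphisms that fix some finite set. -/
def Near (P : (L ≃ₐ[K] L) → Prop) : Prop :=
  ∃ S : Finset L, ∀ h : L ≃ₐ[K] L, (∀ s ∈ S, h s = s) → P h

theorem Near.mono {P Q : (L ≃ₐ[K] L) → Prop} (h : Near P) (hpq : ∀ g, P g → Q g) : Near Q := by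
  obtain ⟨S, hS⟩ := h
  exact ⟨S, fun g hg => hpq g (hS g hg)⟩

theorem Near.and {P Q : (L ≃ₐ[K] L) → Prop} (h : Near P) (h' : Near Q) :
    Near fun g => P g ∧ Q g := by
  obtain ⟨S, hS⟩ := h
  obtain ⟨T, hT⟩ := h'
  exact ⟨S ∪ T, fun g hg => ⟨hS g fun s hs => hg s (Finset.mem_union_left _ hs),
    hT g fun s hs => hg s (Finset.mem_union_right _ hs)⟩⟩

theorem Near.fix (z : L) : Near fun g : L ≃ₐ[K] L => g z = z :=
  ⟨{z}, fun g hg => hg z (Finset.mem_singleton_self z)⟩

theorem Near.of_forall {P : (L ≃ₐ[K] L) → Prop} (h : ∀ g, P g) : Near P :=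
  ⟨∅, fun g _ => h g⟩

theorem inv_apply_self (g : L ≃ₐ[K] L) (z : L) : g⁻¹ (g z) = z := by
  rw [← AlgEquiv.mul_apply, inv_mul_cancel, AlgEquiv.one_apply]

theorem self_apply_inv (g : L ≃ₐ[K] L) (z : L) : g (g⁻¹ z) = z := by
  rw [← AlgEquiv.mul_apply, mul_inv_cancel, AlgEquiv.one_apply]

theorem inv_fix {g : L ≃ₐ[K] L} {z : L} (h : g z = z) : g⁻¹ z = z := by
  conv_lhs => rw [← h]
  exact inv_apply_self g z

theorem Near.conj {P : (L ≃ₐ[K] L) → Prop} (h : Near P) (g : L ≃ₐ[K] L) :
    Near fun h => P (g⁻¹ * h * g) := by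
  obtain ⟨S, hS⟩ := h
  refine ⟨S.image g, fun h hh => hS _ fun s hs => ?_⟩
  rw [AlgEquiv.mul_apply, AlgEquiv.mul_apply, hh _ (Finset.mem_image_of_mem _ hs), inv_apply_self]

theorem Near.of_locConst {X : Type} (H : Subgroup (L ≃ₐ[K] L)) (f : (L ≃ₐ[K] L) → X)
    (hf : IsLocallyConstant fun g : H => f g) : Near fun g => g ∈ H → f g = f 1 := by
  have h1 : IsOpen ((fun g : H => f g) ⁻¹' {f 1}) := hf _
  obtain ⟨U, hU, hUe⟩ := isOpen_induced_iff.1 h1
  have hm : (1 : L ≃ₐ[K] L) ∈ U := by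
    have : (1 : H) ∈ (fun g : H => f g) ⁻¹' {f 1} := rfl
    rw [← hUe] at this
    exact this
  obtain ⟨E, hE, hEU⟩ := (krullTopology_mem_nhds_one_iff K L U).1 (hU.mem_nhds hm)
  let b := Module.finBasis K E
  refine ⟨Finset.univ.image fun i => (b i : L), fun g hg hgH => ?_⟩
  have hgE : g ∈ E.fixingSubgroup := by
    rw [IntermediateField.mem_fixingSubgroup_iff]
    intro x hx
    have hb : ∀ i, g (b i : L) = (b i : L) := fun i =>
      hg _ (Finset.mem_image_of_mem _ (Finset.mem_univ i))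
    have e : x = ∑ i, b.repr ⟨x, hx⟩ i • (b i : L) := by
      have := congrArg (fun y : E => (y : L)) (b.sum_repr ⟨x, hx⟩)
      simp only [IntermediateField.coe_sum, IntermediateField.coe_smul] at this
      exact this.symm
    rw [e, map_sum]
    exact Finset.sum_congr rfl fun i _ => by rw [map_smul, hb]
  have : (⟨g, hgH⟩ : H) ∈ Subtype.val ⁻¹' U := hEU hgE
  rw [hUe] at this
  exact this

/-- Hilbert 90 for an arbitrary subgroup and a cocycle trivial near the identity. -/
theorem hilbert90 [Algebra.IsAlgebraic K L] (H : Subgroup (L ≃ₐ[K] L)) (a : (L ≃ₐ[K] L) → L)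
    (h0 : ∀ g ∈ H, a g ≠ 0) (hm : ∀ g ∈ H, ∀ h ∈ H, a (g * h) = a g * g (a h))
    (hn : Near fun g => g ∈ H → a g = 1) : ∃ b : L, b ≠ 0 ∧ ∀ g ∈ H, g b = a g * b := by
  obtain ⟨S, hS⟩ := hn
  let Mn : Submonoid L := Submonoid.closure (S : Set L)
  let res : H → (Mn →* L) := fun g => ((g.1 : L ≃ₐ[K] L) : L →* L).comp Mn.subtype
  have hres : ∀ g h : H, res g = res h ↔ ∀ s ∈ S, g.1 s = h.1 s := by
    intro g h
    constructor
    · intro e s hs
      exact DFunLike.congr_fun e ⟨s, Submonoid.subset_closure hs⟩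
    · intro e
      ext ⟨x, hx⟩
      exact MonoidHom.eqOn_closureM (f := (g.1 : L →* L)) (g := (h.1 : L →* L)) e hx
  have ha : ∀ g h : H, res g = res h → a g = a h := by
    intro g h e
    have h1 : a (g.1⁻¹ * h.1) = 1 := hS _ (fun s hs => by
      rw [AlgEquiv.mul_apply, ← (hres g h).1 e s hs, inv_apply_self])
      (H.mul_mem (H.inv_mem g.2) h.2)
    have h2 := hm g.1 g.2 _ (H.mul_mem (H.inv_mem g.2) h.2)
    rw [mul_inv_cancel_left, h1, map_one, mul_one] at h2
    exact h2.symm
  have hfin : (Set.range res).Finite := by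
    let f : Set.range res → (∀ s : S, (minpoly K (s : L)).rootSet L) := fun r s =>
      ⟨r.1 ⟨s, Submonoid.subset_closure s.2⟩, by
        obtain ⟨_, g, rfl⟩ := r
        rw [mem_rootSet]
        refine ⟨minpoly.ne_zero (Algebra.IsIntegral.isIntegral _), ?_⟩
        change aeval (g.1 (s : L)) _ = 0
        rw [aeval_algHom_apply, minpoly.aeval, map_zero]⟩
    have hf : Function.Injective f := by
      rintro ⟨_, g, rfl⟩ ⟨_, h, rfl⟩ e
      apply Subtype.ext
      refine (hres g h).2 fun s hs => ?_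
      exact congrArg Subtype.val (congrFun e ⟨s, hs⟩)
    exact Set.finite_coe_iff.1 (Finite.of_injective f hf)
  let A : (Mn →* L) → L := fun r => if hr : r ∈ Set.range res then a hr.choose else 0
  have hA : ∀ g : H, A (res g) = a g := by
    intro g
    have hr : res g ∈ Set.range res := ⟨g, rfl⟩
    simp only [A, dif_pos hr]
    exact ha _ _ hr.choose_spec
  have hy : ∃ y : Mn, ∑ r ∈ hfin.toFinset, A r * r y ≠ 0 := by
    by_contra hc
    push Not at hc
    have := linearIndependent_iff'.1 (linearIndependent_monoidHom Mn L) hfin.toFinset A (by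
      funext y
      rw [Finset.sum_apply]
      exact hc y) (res 1) (hfin.mem_toFinset.2 ⟨1, rfl⟩)
    rw [hA] at this
    exact h0 _ H.one_mem this
  obtain ⟨y, hy⟩ := hy
  refine ⟨(∑ r ∈ hfin.toFinset, A r * r y)⁻¹, inv_ne_zero hy, fun g hg => ?_⟩
  have key : a g * g (∑ r ∈ hfin.toFinset, A r * r y) = ∑ r ∈ hfin.toFinset, A r * r y := by
    rw [map_sum, Finset.mul_sum]
    refine Finset.sum_nbij' (fun r => (g : L →* L).comp r) (fun r => (↑(g⁻¹) : L →* L).comp r)
      ?_ ?_ ?_ ?_ ?_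
    · intro r hr
      obtain ⟨h, rfl⟩ := hfin.mem_toFinset.1 hr
      exact hfin.mem_toFinset.2 ⟨⟨g, hg⟩ * h, rfl⟩
    · intro r hr
      obtain ⟨h, rfl⟩ := hfin.mem_toFinset.1 hr
      exact hfin.mem_toFinset.2 ⟨⟨g, hg⟩⁻¹ * h, rfl⟩
    · intro r _
      ext x
      exact inv_apply_self g _
    · intro r _
      ext x
      exact self_apply_inv g _
    · intro r hr
      obtain ⟨h, rfl⟩ := hfin.mem_toFinset.1 hr
      have e : (g : L →* L).comp (res h) = res (⟨g, hg⟩ * h) := rfl
      rw [e, hA, hA, map_mul, ← mul_assoc, ← hm g hg h.1 h.2]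
      rfl
  have h1 := h0 g hg
  have h2 : g (∑ r ∈ hfin.toFinset, A r * r y) = (a g)⁻¹ * ∑ r ∈ hfin.toFinset, A r * r y := by
    rw [eq_inv_mul_iff_mul_eq₀ h1, key]
  rw [map_inv₀, h2, mul_inv, inv_inv]

end near

section trans

variable {M L : Type} [Field M] [Field L] [Algebra M L]

theorem val_lt_one_iff (O : ValuationSubring L) (z : L) :
    O.valuation z < 1 ↔ z = 0 ∨ z⁻¹ ∉ O := by
  rw [← O.mem_nonunits_iff, O.mem_nonunits_iff_or]

/-- The intersection of all valuation subrings that contain the part of `O` inside `M`. -/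
def hull (M : Type) [Field M] [Algebra M L] (O : ValuationSubring L) : Subring L where
  carrier := {z | ∀ O' : ValuationSubring L,
    (∀ a : M, algebraMap M L a ∈ O → algebraMap M L a ∈ O') → z ∈ O'}
  mul_mem' := fun ha hb O' h => O'.mul_mem _ _ (ha O' h) (hb O' h)
  one_mem' := fun O' _ => O'.one_mem
  add_mem' := fun ha hb O' h => O'.add_mem _ _ (ha O' h) (hb O' h)
  zero_mem' := fun O' _ => O'.zero_mem
  neg_mem' := fun ha O' h => O'.neg_mem _ (ha O' h)

theorem exists_max_coeff (O : ValuationSubring L) (p : L[X]) (hp : p ≠ 0) :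
    ∃ j, p.coeff j ≠ 0 ∧ ∀ i, p.coeff i / p.coeff j ∈ O := by
  obtain ⟨j, hj, hmax⟩ := Finset.exists_max_image p.support (fun i => O.valuation (p.coeff i))
    (support_nonempty.2 hp)
  have hj0 := mem_support_iff.1 hj
  refine ⟨j, hj0, fun i => ?_⟩
  rw [← O.valuation_le_one_iff, map_div₀]
  have hv : 0 < O.valuation (p.coeff j) := (Valuation.pos_iff _).2 hj0
  rw [div_le_one₀ hv]
  by_cases hi : i ∈ p.support
  · exact hmax i hi
  · rw [notMem_support_iff.1 hi, map_zero]
    exact zero_le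

theorem hull_frac [Algebra.IsAlgebraic M L] (O : ValuationSubring L) (z : L) (hz : z ∈ O) :
    ∃ c d : L, c ∈ hull M O ∧ d ∈ hull M O ∧ ¬ O.valuation c < 1 ∧ c * z = d := by
  obtain ⟨p, hp0, hp⟩ := Algebra.IsAlgebraic.isAlgebraic (R := M) z
  obtain ⟨j, hj0, hj⟩ := exists_max_coeff O (p.map (algebraMap M L))
    ((Polynomial.map_ne_zero_iff (algebraMap M L).injective).2 hp0)
  let P : L[X] := C ((p.map (algebraMap M L)).coeff j)⁻¹ * p.map (algebraMap M L)
  have hPc : ∀ i, P.coeff i = (p.map (algebraMap M L)).coeff i / (p.map (algebraMap M L)).coeff j :=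
    fun i => by simp only [P, coeff_C_mul]; rw [div_eq_inv_mul]
  have hPh : ∀ i, P.coeff i ∈ hull M O := by
    intro i O' h
    have e : P.coeff i = algebraMap M L (p.coeff i / p.coeff j) := by
      rw [hPc, coeff_map, coeff_map, map_div₀]
    rw [e]
    apply h
    rw [← e, hPc]
    exact hj i
  have hPz : P.eval z = 0 := by
    simp only [P, eval_mul, eval_map_algebraMap, hp, mul_zero]
  let c : ℕ → L := fun i => (divX^[i] P).eval z
  have hco : ∀ i l, (divX^[i] P).coeff l = P.coeff (l + i) := by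
    intro i
    induction i with
    | zero => intro l; rfl
    | succ i ih =>
      intro l
      rw [Function.iterate_succ_apply', coeff_divX, ih]
      congr 1
      omega
  have hc : ∀ i, c i = P.coeff i + z * c (i + 1) := by
    intro i
    have := congrArg (eval z) (X_mul_divX_add (divX^[i] P))
    simp only [eval_add, eval_mul, eval_X, eval_C, hco, zero_add] at this
    simp only [c, Function.iterate_succ_apply']
    rw [← this, add_comm]
  have hch : ∀ i, c i ∈ hull M O := by
    intro i O' h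
    rcases O'.mem_or_inv_mem z with h1 | h1
    · simp only [c]
      rw [eval_eq_sum_range]
      exact sum_mem fun l _ => O'.mul_mem _ _ (by rw [hco]; exact hPh _ O' h) (pow_mem h1 _)
    · by_cases hz0 : z = 0
      · simp only [c]
        rw [hz0, ← coeff_zero_eq_eval_zero, hco]
        exact hPh _ O' h
      induction i with
      | zero =>
        have : c 0 = 0 := hPz
        rw [this]
        exact O'.zero_mem
      | succ i ih =>
        have : c (i + 1) = (c i - P.coeff i) * z⁻¹ := by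
          rw [hc i]
          field_simp
          ring
        rw [this]
        exact O'.mul_mem _ _ (sub_mem ih (hPh _ O' h)) h1
  have hex : ∃ i, ¬ O.valuation (c (i + 1)) < 1 := by
    by_contra hn
    push Not at hn
    have h0 : ∀ i, O.valuation (c i) < 1 := by
      intro i
      cases i with
      | zero =>
        have : c 0 = 0 := hPz
        rw [this, map_zero]
        exact zero_lt_one
      | succ i => exact hn i
    have h1 : P.coeff j = c j - z * c (j + 1) := by rw [hc j]; ring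
    have h2 : O.valuation (P.coeff j) < 1 := by
      rw [h1]
      refine Valuation.map_sub_lt _ (h0 j) ?_
      rw [map_mul]
      exact mul_lt_one_of_nonneg_of_lt_one_right ((O.valuation_le_one_iff z).2 hz) zero_le (h0 _)
    rw [hPc, div_self hj0, map_one] at h2
    exact lt_irrefl _ h2
  obtain ⟨i, hi⟩ := hex
  refine ⟨c (i + 1), c i - P.coeff i, hch _, sub_mem (hch _) (hPh _), hi, ?_⟩
  rw [hc i]
  ring

/-- The Galois group permutes transitively the valuation subrings with a given trace on `M`. -/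
theorem trans_val [IsGalois M L] (O₁ O₂ : ValuationSubring L)
    (h : ∀ a : M, algebraMap M L a ∈ O₁ ↔ algebraMap M L a ∈ O₂) :
    ∃ g : L ≃ₐ[M] L, ∀ z, z ∈ O₁ ↔ g z ∈ O₂ := by
  let A : Subring M := O₁.toSubring.comap (algebraMap M L)
  let B : Subring L := hull M O₁
  have hB2 : hull M O₂ = B := by
    ext z
    constructor
    · intro hz O' h'
      exact hz O' fun a ha => h' a ((h a).2 ha)
    · intro hz O' h'
      exact hz O' fun a ha => h' a ((h a).1 ha)
  have hB1O : ∀ z ∈ B, z ∈ O₁ := fun z hz => hz O₁ fun _ ha => ha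
  have hB2O : ∀ z ∈ B, z ∈ O₂ := fun z hz => hz O₂ fun a ha => (h a).1 ha
  have hinv : ∀ (g : L ≃ₐ[M] L) (z : L), z ∈ B → g z ∈ B := by
    intro g z hz O' h'
    exact hz (O'.comap (g : L →+* L)) fun a ha => by
      change g (algebraMap M L a) ∈ O'
      rw [g.commutes]
      exact h' a ha
  haveI : IsInvariantSubring (L ≃ₐ[M] L) B := ⟨fun g {z} hz => hinv g z hz⟩
  letI : Algebra A B := (((algebraMap M L).comp A.subtype).codRestrict B
    fun a O' h' => h' a.1 a.2).toAlgebra
  haveI : SMulCommClass (L ≃ₐ[M] L) A B := ⟨fun g a b => by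
    apply Subtype.ext
    change g (algebraMap M L a.1 * b.1) = algebraMap M L a.1 * g b.1
    rw [map_mul, g.commutes]⟩
  letI : TopologicalSpace B := ⊥
  haveI : DiscreteTopology B := ⟨rfl⟩
  haveI : ContinuousSMul (L ≃ₐ[M] L) B := by
    rw [continuousSMul_iff_stabilizer_isOpen]
    intro b
    convert stabilizer_isOpen_of_isIntegral (K := M) b.1 using 1
    ext g
    simp only [SetLike.mem_coe, MulAction.mem_stabilizer_iff]
    exact Subtype.ext_iff
  haveI : Algebra.IsInvariant A B (L ≃ₐ[M] L) := ⟨fun b hb => by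
    obtain ⟨a, ha⟩ := (InfiniteGalois.mem_range_algebraMap_iff_fixed (k := M) b.1).2
      fun g => congrArg Subtype.val (hb g)
    refine ⟨⟨a, ?_⟩, Subtype.ext ha⟩
    change algebraMap M L a ∈ O₁
    rw [ha]
    exact hB1O _ b.2⟩
  let P₁ : Ideal B := (IsLocalRing.maximalIdeal O₁).comap (B.subtype.codRestrict O₁ fun b => hB1O _ b.2)
  let P₂ : Ideal B := (IsLocalRing.maximalIdeal O₂).comap (B.subtype.codRestrict O₂ fun b => hB2O _ b.2)
  have hP1 : ∀ b : B, b ∈ P₁ ↔ O₁.valuation b.1 < 1 := fun b => O₁.valuation_lt_one_iff _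
  have hP2 : ∀ b : B, b ∈ P₂ ↔ O₂.valuation b.1 < 1 := fun b => O₂.valuation_lt_one_iff _
  haveI : P₁.IsPrime := Ideal.comap_isPrime _ _
  haveI : P₂.IsPrime := Ideal.comap_isPrime _ _
  obtain ⟨g, hg⟩ := Algebra.IsInvariant.exists_smul_of_under_eq_of_profinite (A := A)
    (G := L ≃ₐ[M] L) P₁ P₂ (by
      ext a
      change algebraMap A B a ∈ P₁ ↔ algebraMap A B a ∈ P₂
      rw [hP1, hP2, val_lt_one_iff, val_lt_one_iff]
      change algebraMap M L a.1 = 0 ∨ (algebraMap M L a.1)⁻¹ ∉ O₁ ↔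
        algebraMap M L a.1 = 0 ∨ (algebraMap M L a.1)⁻¹ ∉ O₂
      rw [← map_inv₀, h])
  have key : ∀ z ∈ B, (O₂.valuation (g z) < 1 ↔ O₁.valuation z < 1) := by
    intro z hz
    have h1 := hP2 (g • ⟨z, hz⟩)
    rw [hg, Ideal.smul_mem_pointwise_smul_iff, hP1] at h1
    exact h1.symm
  have hdiv : ∀ (O : ValuationSubring L) (c d z : L), c ∈ O → d ∈ O → ¬ O.valuation c < 1 →
      c * z = d → z ∈ O := by
    intro O c d z hc hd hv e
    rw [val_lt_one_iff, not_or, not_not] at hv
    have : z = c⁻¹ * d := by rw [← e, inv_mul_cancel_left₀ hv.1]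
    rw [this]
    exact O.mul_mem _ _ hv.2 hd
  refine ⟨g, fun z => ⟨fun hz => ?_, fun hz => ?_⟩⟩
  · obtain ⟨c, d, hc, hd, hv, e⟩ := hull_frac (M := M) O₁ z hz
    refine hdiv O₂ (g c) (g d) _ (hB2O _ (hinv g c hc)) (hB2O _ (hinv g d hd)) ?_ ?_
    · rwa [key c hc]
    · rw [← map_mul, e]
  · obtain ⟨c, d, hc, hd, hv, e⟩ := hull_frac (M := M) O₂ _ hz
    rw [hB2] at hc hd
    refine hdiv O₁ (g⁻¹ c) (g⁻¹ d) _ (hB1O _ (hinv _ c hc)) (hB1O _ (hinv _ d hd)) ?_ ?_
    · rwa [← key _ (hinv _ c hc), self_apply_inv]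
    · rw [← e, map_mul, inv_apply_self]

end trans

end Pool.Agent.Lib.MP_16ef92_ag
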