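import Mathlib
import Pool.Agent.Lib.MP_16ef92_ag.Base
import Pool.Agent.Lib.MP_16ef92_ag.Gal

set_option autoImplicit false
set_option linter.unusedSectionVars false
set_option linter.unusedVariables false

namespace Pool.Agent.Lib.MP_16ef92_ag

open Polynomial IntermediateField
open scoped Classical

noncomputable section

variable {F : Type} [Field F] [Clos F] [Fintype F]

/-- The field of constants. -/
abbrev kk (F : Type) [Field F] [Clos F] : IntermediateField F (Om F) := algebraicClosure F (Om F)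

/-- The variable. -/
def tt (F : Type) [Field F] [Clos F] : Om F := algebraMap (RatFunc F) (Om F) RatFunc.X

theorem rf_eq (p : F[X]) : algebraMap (RatFunc F) (Om F) (rf p) = aeval (tt F) p := by
  unfold tt
  rw [aeval_algebraMap_apply, RatFunc.aeval_X_left_eq_algebraMap]

theorem gam_tt (g : Gam F) : g (tt F) = tt F := g.commutes _

theorem gam_ev (g : Gam F) (p : F[X]) : g (aeval (tt F) p) = aeval (tt F) p := by
  rw [← rf_eq]
  exact g.commutes _

theorem tt_trans : Transcendental (kk F) (tt F) := by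
  apply Transcendental.algebraicClosure
  unfold tt
  rw [transcendental_algebraMap_iff (algebraMap (RatFunc F) (Om F)).injective]
  exact RatFunc.transcendental_X

theorem kk_alg (c : kk F) : IsAlgebraic F (c : Om F) := mem_algebraicClosure_iff.1 c.2

theorem geo_fix {g : Gam F} (hg : g ∈ Geo F) (c : kk F) : g c = c := hg _ (kk_alg c)

theorem mem_geo {g : Gam F} (h : ∀ c : kk F, g c = c) : g ∈ Geo F :=
  fun c hc => h ⟨c, mem_algebraicClosure_iff.2 hc⟩

theorem gam_alg (g : Gam F) {c : Om F} (hc : IsAlgebraic F c) : IsAlgebraic F (g c) :=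
  hc.algHom (g.restrictScalars F).toAlgHom

/-- The action on constants. -/
def ck (g : Gam F) (c : kk F) : kk F := ⟨g c, mem_algebraicClosure_iff.2 (gam_alg g (kk_alg c))⟩

theorem ck_val (g : Gam F) (c : kk F) : (ck g c : Om F) = g c := rfl

theorem geo_conj {g : Gam F} (hg : g ∈ Geo F) (s : Gam F) : s⁻¹ * g * s ∈ Geo F := by
  refine mem_geo fun c => ?_
  rw [AlgEquiv.mul_apply, AlgEquiv.mul_apply, ← ck_val, geo_fix hg, ck_val, inv_apply_self]

theorem geo_conj' {g : Gam F} (hg : g ∈ Geo F) (s : Gam F) : s * g * s⁻¹ ∈ Geo F := by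
  simpa using geo_conj hg s⁻¹

theorem geo_aeval {g : Gam F} (hg : g ∈ Geo F) (w : Om F) (P : (kk F)[X]) :
    g (aeval w P) = aeval (g w) P := by
  let f : Om F →ₐ[kk F] Om F := { (g : Om F →+* Om F) with commutes' := fun c => geo_fix hg c }
  exact (aeval_algHom_apply f w P).symm

instance kk_algClosed : IsAlgClosed (kk F) := by
  refine IsAlgClosed.of_exists_root _ fun p hp hi => ?_
  have : PerfectField (kk F) := Algebra.IsAlgebraic.perfectField F
  obtain ⟨x, hx⟩ := IsSepClosed.exists_aeval_eq_zero (Om F) p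
    (degree_pos_of_irreducible hi).ne' (PerfectField.separable_of_irreducible hi)
  have h1 : IsIntegral (kk F) x := ⟨p, hp, hx⟩
  have h2 : IsIntegral F x := isIntegral_trans x h1
  refine ⟨⟨x, h2⟩, ?_⟩
  apply (algebraMap (kk F) (Om F)).injective
  rw [map_zero, ← aeval_algebraMap_apply_eq_algebraMap_eval]
  exact hx

theorem root_mem_kk {z : Om F} {n : ℕ} (hn : 0 < n) {c : kk F} (h : z ^ n = c) :
    ∃ d : kk F, z = d := by
  refine ⟨⟨z, mem_algebraicClosure_iff.2 (IsAlgebraic.of_pow hn ?_)⟩, rfl⟩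
  rw [h]
  exact kk_alg c

theorem kk_frob (c : kk F) : ∃ d, 0 < d ∧ (c : Om F) ^ Fintype.card F ^ d = c := by
  have hi : IsIntegral F (c : Om F) := (kk_alg c).isIntegral
  have : FiniteDimensional F F⟮(c : Om F)⟯ := adjoin.finiteDimensional hi
  have : Finite F⟮(c : Om F)⟯ := Module.finite_of_finite F
  let _ : Fintype F⟮(c : Om F)⟯ := Fintype.ofFinite _
  refine ⟨Module.finrank F F⟮(c : Om F)⟯, Module.finrank_pos, ?_⟩
  have := FiniteField.pow_card (AdjoinSimple.gen F (c : Om F))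
  rw [Module.card_eq_pow_finrank (K := F)] at this
  exact congrArg Subtype.val this

section val

variable (O : ValuationSubring (Om F))

theorem val_const {c : kk F} (hc : c ≠ 0) : O.valuation c = 1 := by
  obtain ⟨d, hd, h⟩ := kk_frob c
  have hc' : (c : Om F) ≠ 0 := fun e => hc (Subtype.ext e)
  have h1 : 1 < Fintype.card F ^ d := Nat.one_lt_pow hd.ne' Fintype.one_lt_card
  obtain ⟨m, hm⟩ : ∃ m, Fintype.card F ^ d = m + 1 + 1 := ⟨Fintype.card F ^ d - 2, by omega⟩
  rw [hm, pow_succ, mul_eq_right₀ hc'] at h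
  have := congrArg O.valuation h
  rw [map_pow, map_one] at this
  exact (pow_eq_one_iff_of_nonneg zero_le (Nat.succ_ne_zero m)).1 this

theorem val_const_le (c : kk F) : O.valuation c ≤ 1 := by
  by_cases hc : c = 0
  · simp [hc]
  · exact (val_const O hc).le

theorem const_eq {c d : kk F} (h : O.valuation ((c : Om F) - d) < 1) : c = d := by
  by_contra hne
  have := val_const O (sub_ne_zero.2 hne)
  push_cast at this
  exact h.ne this

theorem val_one_of_sub {z c : Om F} (hc : O.valuation c = 1) (h : O.valuation (z - c) < 1) :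
    O.valuation z = 1 := by
  have := Valuation.map_add_eq_of_lt_left O.valuation (x := c) (y := z - c) (by rwa [hc])
  rwa [add_sub_cancel, hc] at this

theorem val_mul_lt {a b : Om F} (ha : O.valuation a ≤ 1) (hb : O.valuation b < 1) :
    O.valuation (a * b) < 1 := by
  rw [map_mul]
  exact mul_lt_one_of_nonneg_of_lt_one_right ha zero_le hb

theorem val_mul_le {a b : Om F} (ha : O.valuation a ≤ 1) (hb : O.valuation b ≤ 1) :
    O.valuation (a * b) ≤ 1 := by
  rw [map_mul]
  exact mul_le_one' ha hb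

theorem poly_le {w : Om F} (hw : O.valuation w ≤ 1) (P : (kk F)[X]) :
    O.valuation (aeval w P) ≤ 1 := by
  rw [aeval_eq_sum_range]
  refine Valuation.map_sum_le _ fun i _ => ?_
  rw [Algebra.smul_def]
  refine val_mul_le O (val_const_le O _) ?_
  rw [map_pow]
  exact pow_le_one₀ zero_le hw

theorem poly_sub {w : Om F} {c : kk F} (hw : O.valuation (w - c) < 1) (P : (kk F)[X]) :
    O.valuation (aeval w P - (P.eval c : kk F)) < 1 := by
  have hw1 : O.valuation w ≤ 1 := by
    have := Valuation.map_add_le O.valuation hw.le (val_const_le O c)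
    rwa [sub_add_cancel] at this
  obtain ⟨Q, hQ⟩ := X_sub_C_dvd_sub_C_eval (a := c) (p := P)
  have := congrArg (aeval w) hQ
  simp only [map_sub, map_mul, aeval_X, aeval_C] at this
  change aeval w P - (P.eval c : kk F) = (w - c) * aeval w Q at this
  rw [this, mul_comm]
  exact val_mul_lt O (poly_le O hw1 Q) hw

theorem poly_unit {w : Om F} {c : kk F} (hw : O.valuation (w - c) < 1) {P : (kk F)[X]}
    (hP : P.eval c ≠ 0) : O.valuation (aeval w P) = 1 :=
  val_one_of_sub O (val_const O hP) (poly_sub O hw P)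

end val

theorem kf_val {w z : Om F} (hw : w ≠ 0) (hz : z ∈ (kk F)⟮w⟯) (hz0 : z ≠ 0) :
    ∃ (j : ℤ) (u : Om F) (c : kk F), c ≠ 0 ∧ z = w ^ j * u ∧
      ∀ O : ValuationSubring (Om F), O.valuation w < 1 → O.valuation (u - c) < 1 := by
  obtain ⟨p, r, rfl⟩ := (mem_adjoin_simple_iff (kk F) z).1 hz
  have hp : p ≠ 0 := fun e => hz0 (by simp [e])
  have hr : r ≠ 0 := fun e => hz0 (by simp [e])
  obtain ⟨p₁, hp1, hp2⟩ := exists_eq_pow_rootMultiplicity_mul_and_not_dvd p hp 0
  obtain ⟨r₁, hr1, hr2⟩ := exists_eq_pow_rootMultiplicity_mul_and_not_dvd r hr 0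
  rw [dvd_iff_isRoot] at hp2 hr2
  refine ⟨(p.rootMultiplicity 0 : ℤ) - r.rootMultiplicity 0, aeval w p₁ / aeval w r₁,
    p₁.eval 0 / r₁.eval 0, div_ne_zero hp2 hr2, ?_, fun O hO => ?_⟩
  · conv_lhs => rw [hp1, hr1]
    simp only [map_mul, map_pow, map_sub, aeval_X, map_zero, sub_zero]
    rw [zpow_sub₀ hw, zpow_natCast, zpow_natCast, mul_div_mul_comm]
  · have hO' : O.valuation (w - (0 : kk F)) < 1 := by simpa using hO
    have h1 := poly_sub O hO' p₁
    have h2 := poly_sub O hO' r₁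
    have h3 := poly_unit O hO' hr2
    have h4 := val_const O hr2
    have h5 : aeval w r₁ ≠ 0 := fun e => by simp [e] at h3
    have h6 : ((r₁.eval 0 : kk F) : Om F) ≠ 0 := fun e => hr2 (Subtype.ext e)
    have e : aeval w p₁ / aeval w r₁ - ((p₁.eval 0 / r₁.eval 0 : kk F) : Om F) =
        (aeval w r₁ * (r₁.eval 0 : kk F))⁻¹ * ((r₁.eval 0 : kk F) * (aeval w p₁ - (p₁.eval 0 : kk F))
          - (p₁.eval 0 : kk F) * (aeval w r₁ - (r₁.eval 0 : kk F))) := by
      push_cast
      field_simp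
      ring
    rw [e]
    refine val_mul_lt O (by rw [map_inv₀, map_mul, h3, h4]; simp) ?_
    exact Valuation.map_sub_lt _ (val_mul_lt O (val_const_le O _) h1)
      (val_mul_lt O (val_const_le O _) h2)

theorem aeval_mem_if {S : IntermediateField (kk F) (Om F)} {x : Om F} (hx : x ∈ S)
    (P : (kk F)[X]) : aeval x P ∈ S := by
  rw [aeval_eq_sum_range]
  exact sum_mem fun i _ => S.smul_mem (pow_mem hx i)

/-- The field `k(w)` as an extension of `K`. -/
def Kf (w : Om F) (hw : tt F ∈ (kk F)⟮w⟯) : IntermediateField (RatFunc F) (Om F) :=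
  (kk F)⟮w⟯.toSubfield.toIntermediateField (by
    intro x
    have hp : ∀ p : F[X], aeval (tt F) p ∈ (kk F)⟮w⟯ := by
      intro p
      rw [← aeval_map_algebraMap (kk F)]
      exact aeval_mem_if hw _
    rw [← RatFunc.num_div_denom x, map_div₀, rf_eq, rf_eq]
    exact div_mem (hp _) (hp _))

theorem mem_Kf {w : Om F} {hw : tt F ∈ (kk F)⟮w⟯} {z : Om F} : z ∈ Kf w hw ↔ z ∈ (kk F)⟮w⟯ :=
  Iff.rfl

theorem geo_kf {g : Gam F} (hg : g ∈ Geo F) {w z : Om F} (hw : g w = w) (hz : z ∈ (kk F)⟮w⟯) :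
    g z = z := by
  obtain ⟨p, r, rfl⟩ := (mem_adjoin_simple_iff (kk F) z).1 hz
  rw [map_div₀, geo_aeval hg, geo_aeval hg, hw]

theorem fix_kf {w : Om F} (hw : tt F ∈ (kk F)⟮w⟯) {z : Om F}
    (hz : ∀ g ∈ Geo F, g w = w → g z = z) : z ∈ (kk F)⟮w⟯ := by
  rw [← mem_Kf (hw := hw), ← InfiniteGalois.fixedField_fixingSubgroup (Kf w hw),
    mem_fixedField_iff]
  intro g hg
  rw [IntermediateField.mem_fixingSubgroup_iff] at hg
  exact hz g (mem_geo fun c => hg _ ((kk F)⟮w⟯.algebraMap_mem c))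
    (hg _ (mem_adjoin_simple_self _ w))

theorem zpow_le_one_iff' {G : Type} [LinearOrderedCommGroupWithZero G] {a : G} (h0 : a ≠ 0)
    (h1 : a < 1) (j : ℤ) : a ^ j ≤ 1 ↔ 0 ≤ j := by
  rw [← zpow_zero a]
  exact zpow_le_zpow_iff_right_of_lt_one₀ (zero_lt_iff.2 h0) h1

theorem trans_kf {w : Om F} (hw : tt F ∈ (kk F)⟮w⟯) (h0 : w ≠ 0) (O₁ O₂ : ValuationSubring (Om F))
    (h1 : O₁.valuation w < 1) (h2 : O₂.valuation w < 1) :
    ∃ g ∈ Geo F, g w = w ∧ ∀ z, z ∈ O₁ ↔ g z ∈ O₂ := by
  obtain ⟨g, hg⟩ := trans_val (M := Kf w hw) O₁ O₂ (by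
    rintro ⟨z, hz⟩
    change z ∈ O₁ ↔ z ∈ O₂
    by_cases hz0 : z = 0
    · simp [hz0]
    obtain ⟨j, u, c, hc, rfl, hu⟩ := kf_val h0 hz hz0
    rw [← O₁.valuation_le_one_iff, ← O₂.valuation_le_one_iff, map_mul, map_mul,
      val_one_of_sub O₁ (val_const O₁ hc) (hu O₁ h1), val_one_of_sub O₂ (val_const O₂ hc) (hu O₂ h2),
      mul_one, mul_one, map_zpow₀, map_zpow₀, zpow_le_one_iff' (by simpa using h0) h1,
      zpow_le_one_iff' (by simpa using h0) h2])
  refine ⟨g.restrictScalars (RatFunc F), mem_geo fun c => ?_, ?_, hg⟩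
  · exact g.commutes ⟨c, (kk F)⟮w⟯.algebraMap_mem c⟩
  · exact g.commutes ⟨w, mem_adjoin_simple_self _ w⟩

end

end Pool.Agent.Lib.MP_16ef92_ag
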