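import Mathlib
import Pool.Agent.Lib.MP_16ef92_ag.Val

set_option autoImplicit false
set_option linter.unusedSectionVars false
set_option linter.unusedVariables false

namespace Pool.Agent.Lib.MP_16ef92_ag

open Polynomial IntermediateField
open scoped Classical

noncomputable section

variable {F : Type} [Field F] [Clos F] [Fintype F]

/-- The uniformiser at a place of `k(t)`. -/
def pl : Option (kk F) → Om F
  | none => (tt F)⁻¹
  | some c => tt F - c

theorem tt_sub_ne (c : kk F) : tt F - c ≠ 0 := by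
  intro h
  exact tt_trans (F := F) (by rw [sub_eq_zero.1 h]; exact isAlgebraic_algebraMap c)

theorem tt_ne : tt F ≠ 0 := by simpa using tt_sub_ne (0 : kk F)

theorem pl_ne (x : Option (kk F)) : pl x ≠ 0 := by
  cases x with
  | none => exact inv_ne_zero tt_ne
  | some c => exact tt_sub_ne c

theorem tt_mem_pl (x : Option (kk F)) : tt F ∈ (kk F)⟮pl x⟯ := by
  have h := mem_adjoin_simple_self (kk F) (pl x)
  cases x with
  | none => simpa [pl] using inv_mem h
  | some c =>
    have := add_mem h ((kk F)⟮pl (some c)⟯.algebraMap_mem c)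
    simpa [pl] using this

theorem pl_trans (x : Option (kk F)) : Transcendental (kk F) (pl x) := by
  intro h
  apply tt_trans (F := F)
  cases x with
  | none => exact IsAlgebraic.inv_iff.1 h
  | some c =>
    have := h.add (isAlgebraic_algebraMap c)
    simpa [pl] using this

theorem geo_pl {g : Gam F} (hg : g ∈ Geo F) (x : Option (kk F)) : g (pl x) = pl x := by
  cases x with
  | none => simp only [pl, map_inv₀, gam_tt]
  | some c => simp only [pl, map_sub, gam_tt, geo_fix hg]

theorem gam_pl (g : Gam F) (x : Option (kk F)) : g (pl x) = pl (x.map (ck g)) := by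
  cases x with
  | none => simp only [pl, map_inv₀, gam_tt, Option.map]
  | some c => simp only [pl, map_sub, gam_tt, Option.map, ck_val]

theorem geo_fixed_mem (x : Option (kk F)) {z : Om F} (hz : ∀ g ∈ Geo F, g z = z) :
    z ∈ (kk F)⟮pl x⟯ := fix_kf (tt_mem_pl x) fun g hg _ => hz g hg

theorem base_mem (x : Option (kk F)) (a : RatFunc F) :
    algebraMap (RatFunc F) (Om F) a ∈ (kk F)⟮pl x⟯ := geo_fixed_mem x fun g _ => g.commutes a

/-- `O` lies over the place `x`. -/
def Over (O : ValuationSubring (Om F)) (x : Option (kk F)) : Prop := O.valuation (pl x) < 1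

theorem exists_over (x : Option (kk F)) : ∃ O, Over O x := by
  let A : Subring (Om F) := (aeval (R := kk F) (pl x)).toRingHom.range
  let a : A := ⟨pl x, X, by simp⟩
  have : Ideal.span {a} ≠ ⊤ := by
    rw [Ne, Ideal.span_singleton_eq_top, isUnit_iff_exists_inv]
    rintro ⟨⟨b, P, rfl⟩, h⟩
    have h1 : pl x * aeval (pl x) P = 1 := congrArg Subtype.val h
    have h2 : X * P - 1 = 0 := by
      apply transcendental_iff.1 (pl_trans x)
      simp [h1]
    have := congrArg (eval 0) h2
    simp at this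
  obtain ⟨O, _, hO⟩ := Ideal.image_subset_nonunits_valuationSubring _ this
  exact ⟨O, O.mem_nonunits_iff.1 (hO ⟨a, Ideal.subset_span rfl, rfl⟩)⟩

theorem Over.ne_top {O : ValuationSubring (Om F)} {x : Option (kk F)} (h : Over O x) : O ≠ ⊤ := by
  rintro rfl
  rcases (val_lt_one_iff _ _).1 h with h | h
  · exact pl_ne x h
  · exact h (ValuationSubring.mem_top _)

/-- The stabiliser of a valuation subring. -/
def St (O : ValuationSubring (Om F)) : Subgroup (Gam F) where
  carrier := {g | ∀ z, g z ∈ O ↔ z ∈ O}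
  mul_mem' := fun {a b} ha hb z => by rw [AlgEquiv.mul_apply, ha, hb]
  one_mem' := fun _ => Iff.rfl
  inv_mem' := fun {a} ha z => by rw [← ha, self_apply_inv]

/-- The inertia group. -/
def Ine (O : ValuationSubring (Om F)) : Subgroup (Gam F) := Geo F ⊓ St O

/-- Transport of a valuation subring. -/
def cm (g : Gam F) (O : ValuationSubring (Om F)) : ValuationSubring (Om F) :=
  O.comap (g : Om F →+* Om F)

theorem mem_cm {g : Gam F} {O : ValuationSubring (Om F)} {z : Om F} : z ∈ cm g O ↔ g z ∈ O :=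
  Iff.rfl

theorem val_lt_of_iff {g : Gam F} {O O' : ValuationSubring (Om F)} (h : ∀ z, z ∈ O ↔ g z ∈ O')
    (z : Om F) : O.valuation z < 1 ↔ O'.valuation (g z) < 1 := by
  rw [val_lt_one_iff, val_lt_one_iff, ← map_inv₀, h, map_eq_zero]

theorem st_lt {g : Gam F} {O : ValuationSubring (Om F)} (h : g ∈ St O) {z : Om F}
    (hz : O.valuation z < 1) : O.valuation (g z) < 1 :=
  (val_lt_of_iff (fun z => (h z).symm) z).1 hz

theorem over_cm {g : Gam F} {O : ValuationSubring (Om F)} {x : Option (kk F)}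
    (h : Over O (x.map (ck g))) : Over (cm g O) x := by
  unfold Over at *
  rw [val_lt_of_iff (g := g) (O' := O) fun z => mem_cm, gam_pl]
  exact h

theorem conj_ine {g : Gam F} {O O' : ValuationSubring (Om F)} (h : ∀ z, z ∈ O ↔ g z ∈ O')
    {s : Gam F} (hs : s ∈ Ine O') : g⁻¹ * s * g ∈ Ine O := by
  refine ⟨geo_conj hs.1 g, fun z => ?_⟩
  rw [h, AlgEquiv.mul_apply, AlgEquiv.mul_apply, self_apply_inv, hs.2, ← h]

theorem st_conj {g : Gam F} {O : ValuationSubring (Om F)} (h : g ∈ St O)
    {s : Gam F} (hs : s ∈ Ine O) : g * s * g⁻¹ ∈ Ine O :=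
  ⟨geo_conj' hs.1 g, (St O).mul_mem ((St O).mul_mem h hs.2) ((St O).inv_mem h)⟩

theorem over_trans {O O' : ValuationSubring (Om F)} {x : Option (kk F)} (h : Over O x)
    (h' : Over O' x) : ∃ g ∈ Geo F, ∀ z, z ∈ O ↔ g z ∈ O' := by
  obtain ⟨g, hg, _, h⟩ := trans_kf (tt_mem_pl x) (pl_ne x) O O' h h'
  exact ⟨g, hg, h⟩

theorem two_terms {L G : Type} [Field L] [LinearOrderedCommGroupWithZero G] (v : Valuation L G)
    {P : L[X]} (hP : P ≠ 0) {z : L} (hz : z ≠ 0) (h : P.eval z = 0) :
    ∃ i m, 0 < m ∧ P.coeff i ≠ 0 ∧ P.coeff (i + m) ≠ 0 ∧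
      v (P.coeff i) = v (P.coeff (i + m)) * v z ^ m := by
  obtain ⟨j, hj, hmax⟩ := Finset.exists_max_image P.support (fun i => v (P.coeff i * z ^ i))
    (support_nonempty.2 hP)
  have hj0 := mem_support_iff.1 hj
  have hvz : v z ≠ 0 := by simpa using hz
  have : ∃ i ∈ P.support, i ≠ j ∧ v (P.coeff i * z ^ i) = v (P.coeff j * z ^ j) := by
    by_contra hc
    push Not at hc
    have h1 := Valuation.map_sum_eq_of_lt v (s := P.support) (f := fun i => P.coeff i * z ^ i) hj
      (fun i hi => by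
        rw [Finset.mem_sdiff, Finset.mem_singleton] at hi
        exact lt_of_le_of_ne (hmax i hi.1) (hc i hi.1 hi.2))
    rw [eval_eq_sum, Polynomial.sum] at h
    rw [h, map_zero] at h1
    exact mul_ne_zero hj0 (pow_ne_zero _ hz) ((map_eq_zero v).1 h1.symm)
  obtain ⟨i, hi, hij, he⟩ := this
  have hi0 := mem_support_iff.1 hi
  simp only [map_mul, map_pow] at he
  rcases lt_or_gt_of_ne hij with hlt | hlt
  · obtain ⟨m, rfl⟩ := Nat.exists_eq_add_of_lt hlt
    refine ⟨i, m + 1, by omega, hi0, hj0, ?_⟩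
    apply mul_right_cancel₀ (pow_ne_zero i hvz)
    rw [he, add_assoc, pow_add, mul_assoc, mul_comm (v z ^ i)]
  · obtain ⟨m, rfl⟩ := Nat.exists_eq_add_of_lt hlt
    refine ⟨j, m + 1, by omega, hj0, hi0, ?_⟩
    apply mul_right_cancel₀ (pow_ne_zero j hvz)
    rw [← he, add_assoc, pow_add, mul_assoc, mul_comm (v z ^ j)]

section ovr

variable {O : ValuationSubring (Om F)} {x : Option (kk F)}

theorem Over.val_ne (h : Over O x) : O.valuation (pl x) ≠ 0 := by simpa using pl_ne x

theorem Over.kf (h : Over O x) {z : Om F} (hz : z ∈ (kk F)⟮pl x⟯) (h0 : z ≠ 0) :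
    ∃ j : ℤ, O.valuation z = O.valuation (pl x) ^ j := by
  obtain ⟨j, u, c, hc, rfl, hu⟩ := kf_val (pl_ne x) hz h0
  exact ⟨j, by rw [map_mul, val_one_of_sub O (val_const O hc) (hu O h), mul_one, map_zpow₀]⟩

theorem Over.val_pow (h : Over O x) {z : Om F} (h0 : z ≠ 0) :
    ∃ (m : ℕ) (j : ℤ), 0 < m ∧ O.valuation z ^ m = O.valuation (pl x) ^ j := by
  obtain ⟨p, hp0, hp⟩ := Algebra.IsAlgebraic.isAlgebraic (R := RatFunc F) z
  obtain ⟨i, m, hm, h1, h2, e⟩ := two_terms O.valuation
    ((Polynomial.map_ne_zero_iff (algebraMap (RatFunc F) (Om F)).injective).2 hp0) h0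
    (by rw [eval_map_algebraMap, hp])
  rw [coeff_map] at h1 h2 e
  rw [coeff_map] at e
  obtain ⟨j₁, e1⟩ := h.kf (base_mem x _) h1
  obtain ⟨j₂, e2⟩ := h.kf (base_mem x _) h2
  refine ⟨m, j₁ - j₂, hm, ?_⟩
  rw [zpow_sub₀ h.val_ne, ← e1, e, e2, mul_div_cancel_left₀ _ (zpow_ne_zero _ h.val_ne)]

theorem Over.res_kf (h : Over O x) {z : Om F} (hz : z ∈ (kk F)⟮pl x⟯) (hO : z ∈ O) :
    ∃ c : kk F, O.valuation (z - c) < 1 := by
  by_cases h0 : z = 0
  · exact ⟨0, by simp [h0]⟩
  obtain ⟨j, u, c, hc, rfl, hu⟩ := kf_val (pl_ne x) hz h0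
  have hu1 := val_one_of_sub O (val_const O hc) (hu O h)
  rw [← O.valuation_le_one_iff, map_mul, hu1, mul_one, map_zpow₀,
    zpow_le_one_iff' h.val_ne h] at hO
  rcases hO.eq_or_lt with hj | hj
  · subst hj
    exact ⟨c, by simpa using hu O h⟩
  · refine ⟨0, ?_⟩
    push_cast
    rw [sub_zero, map_mul, hu1, mul_one, map_zpow₀]
    exact zpow_lt_one₀ (zero_lt_iff.2 h.val_ne) h hj

/-- The residue field is the field of constants. -/
theorem Over.res (h : Over O x) {z : Om F} (hO : z ∈ O) :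
    ∃ c : kk F, O.valuation (z - c) < 1 := by
  obtain ⟨p, hp0, hp⟩ := Algebra.IsAlgebraic.isAlgebraic (R := RatFunc F) z
  obtain ⟨j, hj0, hj⟩ := exists_max_coeff O (p.map (algebraMap (RatFunc F) (Om F)))
    ((Polynomial.map_ne_zero_iff (algebraMap (RatFunc F) (Om F)).injective).2 hp0)
  set P := p.map (algebraMap (RatFunc F) (Om F)) with hP
  have hc : ∀ i, ∃ c : kk F, O.valuation (P.coeff i / P.coeff j - c) < 1 := fun i =>
    h.res_kf (by rw [hP, coeff_map, coeff_map]; exact div_mem (base_mem x _) (base_mem x _)) (hj i)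
  choose c hc using hc
  have hcj : c j = 1 := by
    have := hc j
    rw [div_self hj0] at this
    exact (const_eq O (c := 1) this).symm
  let n := P.natDegree + 1
  let Q : (kk F)[X] := ∑ i ∈ Finset.range n, monomial i (c i)
  have hjn : j < n := Nat.lt_succ_of_le (le_natDegree_of_ne_zero hj0)
  have hQ : Q ≠ 0 := by
    intro e
    have := congrArg (fun q => coeff q j) e
    simp [Q, coeff_monomial, hjn, hcj] at this
  have hz1 : O.valuation z ≤ 1 := (O.valuation_le_one_iff z).2 hO
  have h1 : O.valuation (aeval z Q) < 1 := by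
    have h2 : ∑ i ∈ Finset.range n, P.coeff i / P.coeff j * z ^ i = 0 := by
      have : P.eval z = 0 := by rw [hP, eval_map_algebraMap, hp]
      rw [eval_eq_sum_range] at this
      simp only [div_mul_eq_mul_div]
      rw [← Finset.sum_div, this, zero_div]
    have h3 : aeval z Q = ∑ i ∈ Finset.range n, -(z ^ i * (P.coeff i / P.coeff j - c i)) := by
      rw [← sub_zero (aeval z Q), ← h2]
      simp only [Q, map_sum, aeval_monomial]
      rw [← Finset.sum_sub_distrib]
      refine Finset.sum_congr rfl fun i _ => ?_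
      change (c i : Om F) * z ^ i - _ = _
      ring
    rw [h3]
    refine Valuation.map_sum_lt _ one_ne_zero fun i _ => ?_
    rw [Valuation.map_neg]
    exact val_mul_lt O (by rw [map_pow]; exact pow_le_one₀ zero_le hz1) (hc i)
  by_contra hn
  push Not at hn
  have h4 : ∀ s : Multiset (kk F), O.valuation (aeval z (s.map fun a => X - C a).prod) = 1 := by
    intro s
    induction s using Multiset.induction_on with
    | empty => simp
    | cons a s ih =>
      rw [Multiset.map_cons, Multiset.prod_cons, map_mul, map_mul, ih, mul_one]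
      simp only [map_sub, aeval_X, aeval_C]
      exact le_antisymm (Valuation.map_sub_le _ hz1 (val_const_le O a)) (hn a)
  rw [(IsAlgClosed.splits Q).eq_prod_roots, map_mul, map_mul, h4, aeval_C, mul_one] at h1
  exact h1.ne (val_const O (leadingCoeff_ne_zero.2 hQ))

theorem Over.ine_sub (h : Over O x) {g : Gam F} (hg : g ∈ Ine O) {z : Om F} (hO : z ∈ O) :
    O.valuation (g z - z) < 1 := by
  obtain ⟨c, hc⟩ := h.res hO
  have h1 := st_lt hg.2 hc
  rw [map_sub, geo_fix hg.1] at h1
  have := Valuation.map_sub_lt _ h1 hc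
  rwa [sub_sub_sub_cancel_right] at this

theorem Over.ine_const (h : Over O x) {g : Gam F} (hg : g ∈ Ine O) {z : Om F}
    (hO : O.valuation z = 1) {c : kk F} (e : g z = c * z) : c = 1 := by
  have h1 := h.ine_sub hg ((O.valuation_le_one_iff z).1 hO.le)
  have : g z - z = ((c : Om F) - (1 : kk F)) * z := by rw [e]; push_cast; ring
  rw [this, map_mul, hO, mul_one] at h1
  exact const_eq O h1

end ovr

theorem over_ev {O : ValuationSubring (Om F)} {c : kk F} (h : Over O (some c)) {p : F[X]}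
    (hp : aeval c p ≠ 0) : O.valuation (aeval (tt F) p) = 1 := by
  rw [← aeval_map_algebraMap (kk F)]
  exact poly_unit O h (by rwa [eval_map_algebraMap])

theorem finite_nonunit {w : Om F} (hw : w ≠ 0) :
    {x : Option (kk F) | ∃ O, Over O x ∧ O.valuation w ≠ 1}.Finite := by
  let _ : Algebra F[X] (Om F) :=
    ((algebraMap (RatFunc F) (Om F)).comp (algebraMap F[X] (RatFunc F))).toAlgebra
  have : IsScalarTower F[X] (RatFunc F) (Om F) := IsScalarTower.of_algebraMap_eq fun _ => rfl
  obtain ⟨p, hp0, hp⟩ := (IsFractionRing.isAlgebraic_iff F[X] (RatFunc F) (Om F)).2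
    (Algebra.IsAlgebraic.isAlgebraic (R := RatFunc F) w)
  have hinj : Function.Injective (algebraMap F[X] (Om F)) :=
    (algebraMap (RatFunc F) (Om F)).injective.comp (IsFractionRing.injective F[X] (RatFunc F))
  let N : F[X] := ∏ i ∈ p.support, p.coeff i
  have hN : N ≠ 0 := Finset.prod_ne_zero_iff.2 fun i hi => mem_support_iff.1 hi
  refine (((N.rootSet_finite (kk F)).image some).insert none).subset ?_
  rintro x ⟨O, hO, hv⟩
  cases x with
  | none => exact Set.mem_insert _ _
  | some c =>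
    refine Set.mem_insert_of_mem _ ⟨c, ?_, rfl⟩
    rw [mem_rootSet]
    refine ⟨hN, ?_⟩
    by_contra hc
    obtain ⟨i, m, hm, h1, h2, e⟩ := two_terms O.valuation
      ((Polynomial.map_ne_zero_iff hinj).2 hp0) hw (by rw [eval_map_algebraMap, hp])
    have h3 : ∀ i, (p.map (algebraMap F[X] (Om F))).coeff i ≠ 0 →
        O.valuation ((p.map (algebraMap F[X] (Om F))).coeff i) = 1 := by
      intro i hi
      rw [coeff_map] at hi ⊢
      have hi' : i ∈ p.support := mem_support_iff.2 fun e => hi (by rw [e, map_zero])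
      have : algebraMap F[X] (Om F) (p.coeff i) = aeval (tt F) (p.coeff i) := rf_eq _
      rw [this]
      refine over_ev hO fun e => hc ?_
      simp only [N, map_prod]
      exact Finset.prod_eq_zero hi' e
    rw [h3 _ h1, h3 _ h2, one_mul] at e
    exact hv ((pow_eq_one_iff_of_nonneg zero_le hm.ne').1 e.symm)

theorem finite_ram (z : Om F) :
    {x : Option (kk F) | ∃ O, Over O x ∧ ∃ g ∈ Ine O, g z ≠ z}.Finite := by
  by_cases hz : z = 0
  · simp [hz]
  let R := (minpoly (RatFunc F) z).rootSet (Om F) \ {z}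
  have hR : R.Finite := (rootSet_finite _ _).subset Set.diff_subset
  refine ((finite_nonunit hz).union (hR.biUnion (t := fun y =>
    {x : Option (kk F) | ∃ O, Over O x ∧ O.valuation (y - z) ≠ 1})
    fun y hy => finite_nonunit (sub_ne_zero.2 hy.2))).subset ?_
  rintro x ⟨O, hO, g, hg, hne⟩
  by_cases h1 : O.valuation z = 1
  · right
    refine Set.mem_biUnion (x := g z) ⟨?_, hne⟩ ⟨O, hO, ?_⟩
    · rw [mem_rootSet]
      refine ⟨minpoly.ne_zero (Algebra.IsIntegral.isIntegral _), ?_⟩
      rw [aeval_algHom_apply, minpoly.aeval, map_zero]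
    · exact (hO.ine_sub hg ((O.valuation_le_one_iff z).1 h1.le)).ne
  · exact Or.inl ⟨O, hO, h1⟩

theorem Near.finite_ram {P : Gam F → Prop} (h : Near P) :
    {x : Option (kk F) | ∃ O, Over O x ∧ ∃ g ∈ Ine O, ¬ P g}.Finite := by
  obtain ⟨S, hS⟩ := h
  refine (S.finite_toSet.biUnion fun z _ => _root_.Pool.Agent.Lib.MP_16ef92_ag.finite_ram z).subset ?_
  rintro x ⟨O, hO, g, hg, hP⟩
  by_contra hc
  refine hP (hS g fun s hs => ?_)
  by_contra hne
  exact hc (Set.mem_biUnion hs ⟨O, hO, g, hg, hne⟩)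

/-- An element of the inertia group that moves the square root of the uniformiser. -/
theorem Over.exists_neg {O : ValuationSubring (Om F)} {x : Option (kk F)} (h : Over O x)
    {s : Om F} (hs : s ^ 2 = pl x) : ∃ g ∈ Ine O, g s = -s := by
  have hs0 : s ≠ 0 := fun e => pl_ne x (by rw [← hs, e]; simp)
  have h1 : ∃ g ∈ Geo F, g s ≠ s := by
    by_contra hc
    push Not at hc
    obtain ⟨j, hj⟩ := h.kf (geo_fixed_mem x hc) hs0
    have h2 := congrArg O.valuation hs
    rw [map_pow, hj, ← zpow_natCast, ← zpow_mul] at h2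
    have := zpow_right_injective₀ (zero_lt_iff.2 h.val_ne) (ne_of_lt h)
      (h2.trans (zpow_one _).symm)
    omega
  obtain ⟨g, hg, hne⟩ := h1
  have h2 : g s = -s := by
    have : (g s) ^ 2 = s ^ 2 := by rw [← map_pow, hs, geo_pl hg]
    exact (sq_eq_sq_iff_eq_or_eq_neg.1 this).resolve_left hne
  have hv : O.valuation s < 1 := by
    have : O.valuation s ^ 2 < 1 := by rw [← map_pow, hs]; exact h
    exact lt_of_pow_lt_pow_left₀ 2 zero_le (by rwa [one_pow])
  have ht : tt F ∈ (kk F)⟮s⟯ := by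
    have : (kk F)⟮pl x⟯ ≤ (kk F)⟮s⟯ := by
      rw [adjoin_simple_le_iff, ← hs]
      exact pow_mem (mem_adjoin_simple_self _ s) 2
    exact this (tt_mem_pl x)
  obtain ⟨g', hg', hfix, hO⟩ := trans_kf ht hs0 (cm g⁻¹ O) O (by
    rw [val_lt_of_iff (g := g⁻¹) (O' := O) fun z => mem_cm]
    have : g⁻¹ s = -s := by
      rw [← neg_eq_iff_eq_neg, ← map_neg, ← h2, inv_apply_self]
    rwa [this, Valuation.map_neg]) hv
  refine ⟨g' * g, ⟨mul_mem hg' hg, fun z => ?_⟩, ?_⟩
  · rw [AlgEquiv.mul_apply, ← hO, mem_cm, inv_apply_self]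
  · rw [AlgEquiv.mul_apply, h2, map_neg, hfix]

end

end Pool.Agent.Lib.MP_16ef92_ag
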