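import Mathlib
import Pool.Agent.Lib.MP_16ef92_ag.Plc

set_option autoImplicit false
set_option linter.unusedSectionVars false
set_option linter.unusedVariables false

namespace Pool.Agent.Lib.MP_16ef92_ag

open Polynomial IntermediateField
open scoped Classical

noncomputable section

variable {F : Type} [Field F] [Clos F] [Fintype F] [hq : Fact (Odd (Fintype.card F))]

theorem two_neF : (2 : F) ≠ 0 := by
  intro h
  obtain ⟨m, hm⟩ := hq.out
  have := FiniteField.cast_card_eq_zero F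
  rw [hm] at this
  push_cast at this
  rw [h] at this
  simp at this

theorem two_ne : (2 : Om F) ≠ 0 := by
  have := (map_ne_zero (algebraMap F (Om F))).2 (two_neF (F := F))
  rwa [map_ofNat] at this

theorem exists_rt (z : Om F) (n : ℕ) : ∃ w, w ^ 2 ^ n = z :=
  have : NeZero ((2 ^ n : ℕ) : Om F) := ⟨by push_cast; exact pow_ne_zero _ two_ne⟩
  IsSepClosed.exists_pow_nat_eq z (2 ^ n)

theorem exists_sq (z : Om F) : ∃ w, w ^ 2 = z := by simpa using exists_rt z 1

theorem exists_prim (n : ℕ) : ∃ r : Om F, IsPrimitiveRoot r (2 ^ n) :=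
  have : NeZero ((2 ^ n : ℕ) : Om F) := ⟨by push_cast; exact pow_ne_zero _ two_ne⟩
  HasEnoughRootsOfUnity.exists_primitiveRoot _ _

theorem ne_neg_self {s : Om F} (hs : s ≠ 0) : s ≠ -s := by
  intro h
  have : 2 * s = 0 := by linear_combination h
  exact mul_ne_zero two_ne hs this

theorem val_two (O : ValuationSubring (Om F)) : O.valuation 2 = 1 := by
  have h : (2 : kk F) ≠ 0 := fun e => two_ne (F := F) (congrArg Subtype.val e)
  exact val_const O h

variable {n : ℕ} {r : Om F}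

/-- The character `a ↦ r^a`. -/
def ch (r : Om F) (a : ZMod (2 ^ n)) : Om F := r ^ a.val

theorem ch_nat (hr : IsPrimitiveRoot r (2 ^ n)) (m : ℕ) : ch r (m : ZMod (2 ^ n)) = r ^ m := by
  unfold ch
  rw [ZMod.val_natCast, ← pow_eq_pow_mod m hr.pow_eq_one]

theorem ch_zero : ch r (0 : ZMod (2 ^ n)) = 1 := by simp [ch]

theorem ch_add (hr : IsPrimitiveRoot r (2 ^ n)) (a b : ZMod (2 ^ n)) :
    ch r (a + b) = ch r a * ch r b := by
  conv_lhs => rw [← ZMod.natCast_zmod_val a, ← ZMod.natCast_zmod_val b, ← Nat.cast_add, ch_nat hr,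
    pow_add]
  rfl

theorem ch_pow (hr : IsPrimitiveRoot r (2 ^ n)) (a : ZMod (2 ^ n)) (m : ℕ) :
    ch r ((m : ZMod (2 ^ n)) * a) = ch r a ^ m := by
  conv_lhs => rw [← ZMod.natCast_zmod_val a, ← Nat.cast_mul, ch_nat hr, mul_comm, pow_mul]
  rfl

theorem ch_ne (hr : IsPrimitiveRoot r (2 ^ n)) (a : ZMod (2 ^ n)) : ch r a ≠ 0 :=
  pow_ne_zero _ (hr.ne_zero (by positivity))

theorem ch_neg (hr : IsPrimitiveRoot r (2 ^ n)) (a : ZMod (2 ^ n)) : ch r (-a) = (ch r a)⁻¹ := by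
  apply eq_inv_of_mul_eq_one_left
  rw [← ch_add hr, neg_add_cancel, ch_zero]

theorem ch_zpow (hr : IsPrimitiveRoot r (2 ^ n)) (a : ZMod (2 ^ n)) (m : ℤ) :
    ch r ((m : ZMod (2 ^ n)) * a) = ch r a ^ m := by
  obtain ⟨m, rfl | rfl⟩ := m.eq_nat_or_neg
  · simpa using ch_pow hr a m
  · rw [Int.cast_neg, neg_mul, ch_neg hr, zpow_neg, Int.cast_natCast, ch_pow hr, zpow_natCast]

theorem ch_inj (hr : IsPrimitiveRoot r (2 ^ n)) {a b : ZMod (2 ^ n)} (h : ch r a = ch r b) :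
    a = b := ZMod.val_injective _ (hr.pow_inj (ZMod.val_lt a) (ZMod.val_lt b) h)

theorem ch_surj (hr : IsPrimitiveRoot r (2 ^ n)) {w : Om F} (hw : w ^ 2 ^ n = 1) :
    ∃ a : ZMod (2 ^ n), w = ch r a := by
  obtain ⟨i, _, hi⟩ := hr.eq_pow_of_pow_eq_one hw
  exact ⟨i, by rw [ch_nat hr, hi]⟩

theorem ch_pow_one (hr : IsPrimitiveRoot r (2 ^ n)) (a : ZMod (2 ^ n)) : ch r a ^ 2 ^ n = 1 := by
  unfold ch
  rw [← pow_mul, mul_comm, pow_mul, hr.pow_eq_one, one_pow]

theorem root_one_const {w : Om F} {m : ℕ} (hm : 0 < m) (hw : w ^ m = 1) : ∃ c : kk F, w = c :=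
  root_mem_kk hm (c := 1) hw

theorem ch_mem (hr : IsPrimitiveRoot r (2 ^ n)) (a : ZMod (2 ^ n)) : ch r a ∈ kk F := by
  obtain ⟨c, hc⟩ := root_one_const (by positivity) (ch_pow_one hr a)
  rw [hc]
  exact c.2

theorem Over.ine_mem {O : ValuationSubring (Om F)} {x : Option (kk F)} (h : Over O x) {g : Gam F}
    (hg : g ∈ Ine O) {z c : Om F} (hO : O.valuation z = 1) (hc : c ∈ kk F) (e : g z = c * z) :
    c = 1 := congrArg Subtype.val (h.ine_const hg hO (c := ⟨c, hc⟩) e)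

theorem geo_root {g : Gam F} (hg : g ∈ Geo F) {w : Om F} {m : ℕ} (hm : 0 < m) (hw : w ^ m = 1) :
    g w = w := by
  obtain ⟨c, rfl⟩ := root_one_const hm hw
  exact geo_fix hg c

theorem geo_prim (hr : IsPrimitiveRoot r (2 ^ n)) {g : Gam F} (hg : g ∈ Geo F) : g r = r :=
  geo_root hg (by positivity) hr.pow_eq_one

theorem fix_ch {g : Gam F} (hg : g r = r) (a : ZMod (2 ^ n)) : g (ch r a) = ch r a := by
  rw [ch, map_pow, hg]

/-- The Kummer character of `z`. -/
def kap (r : Om F) (n : ℕ) (z : Om F) (g : Gam F) : ZMod (2 ^ n) :=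
  if h : ∃ a : ZMod (2 ^ n), ∀ w, w ^ 2 ^ n = z → g w = ch r a * w then h.choose else 0

section kap

variable (hr : IsPrimitiveRoot r (2 ^ n)) {g h : Gam F} {z w : Om F}
include hr

theorem kap_spec (hg : g r = r) (hz : g z = z) (h0 : z ≠ 0) (hw : w ^ 2 ^ n = z) :
    g w = ch r (kap r n z g) * w := by
  have hw0 : w ≠ 0 := fun e => h0 (by rw [← hw, e]; simp)
  have hex : ∃ a : ZMod (2 ^ n), ∀ w, w ^ 2 ^ n = z → g w = ch r a * w := by
    obtain ⟨a, ha⟩ := ch_surj hr (w := g w / w) (by rw [div_pow, ← map_pow, hw, hz, div_self h0])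
    refine ⟨a, fun y hy => ?_⟩
    obtain ⟨b, hb⟩ := ch_surj hr (w := y / w) (by rw [div_pow, hy, hw, div_self h0])
    rw [div_eq_iff hw0] at ha hb
    rw [hb, map_mul, fix_ch hg, ha]
    ring
  unfold kap
  rw [dif_pos hex]
  exact hex.choose_spec w hw

theorem kap_eq (hg : g r = r) (h0 : z ≠ 0) (hw : w ^ 2 ^ n = z) {a : ZMod (2 ^ n)}
    (e : g w = ch r a * w) : kap r n z g = a := by
  have hw0 : w ≠ 0 := fun e => h0 (by rw [← hw, e]; simp)
  have hz : g z = z := by rw [← hw, map_pow, e, mul_pow, ch_pow_one hr, one_mul]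
  exact ch_inj hr (mul_right_cancel₀ hw0 ((kap_spec hr hg hz h0 hw).symm.trans e))

theorem kap_mul_left (hg : g r = r) {y : Om F} (hz : g z = z) (h0 : z ≠ 0) (hy : g y = y)
    (h1 : y ≠ 0) : kap r n (z * y) g = kap r n z g + kap r n y g := by
  obtain ⟨a, ha⟩ := exists_rt z n
  obtain ⟨b, hb⟩ := exists_rt y n
  refine kap_eq hr hg (mul_ne_zero h0 h1) (w := a * b) (by rw [mul_pow, ha, hb]) ?_
  rw [map_mul, kap_spec hr hg hz h0 ha, kap_spec hr hg hy h1 hb, ch_add hr]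
  ring

theorem kap_zpow (hg : g r = r) (hz : g z = z) (h0 : z ≠ 0) (j : ℤ) :
    kap r n (z ^ j) g = j * kap r n z g := by
  obtain ⟨a, ha⟩ := exists_rt z n
  refine kap_eq hr hg (zpow_ne_zero _ h0) (w := a ^ j)
    (by rw [← zpow_natCast, ← zpow_mul, mul_comm, zpow_mul, zpow_natCast, ha]) ?_
  rw [map_zpow₀, kap_spec hr hg hz h0 ha, ch_zpow hr, mul_zpow]

theorem kap_inv_left (hg : g r = r) (hz : g z = z) (h0 : z ≠ 0) :
    kap r n z⁻¹ g = -kap r n z g := by simpa using kap_zpow hr hg hz h0 (-1)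

theorem kap_div (hg : g r = r) {y : Om F} (hz : g z = z) (h0 : z ≠ 0) (hy : g y = y)
    (h1 : y ≠ 0) : kap r n (z / y) g = kap r n z g - kap r n y g := by
  rw [div_eq_mul_inv, kap_mul_left hr hg hz h0 (by rw [map_inv₀, hy]) (inv_ne_zero h1),
    kap_inv_left hr hg hy h1, sub_eq_add_neg]

theorem kap_mul (hg : g r = r) (hh : h r = r) (hz : g z = z) (hz' : h z = z) (h0 : z ≠ 0) :
    kap r n z (g * h) = kap r n z g + kap r n z h := by
  obtain ⟨a, ha⟩ := exists_rt z n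
  refine kap_eq hr (by rw [AlgEquiv.mul_apply, hh, hg]) h0 ha ?_
  rw [AlgEquiv.mul_apply, kap_spec hr hh hz' h0 ha, map_mul, fix_ch hg, kap_spec hr hg hz h0 ha,
    ch_add hr]
  ring

theorem kap_of_fix (hg : g r = r) (h0 : z ≠ 0) (hw : w ^ 2 ^ n = z) (e : g w = w) :
    kap r n z g = 0 := kap_eq hr hg h0 hw (by rw [ch_zero, one_mul, e])

theorem kap_one (h0 : z ≠ 0) : kap r n z 1 = 0 := by
  obtain ⟨a, ha⟩ := exists_rt z n
  exact kap_of_fix hr rfl h0 ha rfl

theorem kap_inv (hg : g r = r) (hz : g z = z) (h0 : z ≠ 0) : kap r n z g⁻¹ = -kap r n z g := by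
  have := kap_mul hr (inv_fix hg) hg (inv_fix hz) hz h0
  rw [inv_mul_cancel, kap_one hr h0] at this
  exact eq_neg_of_add_eq_zero_left this.symm

theorem near_kap (h0 : z ≠ 0) : Near fun g : Gam F => kap r n z g = 0 := by
  obtain ⟨a, ha⟩ := exists_rt z n
  exact ((Near.fix r).and (Near.fix a)).mono fun g hg => kap_of_fix hr hg.1 h0 ha hg.2

theorem kap_const (hg : g ∈ Geo F) {c : kk F} (hc : c ≠ 0) : kap r n c g = 0 := by
  obtain ⟨a, ha⟩ := exists_rt (c : Om F) n
  obtain ⟨d, rfl⟩ := root_mem_kk (by positivity) ha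
  exact kap_of_fix hr (geo_prim hr hg) (fun e => hc (Subtype.ext e)) ha (geo_fix hg d)

theorem kap_conj {s : Gam F} {Q : ℕ} (hs : s r = r ^ Q) (hg : g ∈ Geo F) (hz : g z = z)
    (h0 : z ≠ 0) : kap r n (s z) (s * g * s⁻¹) = Q * kap r n z g := by
  obtain ⟨a, ha⟩ := exists_rt z n
  refine kap_eq hr (geo_prim hr (geo_conj' hg s)) (by simpa using h0) (w := s a)
    (by rw [← map_pow, ha]) ?_
  rw [AlgEquiv.mul_apply, AlgEquiv.mul_apply, inv_apply_self, kap_spec hr (geo_prim hr hg) hz h0 ha,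
    map_mul, ch_pow hr, ch, map_pow, hs, ← pow_mul, ← pow_mul, mul_comm Q]

theorem kap_level (hg : g r = r) (hz : g z = z) (h0 : z ≠ 0) {i j : ℕ} (hij : n = i + j)
    (hw : w ^ 2 ^ j = z) : g w = ch r (((2 ^ i : ℕ) : ZMod (2 ^ n)) * kap r n z g) * w := by
  obtain ⟨a, ha⟩ := exists_rt w i
  have h1 : a ^ 2 ^ n = z := by rw [hij, pow_add, pow_mul, ha, hw]
  rw [← ha, map_pow, kap_spec hr hg hz h0 h1, mul_pow, ch_pow hr]

theorem kap_level_zero (hg : g r = r) (h0 : z ≠ 0) {i j : ℕ} (hij : n = i + j)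
    (hw : w ^ 2 ^ j = z) (e : g w = w) : 2 ^ i * kap r n z g = 0 := by
  have hw0 : w ≠ 0 := fun e => h0 (by rw [← hw, e]; simp)
  have := kap_level hr hg (by rw [← hw, map_pow, e]) h0 hij hw
  rw [e, eq_comm, mul_eq_right₀ hw0, ← ch_zero (r := r) (n := n)] at this
  simpa using ch_inj hr this

theorem kap_isUnit (hg : g r = r) (h0 : z ≠ 0) (hw : w ^ 2 = z) (e : g w = -w) :
    IsUnit (kap r n z g) := by
  cases n with
  | zero =>
    have : Subsingleton (ZMod (2 ^ 0)) := inferInstanceAs (Subsingleton (ZMod 1))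
    exact isUnit_of_subsingleton _
  | succ n =>
    have hw0 : w ≠ 0 := fun e => h0 (by rw [← hw, e]; simp)
    have h1 := kap_level hr hg (by rw [← hw, map_pow, e, neg_sq]) h0 (i := n) (j := 1) rfl
      (w := w) (by simpa using hw)
    rw [← ZMod.natCast_zmod_val (kap r (n + 1) z g), ZMod.isUnit_iff_coprime]
    apply Nat.Coprime.pow_right
    rw [Nat.coprime_two_right, ← Nat.not_even_iff_odd]
    rintro ⟨m, hm⟩
    rw [← ZMod.natCast_zmod_val (kap r (n + 1) z g), hm, ← Nat.cast_mul, ← two_mul, ← mul_assoc,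
      ← pow_succ, Nat.cast_mul, ZMod.natCast_self, zero_mul, ch_zero, one_mul, e] at h1
    exact ne_neg_self hw0 h1.symm

variable {O : ValuationSubring (Om F)} {x : Option (kk F)}

theorem Over.kap_unit (hO : Over O x) (hg : g ∈ Ine O) (hz : g z = z) (hv : O.valuation z = 1) :
    kap r n z g = 0 := by
  have h0 : z ≠ 0 := fun e => by simp [e] at hv
  obtain ⟨a, ha⟩ := exists_rt z n
  have h1 := kap_spec hr (geo_prim hr hg.1) hz h0 ha
  have hva : O.valuation a = 1 := by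
    rw [← ha, map_pow] at hv
    exact (pow_eq_one_iff_of_nonneg zero_le (by positivity)).1 hv
  exact ch_inj hr ((hO.ine_mem hg hva (ch_mem hr _) h1).trans ch_zero.symm)

theorem Over.kap_val (hO : Over O x) (hg : g ∈ Ine O) (hz : g z = z) {j : ℤ}
    (hv : O.valuation z = O.valuation (pl x) ^ j) : kap r n z g = j * kap r n (pl x) g := by
  have hp := zpow_ne_zero j (pl_ne x)
  have hv' : O.valuation (z / pl x ^ j) = 1 := by
    rw [map_div₀, map_zpow₀, hv, div_self (zpow_ne_zero _ hO.val_ne)]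
  have h0 : z ≠ 0 := fun e => by simp [e] at hv'
  have hgp := geo_pl hg.1 x
  have := hO.kap_unit hr hg (by rw [map_div₀, map_zpow₀, hz, hgp]) hv'
  rw [kap_div hr (geo_prim hr hg.1) hz h0 (by rw [map_zpow₀, hgp]) hp,
    kap_zpow hr (geo_prim hr hg.1) hgp (pl_ne x)] at this
  exact sub_eq_zero.1 this

theorem Over.exists_unit (hO : Over O x) : ∃ g ∈ Ine O, IsUnit (kap r n (pl x) g) := by
  obtain ⟨s, hs⟩ := exists_sq (pl x)
  obtain ⟨g, hg, e⟩ := hO.exists_neg hs
  exact ⟨g, hg, kap_isUnit hr (geo_prim hr hg.1) (pl_ne x) hs e⟩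

theorem h90_add (H : Subgroup (Gam F)) (hH : H ≤ Geo F) (f : Gam F → ZMod (2 ^ n))
    (hm : ∀ g ∈ H, ∀ h ∈ H, f (g * h) = f g + f h) (hn : Near fun g => g ∈ H → f g = 0) :
    ∃ b : Om F, b ≠ 0 ∧ ∀ g ∈ H, g b = ch r (f g) * b :=
  hilbert90 H (fun g => ch r (f g)) (fun g _ => ch_ne hr _)
    (fun g hg h hh => by rw [hm g hg h hh, ch_add hr, fix_ch (geo_prim hr (hH hg))])
    (hn.mono fun g hg hH => by rw [hg hH, ch_zero])

/-- A character of an inertia group is a multiple of the Kummer character of the uniformiser. -/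
theorem Over.local_char (hO : Over O x) (f : Gam F → ZMod (2 ^ n))
    (hm : ∀ g ∈ Ine O, ∀ h ∈ Ine O, f (g * h) = f g + f h)
    (hn : Near fun g => g ∈ Ine O → f g = 0) :
    ∃ j : ZMod (2 ^ n), ∀ g ∈ Ine O, f g = j * kap r n (pl x) g := by
  obtain ⟨b, hb0, hb⟩ := h90_add hr (Ine O) inf_le_left f hm hn
  obtain ⟨m, j, hm0, hv⟩ := hO.val_pow hb0
  obtain ⟨a, m₁, hodd, rfl⟩ := Nat.exists_eq_two_pow_mul_odd hm0.ne'
  obtain ⟨r', hr'⟩ := exists_prim (F := F) (a + n)
  obtain ⟨y, hy⟩ := exists_rt (pl x) (a + n)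
  have hy0 : y ≠ 0 := fun e => pl_ne x (by rw [← hy, e]; simp)
  have hu : O.valuation (b ^ m₁ / (y ^ 2 ^ n) ^ j) = 1 := by
    apply (pow_eq_one_iff_of_nonneg zero_le (n := 2 ^ a) (by positivity)).1
    rw [map_div₀, div_pow, map_pow, ← pow_mul, mul_comm m₁, hv, ← map_pow, ← zpow_natCast,
      ← zpow_mul, mul_comm j, zpow_mul, zpow_natCast, ← pow_mul, ← pow_add, add_comm n, hy,
      map_zpow₀, div_self (zpow_ne_zero _ hO.val_ne)]
  have key : ∀ g ∈ Ine O, ch r (f g) ^ m₁ = (ch r' (kap r' (a + n) (pl x) g) ^ 2 ^ n) ^ j := by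
    intro g hg
    have h1 := kap_spec hr' (geo_prim hr' hg.1) (geo_pl hg.1 x) (pl_ne x) hy
    have := hO.ine_mem hg hu
      (c := ch r (f g) ^ m₁ / (ch r' (kap r' (a + n) (pl x) g) ^ 2 ^ n) ^ j)
      (div_mem (pow_mem (ch_mem hr _) _) (zpow_mem (pow_mem (ch_mem hr' _) _) _)) (by
      rw [map_div₀, map_zpow₀, map_pow, map_pow, hb g hg, h1, mul_pow, mul_pow, mul_zpow,
        div_mul_div_comm])
    exact (div_eq_one_iff_eq (zpow_ne_zero _ (pow_ne_zero _ (ch_ne hr' _)))).1 this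
  obtain ⟨g₀, hg₀, hu₀⟩ := hO.exists_unit hr'
  have hdiv : (2 ^ a : ℤ) ∣ 2 ^ n * j := by
    have h1 := congrArg (· ^ 2 ^ n) (key g₀ hg₀)
    beta_reduce at h1
    rw [← pow_mul, mul_comm m₁, pow_mul, ch_pow_one hr, one_pow, ← ch_pow hr', ← ch_zpow hr',
      ← ch_pow hr', ← ch_zero (r := r') (n := a + n)] at h1
    have h2 := (ch_inj hr' h1).symm
    rw [← mul_assoc, ← mul_assoc, hu₀.mul_left_eq_zero] at h2
    have h3 : ((2 ^ (a + n) : ℕ) : ℤ) ∣ 2 ^ n * j * 2 ^ n := by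
      rw [← ZMod.intCast_zmod_eq_zero_iff_dvd]
      exact_mod_cast h2
    push_cast at h3
    rw [pow_add] at h3
    exact Int.dvd_of_mul_dvd_mul_right (by positivity) h3
  obtain ⟨j', hj'⟩ := hdiv
  have hm₁ : IsUnit (m₁ : ZMod (2 ^ n)) := by
    rw [ZMod.isUnit_iff_coprime]
    exact Nat.Coprime.pow_right _ (Nat.coprime_two_right.2 hodd)
  obtain ⟨u, hu'⟩ := hm₁.exists_left_inv
  refine ⟨u * j', fun g hg => ?_⟩
  have h1 := kap_spec hr' (geo_prim hr' hg.1) (geo_pl hg.1 x) (pl_ne x) hy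
  have h2 := kap_spec hr (geo_prim hr hg.1) (geo_pl hg.1 x) (pl_ne x) (w := y ^ 2 ^ a)
    (by rw [← pow_mul, ← pow_add, hy])
  rw [map_pow, h1, mul_pow] at h2
  have h3 := mul_right_cancel₀ (pow_ne_zero _ hy0) h2
  have h4 := key g hg
  rw [← zpow_natCast _ (2 ^ n), ← zpow_mul] at h4
  push_cast at h4
  rw [hj', zpow_mul, ← Nat.cast_ofNat, ← Nat.cast_pow, zpow_natCast, h3, ← ch_zpow hr,
    ← ch_pow hr] at h4
  rw [mul_assoc, ← ch_inj hr h4, ← mul_assoc, hu', one_mul]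

theorem global_aux {f : Om F} (hf : f ∈ (kk F)⟮tt F⟯) (h0 : f ≠ 0) :
    ∃ v : kk F →₀ ZMod (2 ^ n), ∀ g ∈ Geo F,
      kap r n f g = v.sum fun c a => a * kap r n (pl (some c)) g := by
  have hne : ∀ P : (kk F)[X], P ≠ 0 → aeval (tt F) P ≠ 0 :=
    fun P hP e => hP (transcendental_iff.1 tt_trans P e)
  have hfix : ∀ g ∈ Geo F, ∀ P : (kk F)[X], g (aeval (tt F) P) = aeval (tt F) P :=
    fun g hg P => by rw [geo_aeval hg, gam_tt]
  have hP : ∀ P : (kk F)[X], P ≠ 0 → ∃ v : kk F →₀ ZMod (2 ^ n), ∀ g ∈ Geo F,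
      kap r n (aeval (tt F) P) g = v.sum fun c a => a * kap r n (pl (some c)) g := by
    intro P hP
    have h1 : ∀ s : Multiset (kk F), ∃ v : kk F →₀ ZMod (2 ^ n), ∀ g ∈ Geo F,
        kap r n (aeval (tt F) (C P.leadingCoeff * (s.map fun a => X - C a).prod)) g =
          v.sum fun c a => a * kap r n (pl (some c)) g := by
      intro s
      induction s using Multiset.induction_on with
      | empty =>
        refine ⟨0, fun g hg => ?_⟩
        simpa using kap_const hr hg (leadingCoeff_ne_zero.2 hP)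
      | cons a s ih =>
        obtain ⟨v, hv⟩ := ih
        refine ⟨Finsupp.single a 1 + v, fun g hg => ?_⟩
        rw [Finsupp.sum_add_index' (fun _ => zero_mul _) (fun _ _ _ => add_mul _ _ _),
          Finsupp.sum_single_index (zero_mul _), one_mul, ← hv g hg, Multiset.map_cons,
          Multiset.prod_cons, mul_left_comm, map_mul]
        have e : aeval (tt F) (X - C a) = pl (some a) := by simp [pl]
        rw [e]
        exact kap_mul_left hr (geo_prim hr hg) (geo_pl hg _) (pl_ne _) (hfix g hg _)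
          (hne _ (mul_ne_zero (C_ne_zero.2 (leadingCoeff_ne_zero.2 hP))
            (monic_multiset_prod_of_monic _ _ fun a _ => monic_X_sub_C a).ne_zero))
    obtain ⟨v, hv⟩ := h1 P.roots
    rw [← (IsAlgClosed.splits P).eq_prod_roots] at hv
    exact ⟨v, hv⟩
  obtain ⟨p, q, rfl⟩ := (mem_adjoin_simple_iff (kk F) f).1 hf
  have hp : p ≠ 0 := fun e => h0 (by simp [e])
  have hq : q ≠ 0 := fun e => h0 (by simp [e])
  obtain ⟨v, hv⟩ := hP p hp
  obtain ⟨v', hv'⟩ := hP q hq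
  refine ⟨v - v', fun g hg => ?_⟩
  rw [kap_div hr (geo_prim hr hg) (hfix g hg _) (hne _ hp) (hfix g hg _) (hne _ hq), hv g hg,
    hv' g hg, Finsupp.sum_sub_index fun _ _ _ => sub_mul _ _ _]

/-- A character of the geometric Galois group is a sum of Kummer characters. -/
theorem global_char (f : Gam F → ZMod (2 ^ n))
    (hm : ∀ g ∈ Geo F, ∀ h ∈ Geo F, f (g * h) = f g + f h)
    (hn : Near fun g => g ∈ Geo F → f g = 0) :
    ∃ v : kk F →₀ ZMod (2 ^ n), ∀ g ∈ Geo F,
      f g = v.sum fun c a => a * kap r n (pl (some c)) g := by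
  obtain ⟨b, hb0, hb⟩ := h90_add hr (Geo F) le_rfl f hm hn
  obtain ⟨v, hv⟩ := global_aux hr (f := b ^ 2 ^ n) (fix_kf (mem_adjoin_simple_self _ _)
    fun g hg _ => by rw [map_pow, hb g hg, mul_pow, ch_pow_one hr, one_mul]) (pow_ne_zero _ hb0)
  exact ⟨v, fun g hg => by
    rw [← hv g hg, kap_eq hr (geo_prim hr hg) (pow_ne_zero _ hb0) rfl (hb g hg)]⟩

theorem Over.val_other {c d : kk F} (hO : Over O (some c)) (hcd : d ≠ c) :
    O.valuation (pl (some d)) = 1 := by
  refine val_one_of_sub O (val_const O (sub_ne_zero.2 hcd.symm)) ?_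
  have : pl (some d) - ((c - d : kk F) : Om F) = pl (some c) := by
    simp only [pl]
    push_cast
    ring
  rw [this]
  exact hO

theorem Over.val_inf (hO : Over O none) (d : kk F) :
    O.valuation (pl (some d)) = O.valuation (pl (none : Option (kk F))) ^ (-1 : ℤ) := by
  have h1 : O.valuation (pl (some d) * pl none) = 1 := by
    refine val_one_of_sub O (c := 1) (map_one _) ?_
    have : pl (some d) * pl none - 1 = -((d : Om F) * pl none) := by
      simp only [pl]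
      have := tt_ne (F := F)
      field_simp
      ring
    rw [this, Valuation.map_neg]
    exact val_mul_lt O (val_const_le O d) hO
  rw [map_mul] at h1
  rw [zpow_neg_one]
  exact eq_inv_of_mul_eq_one_left h1

theorem Over.sum_fin {c : kk F} (hO : Over O (some c)) (hg : g ∈ Ine O)
    (v : kk F →₀ ZMod (2 ^ n)) :
    (v.sum fun d a => a * kap r n (pl (some d)) g) = v c * kap r n (pl (some c)) g := by
  refine Finsupp.sum_eq_single c (fun d _ hd => ?_) fun _ => zero_mul _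
  rw [hO.kap_unit hr hg (geo_pl hg.1 _) (hO.val_other hr hd), mul_zero]

theorem Over.sum_inf (hO : Over O none) (hg : g ∈ Ine O) (v : kk F →₀ ZMod (2 ^ n)) :
    (v.sum fun d a => a * kap r n (pl (some d)) g) =
      -(v.sum fun _ a => a) * kap r n (pl none) g := by
  rw [neg_mul, Finsupp.sum_mul, ← Finsupp.sum_neg]
  refine Finsupp.sum_congr fun d _ => ?_
  rw [hO.kap_val hr hg (geo_pl hg.1 _) (hO.val_inf hr d)]
  simp

theorem coeff_unique (x : Option (kk F)) {a b : ZMod (2 ^ n)}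
    (e : ∀ O, Over O x → ∀ g ∈ Ine O, a * kap r n (pl x) g = b * kap r n (pl x) g) : a = b := by
  obtain ⟨O, hO⟩ := exists_over x
  obtain ⟨g, hg, hu⟩ := hO.exists_unit hr
  exact hu.mul_right_cancel (e O hO g hg)

/-- The sum of the local invariants of a character vanishes. -/
theorem global_sum (f : Gam F → ZMod (2 ^ n))
    (hm : ∀ g ∈ Geo F, ∀ h ∈ Geo F, f (g * h) = f g + f h)
    (hn : Near fun g => g ∈ Geo F → f g = 0) (V : Option (kk F) →₀ ZMod (2 ^ n))
    (hV : ∀ x O, Over O x → ∀ g ∈ Ine O, f g = V x * kap r n (pl x) g) :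
    (V.sum fun _ a => a) = 0 := by
  obtain ⟨v, hv⟩ := global_char hr f hm hn
  have h1 : V.some = v := by
    ext c
    refine coeff_unique hr (some c) fun O hO g hg => ?_
    rw [Finsupp.some_apply, ← hV _ O hO g hg, hv g hg.1, hO.sum_fin hr hg]
  have h2 : V none = -(v.sum fun _ a => a) :=
    coeff_unique hr none fun O hO g hg => by
      rw [← hV _ O hO g hg, hv g hg.1, hO.sum_inf hr hg]
  rw [Finsupp.sum_option_index V _ (fun _ => rfl) (fun _ _ _ => rfl), h1, h2, neg_add_cancel]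

/-- The projective line has no unramified cyclic covers. -/
theorem global_zero (f : Gam F → ZMod (2 ^ n))
    (hm : ∀ g ∈ Geo F, ∀ h ∈ Geo F, f (g * h) = f g + f h)
    (hn : Near fun g => g ∈ Geo F → f g = 0)
    (hV : ∀ c O, Over O (some c) → ∀ g ∈ Ine O, f g = 0) : ∀ g ∈ Geo F, f g = 0 := by
  obtain ⟨v, hv⟩ := global_char hr f hm hn
  have h1 : v = 0 := by
    ext c
    refine coeff_unique hr (some c) fun O hO g hg => ?_
    rw [← hO.sum_fin hr hg, ← hv g hg.1, hV c O hO g hg]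
    simp
  intro g hg
  rw [hv g hg, h1, Finsupp.sum_zero_index]

end kap

end

end Pool.Agent.Lib.MP_16ef92_ag
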