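import Mathlib

set_option autoImplicit false
set_option linter.unusedSectionVars false
set_option linter.unusedVariables false

namespace Pool.Agent.Lib.MP_16ef92_ag

open Polynomial

/-- Fewer equations than unknowns, all vanishing at the origin, have another common zero
(proof taken from the team file for MP_07b2d0_nt). -/
theorem common_zero {k σ ι : Type} [Field k] [IsAlgClosed k] [Fintype σ]
    [Fintype ι] (h : Fintype.card ι < Fintype.card σ) (p : ι → MvPolynomial σ k)
    (h0 : ∀ i, MvPolynomial.eval 0 (p i) = 0) :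
    ∃ z : σ → k, z ≠ 0 ∧ ∀ i, MvPolynomial.eval z (p i) = 0 := by
  classical
  by_contra hne
  have hz : ∀ z : σ → k, (∀ i, MvPolynomial.eval z (p i) = 0) → z = 0 := by
    intro z hz
    by_contra h1
    exact hne ⟨z, h1, hz⟩
  have key : ringKrullDim (MvPolynomial σ k) ≤ ((Fintype.card ι : ℕ∞) : WithBot ℕ∞) := by
    rw [ringKrullDim_le_iff_isMaximal_height_le]
    intro m hm
    obtain ⟨a, rfl⟩ := MvPolynomial.isMaximal_iff_eq_vanishingIdeal_singleton.1 hm
    let q : ι → MvPolynomial σ k := fun i =>
      MvPolynomial.aeval (fun s => MvPolynomial.X s - MvPolynomial.C (a s)) (p i)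
    have hq : ∀ (x : σ → k) i, MvPolynomial.aeval x (q i) = MvPolynomial.eval (x - a) (p i) := by
      intro x i
      simp only [q]
      have e : (fun s => MvPolynomial.aeval x (MvPolynomial.X s - MvPolynomial.C (a s) :
          MvPolynomial σ k)) = x - a := by
        funext s
        simp
      rw [← AlgHom.comp_apply, MvPolynomial.comp_aeval, e]
      rfl
    have hl : MvPolynomial.zeroLocus k (Ideal.span ((Finset.univ.image q : Finset _) :
        Set (MvPolynomial σ k))) = {a} := by
      rw [MvPolynomial.zeroLocus_span]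
      ext x
      simp only [Finset.coe_image, Finset.coe_univ, Set.image_univ, Set.mem_range,
        forall_exists_index, forall_apply_eq_imp_iff, Set.mem_ofPred_eq, Set.mem_singleton_iff, hq]
      constructor
      · intro hx
        exact sub_eq_zero.1 (hz _ hx)
      · rintro rfl i
        rw [sub_self]
        exact h0 i
    have hr := MvPolynomial.vanishingIdeal_zeroLocus_eq_radical (K := k)
      (Ideal.span ((Finset.univ.image q : Finset _) : Set (MvPolynomial σ k)))
    rw [hl] at hr
    have hmin : MvPolynomial.vanishingIdeal k {a} ∈ (Ideal.span ((Finset.univ.image q : Finset _) :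
        Set (MvPolynomial σ k))).minimalPrimes := by
      rw [← Ideal.radical_minimalPrimes, ← hr, Ideal.minimalPrimes_eq_subsingleton_self]
      rfl
    have h1 := Ideal.height_le_card_of_mem_minimalPrimes_span_finset hmin
    have h2 : (Finset.univ.image q).card ≤ Fintype.card ι := Finset.card_image_le
    exact_mod_cast h1.trans (by exact_mod_cast h2)
  rw [MvPolynomial.ringKrullDim_of_isNoetherianRing, ringKrullDim_eq_zero_of_field, zero_add,
    Nat.card_eq_fintype_card] at key
  have : Fintype.card σ ≤ Fintype.card ι := by exact_mod_cast key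
  omega

theorem quad_zero {k σ W : Type} [Field k] [IsAlgClosed k] [Fintype σ] [AddCommGroup W]
    [Module k W] [FiniteDimensional k W] (h : Module.finrank k W < Fintype.card σ)
    (w : σ → σ → W) : ∃ u : σ → k, u ≠ 0 ∧ ∑ a, ∑ b, (u a * u b) • w a b = 0 := by
  let B := Module.finBasis k W
  obtain ⟨u, hu, h1⟩ := common_zero (k := k) (σ := σ) (ι := Fin (Module.finrank k W))
    (by simpa using h)
    (fun i => ∑ a, ∑ b, MvPolynomial.X a * MvPolynomial.X b * MvPolynomial.C (B.repr (w a b) i))
    (by simp)
  refine ⟨u, hu, B.repr.injective ?_⟩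
  ext i
  have := h1 i
  simpa [map_sum, Finsupp.finsetSum_apply] using this

/-- Tsen's theorem for ternary quadratic forms. -/
theorem tsen {k L M : Type} [Field k] [IsAlgClosed k] [Field L] [Field M] [Algebra k L]
    [Algebra L M] [Algebra k M] [IsScalarTower k L M] [FiniteDimensional L M] (t : L)
    (ht : Transcendental k t) (hL : ∀ z : L, ∃ p r : k[X], z = aeval t p / aeval t r)
    (cf : Fin 3 → M) : ∃ x : Fin 3 → M, x ≠ 0 ∧ ∑ i, cf i * x i ^ 2 = 0 := by
  classical
  let r := Module.finrank L M
  have hr : 0 < r := Module.finrank_pos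
  let m := Module.finBasis L M
  let T := algebraMap L M t
  let W : ℕ → Submodule k M := fun N =>
    Submodule.span k (Set.range fun p : Fin (N + 1) × Fin r => T ^ (p.1 : ℕ) * m p.2)
  have hWm : ∀ {N N'}, N ≤ N' → W N ≤ W N' := by
    intro N N' h
    refine Submodule.span_mono ?_
    rintro _ ⟨p, rfl⟩
    exact ⟨(⟨p.1, by omega⟩, p.2), rfl⟩
  let Bd : M → ℕ → Prop := fun z c => ∀ i, T ^ i * z ∈ W (i + c)
  have hBm : ∀ {z c c'}, c ≤ c' → Bd z c → Bd z c' := fun h hz i => hWm (by omega) (hz i)
  have hBp : ∀ (p : k[X]) z c, Bd z c → Bd (aeval T p * z) (c + p.natDegree) := by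
    intro p z c hz i
    rw [aeval_eq_sum_range, Finset.sum_mul, Finset.mul_sum]
    refine sum_mem fun j hj => ?_
    rw [smul_mul_assoc, mul_smul_comm, ← mul_assoc, ← pow_add]
    have := Finset.mem_range.1 hj
    exact Submodule.smul_mem _ _ (hWm (by omega) (hz _))
  have hT : ∀ p : k[X], aeval T p = algebraMap L M (aeval t p) :=
    fun p => aeval_algebraMap_apply M t p
  let Q : M → Prop := fun z => ∃ h : k[X], h ≠ 0 ∧ ∃ c, Bd (aeval T h * z) c
  have hQ2 : ∀ S : Finset M, (∀ z ∈ S, Q z) →
      ∃ h : k[X], h ≠ 0 ∧ ∃ c, ∀ z ∈ S, Bd (aeval T h * z) c := by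
    intro S
    induction S using Finset.induction_on with
    | empty => exact fun _ => ⟨1, one_ne_zero, 0, by simp⟩
    | insert a S _ ih =>
      intro hS
      obtain ⟨h, h0, c, hc⟩ := ih fun z hz => hS z (Finset.mem_insert_of_mem hz)
      obtain ⟨h', h0', c', hc'⟩ := hS a (Finset.mem_insert_self _ _)
      refine ⟨h * h', mul_ne_zero h0 h0', c + h'.natDegree + (c' + h.natDegree), fun z hz => ?_⟩
      rcases Finset.mem_insert.1 hz with rfl | hz
      · rw [map_mul, mul_assoc]
        exact hBm (by omega) (hBp h _ _ hc')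
      · rw [mul_comm h, map_mul, mul_assoc]
        exact hBm (by omega) (hBp h' _ _ (hc z hz))
  have hQ : ∀ z, Q z := by
    intro z
    have h1 : ∀ j, Q (m.repr z j • m j) := by
      intro j
      obtain ⟨p, q, e⟩ := hL (m.repr z j)
      by_cases hq : q = 0
      · exact ⟨1, one_ne_zero, 0, fun i => by simp [e, hq]⟩
      refine ⟨q, hq, 0 + p.natDegree, ?_⟩
      have hq' : aeval t q ≠ 0 := fun e => hq (transcendental_iff.1 ht q e)
      have : aeval T q * m.repr z j • m j = aeval T p * m j := by
        rw [e, Algebra.smul_def, ← mul_assoc, hT, hT, ← map_mul, mul_div_cancel₀ _ hq']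
      rw [this]
      exact hBp p _ _ fun i => Submodule.subset_span ⟨(⟨i, by omega⟩, j), rfl⟩
    obtain ⟨h, h0, c, hc⟩ := hQ2 (Finset.univ.image fun j => m.repr z j • m j) (by
      intro y hy
      obtain ⟨j, _, rfl⟩ := Finset.mem_image.1 hy
      exact h1 j)
    refine ⟨h, h0, c, fun i => ?_⟩
    rw [← m.sum_repr z, Finset.mul_sum, Finset.mul_sum]
    exact sum_mem fun j _ => hc _ (Finset.mem_image_of_mem _ (Finset.mem_univ j)) i
  obtain ⟨h, h0, c, hc⟩ := hQ2 (Finset.univ.image fun p : Fin 3 × Fin r × Fin r =>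
    cf p.1 * (m p.2.1 * m p.2.2)) fun z _ => hQ z
  let e : Fin (c + 1) × Fin r → M := fun p => T ^ (p.1 : ℕ) * m p.2
  have hmem : ∀ (s : Fin 3) (p p' : Fin (c + 1) × Fin r),
      aeval T h * (cf s * (e p * e p')) ∈ W (3 * c) := by
    intro s p p'
    have h1 := hc _ (Finset.mem_image_of_mem _ (Finset.mem_univ (s, p.2, p'.2))) (p.1 + p'.1)
    have h2 := p.1.2
    have h3 := p'.1.2
    convert hWm (N' := 3 * c) (by omega) h1 using 1
    simp only [e]
    ring
  have hli : LinearIndependent k e := by
    have h1 : LinearIndependent k fun i : Fin (c + 1) => t ^ (i : ℕ) := by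
      have h2 := (Polynomial.basisMonomials k).linearIndependent.map' (aeval t).toLinearMap
        (LinearMap.ker_eq_bot.2 (transcendental_iff_injective.1 ht))
      have h3 := h2.comp (fun i : Fin (c + 1) => (i : ℕ)) Fin.val_injective
      have h4 : (fun i : Fin (c + 1) => t ^ (i : ℕ)) = (⇑(aeval t).toLinearMap ∘
          ⇑(basisMonomials k)) ∘ fun i : Fin (c + 1) => (i : ℕ) := by
        funext i
        simp
      rw [h4]
      exact h3
    convert linearIndependent_smul h1 m.linearIndependent using 1
    funext p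
    simp [e, T, Algebra.smul_def]
  have : FiniteDimensional k (W (3 * c)) := FiniteDimensional.span_of_finite k (Set.finite_range _)
  obtain ⟨u, hu, hs⟩ := quad_zero (k := k) (σ := Fin 3 × Fin (c + 1) × Fin r) (W := W (3 * c))
    (by
      refine (finrank_range_le_card _).trans_lt ?_
      simp only [Fintype.card_prod, Fintype.card_fin]
      nlinarith)
    (fun a b => if a.1 = b.1 then ⟨_, hmem a.1 a.2 b.2⟩ else 0)
  refine ⟨fun s => ∑ p, u (s, p) • e p, ?_, ?_⟩
  · intro h1
    apply hu
    funext ⟨s, p⟩
    exact Fintype.linearIndependent_iff.1 hli _ (congrFun h1 s) p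
  · have h1 : aeval T h ≠ 0 := by
      rw [hT, _root_.map_ne_zero]
      exact fun e => h0 (transcendental_iff.1 ht h e)
    apply mul_left_cancel₀ h1
    rw [mul_zero, ← ZeroMemClass.coe_zero (W (3 * c)), ← hs]
    push_cast
    rw [Fintype.sum_prod_type, Finset.mul_sum]
    refine Finset.sum_congr rfl fun s _ => ?_
    rw [sq, Finset.sum_mul_sum, Finset.mul_sum, Finset.mul_sum]
    refine Finset.sum_congr rfl fun p _ => ?_
    rw [Finset.mul_sum, Finset.mul_sum, eq_comm, Fintype.sum_prod_type, Finset.sum_eq_single s]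
    · refine Finset.sum_congr rfl fun p' _ => ?_
      simp only [if_true, Algebra.smul_def, map_mul]
      ring
    · intro s' _ hs'
      simp [hs'.symm]
    · simp

end Pool.Agent.Lib.MP_16ef92_ag
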