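import Mathlib
import Pool.Agent.Lib.MP_16ef92_ag.Kum
import Pool.Agent.Lib.MP_16ef92_ag.Tsen

set_option autoImplicit false
set_option linter.unusedSectionVars false
set_option linter.unusedVariables false

namespace Pool.Agent.Lib.MP_16ef92_ag

open Polynomial IntermediateField
open scoped Classical

noncomputable section

theorem ext_step {G A E : Type} [Group G] [CommGroup A] [Group E] [MulDistribMulAction G A]
    (p : E →* G) (i : A →* E) (hi : Function.Injective i)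
    (hker : ∀ e, p e = 1 → ∃ b, e = i b) (hp : ∀ b, p (i b) = 1)
    (hconj : ∀ e b, e * i b = i (p e • b) * e)
    (H : Subgroup G) (g₀ : G) (u₀ : E) (hu₀ : p u₀ = g₀) (hc : ∀ h ∈ H, g₀⁻¹ * h * g₀ ∈ H)
    (hc' : ∀ h ∈ H, g₀ * h * g₀⁻¹ ∈ H) (h2 : g₀ * g₀ ∈ H) (h0 : g₀ ∉ H) (s : G → E)
    (hs : ∀ h ∈ H, p (s h) = h) (hm : ∀ g ∈ H, ∀ h ∈ H, s (g * h) = s g * s h)
    (h90 : ∀ z : G → A, (∀ h ∈ H, u₀ * s (g₀⁻¹ * h * g₀) = i (z h) * s h * u₀) →
      (∀ g ∈ H, ∀ h ∈ H, z (g * h) = z g * g • z h) → ∃ b, ∀ h ∈ H, h • b = z h * b)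
    (hN : ∀ a : A, (∀ h ∈ H, h • a = a) → g₀ • a = a →
      ∃ b, (∀ h ∈ H, h • b = b) ∧ b * g₀ • b = a) :
    ∃ s' : G → E, (∀ h ∈ H, s' h = s h) ∧ (∀ g, g ∈ H ∨ g₀⁻¹ * g ∈ H → p (s' g) = g) ∧
      ∀ g, g ∈ H ∨ g₀⁻¹ * g ∈ H → ∀ h, h ∈ H ∨ g₀⁻¹ * h ∈ H → s' (g * h) = s' g * s' h := by
  have hz : ∀ h, ∃ z : A, h ∈ H → u₀ * s (g₀⁻¹ * h * g₀) = i z * s h * u₀ := by
    intro h
    by_cases hh : h ∈ H
    · obtain ⟨b, hb⟩ := hker (u₀ * s (g₀⁻¹ * h * g₀) * u₀⁻¹ * (s h)⁻¹) (by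
        simp only [map_mul, map_inv, hu₀, hs _ hh, hs _ (hc _ hh)]
        group)
      exact ⟨b, fun _ => by rw [← hb]; group⟩
    · exact ⟨1, fun h' => (hh h').elim⟩
  choose z hz using hz
  obtain ⟨b, hb⟩ := h90 z hz (by
    intro g hg h hh
    have h1 := hz _ (H.mul_mem hg hh)
    have e : g₀⁻¹ * (g * h) * g₀ = g₀⁻¹ * g * g₀ * (g₀⁻¹ * h * g₀) := by group
    rw [e, hm _ (hc _ hg) _ (hc _ hh), ← mul_assoc, hz g hg, mul_assoc, hz h hh, hm g hg h hh] at h1
    have h3 := hconj (s g) (z h)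
    rw [hs g hg] at h3
    apply hi
    rw [map_mul]
    apply mul_right_cancel (b := s g * s h * u₀)
    calc i (z (g * h)) * (s g * s h * u₀) = i (z g) * (s g * i (z h)) * s h * u₀ := by
          rw [← mul_assoc, ← h1]; group
      _ = _ := by rw [h3]; group)
  have hu : ∀ h ∈ H, i b * u₀ * s (g₀⁻¹ * h * g₀) = s h * (i b * u₀) := by
    intro h hh
    rw [mul_assoc, hz h hh, ← mul_assoc (s h), hconj, hs h hh, hb h hh, mul_comm (z h), map_mul]
    group
  have hpu : p (i b * u₀) = g₀ := by rw [map_mul, hp, hu₀, one_mul]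
  generalize i b * u₀ = u at hu hpu
  obtain ⟨a, ha⟩ := hker (u * u * (s (g₀ * g₀))⁻¹) (by
    simp only [map_mul, map_inv, hpu, hs _ h2]
    group)
  have ha' : u * u = i a * s (g₀ * g₀) := by rw [← ha]; group
  obtain ⟨b', hb1, hb2⟩ := hN a⁻¹ (by
    intro h hh
    rw [smul_inv', inv_inj]
    apply hi
    apply mul_right_cancel (b := s h * s (g₀ * g₀))
    have h3 := hconj (s h) a
    rw [hs h hh] at h3
    have e : h * (g₀ * g₀) = g₀ * g₀ * (g₀⁻¹ * (g₀⁻¹ * h * g₀) * g₀) := by group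
    rw [← mul_assoc, ← h3, mul_assoc, ← ha', ← hm h hh _ h2, e, hm _ h2 _ (hc _ (hc _ hh)),
      ← mul_assoc (i a), ← ha', mul_assoc u u, hu _ (hc _ hh), ← mul_assoc u, hu _ hh, mul_assoc])
    (by
    rw [smul_inv', inv_inj]
    apply hi
    apply mul_right_cancel (b := s (g₀ * g₀) * u)
    have h3 := hconj u a
    have h4 := hu _ h2
    have e : g₀⁻¹ * (g₀ * g₀) * g₀ = g₀ * g₀ := by group
    rw [e] at h4
    rw [hpu] at h3
    rw [← mul_assoc (i a), ← ha', ← h4, ← mul_assoc, ← h3, mul_assoc, ← ha', mul_assoc])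
  have hv : ∀ h ∈ H, i b' * u * s (g₀⁻¹ * h * g₀) = s h * (i b' * u) := by
    intro h hh
    rw [mul_assoc, hu h hh, ← mul_assoc (s h), hconj, hs h hh, hb1 h hh, mul_assoc]
  have hpv : p (i b' * u) = g₀ := by rw [map_mul, hp, hpu, one_mul]
  have hv2 : i b' * u * (i b' * u) = s (g₀ * g₀) := by
    calc i b' * u * (i b' * u) = i b' * (u * i b') * u := by group
      _ = i (b' * g₀ • b') * (u * u) := by rw [hconj, hpu, map_mul]; group
      _ = _ := by rw [hb2, ha', map_inv]; group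
  generalize i b' * u = v at hv hpv hv2
  have hn : ∀ h ∈ H, g₀ * h ∉ H := fun h hh e => h0 (by simpa using H.mul_mem e (H.inv_mem hh))
  have hcase : ∀ g, g ∈ H ∨ g₀⁻¹ * g ∈ H → g ∈ H ∨ ∃ h ∈ H, g = g₀ * h :=
    fun g hg => hg.imp id fun h => ⟨_, h, by group⟩
  let s' : G → E := fun g => if g ∈ H then s g else v * s (g₀⁻¹ * g)
  have e1 : ∀ h ∈ H, s' h = s h := fun h hh => if_pos hh
  have e2 : ∀ h ∈ H, s' (g₀ * h) = v * s h := fun h hh => by
    simp only [s', if_neg (hn h hh), inv_mul_cancel_left]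
  refine ⟨s', e1, fun g hg0 => ?_, fun g hg0 h hh0 => ?_⟩
  · rcases hcase g hg0 with hg | ⟨g, hg, rfl⟩
    · rw [e1 g hg, hs g hg]
    · rw [e2 g hg, map_mul, hpv, hs g hg]
  · rcases hcase g hg0 with hg | ⟨g, hg, rfl⟩ <;> rcases hcase h hh0 with hh | ⟨h, hh, rfl⟩
    · rw [e1 _ (H.mul_mem hg hh), e1 g hg, e1 h hh, hm g hg h hh]
    · have e : g * (g₀ * h) = g₀ * (g₀⁻¹ * g * g₀ * h) := by group
      rw [e, e2 _ (H.mul_mem (hc g hg) hh), hm _ (hc g hg) h hh, e1 g hg, e2 h hh, ← mul_assoc,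
        hv g hg, mul_assoc]
    · rw [mul_assoc, e2 _ (H.mul_mem hg hh), e2 g hg, e1 h hh, hm g hg h hh, mul_assoc]
    · have e : g₀ * g * (g₀ * h) = g₀ * g * g₀⁻¹ * (g₀ * g₀ * h) := by group
      have h3 := hv _ (hc' g hg)
      have e' : g₀⁻¹ * (g₀ * g * g₀⁻¹) * g₀ = g := by group
      rw [e'] at h3
      rw [e2 g hg, e2 h hh, e, e1 _ (H.mul_mem (hc' g hg) (H.mul_mem h2 hh)),
        hm _ (hc' g hg) _ (H.mul_mem h2 hh), hm _ h2 h hh, ← hv2, h3]
      group

variable {F : Type} [Field F] [Clos F] [Fintype F] [hq : Fact (Odd (Fintype.card F))]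

instance unitsAct : MulDistribMulAction (Gam F) (Om F)ˣ := inferInstance

instance unitsAct' : MulAction (Gam F) (Om F)ˣ := unitsAct.toMulAction

instance unitsAct'' : SMul (Gam F) (Om F)ˣ := unitsAct.toSMul

theorem geo_tsen (H : Subgroup (Gam F)) (hH : H ≤ Geo F) (hn : Near fun g => g ∈ Geo F → g ∈ H)
    (cf : Fin 3 → Om F) (hcf : ∀ i, ∀ g ∈ H, g (cf i) = cf i) :
    ∃ x : Fin 3 → Om F, x ≠ 0 ∧ (∀ i, ∀ g ∈ H, g (x i) = x i) ∧ ∑ i, cf i * x i ^ 2 = 0 := by
  obtain ⟨S, hS⟩ := hn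
  let L := (kk F)⟮tt F⟯
  let M : IntermediateField L (Om F) :=
    { carrier := {z | ∀ g ∈ H, g z = z}
      mul_mem' := fun ha hb g hg => by rw [map_mul, ha g hg, hb g hg]
      add_mem' := fun ha hb g hg => by rw [map_add, ha g hg, hb g hg]
      algebraMap_mem' := fun a g hg => geo_kf (hH hg) (gam_tt g) a.2
      inv_mem' := fun a ha g hg => by rw [map_inv₀, ha g hg] }
  have hKL : ∀ a : RatFunc F, algebraMap (RatFunc F) (Om F) a ∈ L :=
    fun a => fix_kf (mem_adjoin_simple_self (kk F) _) fun g _ _ => g.commutes a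
  let _ : Algebra (RatFunc F) L := ((algebraMap (RatFunc F) (Om F)).codRestrict L hKL).toAlgebra
  have : IsScalarTower (RatFunc F) L (Om F) := IsScalarTower.of_algebraMap_eq fun _ => rfl
  let E : IntermediateField L (Om F) := adjoin L (S : Set (Om F))
  have : FiniteDimensional L E := finiteDimensional_adjoin fun z _ =>
    (Algebra.IsIntegral.isIntegral (R := RatFunc F) z).tower_top
  have hME : M ≤ E := by
    intro z hz
    have : z ∈ E.restrictScalars (RatFunc F) := by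
      rw [← InfiniteGalois.fixedField_fixingSubgroup (E.restrictScalars (RatFunc F)),
        mem_fixedField_iff]
      intro g hg
      rw [IntermediateField.mem_fixingSubgroup_iff] at hg
      exact hz g (hS g (fun s hs => hg s (subset_adjoin L _ hs))
        (mem_geo fun c => hg c (E.algebraMap_mem ⟨c, L.algebraMap_mem c⟩)))
    exact this
  have : FiniteDimensional L M :=
    FiniteDimensional.of_injective (inclusion hME).toLinearMap (inclusion hME).injective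
  obtain ⟨x, hx0, hx⟩ := tsen (k := kk F) (L := L) (M := M) (AdjoinSimple.gen _ _)
    ((transcendental_algebraMap_iff (algebraMap L (Om F)).injective).1 tt_trans) (by
      intro z
      obtain ⟨p, q, e⟩ := (mem_adjoin_simple_iff (kk F) z.1).1 z.2
      refine ⟨p, q, (algebraMap L (Om F)).injective ?_⟩
      rw [map_div₀, ← aeval_algebraMap_apply, ← aeval_algebraMap_apply]
      exact e) (fun i => ⟨cf i, hcf i⟩)
  refine ⟨fun i => x i, fun e => hx0 (funext fun i => Subtype.ext (congrFun e i)),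
    fun i => (x i).2, ?_⟩
  have := congrArg (algebraMap M (Om F)) hx
  rw [map_sum, map_zero] at this
  exact this

/-- A normalised 2-cocycle with values in roots of unity, trivial near the identity. -/
structure Coc (F : Type) [Field F] [Clos F] (n : ℕ) where
  c : Gam F → Gam F → ZMod (2 ^ n)
  assoc : ∀ g ∈ Geo F, ∀ h ∈ Geo F, ∀ l ∈ Geo F, c g h + c (g * h) l = c h l + c g (h * l)
  one : ∀ g ∈ Geo F, c g 1 = 0 ∧ c 1 g = 0
  near : Near fun h => h ∈ Geo F → ∀ g ∈ Geo F, c g h = 0 ∧ c h g = 0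

variable {n : ℕ} {r : Om F}

/-- The extension of the geometric Galois group attached to a cocycle. -/
@[ext] structure Ex (hr : IsPrimitiveRoot r (2 ^ n)) (C : Coc F n) where
  a : (Om F)ˣ
  g : Geo F

/-- The root of unity as a unit. -/
def chu (hr : IsPrimitiveRoot r (2 ^ n)) (a : ZMod (2 ^ n)) : (Om F)ˣ := Units.mk0 _ (ch_ne hr a)

theorem chu_add (hr : IsPrimitiveRoot r (2 ^ n)) (a b : ZMod (2 ^ n)) :
    chu hr (a + b) = chu hr a * chu hr b := Units.ext (ch_add hr a b)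

theorem chu_zero (hr : IsPrimitiveRoot r (2 ^ n)) : chu hr 0 = 1 := Units.ext ch_zero

theorem smul_chu (hr : IsPrimitiveRoot r (2 ^ n)) (g : Geo F) (a : ZMod (2 ^ n)) :
    (g : Gam F) • chu hr a = chu hr a := Units.ext (fix_ch (geo_prim hr g.2) a)

instance (hr : IsPrimitiveRoot r (2 ^ n)) (C : Coc F n) : Mul (Ex hr C) :=
  ⟨fun x y => ⟨x.a * (x.g : Gam F) • y.a * chu hr (C.c x.g y.g), x.g * y.g⟩⟩

instance (hr : IsPrimitiveRoot r (2 ^ n)) (C : Coc F n) : One (Ex hr C) := ⟨⟨1, 1⟩⟩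

instance (hr : IsPrimitiveRoot r (2 ^ n)) (C : Coc F n) : Inv (Ex hr C) :=
  ⟨fun x => ⟨((x.g⁻¹ : Geo F) : Gam F) • x.a⁻¹ * (chu hr (C.c (x.g⁻¹ : Geo F) x.g))⁻¹, x.g⁻¹⟩⟩

theorem Ex.mul_a {hr : IsPrimitiveRoot r (2 ^ n)} {C : Coc F n} (x y : Ex hr C) :
    (x * y).a = x.a * (x.g : Gam F) • y.a * chu hr (C.c x.g y.g) := rfl

theorem Ex.mul_g {hr : IsPrimitiveRoot r (2 ^ n)} {C : Coc F n} (x y : Ex hr C) :
    (x * y).g = x.g * y.g := rfl

instance (hr : IsPrimitiveRoot r (2 ^ n)) (C : Coc F n) : Group (Ex hr C) :=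
  Group.ofLeftAxioms
    (fun x y z => by
      refine Ex.ext ?_ (mul_assoc _ _ _)
      have := congrArg (chu hr) (C.assoc _ x.g.2 _ y.g.2 _ z.g.2)
      rw [chu_add, chu_add] at this
      simp only [Ex.mul_a, Ex.mul_g, smul_mul', smul_chu, Subgroup.coe_mul, mul_smul]
      calc _ = x.a * (x.g : Gam F) • y.a * (x.g : Gam F) • (y.g : Gam F) • z.a *
            (chu hr (C.c x.g y.g) * chu hr (C.c (x.g * y.g) z.g)) := by
            simp only [mul_assoc, mul_comm, mul_left_comm]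
        _ = _ := by
            rw [this]
            simp only [mul_assoc, mul_comm, mul_left_comm])
    (fun x => by
      refine Ex.ext ?_ (one_mul _)
      change 1 * (1 : Gam F) • x.a * chu hr (C.c 1 x.g) = x.a
      rw [(C.one _ x.g.2).2, chu_zero, one_smul, one_mul, mul_one])
    (fun x => by
      refine Ex.ext ?_ (inv_mul_cancel _)
      change ((x.g⁻¹ : Geo F) : Gam F) • x.a⁻¹ * (chu hr (C.c (x.g⁻¹ : Geo F) x.g))⁻¹ *
        ((x.g⁻¹ : Geo F) : Gam F) • x.a * chu hr (C.c (x.g⁻¹ : Geo F) x.g) = 1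
      rw [smul_inv', mul_right_comm _ _ (_ • _), inv_mul_cancel, one_mul, inv_mul_cancel])

/-- A splitting of the cocycle on the subgroup `H`. -/
def Sec (r : Om F) (C : Coc F n) (H : Subgroup (Gam F)) : Prop :=
  ∃ a : Gam F → Om F, (∀ g ∈ H, a g ≠ 0) ∧
    (∀ g ∈ H, ∀ h ∈ H, a (g * h) = a g * g (a h) * ch r (C.c g h)) ∧
    Near fun g => g ∈ H → a g = 1

theorem sec_step (hr : IsPrimitiveRoot r (2 ^ n)) (C : Coc F n) (H H' : Subgroup (Gam F))
    (hle : H ≤ H') (hG : H' ≤ Geo F) (hn : Near fun g => g ∈ Geo F → g ∈ H)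
    (hidx : ∀ g ∈ H', ∀ h ∈ H', g ∉ H → h ∉ H → g * h ∈ H) (hS : Sec r C H) : Sec r C H' := by
  by_cases heq : H' ≤ H
  · rwa [le_antisymm heq hle]
  obtain ⟨g₀, hg₀, h0⟩ := SetLike.not_le_iff_exists.1 heq
  obtain ⟨a, ha0, ham, han⟩ := hS
  have hi0 : g₀⁻¹ ∉ H := fun e => h0 (by simpa using H.inv_mem e)
  have hnm : ∀ g, g ∉ H → ∀ h ∈ H, h * g ∉ H ∧ g * h ∉ H := fun g hg h hh =>
    ⟨fun e => hg (by simpa using H.mul_mem (H.inv_mem hh) e),
      fun e => hg (by simpa using H.mul_mem e (H.inv_mem hh))⟩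
  have hc : ∀ h ∈ H, g₀⁻¹ * h * g₀ ∈ H := fun h hh =>
    hidx _ (H'.mul_mem (H'.inv_mem hg₀) (hle hh)) _ hg₀ (hnm _ hi0 h hh).2 h0
  have hc' : ∀ h ∈ H, g₀ * h * g₀⁻¹ ∈ H := fun h hh =>
    hidx _ (H'.mul_mem hg₀ (hle hh)) _ (H'.inv_mem hg₀) (hnm _ h0 h hh).2 hi0
  have hH' : ∀ g ∈ H', g ∈ H ∨ g₀⁻¹ * g ∈ H := fun g hg =>
    (em (g ∈ H)).imp id fun h => hidx _ (H'.inv_mem hg₀) _ hg hi0 h
  let p : Ex hr C →* Gam F := MonoidHom.mk' (fun x => x.g) fun _ _ => rfl
  let i : (Om F)ˣ →* Ex hr C := MonoidHom.mk' (fun b => ⟨b, 1⟩) fun b b' => by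
    refine Ex.ext ?_ (one_mul _).symm
    change b * b' = b * (1 : Gam F) • b' * chu hr (C.c 1 1)
    rw [(C.one _ (one_mem _)).2, chu_zero, one_smul, mul_one]
  let s : Gam F → Ex hr C := fun g =>
    if h : g ∈ H then ⟨Units.mk0 _ (ha0 g h), ⟨g, hG (hle h)⟩⟩ else 1
  have hs : ∀ g (h : g ∈ H), s g = ⟨Units.mk0 _ (ha0 g h), ⟨g, hG (hle h)⟩⟩ :=
    fun g h => dif_pos h
  obtain ⟨y, hy0, hy⟩ := hilbert90 H' (fun g => if g ∈ H then 1 else -1)
    (fun g _ => by split_ifs <;> simp) (by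
      intro g hg h hh
      by_cases h1 : g ∈ H <;> by_cases h2 : h ∈ H
      · simp [h1, h2, H.mul_mem h1 h2]
      · simp [h1, h2, (hnm h h2 g h1).1]
      · simp [h1, h2, (hnm g h1 h h2).2]
      · simp [h1, h2, hidx g hg h hh h1 h2])
    (hn.mono fun g hg hg' => if_pos (hg (hG hg')))
  have hy1 : ∀ g ∈ H, g y = y := fun g hg => by simpa [hg] using hy g (hle hg)
  have hy2 : g₀ y = -y := by simpa [h0] using hy g₀ hg₀
  obtain ⟨s', e1, e2, e3⟩ := ext_step p i (fun b b' e => congrArg Ex.a e)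
    (fun e he => ⟨e.a, Ex.ext rfl (Subtype.ext he)⟩) (fun _ => rfl) (by
      intro e b
      refine Ex.ext ?_ ((mul_one _).trans (one_mul _).symm)
      change e.a * (e.g : Gam F) • b * chu hr (C.c e.g 1) =
        (e.g : Gam F) • b * (1 : Gam F) • e.a * chu hr (C.c 1 e.g)
      rw [(C.one _ e.g.2).1, (C.one _ e.g.2).2, one_smul, mul_comm e.a])
    H g₀ ⟨1, ⟨g₀, hG hg₀⟩⟩ rfl hc hc' (hidx _ hg₀ _ hg₀ h0 h0) h0 s
    (fun h hh => by rw [hs h hh]; rfl) (by
      intro g hg h hh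
      rw [hs g hg, hs h hh, hs _ (H.mul_mem hg hh)]
      exact Ex.ext (Units.ext (ham g hg h hh)) rfl) (by
      intro z hz hzm
      obtain ⟨b, hb0, hb⟩ := hilbert90 H (fun g => z g) (fun g _ => (z g).ne_zero)
        (fun g hg h hh => by rw [hzm g hg h hh]; rfl) (by
          refine ((han.and (han.conj g₀)).and (C.near.and (C.near.conj g₀))).mono ?_
          rintro h ⟨⟨h1, h2⟩, h3, h4⟩ hh
          have h5 := congrArg (fun x => (x.a : Om F)) (hz h hh)
          rw [hs h hh, hs _ (hc h hh)] at h5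
          change 1 * g₀ (a (g₀⁻¹ * h * g₀)) * ch r (C.c g₀ (g₀⁻¹ * h * g₀)) =
            z h * (1 : Gam F) (a h) * ch r (C.c 1 h) * (1 * h) 1 * ch r (C.c (1 * h) g₀) at h5
          rw [h1 hh, h2 (hc h hh), one_mul h, (h3 (hG (hle hh)) _ (hG hg₀)).2,
            (h4 (hG (hle (hc h hh))) _ (hG hg₀)).1, (C.one _ (hG (hle hh))).2, ch_zero] at h5
          simpa using h5.symm)
      exact ⟨Units.mk0 b hb0, fun h hh => Units.ext (hb h hh)⟩) (by
      intro b hb1 hb2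
      have hfix : ∀ z : Om F, (∀ h ∈ H, h z = z) → g₀ z = z → ∀ g ∈ H', g z = z := by
        intro z h1 h2 g hg
        rcases hH' g hg with h | h
        · exact h1 g h
        · have := congrArg g₀ (h1 _ h)
          rwa [AlgEquiv.mul_apply, self_apply_inv, h2] at this
      obtain ⟨x, hx0, hx, hx1⟩ := geo_tsen H' hG (hn.mono fun g hg hg' => hle (hg hg'))
        ![1, -y ^ 2, -b] (by
          intro j
          fin_cases j
          · simp
          · exact hfix _ (fun h hh => by simp [hy1 h hh]) (by simp [hy2])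
          · exact hfix _ (fun h hh => by simpa using congrArg Units.val (hb1 h hh))
              (by simpa using congrArg Units.val hb2))
      simp only [Fin.sum_univ_three, Matrix.cons_val] at hx1
      have h2 : x 2 ≠ 0 := by
        intro h2
        have h3 : x 0 ^ 2 = (y * x 1) ^ 2 := by rw [h2] at hx1; linear_combination hx1
        have h4 : x 0 = 0 := by
          by_contra h4
          apply ne_neg_self h4
          rcases sq_eq_sq_iff_eq_or_eq_neg.1 h3 with h5 | h5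
          · conv_lhs => rw [← hx 0 g₀ hg₀, h5, map_mul, hy2, hx 1 g₀ hg₀, neg_mul, ← h5]
          · conv_lhs => rw [← hx 0 g₀ hg₀, h5, map_neg, map_mul, hy2, hx 1 g₀ hg₀, neg_mul, ← h5]
        have h5 : x 1 = 0 := by
          rw [h4] at h3
          simpa [hy0] using h3.symm
        apply hx0
        funext j
        fin_cases j <;> assumption
      have h3 : (x 0 + y * x 1) / x 2 * g₀ ((x 0 + y * x 1) / x 2) = b := by
        rw [map_div₀, map_add, map_mul, hy2, hx 0 _ hg₀, hx 1 _ hg₀, hx 2 _ hg₀]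
        field_simp
        linear_combination hx1
      refine ⟨Units.mk0 _ (left_ne_zero_of_mul (h3 ▸ b.ne_zero)), fun h hh => Units.ext ?_,
        Units.ext h3⟩
      change h ((x 0 + y * x 1) / x 2) = (x 0 + y * x 1) / x 2
      rw [map_div₀, map_add, map_mul, hy1 h hh, hx 0 _ (hle hh), hx 1 _ (hle hh), hx 2 _ (hle hh)])
  refine ⟨fun g => (s' g).a, fun g _ => (s' g).a.ne_zero, fun g hg h hh => ?_, ?_⟩
  · have h1 : ((s' g).g : Gam F) = g := e2 g (hH' g hg)
    have h2 : ((s' h).g : Gam F) = h := e2 h (hH' h hh)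
    beta_reduce
    rw [e3 g (hH' g hg) h (hH' h hh), Ex.mul_a, h1, h2]
    rfl
  · refine (hn.and han).mono fun g hg hg' => ?_
    have := hg.1 (hG hg')
    beta_reduce
    rw [e1 g this, hs g this]
    exact hg.2 this

theorem phi_of_sec (hr : IsPrimitiveRoot r (2 ^ n)) (C : Coc F n) (hS : Sec r C (Geo F)) :
    ∃ f : Gam F → ZMod (2 ^ n), (∀ g ∈ Geo F, ∀ h ∈ Geo F, f (g * h) = f g + f h + C.c g h) ∧
      Near fun g => g ∈ Geo F → f g = 0 := by
  obtain ⟨a, ha0, ham, han⟩ := hS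
  obtain ⟨b, hb0, hb⟩ := hilbert90 (Geo F) (fun g => a g ^ 2 ^ n)
    (fun g hg => pow_ne_zero _ (ha0 g hg))
    (fun g hg h hh => by rw [ham g hg h hh, mul_pow, ch_pow_one hr, mul_one, mul_pow, map_pow])
    (han.mono fun g hg hg' => by rw [hg hg', one_pow])
  obtain ⟨w, hw⟩ := exists_rt b n
  have hw0 : w ≠ 0 := fun e => hb0 (by rw [← hw, e]; simp)
  have h1 : ∀ g, ∃ f : ZMod (2 ^ n), g ∈ Geo F → a g * w / g w = ch r f := by
    intro g
    by_cases hg : g ∈ Geo F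
    · obtain ⟨f, hf⟩ := ch_surj hr (w := a g * w / g w) (by
        rw [div_pow, mul_pow, ← map_pow, hw, hb g hg,
          div_self (mul_ne_zero (pow_ne_zero _ (ha0 g hg)) hb0)])
      exact ⟨f, fun _ => hf⟩
    · exact ⟨0, fun h => (hg h).elim⟩
  choose f hf using h1
  refine ⟨f, fun g hg h hh => ch_inj hr ?_, ?_⟩
  · rw [ch_add hr, ch_add hr, ← fix_ch (geo_prim hr hg) (f h), ← hf g hg, ← hf h hh,
      ← hf _ (mul_mem hg hh), ham g hg h hh, AlgEquiv.mul_apply, map_div₀, map_mul]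
    have h2 : g w ≠ 0 := by simpa using hw0
    have h3 : g (h w) ≠ 0 := by simpa using hw0
    field_simp
  · refine (han.and (Near.fix w)).mono fun g hg hg' => ch_inj hr ?_
    rw [← hf g hg', hg.1 hg', hg.2, ch_zero, one_mul, div_self hw0]

end

end Pool.Agent.Lib.MP_16ef92_ag
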