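import Mathlib

set_option autoImplicit false
set_option linter.unusedSectionVars false
set_option linter.unusedVariables false

namespace Pool.Agent.Lib.MP_16ef92_ag

open WeierstrassCurve WeierstrassCurve.Affine

noncomputable section

variable {L : Type} [Field L] [DecidableEq L] {W : Affine L} {e₁ e₂ e₃ : L}

/-- `W` is the curve `y^2 = (x - e₁) (x - e₂) (x - e₃)` with distinct roots, `2 ≠ 0`. -/
structure Cub (W : Affine L) (e₁ e₂ e₃ : L) : Prop where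
  a1 : W.a₁ = 0
  a3 : W.a₃ = 0
  a2 : W.a₂ = -(e₁ + e₂ + e₃)
  a4 : W.a₄ = e₁ * e₂ + e₁ * e₃ + e₂ * e₃
  a6 : W.a₆ = -(e₁ * e₂ * e₃)
  n12 : e₁ - e₂ ≠ 0
  n13 : e₁ - e₃ ≠ 0
  n23 : e₂ - e₃ ≠ 0
  two : (2 : L) ≠ 0

theorem Cub.swap (h : Cub W e₁ e₂ e₃) : Cub W e₂ e₁ e₃ :=
  ⟨h.a1, h.a3, by rw [h.a2]; ring, by rw [h.a4]; ring, by rw [h.a6]; ring,
    fun e => h.n12 (by linear_combination -e), h.n23, h.n13, h.two⟩

theorem Cub.swap' (h : Cub W e₁ e₂ e₃) : Cub W e₁ e₃ e₂ :=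
  ⟨h.a1, h.a3, by rw [h.a2]; ring, by rw [h.a4]; ring, by rw [h.a6]; ring,
    h.n13, h.n12, fun e => h.n23 (by linear_combination -e), h.two⟩

/-- The `x`-coordinate. -/
def xx : W.Point → L
  | .zero => 0
  | .some x _ _ => x

/-- The square root of `x(2Q) - e` attached to `Q`. -/
def aa (e : L) : W.Point → L
  | .zero => 0
  | .some x y _ => ((x - e) ^ 2 - (3 * e ^ 2 + 2 * W.a₂ * e + W.a₄)) / (2 * y)

theorem Cub.eqn (h : Cub W e₁ e₂ e₃) (x y : L) :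
    W.Equation x y ↔ y ^ 2 = (x - e₁) * (x - e₂) * (x - e₃) := by
  rw [equation_iff, h.a1, h.a2, h.a3, h.a4, h.a6]
  constructor <;> intro e <;> linear_combination e

theorem Cub.negY (h : Cub W e₁ e₂ e₃) (x y : L) : W.negY x y = -y := by
  simp [Affine.negY, h.a1, h.a3]

theorem Cub.ne_negY (h : Cub W e₁ e₂ e₃) (x : L) {y : L} (hy : y ≠ 0) : y ≠ W.negY x y := by
  rw [h.negY]
  intro e
  exact mul_ne_zero h.two hy (by linear_combination e)

theorem Cub.ns (h : Cub W e₁ e₂ e₃) {x y : L} (e : y ^ 2 = (x - e₁) * (x - e₂) * (x - e₃))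
    (hy : y ≠ 0) : W.Nonsingular x y :=
  (nonsingular_iff ..).2 ⟨(h.eqn x y).2 e, Or.inr (h.ne_negY x hy)⟩

theorem Cub.ns0 (h : Cub W e₁ e₂ e₃) : W.Nonsingular e₁ 0 := by
  refine (nonsingular_iff ..).2 ⟨(h.eqn _ _).2 (by ring), Or.inl fun e => ?_⟩
  rw [h.a1, h.a2, h.a4] at e
  exact mul_ne_zero h.n12 h.n13 (by linear_combination -e)

/-- The point of order two over `e₁`. -/
def Cub.tp (h : Cub W e₁ e₂ e₃) : W.Point := .some e₁ 0 h.ns0

theorem Cub.tp_add_self (h : Cub W e₁ e₂ e₃) : h.tp + h.tp = 0 :=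
  Point.add_self_of_Y_eq (by rw [h.negY, neg_zero])

theorem Cub.y_ne (h : Cub W e₁ e₂ e₃) {x y : L} {n : W.Nonsingular x y}
    (h2 : Point.some x y n + Point.some x y n ≠ 0) : y ≠ 0 := by
  rintro rfl
  exact h2 (Point.add_self_of_Y_eq (by rw [h.negY, neg_zero]))

theorem Cub.aa_eq (h : Cub W e₁ e₂ e₃) {x y : L} (n : W.Nonsingular x y) :
    aa e₁ (.some x y n) =
      ((x - e₁) * (x - e₂) + (x - e₁) * (x - e₃) - (x - e₂) * (x - e₃)) / (2 * y) := by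
  simp only [aa, h.a2, h.a4]
  congr 1
  ring

theorem Cub.two_tors (h : Cub W e₁ e₂ e₃) {Q : W.Point} (h2 : Q + Q = 0) :
    Q = 0 ∨ Q = h.tp ∨ Q = h.swap.tp ∨ Q = h.swap'.swap.tp := by
  rcases Q with _ | ⟨x, y, n⟩
  · exact Or.inl rfl
  have hy : y = 0 := by
    by_contra hy
    rw [Point.add_self_of_Y_ne (h.ne_negY x hy)] at h2
    exact Point.some_ne_zero _ h2
  subst hy
  have e := (h.eqn _ _).1 n.1
  rw [zero_pow two_ne_zero, eq_comm, mul_eq_zero, mul_eq_zero, sub_eq_zero, sub_eq_zero,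
    sub_eq_zero] at e
  rcases e with (rfl | rfl) | rfl
  · exact Or.inr (Or.inl rfl)
  · exact Or.inr (Or.inr (Or.inl rfl))
  · exact Or.inr (Or.inr (Or.inr rfl))

theorem Cub.tp_add (h : Cub W e₁ e₂ e₃) : h.tp + h.swap.tp = h.swap'.swap.tp := by
  unfold Cub.tp
  rw [Point.add_of_X_ne (sub_ne_zero.1 h.n12)]
  simp [slope_of_X_ne (sub_ne_zero.1 h.n12), addX, addY, negAddY, h.a1, h.a2, h.a3]
  ring

theorem Cub.dbl (h : Cub W e₁ e₂ e₃) {Q : W.Point} (h2 : Q + Q ≠ 0) :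
    aa e₁ Q ^ 2 = xx (Q + Q) - e₁ := by
  rcases Q with _ | ⟨x, y, n⟩
  · exact (h2 rfl).elim
  have hy := h.y_ne h2
  have e := (h.eqn _ _).1 n.1
  have h3 := h.two
  rw [Point.add_self_of_Y_ne (h.ne_negY x hy), h.aa_eq]
  simp only [xx, slope_of_Y_ne rfl (h.ne_negY x hy), addX, h.negY, h.a1, h.a2, h.a4]
  rw [show y - -y = 2 * y by ring]
  field_simp
  linear_combination (4 * ((x - e₂) + (x - e₃))) * e

theorem Cub.step (h : Cub W e₁ e₂ e₃) {Q : W.Point} (h2 : Q + Q ≠ 0) :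
    xx Q - e₁ = (aa e₁ Q + aa e₂ Q) * (aa e₁ Q + aa e₃ Q) := by
  rcases Q with _ | ⟨x, y, n⟩
  · exact (h2 rfl).elim
  have hy := h.y_ne h2
  have e := (h.eqn _ _).1 n.1
  have h3 := h.two
  rw [h.aa_eq, h.swap.aa_eq, h.swap'.swap.aa_eq]
  simp only [xx]
  field_simp
  linear_combination (4 * (x - e₁)) * e

theorem Cub.aa_neg (h : Cub W e₁ e₂ e₃) (e : L) (Q : W.Point) : aa e (-Q) = -aa e Q := by
  rcases Q with _ | ⟨x, y, n⟩
  · change (0 : L) = -0
    simp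
  · rw [Point.neg_some]
    simp only [aa, h.negY]
    rw [mul_neg, div_neg]

theorem Cub.shift (h : Cub W e₁ e₂ e₃) {Q : W.Point} (h2 : Q + Q ≠ 0) :
    aa e₁ (Q + h.tp) = aa e₁ Q ∧ aa e₂ (Q + h.tp) = -aa e₂ Q := by
  rcases Q with _ | ⟨x, y, n⟩
  · exact (h2 rfl).elim
  have hy := h.y_ne h2
  have e := (h.eqn _ _).1 n.1
  have h3 := h.two
  have hx : x - e₁ ≠ 0 := fun e' => hy (by rw [e'] at e; simpa using e)
  have h12 := h.n12
  have h13 := h.n13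
  have hX : W.addX x e₁ (W.slope x e₁ y 0) = e₁ + (e₁ - e₂) * (e₁ - e₃) / (x - e₁) := by
    simp only [slope_of_X_ne (sub_ne_zero.1 hx), addX, h.a1, h.a2]
    field_simp
    linear_combination e
  have hY : W.addY x e₁ y (W.slope x e₁ y 0) = -y * ((e₁ - e₂) * (e₁ - e₃)) / (x - e₁) ^ 2 := by
    rw [addY, negAddY, h.negY, hX, slope_of_X_ne (sub_ne_zero.1 hx)]
    field_simp
    ring
  unfold Cub.tp
  rw [Point.add_of_X_ne (sub_ne_zero.1 hx), h.aa_eq, h.aa_eq, h.swap.aa_eq, h.swap.aa_eq, hX, hY]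
  constructor <;> field_simp <;> ring

theorem Cub.half (h : Cub W e₁ e₂ e₃) (hs : ∀ z : L, ∃ w, w ^ 2 = z) (P : W.Point) :
    ∃ Q, Q + Q = P := by
  rcases P with _ | ⟨x, y, n⟩
  · exact ⟨0, rfl⟩
  obtain ⟨a, ha⟩ := hs (x - e₁)
  obtain ⟨b, hb⟩ := hs (x - e₂)
  obtain ⟨c, hc⟩ := hs (x - e₃)
  have hab : a + b ≠ 0 := fun e => h.n12 (by linear_combination ha - hb - (a - b) * e)
  have hac : a + c ≠ 0 := fun e => h.n13 (by linear_combination ha - hc - (a - c) * e)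
  have hbc : b + c ≠ 0 := fun e => h.n23 (by linear_combination hb - hc - (b - c) * e)
  have h1 : x + (a * b + a * c + b * c) - e₁ = (a + b) * (a + c) := by linear_combination -ha
  have h2 : x + (a * b + a * c + b * c) - e₂ = (a + b) * (b + c) := by linear_combination -hb
  have h3 : x + (a * b + a * c + b * c) - e₃ = (a + c) * (b + c) := by linear_combination -hc
  have hy := mul_ne_zero (mul_ne_zero hab hac) hbc
  have n' : W.Nonsingular (x + (a * b + a * c + b * c)) ((a + b) * (a + c) * (b + c)) :=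
    h.ns (by rw [h1, h2, h3]; ring) hy
  have hd := h.dbl (Q := .some _ _ n') (by
    rw [Point.add_self_of_Y_ne (h.ne_negY _ hy)]
    exact Point.some_ne_zero _)
  have h4 := h.two
  have h5 : aa e₁ (.some _ _ n') = a := by
    rw [h.aa_eq, h1, h2, h3]
    field_simp
    ring
  rw [h5, ha, sub_left_inj] at hd
  have h6 := Point.add_self_of_Y_ne (h₁ := n') (h.ne_negY _ hy)
  rw [h6] at hd
  rcases (Point.X_eq_iff (h₁ := n)).1 hd with e | e
  · exact ⟨_, h6.trans e.symm⟩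
  · exact ⟨-(.some _ _ n'), by rw [← neg_add, h6]; exact e.symm⟩

end

end Pool.Agent.Lib.MP_16ef92_ag
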