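import Mathlib

set_option autoImplicit false
set_option linter.unusedSectionVars false
set_option linter.unusedVariables false

namespace Pool.Agent.Lib.MP_16ef92_ag

open scoped Classical

noncomputable section

/-- Pairs of 2-adic integers. -/
abbrev V : Type := ℤ_[2] × ℤ_[2]

/-- The determinant pairing. -/
def om (x y : V) : ℤ_[2] := x.1 * y.2 - x.2 * y.1

/-- Vectors divisible by `2^n`. -/
def Dv (n : ℕ) : Submodule ℤ_[2] V where
  carrier := {x | 2 ^ n ∣ x.1 ∧ 2 ^ n ∣ x.2}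
  add_mem' := fun ha hb => ⟨dvd_add ha.1 hb.1, dvd_add ha.2 hb.2⟩
  zero_mem' := ⟨dvd_zero _, dvd_zero _⟩
  smul_mem' := fun c _ h => ⟨Dvd.dvd.mul_left h.1 c, Dvd.dvd.mul_left h.2 c⟩

theorem mem_Dv {n : ℕ} {x : V} : x ∈ Dv n ↔ 2 ^ n ∣ x.1 ∧ 2 ^ n ∣ x.2 := Iff.rfl

theorem mem_Dv_iff {n : ℕ} {x : V} : x ∈ Dv n ↔ ∃ z : V, x = (2 : ℤ_[2]) ^ n • z := by
  constructor
  · rintro ⟨⟨a, ha⟩, b, hb⟩
    exact ⟨(a, b), Prod.ext ha hb⟩
  · rintro ⟨z, rfl⟩
    exact ⟨dvd_mul_right _ _, dvd_mul_right _ _⟩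

theorem smul_mem_Dv (n : ℕ) (z : V) : (2 : ℤ_[2]) ^ n • z ∈ Dv n := mem_Dv_iff.2 ⟨z, rfl⟩

theorem Dv_zero (x : V) : x ∈ Dv 0 := by simp [mem_Dv]

theorem Dv_mono {m n : ℕ} (h : m ≤ n) {x : V} (hx : x ∈ Dv n) : x ∈ Dv m :=
  ⟨(pow_dvd_pow 2 h).trans hx.1, (pow_dvd_pow 2 h).trans hx.2⟩

theorem smul_mem_Dv_iff {n m : ℕ} {z : V} : (2 : ℤ_[2]) ^ n • z ∈ Dv (n + m) ↔ z ∈ Dv m := by
  simp only [mem_Dv, Prod.smul_fst, Prod.smul_snd, smul_eq_mul, pow_add]
  rw [mul_dvd_mul_iff_left (by simp), mul_dvd_mul_iff_left (by simp)]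

theorem map_Dv (f : Module.End ℤ_[2] V) {n : ℕ} {x : V} (hx : x ∈ Dv n) : f x ∈ Dv n := by
  obtain ⟨z, rfl⟩ := mem_Dv_iff.1 hx
  rw [map_smul]
  exact smul_mem_Dv n _

/-- Reduction modulo `2^n`. -/
abbrev red (n : ℕ) : ℤ_[2] →+* ZMod (2 ^ n) := PadicInt.toZModPow n

theorem red_eq_zero {n : ℕ} {a : ℤ_[2]} : red n a = 0 ↔ 2 ^ n ∣ a := by
  rw [← RingHom.mem_ker, PadicInt.ker_toZModPow, Ideal.mem_span_singleton]
  simp

theorem red_eq {n : ℕ} {a b : ℤ_[2]} : red n a = red n b ↔ 2 ^ n ∣ a - b := by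
  rw [← red_eq_zero, map_sub, sub_eq_zero]

theorem exists_nat (n : ℕ) (a : ℤ_[2]) : ∃ m : ℕ, 2 ^ n ∣ a - m := by
  refine ⟨a.appr n, ?_⟩
  simpa [Ideal.mem_span_singleton] using PadicInt.appr_spec n a

theorem red_surj {n : ℕ} (a : ZMod (2 ^ n)) : ∃ b, red n b = a := ⟨a.val, by simp⟩

theorem red_mul_eq_zero {i j : ℕ} {a : ℤ_[2]} : 2 ^ i * red (i + j) a = 0 ↔ 2 ^ j ∣ a := by
  have : (2 : ZMod (2 ^ (i + j))) ^ i = red (i + j) (2 ^ i) := by rw [map_pow, map_ofNat]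
  rw [this, ← map_mul, red_eq_zero, pow_add, mul_dvd_mul_iff_left (by simp)]

theorem eq_zero_of_dvd {a : ℤ_[2]} (h : ∀ n, 2 ^ n ∣ a) : a = 0 :=
  PadicInt.ext_of_toZModPow.1 fun n => by rw [map_zero]; exact red_eq_zero.2 (h n)

theorem eq_zero_of_Dv {x : V} (h : ∀ n, x ∈ Dv n) : x = 0 :=
  Prod.ext (eq_zero_of_dvd fun n => (h n).1) (eq_zero_of_dvd fun n => (h n).2)

theorem parity (a : ℤ_[2]) : ∃ b, a = 2 * b ∨ a = 2 * b + 1 := by
  obtain ⟨m, c, hc⟩ := exists_nat 1 a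
  obtain ⟨l, rfl | rfl⟩ := Nat.even_or_odd' m
  · exact ⟨c + l, Or.inl (by push_cast at hc; linear_combination hc)⟩
  · exact ⟨c + l, Or.inr (by push_cast at hc; linear_combination hc)⟩

theorem unit_of_odd {a : ℤ_[2]} (h : ¬ 2 ∣ a) : IsUnit a := by
  rw [PadicInt.isUnit_iff]
  refine le_antisymm a.norm_le_one (not_lt.1 fun h' => h ?_)
  simpa using (PadicInt.norm_lt_one_iff_dvd a).1 h'

theorem two_pow_smul_inj {n : ℕ} {x y : V} (h : (2 : ℤ_[2]) ^ n • x = (2 : ℤ_[2]) ^ n • y) :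
    x = y := smul_right_injective V (by simp) h

theorem lim (C : ℕ → V → Prop) (hne : ∀ n, ∃ x, C n x) (hdec : ∀ n x, C (n + 1) x → C n x)
    (hinv : ∀ n x y, C n x → y - x ∈ Dv n → C n y) : ∃ x, ∀ n, C n x := by
  have hcl : ∀ n, IsClosed {x | C n x} := by
    intro n
    rw [← isOpen_compl_iff, Metric.isOpen_iff]
    intro x hx
    refine ⟨((2 : ℕ) : ℝ) ^ (-(n : ℤ)), by positivity, fun y hy hC => hx (hinv n y x hC ?_)⟩
    rw [Metric.mem_ball, dist_comm, Prod.dist_eq, max_lt_iff, dist_eq_norm, dist_eq_norm] at hy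
    constructor
    · simpa [Ideal.mem_span_singleton] using (PadicInt.norm_le_pow_iff_mem_span_pow _ n).1 hy.1.le
    · simpa [Ideal.mem_span_singleton] using (PadicInt.norm_le_pow_iff_mem_span_pow _ n).1 hy.2.le
  obtain ⟨x, hx⟩ := IsCompact.nonempty_iInter_of_sequence_nonempty_isCompact_isClosed
    (fun n => {x | C n x}) hdec hne (hcl 0).isCompact hcl
  exact ⟨x, Set.mem_iInter.1 hx⟩

/-- Additive maps are linear. -/
def lin (f : V →+ V) : Module.End ℤ_[2] V where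
  toFun := f
  map_add' := f.map_add
  map_smul' := fun a x => by
    rw [← sub_eq_zero]
    refine eq_zero_of_Dv fun n => ?_
    obtain ⟨m, c, hc⟩ := exists_nat n a
    have h1 : ∀ (l : ℕ) (y : V), f ((l : ℤ_[2]) • y) = (l : ℤ_[2]) • f y := fun l y => by
      rw [Nat.cast_smul_eq_nsmul, Nat.cast_smul_eq_nsmul, map_nsmul]
    have h2 := h1 (2 ^ n) (c • x)
    push_cast at h2
    rw [RingHom.id_apply, sub_eq_iff_eq_add.1 hc, add_smul, add_smul, map_add, h1, mul_smul, h2,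
      mul_smul, add_sub_add_right_eq_sub, ← smul_sub]
    exact smul_mem_Dv n _

/-- The determinant. -/
def dt (f : Module.End ℤ_[2] V) : ℤ_[2] := om (f (1, 0)) (f (0, 1))

theorem end_apply (f : Module.End ℤ_[2] V) (x : V) : f x = x.1 • f (1, 0) + x.2 • f (0, 1) := by
  rw [← map_smul, ← map_smul, ← map_add]
  simp

theorem om_map (f : Module.End ℤ_[2] V) (x y : V) : om (f x) (f y) = dt f * om x y := by
  rw [end_apply f x, end_apply f y]
  simp only [om, dt, Prod.fst_add, Prod.snd_add, Prod.smul_fst, Prod.smul_snd, smul_eq_mul]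
  ring

theorem dt_mul (f g : Module.End ℤ_[2] V) : dt (f * g) = dt f * dt g := om_map f _ _

theorem dt_one : dt 1 = 1 := by simp [dt, om]

theorem om_add_left (x y z : V) : om (x + y) z = om x z + om y z := by simp [om]; ring
theorem om_add_right (x y z : V) : om x (y + z) = om x y + om x z := by simp [om]; ring
theorem om_sub_left (x y z : V) : om (x - y) z = om x z - om y z := by simp [om]; ring
theorem om_sub_right (x y z : V) : om x (y - z) = om x y - om x z := by simp [om]; ring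
theorem om_smul_left (a : ℤ_[2]) (x y : V) : om (a • x) y = a * om x y := by simp [om]; ring
theorem om_smul_right (a : ℤ_[2]) (x y : V) : om x (a • y) = a * om x y := by simp [om]; ring
theorem om_self (x : V) : om x x = 0 := by simp [om]; ring
theorem om_zero_left (x : V) : om 0 x = 0 := by simp [om]
theorem om_zero_right (x : V) : om x 0 = 0 := by simp [om]

theorem om_dvd_left {n : ℕ} {x : V} (h : x ∈ Dv n) (y : V) : 2 ^ n ∣ om x y :=
  dvd_sub (h.1.mul_right _) (h.2.mul_right _)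

theorem om_dvd_right {n : ℕ} (x : V) {y : V} (h : y ∈ Dv n) : 2 ^ n ∣ om x y :=
  dvd_sub (h.2.mul_left _) (h.1.mul_left _)

theorem exists_dual {r : V} (hr : r ∉ Dv 1) : ∃ s, om r s = 1 := by
  rw [mem_Dv, pow_one, not_and_or] at hr
  rcases hr with h | h
  · obtain ⟨u, hu⟩ := (unit_of_odd h).exists_right_inv
    exact ⟨(0, u), by simp [om, hu]⟩
  · obtain ⟨u, hu⟩ := (unit_of_odd h).exists_right_inv
    exact ⟨(-u, 0), by simp [om, hu]⟩

theorem dual_expand {r s : V} (h : om r s = 1) (x : V) : x = om x s • r + om r x • s := by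
  unfold om at *
  ext
  · simp only [Prod.fst_add, Prod.smul_fst, smul_eq_mul]
    linear_combination (-x.1) * h
  · simp only [Prod.snd_add, Prod.smul_snd, smul_eq_mul]
    linear_combination (-x.2) * h

/-- Lifts of the three points of order two. -/
def tv : Fin 3 → V := ![(1, 0), (0, 1), (1, 1)]

/-- The pairing with the three points of order two. -/
def cc (i : Fin 3) (x : V) : ZMod (2 ^ 1) := red 1 (om x (tv i))

theorem cc_add (i : Fin 3) (x y : V) : cc i (x + y) = cc i x + cc i y := by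
  simp [cc, om_add_left]

theorem cc_sub (i : Fin 3) (x y : V) : cc i (x - y) = cc i x - cc i y := by
  simp [cc, om_sub_left]

theorem cc_smul (i : Fin 3) (a : ℤ_[2]) (x : V) : cc i (a • x) = red 1 a * cc i x := by
  simp [cc, om_smul_left]

theorem cc_of_Dv (i : Fin 3) {x : V} (h : x ∈ Dv 1) : cc i x = 0 := red_eq_zero.2 (om_dvd_left h _)

theorem cc_congr (i : Fin 3) {x y : V} (h : x - y ∈ Dv 1) : cc i x = cc i y := by
  rw [← sub_eq_zero, ← cc_sub, cc_of_Dv i h]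

theorem neg_z2 (a : ZMod (2 ^ 1)) : -a = a := by revert a; decide

theorem cc0 (x : V) : cc 0 x = red 1 x.2 := by simp [cc, tv, om, neg_z2]
theorem cc1 (x : V) : cc 1 x = red 1 x.1 := by simp [cc, tv, om]
theorem cc2 (x : V) : cc 2 x = red 1 x.1 + red 1 x.2 := by
  simp [cc, tv, om, sub_eq_add_neg, neg_z2]

theorem cc_sum {i j k : Fin 3} (hij : i ≠ j) (hik : i ≠ k) (hjk : j ≠ k) (x : V) :
    cc i x + cc j x + cc k x = 0 := by
  have h : ∀ a b : ZMod (2 ^ 1), ∀ i j k : Fin 3, i ≠ j → i ≠ k → j ≠ k →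
      ![b, a, a + b] i + ![b, a, a + b] j + ![b, a, a + b] k = 0 := by decide
  have e : ∀ i, cc i x = ![red 1 x.2, red 1 x.1, red 1 x.1 + red 1 x.2] i := by
    intro i
    fin_cases i
    exacts [cc0 x, cc1 x, cc2 x]
  rw [e, e, e]
  exact h _ _ i j k hij hik hjk

theorem Dv_of_cc {i j : Fin 3} (hij : i ≠ j) {x : V} (hi : cc i x = 0) (hj : cc j x = 0) :
    x ∈ Dv 1 := by
  have h : ∀ a b : ZMod (2 ^ 1), ∀ i j : Fin 3, i ≠ j →
      ![b, a, a + b] i = 0 → ![b, a, a + b] j = 0 → a = 0 ∧ b = 0 := by decide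
  have e : ∀ i, cc i x = ![red 1 x.2, red 1 x.1, red 1 x.1 + red 1 x.2] i := by
    intro i
    fin_cases i
    exacts [cc0 x, cc1 x, cc2 x]
  rw [e] at hi hj
  obtain ⟨h1, h2⟩ := h _ _ i j hij hi hj
  exact ⟨red_eq_zero.1 h1, red_eq_zero.1 h2⟩

theorem cc_tv (i j : Fin 3) : cc i (tv j) = if i = j then 0 else 1 := by
  fin_cases i <;> fin_cases j <;> simp [cc, tv, om, neg_z2]

theorem tv_prim {j : Fin 3} {x : V} (h : x - tv j ∈ Dv 1) : x ∉ Dv 1 := by
  intro hx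
  have h1 := cc_congr (j + 1) h
  rw [cc_of_Dv _ hx, cc_tv, if_neg (by simp)] at h1
  exact absurd h1 (by decide)

theorem prim_tv {x : V} (h : x ∉ Dv 1) : ∃ j, x - tv j ∈ Dv 1 := by
  obtain ⟨a, ha | ha⟩ := parity x.1 <;> obtain ⟨b, hb | hb⟩ := parity x.2
  · exact (h ⟨⟨a, by simpa using ha⟩, ⟨b, by simpa using hb⟩⟩).elim
  · exact ⟨1, ⟨a, by simp [tv, ha]⟩, ⟨b, by simp [tv, hb]⟩⟩
  · exact ⟨0, ⟨a, by simp [tv, ha]⟩, ⟨b, by simp [tv, hb]⟩⟩
  · exact ⟨2, ⟨a, by simp [tv, ha]⟩, ⟨b, by simp [tv, hb]⟩⟩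

section pe

variable {A : Type} [AddCommGroup A] (b : ℕ → A) (h0 : b 0 = 0) (h2 : ∀ n, 2 • b (n + 1) = b n)
include h0 h2

theorem chain_tors (n : ℕ) : 2 ^ n • b n = 0 := by
  induction n with
  | zero => simpa using h0
  | succ n ih => rw [pow_succ, mul_smul, h2, ih]

theorem val_smul_eq {n m : ℕ} {a : ℤ_[2]} (h : 2 ^ n ∣ a - m) : (red n a).val • b n = m • b n := by
  rw [red_eq.2 h, map_natCast, ZMod.val_natCast]
  conv_rhs => rw [← Nat.mod_add_div m (2 ^ n), add_smul, mul_comm, mul_smul, chain_tors b h0 h2,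
    smul_zero, add_zero]

/-- The multiples of a chain by 2-adic integers. -/
def pe : ℤ_[2] →+ ℕ → A := AddMonoidHom.mk' (fun a n => (red n a).val • b n) fun a c => by
  funext n
  obtain ⟨m, hm⟩ := exists_nat n a
  obtain ⟨l, hl⟩ := exists_nat n c
  rw [Pi.add_apply, val_smul_eq b h0 h2 hm, val_smul_eq b h0 h2 hl,
    val_smul_eq b h0 h2 (m := m + l) (by convert dvd_add hm hl using 1; push_cast; ring), add_smul]

theorem pe_eq {n m : ℕ} {a : ℤ_[2]} (h : 2 ^ n ∣ a - m) : pe b h0 h2 a n = m • b n :=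
  val_smul_eq b h0 h2 h

theorem pe_two (a : ℤ_[2]) (n : ℕ) : 2 • pe b h0 h2 a (n + 1) = pe b h0 h2 a n := by
  obtain ⟨m, hm⟩ := exists_nat (n + 1) a
  rw [pe_eq b h0 h2 hm, pe_eq b h0 h2 ((pow_dvd_pow 2 n.le_succ).trans hm), smul_comm, h2]

end pe

end

end Pool.Agent.Lib.MP_16ef92_ag
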