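import Mathlib
import Pool.Agent.Lib.MP_16ef92_ag.Kum
import Pool.Agent.Lib.MP_16ef92_ag.Ell
import Pool.Agent.Lib.MP_16ef92_ag.Pad

set_option autoImplicit false
set_option linter.unusedSectionVars false
set_option linter.unusedVariables false

namespace Pool.Agent.Lib.MP_16ef92_ag

open WeierstrassCurve WeierstrassCurve.Affine
open scoped Classical

noncomputable section

variable {F : Type} [Field F] [Clos F] [Fintype F] [hq : Fact (Odd (Fintype.card F))]

theorem prim_one : IsPrimitiveRoot (-1 : Om F) (2 ^ 1) := by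
  refine IsPrimitiveRoot.mk_of_lt _ (by norm_num) (by norm_num) fun l h0 h2 => ?_
  obtain rfl : l = 1 := by omega
  rw [pow_one]
  exact (ne_neg_self one_ne_zero).symm

theorem z2_cases (a : ZMod (2 ^ 1)) : a = 0 ∨ a = 1 := by revert a; decide

theorem ch_one_one : ch (-1 : Om F) (1 : ZMod (2 ^ 1)) = -1 := by
  simpa using ch_nat (F := F) prim_one 1

/-- The Galois action on the Tate module together with the explicit halving data. -/
structure TD (e : Fin 3 → Om F) where
  ro : Gam F →* Module.End ℤ_[2] V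
  al : ℕ → Fin 3 → V → Om F
  X : ℕ → V → Om F
  efix : ∀ (g : Gam F) i, g (e i) = e i
  ene : ∀ i j, i ≠ j → e i - e j ≠ 0
  triv : ∀ g x, ro g x - x ∈ Dv 1
  near : ∀ n, Near fun g => ∀ x, ro g x - x ∈ Dv n
  equiv : ∀ (g : Gam F) n i x, g (al n i x) = al n i (ro g x)
  sq : ∀ n i x, x ∉ Dv 1 → al n i x ^ 2 = X n x - e i
  X0 : ∀ j x, x - tv j ∈ Dv 1 → X 0 x = e j
  step : ∀ n i j k x, x ∉ Dv 1 → i ≠ j → i ≠ k → j ≠ k →
    X (n + 1) x - e i = (al n i x + al n j x) * (al n i x + al n k x)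
  neg : ∀ n i x, al n i (-x) = -al n i x
  shift : ∀ n i x z, x ∉ Dv 1 →
    al n i (x + (2 : ℤ_[2]) ^ (n + 1) • z) = ch (-1) (cc i z) * al n i x

theorem cub_perm {L : Type} [Field L] [DecidableEq L] {W : Affine L} {e : Fin 3 → L} (h : Cub W (e 0) (e 1) (e 2))
    {i j k : Fin 3} (hij : i ≠ j) (hik : i ≠ k) (hjk : j ≠ k) : Cub W (e i) (e j) (e k) := by
  fin_cases i <;> fin_cases j <;> fin_cases k <;> simp at hij hik hjk
  exacts [h, h.swap', h.swap, h.swap.swap', h.swap'.swap, h.swap.swap'.swap]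

theorem exists_third {i j : Fin 3} (hij : i ≠ j) : ∃ k, i ≠ k ∧ j ≠ k := by
  revert i j
  decide

theorem exists_two (i : Fin 3) : ∃ j k, i ≠ j ∧ i ≠ k ∧ j ≠ k := by
  revert i
  decide

section pts

variable {W : WeierstrassCurve (RatFunc F)}

/-- The action on points. -/
abbrev pm (g : Gam F) : Pt W →+ Pt W :=
  Point.map (W' := W.toAffine) (g : Om F →ₐ[RatFunc F] Om F)

theorem act_apply (g : Gam F) (P : ℕ → Pt W) (n : ℕ) : act g P n = pm g (P n) := rfl

theorem pm_mul (g h : Gam F) (P : Pt W) : pm (g * h) P = pm g (pm h P) := by cases P <;> rfl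

theorem pm_one (P : Pt W) : pm 1 P = P := by cases P <;> rfl

theorem pm_some (g : Gam F) {x y : Om F} (n : (W.baseChange (Om F)).toAffine.Nonsingular x y) :
    ∃ n', pm g (.some x y n) = .some (g x) (g y) n' := ⟨_, rfl⟩

theorem near_pm (P : Pt W) : Near fun g : Gam F => pm g P = P := by
  rcases P with _ | ⟨x, y, n⟩
  · exact Near.of_forall fun g => rfl
  · refine ((Near.fix x).and (Near.fix y)).mono fun g hg => ?_
    obtain ⟨n', e⟩ := pm_some g n
    rw [e]
    simp only [hg.1, hg.2]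

theorem aa_pm (g : Gam F) {e : Om F} (he : g e = e) (P : Pt W) : aa e (pm g P) = g (aa e P) := by
  rcases P with _ | ⟨x, y, n⟩
  · exact (map_zero g).symm
  · obtain ⟨n', e'⟩ := pm_some g n
    have h2 : g (W.baseChange (Om F)).toAffine.a₂ = (W.baseChange (Om F)).toAffine.a₂ :=
      g.commutes W.a₂
    have h4 : g (W.baseChange (Om F)).toAffine.a₄ = (W.baseChange (Om F)).toAffine.a₄ :=
      g.commutes W.a₄
    rw [e']
    simp only [aa, map_div₀, map_sub, map_add, map_mul, map_pow, map_ofNat, he, h2, h4]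

theorem act_add (g : Gam F) (P Q : ℕ → Pt W) : act g (P + Q) = act g P + act g Q :=
  funext fun n => (pm g).map_add _ _

theorem act_mul (g h : Gam F) (P : ℕ → Pt W) : act (g * h) P = act g (act h P) :=
  funext fun n => pm_mul g h _

theorem act_one (P : ℕ → Pt W) : act 1 P = P := funext fun n => pm_one _

theorem InTate.act {P : ℕ → Pt W} (h : InTate P) (g : Gam F) : InTate (act g P) :=
  ⟨by rw [act_apply, h.1, map_zero], fun n => by rw [act_apply, act_apply, ← map_nsmul, h.2]⟩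

theorem exists_chain {A : Type} [AddCommGroup A] (hh : ∀ P : A, ∃ Q, Q + Q = P) {T : A}
    (hT : T + T = 0) : ∃ b : ℕ → A, b 0 = 0 ∧ b 1 = T ∧ ∀ n, 2 • b (n + 1) = b n := by
  choose f hf using hh
  refine ⟨fun n => Nat.casesOn n 0 fun m => f^[m] T, rfl, rfl, fun n => ?_⟩
  cases n with
  | zero => exact (two_nsmul _).trans hT
  | succ n =>
    change 2 • f^[n + 1] T = f^[n] T
    rw [Function.iterate_succ_apply', two_nsmul, hf]

theorem exists_TD {e : Fin 3 → Om F} (hW : Cub (W.baseChange (Om F)).toAffine (e 0) (e 1) (e 2))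
    (he : ∀ (g : Gam F) i, g (e i) = e i) :
    ∃ (T : TD e) (ev : V →+ ℕ → Pt W), (∀ x, InTate (ev x)) ∧ (∀ P, InTate P → ∃ x, ev x = P) ∧
      (∀ n x, ev x n = 0 ↔ x ∈ Dv n) ∧ ∀ g x, ev (T.ro g x) = act g (ev x) := by
  obtain ⟨b₁, h10, h11, h12⟩ := exists_chain (hW.half exists_sq) hW.tp_add_self
  obtain ⟨b₂, h20, h21, h22⟩ := exists_chain (hW.half exists_sq) hW.swap.tp_add_self
  let ev : V →+ ℕ → Pt W := (pe b₁ h10 h12).coprod (pe b₂ h20 h22)
  have ev_app : ∀ x n, ev x n = pe b₁ h10 h12 x.1 n + pe b₂ h20 h22 x.2 n := fun _ _ => rfl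
  have ev_two : ∀ x n, 2 • ev x (n + 1) = ev x n := fun x n => by
    rw [ev_app, ev_app, smul_add, pe_two, pe_two]
  have ev_two' : ∀ x n, ev x (n + 1) + ev x (n + 1) = ev x n := fun x n => by
    rw [← two_nsmul, ev_two]
  have ev_Dv : ∀ n x, x ∈ Dv n → ev x n = 0 := fun n x hx => by
    rw [ev_app, pe_eq b₁ h10 h12 (m := 0) (by simpa using hx.1),
      pe_eq b₂ h20 h22 (m := 0) (by simpa using hx.2)]
    simp
  have ev_congr : ∀ n x y, x - y ∈ Dv n → ev x n = ev y n := fun n x y h => by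
    rw [← sub_eq_zero, ← Pi.sub_apply, ← map_sub, ev_Dv n _ h]
  have ev_pow : ∀ n m z, ev ((2 : ℤ_[2]) ^ n • z) (m + n) = ev z m := by
    intro n m z
    induction n with
    | zero => simp
    | succ n ih => rw [pow_succ', mul_smul, two_smul, map_add, Pi.add_apply, ← add_assoc, ev_two', ih]
  have t0 : ev (tv 0) 1 = hW.tp := by
    rw [ev_app, pe_eq b₁ h10 h12 (m := 1) (by simp [tv]), pe_eq b₂ h20 h22 (m := 0) (by simp [tv])]
    simpa using h11
  have t1 : ev (tv 1) 1 = hW.swap.tp := by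
    rw [ev_app, pe_eq b₁ h10 h12 (m := 0) (by simp [tv]), pe_eq b₂ h20 h22 (m := 1) (by simp [tv])]
    simpa using h21
  have t2 : ev (tv 2) 1 = hW.swap'.swap.tp := by
    have : tv 2 = tv 0 + tv 1 := by simp [tv]
    rw [this, map_add, Pi.add_apply, t0, t1, hW.tp_add]
  have ev_tv : ∀ i j k (h : Cub (W.baseChange (Om F)).toAffine (e i) (e j) (e k)),
      ev (tv i) 1 = h.tp := by
    intro i j k h
    fin_cases i
    exacts [t0, t1, t2]
  have ev_one : ∀ x, ev x 1 = 0 → x ∈ Dv 1 := by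
    intro x hx
    by_contra h
    obtain ⟨j, hj⟩ := prim_tv h
    obtain ⟨i, k, h1, h2, h3⟩ := exists_two j
    rw [ev_congr 1 _ _ hj, ev_tv _ _ _ (cub_perm hW h1 h2 h3)] at hx
    exact Point.some_ne_zero _ hx
  have ev_zero : ∀ n x, ev x n = 0 → x ∈ Dv n := by
    intro n
    induction n with
    | zero => exact fun x _ => Dv_zero x
    | succ n ih =>
      intro x hx
      obtain ⟨z, rfl⟩ := mem_Dv_iff.1 (ih x (by rw [← ev_two, hx, smul_zero]))
      rw [add_comm, ev_pow] at hx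
      exact smul_mem_Dv_iff.2 (ev_one z hx)
  have ev_inj : ∀ x y, ev x = ev y → x = y := fun x y h => by
    rw [← sub_eq_zero]
    exact eq_zero_of_Dv fun n => ev_zero n _ (by rw [map_sub, h, sub_self]; rfl)
  have ev_in : ∀ x, InTate (ev x) := fun x => ⟨ev_Dv 0 x (Dv_zero x), ev_two x⟩
  have ev_surj : ∀ P, InTate P → ∃ x, ev x = P := by
    intro P hP
    obtain ⟨x, hx⟩ := lim (fun n x => ev x n = P n) (by
      intro n
      induction n with
      | zero => exact ⟨0, by rw [hP.1, map_zero]; rfl⟩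
      | succ n ih =>
        obtain ⟨x, hx⟩ := ih
        have h1 : ∃ z, ev z 1 = P (n + 1) - ev x (n + 1) := by
          rcases hW.two_tors (Q := P (n + 1) - ev x (n + 1)) (by
            rw [← two_nsmul, smul_sub, hP.2, ev_two, hx, sub_self]) with h | h | h | h
          exacts [⟨0, by rw [h, map_zero]; rfl⟩, ⟨_, t0.trans h.symm⟩, ⟨_, t1.trans h.symm⟩,
            ⟨_, t2.trans h.symm⟩]
        obtain ⟨z, hz⟩ := h1
        exact ⟨x + (2 : ℤ_[2]) ^ n • z, by
          rw [map_add, Pi.add_apply, add_comm n 1, ev_pow, hz, add_comm 1 n, add_sub_cancel]⟩)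
      (fun n x h => by rw [← ev_two, h, hP.2]) (fun n x y h h' => by rw [ev_congr n y x h', h])
    exact ⟨x, funext hx⟩
  choose r0 hr0 using fun (g : Gam F) x => ev_surj _ ((ev_in x).act g)
  let ro : Gam F →* Module.End ℤ_[2] V :=
    { toFun := fun g => lin (AddMonoidHom.mk' (r0 g) fun x y => ev_inj _ _ (by
        rw [hr0, map_add, map_add, hr0, hr0, act_add]))
      map_one' := LinearMap.ext fun x => ev_inj _ _ (by
        change ev (r0 1 x) = ev x
        rw [hr0, act_one])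
      map_mul' := fun g h => LinearMap.ext fun x => ev_inj _ _ (by
        change ev (r0 (g * h) x) = ev (r0 g (r0 h x))
        rw [hr0, hr0, hr0, act_mul]) }
  have hro : ∀ g x, ev (ro g x) = act g (ev x) := hr0
  have hbasis : ∀ g n, pm g (ev (tv 0) n) = ev (tv 0) n → pm g (ev (tv 1) n) = ev (tv 1) n →
      ∀ x, ro g x - x ∈ Dv n := by
    intro g n h0 h1 x
    have h2 : ∀ i, pm g (ev (tv i) n) = ev (tv i) n → ro g (tv i) - tv i ∈ Dv n := fun i h =>
      ev_zero n _ (by rw [map_sub, Pi.sub_apply, hro, act_apply, h, sub_self])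
    have : ro g x - x = x.1 • (ro g (tv 0) - tv 0) + x.2 • (ro g (tv 1) - tv 1) := by
      rw [end_apply (ro g) x]
      ext <;> simp [tv] <;> ring
    rw [this]
    exact add_mem (Submodule.smul_mem _ _ (h2 0 h0)) (Submodule.smul_mem _ _ (h2 1 h1))
  have hne : ∀ n x, x ∉ Dv 1 → ev x (n + 2) + ev x (n + 2) ≠ 0 := fun n x hx h =>
    hx (Dv_mono (by omega) (ev_zero (n + 1) x (by rw [← ev_two', h])))
  refine ⟨⟨ro, fun n i x => aa (e i) (ev x (n + 2)), fun n x => xx (ev x (n + 1)), he, ?_, ?_, ?_,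
    ?_, ?_, ?_, ?_, ?_, ?_⟩, ev, ev_in, ev_surj, fun n x => ⟨ev_zero n x, ev_Dv n x⟩, hro⟩
  · intro i j hij
    obtain ⟨k, h1, h2⟩ := exists_third hij
    exact (cub_perm hW hij h1 h2).n12
  · intro g
    have h1 : ∀ i j k (h : Cub (W.baseChange (Om F)).toAffine (e i) (e j) (e k)),
        pm g h.tp = h.tp := by
      intro i j k h
      obtain ⟨n', e'⟩ := pm_some g h.ns0
      unfold Cub.tp
      rw [e']
      simp only [he, map_zero]
    exact hbasis g 1 (by rw [t0, h1]) (by rw [t1, h1])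
  · intro n
    exact ((near_pm _).and (near_pm _)).mono fun g hg => hbasis g n hg.1 hg.2
  · intro g n i x
    rw [hro, act_apply, aa_pm g (he g i)]
  · intro n i x hx
    obtain ⟨j, k, h1, h2, h3⟩ := exists_two i
    rw [(cub_perm hW h1 h2 h3).dbl (hne n x hx), ev_two']
  · intro j x hx
    obtain ⟨i, k, h1, h2, h3⟩ := exists_two j
    rw [ev_congr 1 _ _ hx, ev_tv _ _ _ (cub_perm hW h1 h2 h3)]
    rfl
  · intro n i j k x hx h1 h2 h3
    exact (cub_perm hW h1 h2 h3).step (hne n x hx)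
  · intro n i x
    rw [map_neg, Pi.neg_apply, hW.aa_neg]
  · intro n i x z hx
    rw [map_add, Pi.add_apply, show n + 2 = 1 + (n + 1) by omega, ev_pow,
      show 1 + (n + 1) = n + 2 by omega]
    by_cases hz : z ∈ Dv 1
    · rw [ev_Dv 1 z hz, add_zero, cc_of_Dv i hz, ch_zero, one_mul]
    obtain ⟨j, hj⟩ := prim_tv hz
    rw [ev_congr 1 _ _ hj, cc_congr i hj, cc_tv]
    split_ifs with hij
    · subst hij
      obtain ⟨j, k, h1, h2, h3⟩ := exists_two i
      rw [ev_tv _ _ _ (cub_perm hW h1 h2 h3), ((cub_perm hW h1 h2 h3).shift (hne n x hx)).1,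
        ch_zero, one_mul]
    · obtain ⟨k, h1, h2⟩ := exists_third hij
      rw [ev_tv _ _ _ (cub_perm hW (Ne.symm hij) h2 h1),
        ((cub_perm hW (Ne.symm hij) h2 h1).shift (hne n x hx)).2, ch_one_one, neg_one_mul]

end pts

end

end Pool.Agent.Lib.MP_16ef92_ag
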