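import Mathlib
import Pool.Agent.Lib.MP_16ef92_ag.Tate

set_option autoImplicit false
set_option linter.unusedSectionVars false
set_option linter.unusedVariables false

namespace Pool.Agent.Lib.MP_16ef92_ag

open scoped Classical

noncomputable section

variable {F : Type} [Field F] [Clos F] [Fintype F] [hq : Fact (Odd (Fintype.card F))]

/-- The quadratic character of `z`. -/
def sg (z : Om F) (g : Gam F) : ZMod (2 ^ 1) := kap (-1) 1 z g

theorem fix_neg_one (g : Gam F) : g (-1) = -1 := by simp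

theorem sg_eq {g : Gam F} {z s : Om F} (h0 : z ≠ 0) (hs : s ^ 2 = z) {a : ZMod (2 ^ 1)}
    (e : g s = ch (-1) a * s) : sg z g = a :=
  kap_eq prim_one (fix_neg_one g) h0 (by simpa using hs) e

theorem sg_spec {g : Gam F} {z s : Om F} (hz : g z = z) (h0 : z ≠ 0) (hs : s ^ 2 = z) :
    g s = ch (-1) (sg z g) * s :=
  kap_spec prim_one (fix_neg_one g) hz h0 (by simpa using hs)

theorem sg_mul_left {g : Gam F} {z y : Om F} (hz : g z = z) (h0 : z ≠ 0) (hy : g y = y)
    (h1 : y ≠ 0) : sg (z * y) g = sg z g + sg y g :=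
  kap_mul_left prim_one (fix_neg_one g) hz h0 hy h1

theorem sg_mul {g h : Gam F} {z : Om F} (hz : g z = z) (hz' : h z = z) (h0 : z ≠ 0) :
    sg z (g * h) = sg z g + sg z h :=
  kap_mul prim_one (fix_neg_one g) (fix_neg_one h) hz hz' h0

theorem sg_of_neg {g : Gam F} {z s : Om F} (h0 : z ≠ 0) (hs : s ^ 2 = z) (e : g s = -s) :
    sg z g = 1 := sg_eq h0 hs (by rw [ch_one_one, e, neg_one_mul])

theorem sg_of_fix {g : Gam F} {z s : Om F} (h0 : z ≠ 0) (hs : s ^ 2 = z) (e : g s = s) :
    sg z g = 0 := sg_eq h0 hs (by rw [ch_zero, e, one_mul])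

theorem sg_neg_geo {g : Gam F} (hg : g ∈ Geo F) {z : Om F} (hz : g z = z) (h0 : z ≠ 0) :
    sg (-z) g = sg z g := by
  have h1 : sg (-1 : Om F) g = 0 := by
    simpa [sg] using kap_const prim_one hg (c := -1) (by simp)
  rw [← neg_one_mul, sg_mul_left (fix_neg_one g) (by simp) hz h0, h1, zero_add]

theorem ch_sq (a : ZMod (2 ^ 1)) : ch (-1 : Om F) a ^ 2 = 1 := by
  have := ch_pow_one (F := F) prim_one a
  rwa [pow_one] at this

variable {e : Fin 3 → Om F} (T : TD e)

namespace TD

/-- Half of `g x - x`. -/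
def nn (g : Gam F) (x : V) : V := (mem_Dv_iff.1 (T.triv g x)).choose

theorem nn_spec (g : Gam F) (x : V) : T.ro g x = x + (2 : ℤ_[2]) • T.nn g x := by
  have : T.ro g x - x = (2 : ℤ_[2]) ^ 1 • T.nn g x := (mem_Dv_iff.1 (T.triv g x)).choose_spec
  rw [pow_one] at this
  exact eq_add_of_sub_eq' this

theorem nn_eq {g : Gam F} {x y : V} (h : T.ro g x = x + (2 : ℤ_[2]) • y) : T.nn g x = y := by
  rw [T.nn_spec, add_right_inj] at h
  exact smul_right_injective V (by simp) h

theorem nn_congr (g : Gam F) {x y : V} (h : x - y ∈ Dv 1) : T.nn g x - T.nn g y ∈ Dv 1 := by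
  obtain ⟨z, hz⟩ := mem_Dv_iff.1 h
  rw [pow_one, sub_eq_iff_eq_add] at hz
  have : T.nn g x = T.nn g y + (2 : ℤ_[2]) • T.nn g z := T.nn_eq (by
    rw [hz, map_add, map_smul, T.nn_spec g y, T.nn_spec g z]
    module)
  rw [this, add_sub_cancel_left]
  simpa using smul_mem_Dv 1 _

theorem cc_nn (g : Gam F) {i j : Fin 3} (hij : i ≠ j) {x : V} (hx : x - tv j ∈ Dv 1) :
    cc i (T.nn g x) = sg (e j - e i) g := by
  have h1 := T.sq 0 i x (tv_prim hx)
  rw [T.X0 j x hx] at h1
  refine (sg_eq (T.ene j i hij.symm) h1 ?_).symm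
  rw [T.equiv, T.nn_spec, ← T.shift 0 i x _ (tv_prim hx)]
  simp

theorem X_congr (m : ℕ) {x y : V} (hx : x ∉ Dv 1) (h : y - x ∈ Dv (m + 1)) : T.X m y = T.X m x := by
  have hy : y ∉ Dv 1 := fun hy => hx (by simpa using sub_mem hy (Dv_mono (by omega) h))
  obtain ⟨z, hz⟩ := mem_Dv_iff.1 h
  have h1 := T.sq m 0 y hy
  rw [eq_add_of_sub_eq' hz, T.shift m 0 x z hx, mul_pow, ch_sq, one_mul, T.sq m 0 x hx,
    sub_left_inj] at h1
  rw [eq_add_of_sub_eq' hz, h1]

theorem ro_ext {g : Gam F} {s : ℤ_[2]} (h : ∀ x, x ∉ Dv 1 → T.ro g x = s • x) (x : V) :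
    T.ro g x = s • x := by
  rw [end_apply, h (1, 0) (tv_prim (j := 0) (by simp [tv])), h (0, 1) (tv_prim (j := 1) (by simp [tv]))]
  ext <;> simp [mul_comm]

variable {O : ValuationSubring (Om F)} {x : Option (kk F)}

/-- Places of potentially good reduction: inertia acts through a quadratic character. -/
theorem good (hO : Over O x) {g : Gam F} (hg : g ∈ Ine O) {u : Om F} (hu0 : u ≠ 0) {s : ℤ_[2]}
    {s' : Om F} (hs : s = 1 ∧ s' = 1 ∨ s = -1 ∧ s' = -1) (hu : g u = s' * u)
    (hint : ∀ i, O.valuation (e i / u ^ 2) ≤ 1)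
    (hdiff : ∀ i j, i ≠ j → O.valuation ((e i - e j) / u ^ 2) = 1) (y : V) :
    T.ro g y = s • y := by
  refine T.ro_ext (fun y hy => ?_) y
  have hsy : s • y ∉ Dv 1 := by
    rcases hs with ⟨rfl, -⟩ | ⟨rfl, -⟩ <;> simpa using hy
  have hal : ∀ n i, T.al n i (s • y) = s' * T.al n i y := by
    intro n i
    rcases hs with ⟨rfl, rfl⟩ | ⟨rfl, rfl⟩ <;> simp [T.neg]
  have hs0 : s' ≠ 0 := by rcases hs with ⟨-, rfl⟩ | ⟨-, rfl⟩ <;> simp
  have key : ∀ n, O.valuation (T.X n y / u ^ 2) ≤ 1 ∧ T.ro g y - s • y ∈ Dv (n + 1) := by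
    intro n
    induction n with
    | zero =>
      obtain ⟨j, hj⟩ := prim_tv hy
      refine ⟨by rw [T.X0 j y hj]; exact hint j, ?_⟩
      rcases hs with ⟨rfl, -⟩ | ⟨rfl, -⟩
      · simpa using T.triv g y
      · have := add_mem (T.triv g y) (smul_mem_Dv 1 y)
        convert this using 1
        module
    | succ n ih =>
      have ha2 : ∀ i, (T.al n i y / u) ^ 2 = T.X n y / u ^ 2 - e i / u ^ 2 := fun i => by
        rw [div_pow, T.sq n i y hy, sub_div]
      have ha : ∀ i, O.valuation (T.al n i y / u) ≤ 1 := fun i => by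
        have := Valuation.map_sub_le _ ih.1 (hint i)
        rw [← ha2, map_pow] at this
        exact (pow_le_one_iff_of_nonneg zero_le two_ne_zero).1 this
      constructor
      · have : T.X (n + 1) y / u ^ 2 = e 0 / u ^ 2 +
            (T.al n 0 y / u + T.al n 1 y / u) * (T.al n 0 y / u + T.al n 2 y / u) := by
          rw [eq_add_of_sub_eq' (T.step n 0 1 2 y hy (by decide) (by decide) (by decide))]
          field_simp
        rw [this]
        exact Valuation.map_add_le _ (hint 0) (val_mul_le O (Valuation.map_add_le _ (ha _) (ha _))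
          (Valuation.map_add_le _ (ha _) (ha _)))
      obtain ⟨z, hz⟩ := mem_Dv_iff.1 ih.2
      rw [hz, smul_mem_Dv_iff]
      by_contra hz1
      obtain ⟨k, hk⟩ := prim_tv hz1
      have hlt : ∀ i, k ≠ i → O.valuation (T.al n i y / u) < 1 := by
        intro i hi
        have h1 := hO.ine_sub hg ((O.valuation_le_one_iff _).1 (ha i))
        rw [map_div₀, T.equiv, eq_add_of_sub_eq' hz, T.shift n i _ z hsy, cc_congr i hk, cc_tv,
          if_neg hi.symm, ch_one_one, hal, hu] at h1
        have : -1 * (s' * T.al n i y) / (s' * u) - T.al n i y / u = -(2 * (T.al n i y / u)) := by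
          field_simp
          ring
        rwa [this, Valuation.map_neg, map_mul, val_two, one_mul] at h1
      obtain ⟨i, j, h1, h2, h3⟩ := exists_two k
      have h4 : (e i - e j) / u ^ 2 = (T.al n j y / u) * (T.al n j y / u) -
          (T.al n i y / u) * (T.al n i y / u) := by
        rw [← pow_two, ← pow_two, ha2, ha2]
        ring
      have h5 := hdiff i j h3
      rw [h4] at h5
      exact (Valuation.map_sub_lt _ (val_mul_lt O (ha j) (hlt j h2))
        (val_mul_lt O (ha i) (hlt i h1))).ne h5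
  rw [← sub_eq_zero]
  exact eq_zero_of_Dv fun n => Dv_mono n.le_succ (key n).2

end TD

/-- A place of multiplicative reduction where `e i` and `e j` come together. -/
structure MP (e : Fin 3 → Om F) (O : ValuationSubring (Om F)) (x : Option (kk F))
    (i j k : Fin 3) : Prop where
  ov : Over O x
  ij : i ≠ j
  ik : i ≠ k
  jk : j ≠ k
  vij : O.valuation (e i - e j) = O.valuation (pl x)
  vik : O.valuation (e i - e k) = 1

variable {O : ValuationSubring (Om F)} {x : Option (kk F)} {i j k : Fin 3}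

theorem MP.lt (h : MP e O x i j k) : O.valuation (e i - e j) < 1 := by
  rw [h.vij]
  exact h.ov

theorem MP.swap (h : MP e O x i j k) : MP e O x j i k :=
  ⟨h.ov, h.ij.symm, h.jk, h.ik, by rw [Valuation.map_sub_swap, h.vij],
    val_one_of_sub O h.vik (by rw [sub_sub_sub_cancel_right, Valuation.map_sub_swap]; exact h.lt)⟩

theorem val_of_sq {a z : Om F} (h : a ^ 2 = z) (hz : O.valuation z = 1) : O.valuation a = 1 := by
  rw [← h, map_pow] at hz
  exact (pow_eq_one_iff_of_nonneg zero_le two_ne_zero).1 hz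

theorem val_factor {a b : Om F} (ha : O.valuation a ≤ 1) (hb : O.valuation b ≤ 1)
    (h : O.valuation (a * b) = 1) : O.valuation a = 1 := by
  by_contra h1
  rw [mul_comm] at h
  exact (val_mul_lt O hb (lt_of_le_of_ne ha h1)).ne h

theorem MP.exists_fixed (h : MP e O x i j k) :
    ∃ r, r - tv k ∈ Dv 1 ∧ ∀ g ∈ Ine O, T.ro g r = r := by
  have hunit : ∀ n y, y ∉ Dv 1 → O.valuation (T.X n y - e i) = 1 →
      O.valuation (T.al n i y) = 1 ∧ O.valuation (T.al n j y) = 1 := fun n y hy hv =>
    ⟨val_of_sq (T.sq n i y hy) hv, val_of_sq (T.sq n j y hy)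
      (val_one_of_sub O hv (by rw [sub_sub_sub_cancel_left]; exact h.lt))⟩
  obtain ⟨r, hr⟩ := lim (fun n y => ∀ m < n, y - tv k ∈ Dv 1 ∧ O.valuation (T.X m y - e i) = 1) (by
    intro n
    induction n with
    | zero => exact ⟨0, fun m hm => absurd hm (Nat.not_lt_zero m)⟩
    | succ n ih =>
      cases n with
      | zero =>
        refine ⟨tv k, fun m hm => ?_⟩
        obtain rfl : m = 0 := by omega
        exact ⟨by simp, by rw [T.X0 k _ (by simp), Valuation.map_sub_swap, h.vik]⟩
      | succ n =>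
        obtain ⟨y, hy⟩ := ih
        obtain ⟨hk, hv⟩ := hy n n.lt_succ_self
        have hp := tv_prim hk
        obtain ⟨hi, hj⟩ := hunit n y hp hv
        have hk1 : O.valuation (T.al n k y) ≤ 1 := by
          have h1 := Valuation.map_add_le _ hv.le h.vik.le
          rw [sub_add_sub_cancel, ← T.sq n k y hp, map_pow] at h1
          exact (pow_le_one_iff_of_nonneg zero_le two_ne_zero).1 h1
        have hpr : O.valuation ((T.al n i y + T.al n k y) * (T.al n i y - T.al n k y)) = 1 := by
          rw [← sq_sub_sq, T.sq n i y hp, T.sq n k y hp, sub_sub_sub_cancel_left,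
            Valuation.map_sub_swap, h.vik]
        have hpl := Valuation.map_add_le _ hi.le hk1
        have hmi := Valuation.map_sub_le _ hi.le hk1
        have hfin : ∀ y', y' - y ∈ Dv (n + 1) → O.valuation (T.X (n + 1) y' - e i) = 1 →
            ∀ m < n + 1 + 1, y' - tv k ∈ Dv 1 ∧ O.valuation (T.X m y' - e i) = 1 := by
          intro y' h1 h2 m hm
          refine ⟨by simpa using add_mem (Dv_mono (by omega) h1) hk, ?_⟩
          rcases Nat.lt_succ_iff_lt_or_eq.1 hm with hm | rfl
          · rw [T.X_congr m hp (Dv_mono (by omega) h1)]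
            exact (hy m hm).2
          · exact h2
        by_cases hc : O.valuation (T.al n i y + T.al n j y) = 1
        · refine ⟨y, hfin y (by simp) ?_⟩
          rw [T.step n i j k y hp h.ij h.ik h.jk, map_mul, hc, val_factor hpl hmi hpr, one_mul]
        · have hp' : y + (2 : ℤ_[2]) ^ (n + 1) • tv i ∉ Dv 1 := fun h' =>
            hp (by simpa using sub_mem h' (Dv_mono (by omega) (smul_mem_Dv (n + 1) (tv i))))
          refine ⟨y + (2 : ℤ_[2]) ^ (n + 1) • tv i, hfin _ (by simpa using smul_mem_Dv _ _) ?_⟩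
          rw [T.step n i j k _ hp' h.ij h.ik h.jk, T.shift n i y _ hp, T.shift n j y _ hp,
            T.shift n k y _ hp, cc_tv, cc_tv, cc_tv, if_pos rfl, if_neg h.ij.symm, if_neg h.ik.symm,
            ch_zero, ch_one_one, one_mul, neg_one_mul, neg_one_mul, ← sub_eq_add_neg,
            ← sub_eq_add_neg, map_mul, val_factor hmi hpl (by rwa [mul_comm]), mul_one]
          refine val_one_of_sub O (c := 2 * T.al n i y) (by rw [map_mul, val_two, hi, one_mul]) ?_
          rw [show T.al n i y - T.al n j y - 2 * T.al n i y = -(T.al n i y + T.al n j y) by ring,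
            Valuation.map_neg]
          exact lt_of_le_of_ne (Valuation.map_add_le _ hi.le hj.le) hc)
    (fun n y hy m hm => hy m (by omega)) (by
      intro n y y' hy h1 m hm
      obtain ⟨h2, h3⟩ := hy m hm
      refine ⟨by simpa using add_mem (Dv_mono (by omega) h1) h2, ?_⟩
      rw [T.X_congr m (tv_prim h2) (Dv_mono (by omega) h1)]
      exact h3)
  have hk := (hr 1 0 zero_lt_one).1
  refine ⟨r, hk, fun g hg => ?_⟩
  have key : ∀ n, T.ro g r - r ∈ Dv (n + 1) := by
    intro n
    induction n with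
    | zero => exact T.triv g r
    | succ n ih =>
      obtain ⟨z, hz⟩ := mem_Dv_iff.1 ih
      obtain ⟨hi, hj⟩ := hunit n r (tv_prim hk) (hr (n + 1) n n.lt_succ_self).2
      have h1 : ∀ l, O.valuation (T.al n l r) = 1 → cc l z = 0 := fun l hl =>
        ch_inj prim_one ((h.ov.ine_mem hg hl (ch_mem prim_one _) (by
          rw [T.equiv, eq_add_of_sub_eq' hz, T.shift n l r z (tv_prim hk)])).trans ch_zero.symm)
      rw [hz, smul_mem_Dv_iff]
      exact Dv_of_cc h.ij (h1 i hi) (h1 j hj)
  rw [← sub_eq_zero]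
  exact eq_zero_of_Dv fun n => Dv_mono n.le_succ (key n)

/-- `s` induces the `Q`-th power map on constants. -/
def Fr (s : Gam F) (Q : ℕ) : Prop := ∀ c : kk F, s c = (c : Om F) ^ Q

theorem Fr.pow {s : Gam F} {Q : ℕ} (h : Fr s Q) (d : ℕ) : Fr (s ^ d) (Q ^ d) := by
  intro c
  induction d with
  | zero => simp
  | succ d ih => rw [pow_succ', AlgEquiv.mul_apply, ih, map_pow, h, ← pow_mul, ← pow_succ']

theorem Fr.root {s : Gam F} {Q : ℕ} (h : Fr s Q) {w : Om F} {m : ℕ} (hm : 0 < m)
    (hw : w ^ m = 1) : s w = w ^ Q := by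
  obtain ⟨c, rfl⟩ := root_one_const hm hw
  exact h c

theorem Fr.geo_mul {s g : Gam F} {Q : ℕ} (h : Fr s Q) (hg : g ∈ Geo F) : Fr (g * s) Q :=
  fun c => by rw [AlgEquiv.mul_apply, h, map_pow, geo_fix hg]

theorem Fr.exists_st {s : Gam F} {Q : ℕ} (h : Fr s Q) {c : kk F} (hc : (c : Om F) ^ Q = c)
    (hO : Over O (some c)) : ∃ g ∈ Geo F, g * s ∈ St O := by
  have h1 : ck s⁻¹ c = c := Subtype.ext (inv_fix ((h c).trans hc))
  obtain ⟨g, hg, h2⟩ := over_trans (O := cm s⁻¹ O) (x := some c)
    (over_cm (by simpa [h1] using hO)) hO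
  exact ⟨g, hg, fun z => by rw [AlgEquiv.mul_apply, ← h2, mem_cm, inv_apply_self]⟩

theorem Fr.pl {s : Gam F} {Q : ℕ} (h : Fr s Q) {c : kk F} (hc : (c : Om F) ^ Q = c) :
    s (pl (some c)) = pl (some c) := by
  simp only [MP_16ef92_ag.pl, map_sub, gam_tt, h c, hc]

theorem eq_one_of_pow {m : ℕ} (hm : 0 < m) {y : ℤ_[2]} (h4 : 4 ∣ y - 1) (h : y ^ m = 1) :
    y = 1 := by
  induction m using Nat.strong_induction_on generalizing y with
  | _ m ih =>
    obtain ⟨c, hc⟩ := h4
    have hy : y = 1 + 4 * c := by linear_combination hc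
    obtain ⟨l, rfl | rfl⟩ := Nat.even_or_odd' m
    · have h1 := ih l (by omega) (by omega) (y := y ^ 2) ⟨2 * c + 4 * c ^ 2, by rw [hy]; ring⟩
        (by rw [← pow_mul, h])
      rcases sq_eq_one_iff.1 h1 with h2 | h2
      · exact h2
      · exfalso
        have h3 := congrArg (red 2) (hy.symm.trans h2)
        simp only [map_add, map_mul, map_one, map_neg, map_ofNat] at h3
        revert h3
        generalize red 2 c = a
        revert a
        decide
    · have h1 := mul_geom_sum y (2 * l + 1)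
      rw [h, sub_self, mul_eq_zero] at h1
      rcases h1 with h1 | h1
      · exact sub_eq_zero.1 h1
      · exfalso
        have h2 : red 1 y = 1 := by
          rw [hy, ← map_one (red 1), red_eq]
          exact ⟨2 * c, by ring⟩
        have h3 := congrArg (red 1) h1
        simp only [map_sum, map_pow, h2, one_pow, Finset.sum_const, Finset.card_range,
          map_zero, nsmul_eq_mul, mul_one] at h3
        push_cast at h3
        revert h3
        generalize (l : ZMod (2 ^ 1)) = a
        revert a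
        decide

namespace TD

theorem dt_four {g : Gam F} (hg : g ∈ Geo F) : 4 ∣ dt (T.ro g) - 1 := by
  have h1 := T.cc_nn g (i := 1) (j := 0) (by decide) (x := (1, 0)) (by simp [tv])
  have h2 := T.cc_nn g (i := 0) (j := 1) (by decide) (x := (0, 1)) (by simp [tv])
  rw [← neg_sub, sg_neg_geo hg (by rw [map_sub, T.efix, T.efix]) (T.ene 0 1 (by decide)), ← h1,
    cc0, cc1, red_eq, pow_one] at h2
  obtain ⟨c, hc⟩ := h2
  rw [dt, T.nn_spec, T.nn_spec]
  generalize T.nn g (1, 0) = a at *
  generalize T.nn g (0, 1) = b at *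
  refine ⟨a.1 + c + a.1 * b.2 - a.2 * b.1, ?_⟩
  simp only [om, Prod.fst_add, Prod.snd_add, Prod.smul_fst, Prod.smul_snd, smul_eq_mul]
  linear_combination 2 * hc

theorem near_dt (n : ℕ) : Near fun g => red n (dt (T.ro g)) = 1 := by
  refine (T.near n).mono fun g hg => ?_
  rw [← map_one (red n), red_eq]
  have : dt (T.ro g) - 1 = om (T.ro g (1, 0) - (1, 0)) (T.ro g (0, 1)) +
      om (1, 0) (T.ro g (0, 1) - (0, 1)) := by
    simp [dt, om]
    ring
  rw [this]
  exact dvd_add (om_dvd_left (hg _) _) (om_dvd_right _ (hg _))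

/-- The determinant is trivial on the geometric Galois group. -/
theorem dt_geo {s : Gam F} (hs : Fr s (Fintype.card F)) {g : Gam F} (hg : g ∈ Geo F) :
    dt (T.ro g) = 1 := by
  have main : ∀ (n : ℕ) (m : ℕ) (g : Gam F),
      (∀ (r : Om F) (hr : IsPrimitiveRoot r (2 ^ n)) (f : Gam F → ZMod (2 ^ n)),
        (∀ a b, f (a * b) = f a + f b) → (Near fun a => f a = 0) →
        (∀ a, dt (T.ro a) = 1 → f a = 0) → m * f g = 0) →
      2 ^ (n + 1) ∣ dt (T.ro g) ^ m - 1 := by
    intro n m g H
    let d : Gam F →* (ZMod (2 ^ (n + 1)))ˣ := MonoidHom.toHomUnits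
      { toFun := fun a => red (n + 1) (dt (T.ro a))
        map_one' := by rw [map_one, dt_one, map_one]
        map_mul' := fun a b => by rw [map_mul, dt_mul, map_mul] }
    have hexp : ∀ a : (ZMod (2 ^ (n + 1)))ˣ, a ^ 2 ^ n = 1 := fun a => by
      simpa [Nat.totient_prime_pow_succ Nat.prime_two] using ZMod.pow_totient a
    obtain ⟨r, hr⟩ := exists_prim (F := F) n
    have : NeZero ((2 ^ n : ℕ) : Om F) := ⟨by push_cast; exact pow_ne_zero _ two_ne⟩
    have := HasEnoughRootsOfUnity.of_dvd (Om F) (Monoid.exponent_dvd_of_forall_pow_eq_one hexp)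
    have h1 : d g ^ m = 1 := by
      by_contra h1
      obtain ⟨p, hp⟩ := CommGroup.exists_apply_ne_one_of_hasEnoughRootsOfUnity _ (Om F) h1
      have h2 : ∀ a, ∃ f : ZMod (2 ^ n), (p (d a) : Om F) = ch r f := fun a =>
        ch_surj hr (by rw [← Units.val_pow_eq_pow_val, ← map_pow, hexp, map_one, Units.val_one])
      choose f hf using h2
      have h3 : ∀ a, red (n + 1) (dt (T.ro a)) = 1 → f a = 0 := fun a ha => ch_inj hr (by
        rw [← hf, show d a = 1 from Units.ext ha, map_one, ch_zero, Units.val_one])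
      have h4 := H r hr f (fun a b => ch_inj hr (by
        rw [ch_add hr, ← hf, ← hf, ← hf, map_mul, map_mul, Units.val_mul]))
        ((T.near_dt (n + 1)).mono h3) fun a ha => h3 a (by rw [ha, map_one])
      apply hp
      apply Units.ext
      rw [map_pow, Units.val_pow_eq_pow_val, hf, ← ch_pow hr, h4, ch_zero, Units.val_one]
    rw [← red_eq, map_one, map_pow]
    exact congrArg Units.val h1
  have loc : ∀ c O, Over O (some c) → ∀ g ∈ Ine O, dt (T.ro g) = 1 := by
    intro c O hO g hg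
    obtain ⟨d, hd, hc⟩ := kk_frob c
    obtain ⟨g₀, hg₀, hst⟩ := (hs.pow d).exists_st hc hO
    have hf := (hs.pow d).geo_mul hg₀
    have h1 : 1 < Fintype.card F ^ d := Nat.one_lt_pow hd.ne' Fintype.one_lt_card
    obtain ⟨m, hm⟩ : ∃ m, Fintype.card F ^ d = m + 1 := ⟨Fintype.card F ^ d - 1, by omega⟩
    refine eq_one_of_pow (m := m) (by omega) (T.dt_four hg.1) (sub_eq_zero.1 ?_)
    refine eq_zero_of_dvd fun n => (pow_dvd_pow 2 n.le_succ).trans (main n m g ?_)
    intro r hr f h2 h3 _
    obtain ⟨j, hj⟩ := hO.local_char hr f (fun a _ b _ => h2 a b) (h3.mono fun a ha _ => ha)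
    have h4 := hj _ (st_conj hst hg)
    have h5 : f (g₀ * s ^ d * g * (g₀ * s ^ d)⁻¹) = f g := by
      have := h2 (g₀ * s ^ d * g * (g₀ * s ^ d)⁻¹) (g₀ * s ^ d)
      rw [inv_mul_cancel_right, h2] at this
      linear_combination -this
    have h6 := kap_conj hr (hf.root (by positivity) hr.pow_eq_one) hg.1 (geo_pl hg.1 (some c))
      (pl_ne _)
    rw [hf.pl hc, hm] at h6
    rw [h5, h6, mul_left_comm, ← hj g hg] at h4
    push_cast at h4
    linear_combination -h4
  rw [← sub_eq_zero]
  refine eq_zero_of_dvd fun n => (pow_dvd_pow 2 n.le_succ).trans ?_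
  simpa using main n 1 g fun r hr f h2 h3 h4 => by
    rw [global_zero hr f (fun a _ b _ => h2 a b) (h3.mono fun a ha _ => ha)
      (fun c O hO a ha => h4 a (loc c O hO a ha)) g hg, mul_zero]

end TD

end

end Pool.Agent.Lib.MP_16ef92_ag
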