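import Mathlib
import Pool.Agent.Lib.MP_16ef92_ag.Pair

set_option autoImplicit false
set_option linter.unusedSectionVars false
set_option linter.unusedVariables false

namespace Pool.Agent.Lib.MP_16ef92_ag

open scoped Classical

noncomputable section

theorem even_of_red {a : ℤ_[2]} (h : red 1 a = 0) : ∃ b, a = 2 * b := by
  have := red_eq_zero.1 h
  rwa [pow_one] at this

theorem two_smul_Dv (z : V) : (2 : ℤ_[2]) • z ∈ Dv 1 := by simpa using smul_mem_Dv 1 z

theorem red_odd (b : ℤ_[2]) : red 1 (2 * b + 1) = 1 := by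
  rw [← map_one (red 1), red_eq]
  exact ⟨b, by ring⟩

theorem red_even (b : ℤ_[2]) : red 1 (2 * b) = 0 := red_eq_zero.2 ⟨b, by ring⟩

theorem odd_of_red {a : ℤ_[2]} (h : red 1 a = 1) : ∃ b, a = 2 * b + 1 := by
  obtain ⟨b, rfl | rfl⟩ := parity a
  · rw [red_even] at h
    exact absurd h (by decide)
  · exact ⟨b, rfl⟩

theorem unit_of_red {a : ℤ_[2]} (h : red 1 a = 1) : IsUnit a :=
  unit_of_odd fun ⟨b, e⟩ => by
    rw [e, red_even] at h
    exact absurd h (by decide)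

theorem four_zero {p : ℕ} {a : ℤ_[2]} (h : 4 ∣ a) : 2 ^ p * red (p + 2) a = 0 :=
  red_mul_eq_zero.2 (by simpa [show (2 : ℤ_[2]) ^ 2 = 4 by norm_num] using h)

theorem four_of_zero {p : ℕ} {a : ℤ_[2]} (h : 2 ^ p * red (p + 2) a = 0) : 4 ∣ a := by
  simpa [show (2 : ℤ_[2]) ^ 2 = 4 by norm_num] using red_mul_eq_zero.1 h

theorem four_congr {p : ℕ} {a b : ℤ_[2]} (h : 4 ∣ a - b) :
    2 ^ p * red (p + 2) a = 2 ^ p * red (p + 2) b := by
  rw [← sub_eq_zero, ← mul_sub, ← map_sub, four_zero h]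

theorem top_ne (p : ℕ) : (2 : ZMod (2 ^ (p + 2))) ^ p * 2 ≠ 0 := by
  intro h
  obtain ⟨c, hc⟩ := four_of_zero (p := p) (a := 2) (by rwa [map_ofNat])
  have : (1 : ℤ_[2]) = 2 * c := mul_left_cancel₀ two_ne_zero (by linear_combination hc)
  have h1 := red_even c
  rw [← this, map_one] at h1
  exact absurd h1 (by decide)

theorem unit_four {p : ℕ} {a : ZMod (2 ^ (p + 2))} (h : IsUnit a) :
    2 ^ p * a = 2 ^ p ∨ 2 ^ p * a = -2 ^ p := by
  obtain ⟨b, rfl⟩ := red_surj a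
  obtain ⟨c, rfl | rfl⟩ := parity b
  · exfalso
    apply top_ne p
    apply h.mul_right_cancel
    have := four_zero (p := p) (a := 2 * (2 * c)) ⟨c, by ring⟩
    rw [map_mul, map_ofNat] at this
    rw [zero_mul, mul_assoc, this]
  obtain ⟨d, rfl | rfl⟩ := parity c
  · left
    simpa using four_congr (p := p) (a := 2 * (2 * d) + 1) (b := 1) ⟨d, by ring⟩
  · right
    simpa using four_congr (p := p) (a := 2 * (2 * d + 1) + 1) (b := -1) ⟨d + 1, by ring⟩

theorem unit_two {p : ℕ} {a : ZMod (2 ^ (p + 2))} (h : IsUnit a) : 2 ^ p * 2 * a = 2 ^ p * 2 := by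
  have h4 := four_zero (p := p) (a := 4) dvd_rfl
  rw [map_ofNat] at h4
  rcases unit_four h with e | e
  · linear_combination 2 * e
  · linear_combination 2 * e - h4

variable {F : Type} [Field F] [Clos F] [Fintype F] [hq : Fact (Odd (Fintype.card F))]
variable {e : Fin 3 → Om F} {T : TD e} {O : ValuationSubring (Om F)} {x : Option (kk F)}
  {i j k : Fin 3}

theorem sg_neg_root {g : Gam F} {z s : Om F} (hz : g z = z) (h0 : z ≠ 0) (hs : s ^ 2 = z)
    (h : sg z g = 1) : g s = -s := by rw [sg_spec hz h0 hs, h, ch_one_one, neg_one_mul]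

theorem sg_fix_root {g : Gam F} {z s : Om F} (hz : g z = z) (h0 : z ≠ 0) (hs : s ^ 2 = z)
    (h : sg z g = 0) : g s = s := by rw [sg_spec hz h0 hs, h, ch_zero, one_mul]

theorem Over.exists_sg (hO : Over O x) : ∃ g ∈ Ine O, sg (pl x) g = 1 := by
  obtain ⟨s, hs⟩ := exists_sq (pl x)
  obtain ⟨g, hg, e⟩ := hO.exists_neg hs
  exact ⟨g, hg, sg_of_neg (pl_ne x) hs e⟩

theorem kap_unit_of_sg {n : ℕ} {r : Om F} (hr : IsPrimitiveRoot r (2 ^ n)) {g : Gam F}
    (hg : g ∈ Geo F) (h : sg (pl x) g = 1) : IsUnit (kap r n (pl x) g) := by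
  obtain ⟨s, hs⟩ := exists_sq (pl x)
  exact kap_isUnit hr (geo_prim hr hg) (pl_ne x) hs (sg_neg_root (geo_pl hg x) (pl_ne x) hs h)

theorem kap_top_of_sg {p : ℕ} {r : Om F} (hr : IsPrimitiveRoot r (2 ^ (p + 2))) {g : Gam F}
    (hg : g ∈ Geo F) (h : sg (pl x) g = 0) : 2 ^ p * 2 * kap r (p + 2) (pl x) g = 0 := by
  obtain ⟨s, hs⟩ := exists_sq (pl x)
  rw [← pow_succ]
  exact kap_level_zero hr (geo_prim hr hg) (pl_ne x) (i := p + 1) (j := 1) rfl
    (by simpa using hs) (sg_fix_root (geo_pl hg x) (pl_ne x) hs h)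

theorem Over.exists_norm {p : ℕ} {r : Om F} (hr : IsPrimitiveRoot r (2 ^ (p + 2)))
    (hO : Over O x) : ∃ g ∈ Ine O, sg (pl x) g = 1 ∧ 2 ^ p * kap r (p + 2) (pl x) g = 2 ^ p := by
  obtain ⟨g, hg, h⟩ := hO.exists_sg
  rcases unit_four (kap_unit_of_sg hr hg.1 h) with e | e
  · exact ⟨g, hg, h, e⟩
  · refine ⟨g⁻¹, inv_mem hg, ?_, ?_⟩
    · rw [sg, kap_inv prim_one (fix_neg_one g) (geo_pl hg.1 x) (pl_ne x), neg_z2]
      exact h
    · rw [kap_inv hr (geo_prim hr hg.1) (geo_pl hg.1 x) (pl_ne x), mul_neg, e, neg_neg]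

/-- Inertia acts by transvections along `r`. -/
structure TV (T : TD e) (O : ValuationSubring (Om F)) (k : Fin 3) (r : V) (b : Gam F → ℤ_[2]) :
    Prop where
  hr : r - tv k ∈ Dv 1
  hb : ∀ g ∈ Ine O, ∀ y, T.ro g y = y + (2 * b g * om r y) • r

theorem MP.exists_tv (hd : ∀ g ∈ Geo F, dt (T.ro g) = 1) (h : MP e O x i j k) :
    ∃ r b, TV T O k r b := by
  obtain ⟨r, hr, hfix⟩ := h.exists_fixed T
  obtain ⟨s, hs⟩ := exists_dual (tv_prim hr)
  refine ⟨r, fun g => om (T.nn g s) s, hr, fun g hg y => ?_⟩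
  have h1 := om_map (T.ro g) r s
  rw [hfix g hg, hd g hg.1, one_mul, T.nn_spec, om_add_right, om_smul_right, add_eq_left,
    mul_eq_zero, or_iff_right two_ne_zero] at h1
  have h2 := dual_expand hs (T.nn g s)
  rw [h1, zero_smul, add_zero] at h2
  conv_lhs => rw [dual_expand hs y, map_add, map_smul, map_smul, hfix g hg, T.nn_spec, h2]
  conv_rhs => rw [dual_expand hs y]
  simp only [om_add_right, om_smul_right, om_self, hs]
  module

variable {r : V} {b : Gam F → ℤ_[2]}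

theorem TV.eq (h : TV T O k r b) {s : V} (hs : om r s = 1) {g : Gam F} (hg : g ∈ Ine O) :
    om (T.ro g s) s = 2 * b g := by
  rw [h.hb g hg, om_add_left, om_smul_left, om_self, hs]
  ring

theorem TV.fix (h : TV T O k r b) {g : Gam F} (hg : g ∈ Ine O) : T.ro g r = r := by
  rw [h.hb g hg, om_self, mul_zero, zero_smul, add_zero]

theorem TV.mul (h : TV T O k r b) {g l : Gam F} (hg : g ∈ Ine O) (hl : l ∈ Ine O) :
    b (g * l) = b g + b l := by
  obtain ⟨s, hs⟩ := exists_dual (tv_prim h.hr)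
  have h1 := h.eq hs (mul_mem hg hl)
  rw [ro_mul, h.hb l hl, map_add, map_smul, h.fix hg, om_add_left, h.eq hs hg, om_smul_left,
    hs] at h1
  exact mul_left_cancel₀ two_ne_zero (by linear_combination -h1)

theorem TV.inv (h : TV T O k r b) {g : Gam F} (hg : g ∈ Ine O) : b g⁻¹ = -b g := by
  have h1 := h.mul (one_mem _) (one_mem _)
  rw [mul_one, left_eq_add] at h1
  have h2 := h.mul (inv_mem hg) hg
  rw [inv_mul_cancel, h1] at h2
  exact eq_neg_of_add_eq_zero_left h2.symm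

theorem TV.exists_u (h : TV T O k r b) (hO : Over O x) {n : ℕ} {z : Om F}
    (hz : IsPrimitiveRoot z (2 ^ n)) :
    ∃ u : ZMod (2 ^ n), ∀ g ∈ Ine O, red n (b g) = u * kap z n (pl x) g := by
  obtain ⟨s, hs⟩ := exists_dual (tv_prim h.hr)
  refine hO.local_char hz _ (fun g hg l hl => by rw [h.mul hg hl, map_add])
    ((T.near (n + 1)).mono fun g hg hg' => red_eq_zero.2 ?_)
  have h1 := om_dvd_left (hg s) s
  rw [om_sub_left, om_self, sub_zero, h.eq hs hg', pow_succ'] at h1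
  exact (mul_dvd_mul_iff_left two_ne_zero).1 h1

theorem TV.cc (h : TV T O k r b) (l : Fin 3) : cc l r = if l = k then 0 else 1 := by
  rw [cc_congr l h.hr, cc_tv]

theorem TV.par (h : TV T O k r b) (hm : MP e O x i j k) {g : Gam F} (hg : g ∈ Ine O) :
    red 1 (b g) = sg (pl x) g := by
  have h1 : T.nn g (tv i) = (b g * om r (tv i)) • r := T.nn_eq (by
    rw [h.hb g hg, smul_smul, mul_assoc])
  have h2 := T.cc_nn g hm.ij.symm (x := tv i) (by simp)
  have h3 : red 1 (om r (tv i)) = 1 := by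
    have := h.cc i
    rwa [if_neg hm.ik] at this
  rw [h1, cc_smul, map_mul, h3, h.cc j, if_neg hm.jk, mul_one, mul_one] at h2
  rw [h2, sg, hm.ov.kap_val prim_one hg (by rw [map_sub, T.efix, T.efix]) (j := 1)
    (by rw [zpow_one, hm.vij])]
  simp [sg]

theorem TD.fix_mu (T : TD e) {p : ℕ} {z : Om F} (hz : IsPrimitiveRoot z (2 ^ (p + 2)))
    (hij : i ≠ j) (hik : i ≠ k) (hjk : j ≠ k) {g : Gam F} (hg : g ∈ Geo F)
    (h : 8 ∣ om (tv i) (T.ro g (tv i))) :
    2 ^ p * kap z (p + 2) ((e i - e j) / (e i - e k)) g = 0 := by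
  have hi : tv i - tv i ∈ Dv 1 := by simp
  have hp := tv_prim hi
  have hsq : ∀ l, T.al 0 l (tv i) ^ 2 = e i - e l := fun l => by rw [T.sq 0 l _ hp, T.X0 i _ hi]
  have h0 : T.al 0 i (tv i) = 0 := by simpa using hsq i
  have hk0 : T.al 0 k (tv i) ≠ 0 := fun e' => T.ene i k hik (by rw [← hsq, e']; simp)
  have h1 : T.al 1 i (tv i) ^ 2 = T.al 0 j (tv i) * T.al 0 k (tv i) := by
    rw [T.sq 1 i _ hp, T.step 0 i j k _ hp hij hik hjk, h0, zero_add, zero_add]
  refine kap_level_zero hz (geo_prim hz hg) (div_ne_zero (T.ene i j hij) (T.ene i k hik)) (j := 2)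
    rfl (w := T.al 1 i (tv i) / T.al 0 k (tv i)) ?_ ?_
  · rw [← hsq, ← hsq, show 2 ^ 2 = 2 * 2 by rfl, pow_mul, div_pow, h1]
    field_simp
  obtain ⟨s, hs⟩ := exists_dual hp
  obtain ⟨c, hc⟩ := h
  have h2 := dual_expand hs (T.ro g (tv i))
  have h3 : om (T.ro g (tv i)) s = 1 + 2 * om (T.nn g (tv i)) s := by
    rw [T.nn_spec, om_add_left, om_smul_left, hs]
  rw [hc, h3] at h2
  have key : ∀ (y : V) (d : ℤ_[2]), y ∉ Dv 1 →
      T.ro g (tv i) = y + (2 : ℤ_[2]) ^ (1 + 1) • (d • tv i + (2 * c) • s) →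
      g (T.al 1 i (tv i) / T.al 0 k (tv i)) = T.al 1 i y / T.al 0 k y := by
    intro y d hy h4
    have h5 : T.ro g (tv i) = y + (2 : ℤ_[2]) ^ (0 + 1) • ((2 : ℤ_[2]) • (d • tv i + (2 * c) • s)) := by
      rw [h4]
      module
    rw [map_div₀, T.equiv, T.equiv]
    congr 1
    · rw [h4, T.shift 1 i y _ hy, cc_add, cc_smul, cc_smul, cc_tv, if_pos rfl, red_even]
      simp [ch_zero]
    · rw [h5, T.shift 0 k y _ hy, cc_of_Dv k (two_smul_Dv _), ch_zero, one_mul]
  obtain ⟨d, hd | hd⟩ := parity (om (T.nn g (tv i)) s)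
  · exact key _ d hp (by rw [h2, hd]; module)
  · rw [key (-tv i) (d + 1) (by simpa using hp) (by rw [h2, hd]; module), T.neg, T.neg,
      neg_div_neg_eq]

theorem sq_odd {a : ℤ_[2]} (h : red 1 a = 1) : ∃ c, a ^ 2 = 1 + 4 * c := by
  obtain ⟨c, rfl⟩ := odd_of_red h
  exact ⟨c ^ 2 + c, by ring⟩

theorem compare_aux {p : ℕ} {z : Om F} (hz : IsPrimitiveRoot z (2 ^ (p + 2)))
    {O' : ValuationSubring (Om F)} {x' : Option (kk F)} {j' k' : Fin 3} {r' : V}
    {b' : Gam F → ℤ_[2]} (hm : MP e O x i j k) (hm' : MP e O' x' i j' k') (h : TV T O k r b)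
    (h' : TV T O' k' r' b') {u u' : ZMod (2 ^ (p + 2))}
    (hu : ∀ g ∈ Ine O, red (p + 2) (b g) = u * kap z (p + 2) (pl x) g)
    (hu' : ∀ g ∈ Ine O', red (p + 2) (b' g) = u' * kap z (p + 2) (pl x') g) :
    2 ^ p * u = 2 ^ p * u' := by
  by_contra hne
  obtain ⟨g, hg, hs, hk⟩ := hm.ov.exists_norm hz
  obtain ⟨g', hg', hs', hk'⟩ := hm'.ov.exists_norm hz
  have hb := (h.par hm hg).trans hs
  have hb' := (h'.par hm' hg').trans hs'
  have h4 : 4 ∣ b g + b' g' := by
    obtain ⟨c, hc⟩ := odd_of_red hb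
    obtain ⟨c', hc'⟩ := odd_of_red hb'
    obtain ⟨d, hd | hd⟩ := parity (c - c')
    · exfalso
      apply hne
      have := four_congr (p := p) (a := b g) (b := b' g') ⟨d, by rw [hc, hc']; linear_combination 2 * hd⟩
      rw [hu g hg, hu' g' hg'] at this
      linear_combination this - u * hk + u' * hk'
    · exact ⟨c' + d + 1, by rw [hc, hc']; linear_combination 2 * hd⟩
  obtain ⟨c, hc⟩ := h4
  have hA : red 1 (om r (tv i)) = 1 := (h.cc i).trans (if_neg hm.ik)
  have hA' : red 1 (om r' (tv i)) = 1 := (h'.cc i).trans (if_neg hm'.ik)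
  obtain ⟨a, ha⟩ := sq_odd hA
  obtain ⟨a', ha'⟩ := sq_odd hA'
  have hR : red 1 (om r r') = if k' = k then 0 else 1 := by
    rw [← h.cc k', cc, red_eq, ← om_sub_right]
    exact om_dvd_right _ h'.hr
  have hom : ∀ l ∈ Ine O, om (tv i) (T.ro (l * g') (tv i)) = -2 * b' g' * om r' (tv i) ^ 2 -
      2 * b l * om r (tv i) ^ 2 - 4 * (b l * b' g' * om r' (tv i) * om r r' * om r (tv i)) := by
    intro l hl
    rw [ro_mul, h'.hb g' hg', h.hb l hl]
    simp only [om, Prod.fst_add, Prod.snd_add, Prod.smul_fst, Prod.smul_snd, smul_eq_mul]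
    ring
  have hfz : ∀ l : Gam F, l ((e i - e j) / (e i - e k)) = (e i - e j) / (e i - e k) :=
    fun l => by simp only [map_div₀, map_sub, T.efix]
  have hz0 := div_ne_zero (T.ene i j hm.ij) (T.ene i k hm.ik)
  have hk1 : kap z (p + 2) ((e i - e j) / (e i - e k)) g = kap z (p + 2) (pl x) g := by
    simpa using hm.ov.kap_val hz hg (hfz g) (j := 1)
      (by rw [map_div₀, hm.vij, hm.vik, div_one, zpow_one])
  apply top_ne p
  by_cases hkk : k' = k
  · subst hkk
    obtain rfl : j' = j := by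
      have := hm.ij; have := hm.ik; have := hm.jk; have := hm'.ij; have := hm'.jk
      omega
    rw [if_pos rfl] at hR
    obtain ⟨d, hd⟩ := even_of_red hR
    have h5 := T.fix_mu hz hm.ij hm.ik hm.jk (mul_mem hg.1 hg'.1) (by
      rw [hom g hg, ha, ha', hd]
      exact ⟨-c - b' g' * a' - b g * a - b g * b' g' * om r' (tv i) * d * om r (tv i),
        by linear_combination -2 * hc⟩)
    have hk2 : kap z (p + 2) ((e i - e j') / (e i - e k')) g' = kap z (p + 2) (pl x') g' := by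
      simpa using hm'.ov.kap_val hz hg' (hfz g') (j := 1)
        (by rw [map_div₀, hm'.vij, hm'.vik, div_one, zpow_one])
    rw [kap_mul hz (geo_prim hz hg.1) (geo_prim hz hg'.1) (hfz _) (hfz _) hz0, hk1, hk2] at h5
    linear_combination h5 - hk - hk'
  · obtain ⟨rfl, rfl⟩ : j' = k ∧ k' = j := by
      have := hm.ij; have := hm.ik; have := hm.jk; have := hm'.ij; have := hm'.jk; have := hm'.ik
      omega
    rw [if_neg hkk] at hR
    obtain ⟨d, hd⟩ := odd_of_red (a := b g * b' g' * om r' (tv i) * om r r' * om r (tv i))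
      (by simp only [map_mul, hb, hb', hA, hA', hR, mul_one])
    obtain ⟨d', hd'⟩ := odd_of_red hb
    have h5 := T.fix_mu hz hm.ij hm.ik hm.jk (mul_mem (inv_mem hg.1) hg'.1) (by
      rw [hom _ (inv_mem hg), ha, ha', h.inv hg]
      exact ⟨-c + d' + 1 + d - b' g' * a' + b g * a,
        by linear_combination -2 * hc + 4 * hd + 4 * hd'⟩)
    have hk2 : kap z (p + 2) ((e i - e k') / (e i - e j')) g' = -kap z (p + 2) (pl x') g' := by
      simpa using hm'.ov.kap_val hz hg' (hfz g') (j := -1)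
        (by rw [map_div₀, hm'.vij, hm'.vik, zpow_neg_one, one_div])
    rw [kap_mul hz (inv_fix (geo_prim hz hg.1)) (geo_prim hz hg'.1) (hfz _) (hfz _) hz0,
      kap_inv hz (geo_prim hz hg.1) (hfz _) hz0, hk1, hk2] at h5
    linear_combination -h5 - hk - hk'

/-- The transvections at all multiplicative places have the same invariant modulo 4. -/
theorem exists_U (T : TD e) {p : ℕ} {z : Om F} (hz : IsPrimitiveRoot z (2 ^ (p + 2))) :
    ∃ U : ZMod (2 ^ (p + 2)), IsUnit U ∧ ∀ O x i j k r b, MP e O x i j k → TV T O k r b →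
      ∀ g ∈ Ine O, 2 ^ p * red (p + 2) (b g) = 2 ^ p * U * kap z (p + 2) (pl x) g := by
  by_cases hex : ∃ O x i j k r b, MP e O x i j k ∧ TV T O k r b
  · obtain ⟨O, x, i, j, k, r, b, hm, h⟩ := hex
    obtain ⟨u, hu⟩ := h.exists_u hm.ov hz
    refine ⟨u, ?_, fun O' x' i' j' k' r' b' hm' h' g hg => ?_⟩
    · obtain ⟨g, hg, hs⟩ := hm.ov.exists_sg
      have := (unit_of_red ((h.par hm hg).trans hs)).map (red (p + 2))
      rw [hu g hg] at this
      exact isUnit_of_mul_isUnit_left this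
    obtain ⟨u', hu'⟩ := h'.exists_u hm'.ov hz
    have : 2 ^ p * u = 2 ^ p * u' := by
      have : i = i' ∨ i = j' ∨ j = i' ∨ j = j' := by
        have := hm.ij; have := hm'.ij; have := hm'.ik; have := hm'.jk
        omega
      rcases this with rfl | rfl | rfl | rfl
      exacts [compare_aux hz hm hm' h h' hu hu', compare_aux hz hm hm'.swap h h' hu hu',
        compare_aux hz hm.swap hm' h h' hu hu', compare_aux hz hm.swap hm'.swap h h' hu hu']
    rw [this, hu' g hg, mul_assoc]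
  · exact ⟨1, isUnit_one, fun O x i j k r b hm h => (hex ⟨O, x, i, j, k, r, b, hm, h⟩).elim⟩

end

end Pool.Agent.Lib.MP_16ef92_ag
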