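import Mathlib
import Pool.Agent.Lib.MP_16ef92_ag.Mult

set_option autoImplicit false
set_option linter.unusedSectionVars false
set_option linter.unusedVariables false

namespace Pool.Agent.Lib.MP_16ef92_ag

open scoped Classical

noncomputable section

variable {F : Type} [Field F] [Clos F] [Fintype F] [hq : Fact (Odd (Fintype.card F))]
variable {e : Fin 3 → Om F} {T : TD e} {O : ValuationSubring (Om F)} {x : Option (kk F)}
  {i j k : Fin 3} {a : Gam F → V}

/-- Inertia acts trivially. -/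
def GoodAt (T : TD e) (O : ValuationSubring (Om F)) : Prop := ∀ g ∈ Ine O, ∀ y, T.ro g y = y

/-- Inertia acts through the ramified quadratic character. -/
def TwistAt (T : TD e) (O : ValuationSubring (Om F)) (x : Option (kk F)) : Prop :=
  ∀ g ∈ Ine O, ∀ y, T.ro g y = if sg (pl x) g = 0 then y else -y

/-- Every place is good, additive (on `D`) or multiplicative (off `D`). -/
def Cls (T : TD e) (D : Option (kk F) → Prop) : Prop :=
  ∀ x, (∀ O, Over O x → GoodAt T O) ∨ (D x ∧ ∀ O, Over O x → TwistAt T O x) ∨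
    (¬ D x ∧ ∃ i j k, ∀ O, Over O x → MP e O x i j k)

/-- The class is ramified modulo 2 at `x`. -/
def Ram (a : Gam F → V) (x : Option (kk F)) : Prop := ∃ O, Over O x ∧ ∃ g ∈ Ine O, a g ∉ Dv 1

theorem loc_good (hl : LT T a) (hO : Over O x) (h : GoodAt T O) {g : Gam F} (hg : g ∈ Ine O) :
    a g = 0 := by
  obtain ⟨j, m, hm⟩ := hl O x hO
  apply two_pow_smul_inj (n := j)
  rw [hm g hg, h g hg, sub_self, smul_zero]

theorem loc_twist (hl : LT T a) (hO : Over O x) (h : TwistAt T O x) :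
    ∃ a₀, ∀ g ∈ Ine O, a g = if sg (pl x) g = 0 then 0 else a₀ := by
  obtain ⟨j, m, hm⟩ := hl O x hO
  obtain ⟨g₀, hg₀, hs⟩ := hO.exists_sg
  refine ⟨a g₀, fun g hg => two_pow_smul_inj (n := j) ?_⟩
  rw [hm g hg, h g hg]
  split_ifs with h1
  · simp
  · rw [hm g₀ hg₀, h g₀ hg₀, if_neg (by rw [hs]; decide)]

theorem loc_mult (hl : LT T a) (hm : MP e O x i j k) {r : V} {b : Gam F → ℤ_[2]}
    (h : TV T O k r b) : ∃ a₀ : ℤ_[2], ∀ g ∈ Ine O, a g = (a₀ * b g) • r := by
  obtain ⟨l, m, hlm⟩ := hl O x hm.ov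
  obtain ⟨g₀, hg₀, hs⟩ := hm.ov.exists_sg
  obtain ⟨u, hu⟩ := (unit_of_red ((h.par hm hg₀).trans hs)).exists_right_inv
  obtain ⟨s, hs⟩ := exists_dual (tv_prim h.hr)
  have h1 := congrArg (om · s) (hlm g₀ hg₀)
  simp only [h.hb g₀ hg₀, add_sub_cancel_left, om_smul_left, hs] at h1
  refine ⟨om (a g₀) s * u, fun g hg => two_pow_smul_inj (n := l) ?_⟩
  rw [hlm g hg, h.hb g hg, add_sub_cancel_left, smul_smul]
  congr 1
  linear_combination (-u * b g) * h1 - (2 * b g * om r m) * hu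

theorem lb_two (hd : ∀ g ∈ Geo F, dt (T.ro g) = 1) (hl : LT T a) {D : Option (kk F) → Prop}
    (hc : Cls T D) : LB T fun g => (2 : ℤ_[2]) • a g := by
  intro O x hO
  rcases hc x with h | ⟨-, h⟩ | ⟨-, i, j, k, h⟩
  · exact ⟨0, fun g hg => by simp [loc_good hl hO (h O hO) hg]⟩
  · obtain ⟨a₀, h0⟩ := loc_twist hl hO (h O hO)
    refine ⟨-a₀, fun g hg => ?_⟩
    beta_reduce
    rw [h0 g hg, h O hO g hg]
    split_ifs
    · simp
    · module
  · obtain ⟨r, b, ht⟩ := (h O hO).exists_tv hd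
    obtain ⟨a₀, h0⟩ := loc_mult hl (h O hO) ht
    obtain ⟨s, hs⟩ := exists_dual (tv_prim ht.hr)
    refine ⟨a₀ • s, fun g hg => ?_⟩
    beta_reduce
    rw [h0 g hg, ht.hb g hg, om_smul_right, hs]
    module

/-- The quadratic form on the points of order two. -/
def qf (y : V) : ℤ_[2] := y.1 ^ 2 + y.1 * y.2 + y.2 ^ 2

theorem qf_even {y : V} (h : y ∈ Dv 1) : ∃ c, qf y = 2 * c := by
  obtain ⟨z, rfl⟩ := mem_Dv_iff.1 h
  exact ⟨2 * qf z, by simp [qf]; ring⟩

theorem qf_odd {y : V} (h : y ∉ Dv 1) : ∃ c, qf y = 2 * c + 1 := by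
  apply odd_of_red
  rw [mem_Dv, ← red_eq_zero, ← red_eq_zero] at h
  simp only [qf, map_add, map_mul, map_pow]
  revert h
  generalize red 1 y.1 = u
  generalize red 1 y.2 = v
  revert u v
  decide

theorem qf_smul (c : ℤ_[2]) (y : V) : qf (c • y) = c ^ 2 * qf y := by simp [qf]; ring

theorem weight_four {p : ℕ} {z : Om F} (hz : IsPrimitiveRoot z (2 ^ (p + 2)))
    (hd : ∀ g ∈ Geo F, dt (T.ro g) = 1) (ha : Cy T a) (hl : LT T a) {D : Option (kk F) → Prop}
    (hc : Cls T D) (Z : Finset (Option (kk F))) (hZ : ∀ x, x ∈ Z ↔ Ram a x)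
    {l : ZMod (2 ^ (p + 2))} (h : Pair T z a (fun g => (2 : ℤ_[2]) • a g) l) (h0 : 2 ^ p * l = 0) :
    4 ∣ Z.card + (Z.filter D).card := by
  obtain ⟨U, hU, hU'⟩ := exists_U T hz
  let f : Gam F → ZMod (2 ^ (p + 2)) := fun g => 2 ^ p * red (p + 2) (2 * qf (a g))
  have hred : ∀ c, red (p + 2) (2 ^ p * c) = 2 ^ p * red (p + 2) c := fun c => by
    rw [map_mul, map_pow, map_ofNat]
  have hf : Ph T f (fun g => (2 : ℤ_[2]) ^ p • a g) fun g => (2 : ℤ_[2]) • a g := by
    refine ⟨fun g hg h hh => ?_, (ha.near 1).mono fun g hg hg' => ?_⟩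
    · simp only [f]
      rw [om_smul_left, hred, ← mul_add, ← mul_add, ← map_add, ← map_add, ha.mul g hg h hh,
        map_smul, T.nn_spec]
      generalize T.nn g (a h) = w
      generalize a g = u
      generalize a h = v
      refine four_congr ⟨u.2 * v.1 + u.1 * v.1 + u.2 * v.2 + 2 * (u.1 + v.1) * w.1 + 2 * w.1 ^ 2 +
        (u.1 + v.1) * w.2 + (u.2 + v.2) * w.1 + 2 * w.1 * w.2 + 2 * (u.2 + v.2) * w.2 + 2 * w.2 ^ 2
        - (u.1 * w.2 - u.2 * w.1), ?_⟩
      simp only [qf, om, Prod.fst_add, Prod.snd_add, Prod.smul_fst, Prod.smul_snd, smul_eq_mul]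
      ring
    · obtain ⟨c, hc⟩ := qf_even (hg hg')
      exact four_zero ⟨c, by rw [hc]; ring⟩
  let w : Option (kk F) → ZMod (2 ^ (p + 2)) := fun x => 2 ^ p * U * if D x then 2 else 1
  let v : Option (kk F) →₀ ZMod (2 ^ (p + 2)) := ∑ x ∈ Z, Finsupp.single x (w x)
  have hv : ∀ x, v x = if x ∈ Z then w x else 0 := fun x => by
    simp only [v, Finsupp.finsetSum_apply, Finsupp.single_apply, Finset.sum_ite_eq']
  have hl' : LT T fun g => (2 : ℤ_[2]) ^ p • a g := fun O x hO => by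
    obtain ⟨j, m, hm⟩ := hl O x hO
    exact ⟨j, (2 : ℤ_[2]) ^ p • m, fun g hg => by rw [smul_comm, hm g hg, map_smul, smul_sub]⟩
  have hinv : ∀ x, Inv T z f (fun g => (2 : ℤ_[2]) ^ p • a g) (fun g => (2 : ℤ_[2]) • a g) x
      (v x) := by
    intro x
    have hO : ∃ O, Over O x ∧ (x ∈ Z ↔ ∃ g ∈ Ine O, a g ∉ Dv 1) := by
      by_cases hx : x ∈ Z
      · obtain ⟨O, hO, h1⟩ := (hZ x).1 hx
        exact ⟨O, hO, fun _ => h1, fun _ => hx⟩
      · obtain ⟨O, hO⟩ := exists_over x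
        exact ⟨O, hO, fun h1 => (hx h1).elim, fun h1 => (hZ x).2 ⟨O, hO, h1⟩⟩
    obtain ⟨O, hO, hx⟩ := hO
    obtain ⟨m, hm⟩ := lb_two hd hl hc O x hO
    refine inv_of_one hz hd (ha.smul _) (ha.smul _) hl' hf hO hm fun g hg => ?_
    simp only [f]
    rw [om_smul_left, hred, ← mul_sub, ← map_sub, hv]
    obtain ⟨g₀, hg₀, hs⟩ := hO.exists_sg
    rcases hc x with h | ⟨hD, h⟩ | ⟨hD, i, j, k, h⟩
    · rw [if_neg fun h1 => by
        obtain ⟨g, hg, h2⟩ := hx.1 h1
        exact h2 (by rw [loc_good hl hO (h O hO) hg]; exact zero_mem _),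
        loc_good hl hO (h O hO) hg]
      simp [qf, om_zero_left]
    · obtain ⟨a₀, h0⟩ := loc_twist hl hO (h O hO)
      have hs' : sg (pl x) g₀ ≠ 0 := by rw [hs]; decide
      have hm0 : m = -a₀ := by
        have := hm g₀ hg₀
        beta_reduce at this
        rw [h0 g₀ hg₀, h O hO g₀ hg₀, if_neg hs', if_neg hs'] at this
        apply two_pow_smul_inj (n := 1)
        linear_combination (norm := module) this
      have hx' : x ∈ Z ↔ a₀ ∉ Dv 1 := hx.trans ⟨fun ⟨g, hg, h1⟩ h2 => h1 (by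
        rw [h0 g hg]
        split_ifs
        exacts [zero_mem _, h2]), fun h1 => ⟨g₀, hg₀, by rwa [h0 g₀ hg₀, if_neg hs']⟩⟩
      rw [h0 g hg, h O hO g hg, hm0]
      simp only [w, if_pos hD]
      by_cases hsg : sg (pl x) g = 0
      · have := kap_top_of_sg hz hg.1 hsg
        simp only [if_pos hsg, om_zero_left, qf]
        split_ifs
        · simp only [Prod.fst_zero, Prod.snd_zero]
          norm_num
          linear_combination -U * this
        · simp
      · simp only [if_neg hsg, neg_neg, om_self, sub_zero]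
        split_ifs with h1
        · obtain ⟨c, hc⟩ := qf_odd (hx'.1 h1)
          have h2 := unit_two (hU.mul (kap_unit_of_sg hz hg.1 ((z2_cases _).resolve_left hsg)))
          rw [four_congr (b := 2) ⟨c, by rw [hc]; ring⟩, map_ofNat]
          linear_combination -h2
        · obtain ⟨c, hc⟩ := qf_even (not_not.1 (hx'.not.1 h1))
          rw [zero_mul]
          exact four_zero ⟨c, by rw [hc]; ring⟩
    · obtain ⟨r, b, ht⟩ := (h O hO).exists_tv hd
      obtain ⟨a₀, h0⟩ := loc_mult hl (h O hO) ht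
      obtain ⟨s, hrs⟩ := exists_dual (tv_prim ht.hr)
      have hb0 := (ht.par (h O hO) hg₀).trans hs
      have hm0 : om r m = a₀ := by
        have := congrArg (om · s) (hm g₀ hg₀)
        simp only [h0 g₀ hg₀, ht.hb g₀ hg₀, add_sub_cancel_left, om_smul_left, hrs] at this
        apply (unit_of_red hb0).mul_left_cancel
        exact mul_left_cancel₀ two_ne_zero (by linear_combination -this)
      have h1 : om (a g) (T.ro g m) = a₀ ^ 2 * b g := by
        rw [h0 g hg, om_smul_left]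
        conv_lhs => rw [← ht.fix hg, om_map, hd g hg.1, hm0]
        ring
      obtain ⟨c, hc⟩ := qf_odd (tv_prim ht.hr)
      rw [h1, h0 g hg, qf_smul, hc]
      simp only [w, if_neg hD, mul_one]
      obtain ⟨d, rfl | rfl⟩ := parity a₀
      · rw [if_neg fun h2 => by
          obtain ⟨g, hg, h3⟩ := hx.1 h2
          exact h3 (by rw [h0 g hg, mul_assoc, mul_smul]; exact two_smul_Dv _), zero_mul]
        exact four_zero ⟨2 * d ^ 2 * b g ^ 2 * (2 * c + 1) - d ^ 2 * b g, by ring⟩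
      · rw [if_pos (hx.2 ⟨g₀, hg₀, fun h2 => by
          have h3 := cc_of_Dv i h2
          rw [h0 g₀ hg₀, cc_smul, map_mul, red_odd, hb0, ht.cc i, if_neg (h O hO).ik] at h3
          exact absurd h3 (by decide)⟩), ← hU' O x i j k r b (h O hO) ht g hg]
        apply four_congr
        obtain ⟨t, ht' | ht'⟩ := parity (b g)
        · exact ⟨2 * (2 * d + 1) ^ 2 * t ^ 2 * (2 * c + 1) - (d ^ 2 + d) * 2 * t - t,
            by rw [ht']; ring⟩
        · exact ⟨(2 * d + 1) ^ 2 * (2 * t + 1) ^ 2 * c + 2 * (d ^ 2 + d) * (2 * t + 1) ^ 2 +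
            2 * (t ^ 2 + t) - (d ^ 2 + d) * (2 * t + 1) - t, by rw [ht']; ring⟩
  have h1 := (h.smul (2 ^ p)).unique hz (lb_two hd hl hc) ⟨f, hf, v, hinv, rfl⟩
  rw [map_pow, map_ofNat, h0] at h1
  have h2 : (v.sum fun _ c => c) = 2 ^ p * U * (Z.card + (Z.filter D).card : ℕ) := by
    simp only [v]
    rw [← Finsupp.sum_finsetSum_index (fun _ => rfl) fun _ _ _ => rfl]
    simp only [Finsupp.sum_single_index, w]
    rw [← Finset.mul_sum, Finset.card_filter]
    congr 1
    push_cast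
    rw [Finset.card_eq_sum_ones]
    push_cast
    rw [← Finset.sum_add_distrib]
    refine Finset.sum_congr rfl fun x _ => ?_
    split_ifs <;> norm_num
  rw [h2, mul_right_comm, eq_comm, hU.mul_left_eq_zero] at h1
  have h3 := four_of_zero (p := p) (a := (Z.card + (Z.filter D).card : ℕ)) (by rwa [map_natCast])
  have h4 : red 2 (Z.card + (Z.filter D).card : ℕ) = 0 := red_eq_zero.2 (by
    rwa [show (2 : ℤ_[2]) ^ 2 = 4 by norm_num])
  rw [map_natCast, ZMod.natCast_eq_zero_iff] at h4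
  exact h4

end

end Pool.Agent.Lib.MP_16ef92_ag
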