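import Mathlib
import Pool.Agent.Lib.MP_16ef92_ag.Wt

set_option autoImplicit false
set_option linter.unusedSectionVars false
set_option linter.unusedVariables false

namespace Pool.Agent.Lib.MP_16ef92_ag

open Polynomial IntermediateField
open scoped Classical

noncomputable section

theorem fixed_mem_range {L M : Type} [Field L] [Fintype L] [Field M] (f : L →+* M) {c : M}
    (h : c ^ Fintype.card L = c) : ∃ a, f a = c := by
  have h0 : (X ^ Fintype.card L - X : L[X]) ≠ 0 :=
    FiniteField.X_pow_card_sub_X_ne_zero L Fintype.one_lt_card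
  have h1 : (X ^ Fintype.card L - X : L[X]).Splits := by
    rw [splits_iff_card_roots, FiniteField.roots_X_pow_card_sub_X,
      FiniteField.X_pow_card_sub_X_natDegree_eq L Fintype.one_lt_card]
    rfl
  have h2 : c ∈ ((X ^ Fintype.card L - X : L[X]).map f).roots :=
    (mem_roots (Polynomial.map_ne_zero h0)).2 (by simp [h])
  rw [h1.roots_map] at h2
  obtain ⟨a, _, ha⟩ := Multiset.mem_map.1 h2
  exact ⟨a, ha⟩

theorem exists_nonsq {L : Type} [Field L] [Fintype L] (h : Odd (Fintype.card L)) :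
    ∃ a : L, ¬ IsSquare a :=
  FiniteField.exists_nonsquare fun e => by
    have := FiniteField.even_card_of_char_two e
    rw [Nat.odd_iff] at h
    omega

theorem exists_shift_nonsq {L : Type} [Field L] [Fintype L] (h : Odd (Fintype.card L)) {b : L}
    (hb : b ≠ 0) : ∃ w : L, ¬ IsSquare (w ^ 2 - b) := by
  by_contra hc
  push Not at hc
  obtain ⟨n, hn⟩ := exists_nonsq h
  obtain ⟨i, hi⟩ := hc 0
  obtain ⟨u, v, huv⟩ := FiniteField.exists_root_sum_quadratic (f := X ^ 2) (g := X ^ 2 - C n)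
    (degree_X_pow 2) (degree_X_pow_sub_C (by decide) _) (Nat.odd_iff.1 h)
  simp only [eval_pow, eval_X, eval_sub, eval_C] at huv
  have hi0 : i ≠ 0 := fun e => hb (by simpa [e] using hi)
  have hv : v ≠ 0 := fun e => hn ⟨u, by rw [e] at huv; linear_combination -huv⟩
  obtain ⟨w, hw⟩ := hc (u * i / v)
  refine hn ⟨v / i * w, ?_⟩
  have hb' : b = -(i * i) := by linear_combination -hi
  rw [hb'] at hw
  field_simp at hw ⊢
  linear_combination hw - i ^ 2 * huv

variable {F : Type} [Field F] [Clos F] [Fintype F] [hq : Fact (Odd (Fintype.card F))]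

theorem residue (c : kk F) : ∃ d, c ^ Fintype.card F ^ d = c ∧
    (∀ y : kk F, y ^ Fintype.card F ^ d = y → ∃ h : F[X], aeval c h = y) ∧
    ∀ b : F[X], aeval c b ≠ 0 → ∃ h : F[X], ∀ y : kk F, y ^ Fintype.card F ^ d = y →
      y ^ 2 ≠ aeval c h ^ 2 - aeval c b := by
  have hi : IsIntegral F c := Algebra.IsIntegral.isIntegral c
  have : FiniteDimensional F F⟮c⟯ := adjoin.finiteDimensional hi
  have : Finite F⟮c⟯ := Module.finite_of_finite F
  let _ : Fintype F⟮c⟯ := Fintype.ofFinite _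
  have hcard : Fintype.card F⟮c⟯ = Fintype.card F ^ Module.finrank F F⟮c⟯ :=
    Module.card_eq_pow_finrank
  have h1 : ∀ y : F⟮c⟯, ∃ h : F[X], aeval c h = y := by
    intro y
    have : y.1 ∈ Algebra.adjoin F {c} := by
      rw [← adjoin_simple_toSubalgebra_of_isAlgebraic hi.isAlgebraic]
      exact y.2
    rwa [Algebra.adjoin_singleton_eq_range_aeval] at this
  have h2 : ∀ y : kk F, y ^ Fintype.card F ^ Module.finrank F F⟮c⟯ = y → ∃ a : F⟮c⟯, a.1 = y :=
    fun y hy => fixed_mem_range (algebraMap F⟮c⟯ (kk F)) (by rwa [hcard])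
  refine ⟨Module.finrank F F⟮c⟯, ?_, fun y hy => ?_, fun b hb => ?_⟩
  · have := FiniteField.pow_card (AdjoinSimple.gen F c)
    rw [hcard] at this
    exact congrArg Subtype.val this
  · obtain ⟨a, rfl⟩ := h2 y hy
    exact h1 a
  · have e : ((aeval (AdjoinSimple.gen F c) b : F⟮c⟯) : kk F) = aeval c b :=
      (aeval_algebraMap_apply (kk F) (AdjoinSimple.gen F c) b).symm
    obtain ⟨w, hw⟩ := exists_shift_nonsq (L := F⟮c⟯) (by rw [hcard]; exact hq.out.pow)
      (b := aeval (AdjoinSimple.gen F c) b) fun h => hb (by rw [← e, h]; rfl)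
    obtain ⟨h, hh⟩ := h1 w
    refine ⟨h, fun y hy h3 => hw ?_⟩
    obtain ⟨a, rfl⟩ := h2 y hy
    refine ⟨a, Subtype.ext ?_⟩
    push_cast
    rw [e, ← hh, ← h3, sq]

/-- A polynomial over `F` evaluated at the variable. -/
abbrev ev (p : F[X]) : Om F := aeval (tt F) p

theorem ev_ne {p : F[X]} (hp : p ≠ 0) : ev p ≠ 0 := by
  rw [ev, ← rf_eq, _root_.map_ne_zero]
  exact RatFunc.algebraMap_ne_zero hp

variable {O : ValuationSubring (Om F)} {c : kk F}

theorem ev_sub (h : Over O (some c)) (p : F[X]) : O.valuation (ev p - (aeval c p : kk F)) < 1 := by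
  have := poly_sub O h (p.map (algebraMap F (kk F)))
  rwa [aeval_map_algebraMap, eval_map_algebraMap] at this

theorem ev_le (h : Over O (some c)) (p : F[X]) : O.valuation (ev p) ≤ 1 := by
  have := Valuation.map_add_le _ (ev_sub h p).le (val_const_le O (aeval c p))
  rwa [sub_add_cancel] at this

theorem ev_root (h : Over O (some c)) {p : F[X]} (hp : O.valuation (ev p) < 1) : aeval c p = 0 := by
  by_contra h1
  exact hp.ne (over_ev h h1)

theorem simple_root {p q : F[X]} (hN : Squarefree (p * q)) (hc : aeval c p = 0) :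
    aeval c q ≠ 0 ∧ ∀ O, Over O (some c) → O.valuation (ev p) = O.valuation (pl (some c)) := by
  have h1 := ((PerfectField.separable_iff_squarefree.2 hN).map (f := algebraMap F (kk F))).squarefree
  have hd : ∀ s : F[X], aeval c s = 0 → X - C c ∣ s.map (algebraMap F (kk F)) := fun s hs => by
    rwa [dvd_iff_isRoot, IsRoot, eval_map_algebraMap]
  obtain ⟨P, hP⟩ := hd p hc
  rw [Polynomial.map_mul, hP] at h1
  constructor
  · intro h
    exact not_isUnit_X_sub_C c (h1 _ (mul_dvd_mul (dvd_mul_right _ _) (hd q h)))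
  · intro O hO
    have h2 : P.eval c ≠ 0 := fun h => not_isUnit_X_sub_C c (h1 _
      ((mul_dvd_mul_left _ (dvd_iff_isRoot.2 h)).mul_right _))
    rw [ev, ← aeval_map_algebraMap (kk F), hP, map_mul, map_mul, poly_unit O hO h2, mul_one]
    simp [pl]

theorem val_inf_poly (h : Over O none) {p : F[X]} (hp : p ≠ 0) :
    O.valuation (ev p / tt F ^ p.natDegree) = 1 := by
  let _ := invertibleOfNonzero (tt_ne (F := F))
  have h1 := eval₂_reverse_mul_pow (algebraMap F (Om F)) (tt F) p
  rw [invOf_eq_inv, ← aeval_def, ← aeval_def] at h1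
  rw [ev, ← h1, mul_div_cancel_right₀ _ (pow_ne_zero _ tt_ne), ← aeval_map_algebraMap (kk F)]
  refine poly_unit O (c := 0) (by simpa [Over, pl] using h) ?_
  rw [← coeff_zero_eq_eval_zero, coeff_map, coeff_zero_reverse, _root_.map_ne_zero]
  exact leadingCoeff_ne_zero.2 hp

theorem deg_eq_card {p : F[X]} (hp : Squarefree p) (Z : Finset (kk F))
    (hZ : ∀ c, c ∈ Z ↔ aeval c p = 0) : p.natDegree = Z.card := by
  rw [← card_rootSet_eq_natDegree (K := kk F) (PerfectField.separable_iff_squarefree.2 hp)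
    (IsAlgClosed.splits _)]
  exact Fintype.card_of_subtype Z fun c => by rw [hZ, mem_rootSet_of_ne hp.ne_zero]

theorem irr_dvd {p a : F[X]} (hp : Irreducible p) (hc : aeval c p = 0) :
    p ∣ a ↔ aeval c a = 0 := by
  constructor
  · rintro ⟨b, rfl⟩
    rw [map_mul, hc, zero_mul]
  · intro h
    by_contra h1
    obtain ⟨u, v, huv⟩ := hp.coprime_iff_not_dvd.2 h1
    simpa [hc, h] using congrArg (aeval c) huv

theorem sg_sq {g : Gam F} {y : Om F} (hy : g y = y) (h0 : y ≠ 0) : sg (y ^ 2) g = 0 :=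
  sg_of_fix (pow_ne_zero _ h0) rfl hy

theorem Fr.res {s : Gam F} {Q : ℕ} (h : Fr s Q) (hs : s ∈ St O) {y : Om F} (hy : s y = y)
    {d : kk F} (hd : O.valuation (y - d) < 1) : d ^ Q = d := by
  have h1 := st_lt hs hd
  rw [map_sub, hy, h d] at h1
  refine const_eq O ?_
  have := Valuation.map_sub_lt _ hd h1
  rw [sub_sub_sub_cancel_left] at this
  push_cast
  exact this

theorem locSq_of_sg {p : F[X]} (hp : Irreducible p) (hc : aeval c p = 0) (hO : Over O (some c))
    {g s : Gam F} (hg : g ∈ Ine O) (hg1 : sg (pl (some c)) g = 1) {Q : ℕ} (hs : Fr s Q)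
    (hst : s ∈ St O) (hQ : ∀ y : kk F, y ^ Q = y → ∃ h : F[X], aeval c h = y) {z : RatFunc F}
    (h0 : z ≠ 0) (h1 : sg (algebraMap _ (Om F) z) g = 0) (h2 : sg (algebraMap _ (Om F) z) s = 0) :
    LocSq p z := by
  obtain ⟨n, a, ha, ea⟩ := WfDvdMonoid.max_power_factor (RatFunc.num_ne_zero h0) hp
  obtain ⟨m, b, hb, eb⟩ := WfDvdMonoid.max_power_factor (RatFunc.denom_ne_zero z) hp
  have hp0 : rf p ≠ 0 := RatFunc.algebraMap_ne_zero hp.ne_zero
  have hb0 : b ≠ 0 := fun e => hb (e ▸ dvd_zero _)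
  have ha' := over_ev hO ((irr_dvd hp hc).not.1 ha)
  have hb' := over_ev hO ((irr_dvd hp hc).not.1 hb)
  have hz : z = rf p ^ ((n : ℤ) - m) * (rf a / rf b) := by
    rw [← RatFunc.num_div_denom z, ea, eb, zpow_sub₀ hp0, zpow_natCast, zpow_natCast,
      div_mul_div_comm, map_mul, map_mul, map_pow, map_pow]
  have hZ : algebraMap _ (Om F) z = ev p ^ ((n : ℤ) - m) * (ev a / ev b) := by
    rw [hz, map_mul, map_zpow₀, map_div₀, rf_eq, rf_eq, rf_eq]
  have hU : O.valuation (ev a / ev b) = 1 := by rw [map_div₀, ha', hb', div_one]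
  have hvp := (simple_root (q := 1) (by simpa using hp.squarefree) hc).2 O hO
  have h3 := hO.kap_val prim_one hg (g.commutes z) (j := (n : ℤ) - m)
    (by rw [hZ, map_mul, hU, mul_one, map_zpow₀, hvp])
  change sg _ _ = _ * sg _ _ at h3
  rw [h1, hg1, mul_one, eq_comm, ZMod.intCast_zmod_eq_zero_iff_dvd] at h3
  obtain ⟨l, hl⟩ := h3
  have hl' : (n : ℤ) - m = l * 2 := by simpa [mul_comm] using hl
  have hU0 : ev a / ev b ≠ 0 := fun e => by simp [e] at hU
  have hfU : s (ev a / ev b) = ev a / ev b := by rw [map_div₀, gam_ev, gam_ev]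
  have hfp : s (ev p ^ l) = ev p ^ l := by rw [map_zpow₀, gam_ev]
  have hpl := zpow_ne_zero l (ev_ne hp.ne_zero)
  rw [hZ, hl', zpow_mul, zpow_ofNat, sg_mul_left (by rw [map_pow, hfp]) (pow_ne_zero _ hpl) hfU hU0,
    sg_sq hfp hpl, zero_add] at h2
  obtain ⟨y, hy⟩ := exists_sq (ev a / ev b)
  have hvy := val_of_sq hy hU
  obtain ⟨d, hd⟩ := hO.res ((O.valuation_le_one_iff y).1 hvy.le)
  obtain ⟨h, rfl⟩ := hQ d (hs.res hst (sg_fix_root hfU hU0 hy h2) hd)
  have h4 : O.valuation (y - ev h) < 1 := by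
    have := Valuation.map_sub_lt _ hd (ev_sub hO h)
    rwa [sub_sub_sub_cancel_right] at this
  have h5 : aeval c h ≠ 0 := fun e => by
    rw [e] at hd
    exact hd.ne (by simpa using hvy)
  obtain ⟨t, ht⟩ := (irr_dvd hp hc (a := a - b * h ^ 2)).2 (ev_root hO (by
    have : ev (a - b * h ^ 2) = ev b * (y + ev h) * (y - ev h) := by
      have := ev_ne hb0
      simp only [ev, map_sub, map_mul, map_pow] at *
      rw [div_eq_mul_inv] at hy
      linear_combination (-aeval (tt F) b) * hy - aeval (tt F) a * mul_inv_cancel₀ this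
    rw [this]
    exact val_mul_lt O (val_mul_le O hb'.le (Valuation.map_add_le _ hvy.le (ev_le hO h))) h4))
  have hh0 : rf h ≠ 0 := RatFunc.algebraMap_ne_zero fun e => h5 (by rw [e, map_zero])
  have hb1 : rf b ≠ 0 := RatFunc.algebraMap_ne_zero hb0
  refine ⟨rf p ^ l * rf h, t, b * h ^ 2, mul_ne_zero (zpow_ne_zero _ hp0) hh0, ?_, ?_⟩
  · rw [irr_dvd hp hc, map_mul, map_pow]
    exact mul_ne_zero ((irr_dvd hp hc).not.1 hb) (pow_ne_zero _ h5)
  · have := congrArg rf ht
    simp only [rf, map_sub, map_mul, map_pow] at this ⊢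
    rw [hz, hl', zpow_mul, zpow_ofNat, ← this]
    field_simp
    ring

theorem sg_one_unit {g : Gam F} (hg : g ∈ St O) {z : Om F} (hz : g z = z)
    (hv : O.valuation (z - 1) < 1) : sg z g = 0 := by
  have h0 : z ≠ 0 := fun e => by simp [e] at hv
  obtain ⟨y, hy⟩ := exists_sq z
  refine (z2_cases _).resolve_right fun h => ?_
  have h1 := sg_neg_root hz h0 hy h
  have key : ∀ y : Om F, g y = -y → ¬ O.valuation (y - 1) < 1 := by
    intro y h1 h2
    have h3 := st_lt hg h2
    rw [map_sub, h1, map_one] at h3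
    have := Valuation.map_add_lt _ h2 h3
    rw [show y - 1 + (-y - 1) = -2 by ring, Valuation.map_neg, val_two] at this
    exact lt_irrefl _ this
  have h2 := not_lt.1 (key y h1)
  have h3 := not_lt.1 (key (-y) (by rw [map_neg, h1]))
  rw [show z - 1 = -((y - 1) * (-y - 1)) by rw [← hy]; ring, Valuation.map_neg, map_mul] at hv
  exact absurd (one_le_mul h2 h3) (not_le.2 hv)

theorem sg_nonsq {x : Option (kk F)} (hO : Over O x) {s : Gam F} {Q : ℕ} (hs : Fr s Q)
    (hst : s ∈ St O) {z : Om F} (hz : s z = z) {d : kk F} (hv : O.valuation (z - d) < 1)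
    (hd : ∀ y : kk F, y ^ Q = y → y ^ 2 ≠ d) (hQ : 0 < Q) : O.valuation z = 1 ∧ sg z s = 1 := by
  have hd0 : d ≠ 0 := fun e => hd 0 (zero_pow hQ.ne') (by simp [e])
  have h1 := val_one_of_sub O (val_const O hd0) hv
  have h0 : z ≠ 0 := fun e => by simp [e] at h1
  refine ⟨h1, (z2_cases _).resolve_left fun h => ?_⟩
  obtain ⟨y, hy⟩ := exists_sq z
  have hvy := val_of_sq hy h1
  obtain ⟨u, hu⟩ := hO.res ((O.valuation_le_one_iff y).1 hvy.le)
  refine hd u (hs.res hst (sg_fix_root hz h0 hy h) hu) (const_eq O ?_)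
  have h2 := Valuation.map_sub_lt _ hv
    (val_mul_lt O (Valuation.map_add_le _ hvy.le (val_const_le O u)) hu)
  push_cast
  rwa [show z - d - (y + u) * (y - u) = (u : Om F) ^ 2 - d by rw [← hy]; ring] at h2

end

end Pool.Agent.Lib.MP_16ef92_ag
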