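import Mathlib
import Pool.Agent.Lib.MP_16ef92_ag.Ari

set_option autoImplicit false
set_option linter.unusedSectionVars false
set_option linter.unusedVariables false

namespace Pool.Agent.Lib.MP_16ef92_ag

open Polynomial
open scoped Classical

noncomputable section

variable {F : Type} [Field F] [Clos F] [Fintype F] [hq : Fact (Odd (Fintype.card F))]

/-- The embedding of `K`. -/
abbrev am (x : RatFunc F) : Om F := algebraMap (RatFunc F) (Om F) x

theorem sg_div {g : Gam F} {z y : Om F} (hz : g z = z) (h0 : z ≠ 0) (hy : g y = y)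
    (h1 : y ≠ 0) : sg (z / y) g = sg z g + sg y g := by
  have := kap_div prim_one (fix_neg_one g) hz h0 hy h1
  rwa [sub_eq_add_neg, neg_z2] at this

variable {E : Fin 3 → F[X]} {T : TD fun i => ev (E i)}

/-- A rational `x` with prescribed descent classes at `g` and `s`. -/
def Gd (E : Fin 3 → F[X]) (g s : Gam F) (y₁ y₂ : V) : Prop :=
  ∃ x : RatFunc F, ∀ i, am x - ev (E i) ≠ 0 ∧ sg (am x - ev (E i)) g = cc i y₁ ∧
    sg (am x - ev (E i)) s = cc i y₂

theorem Gd.congr {g s : Gam F} {y₁ y₂ z₁ z₂ : V} (h : Gd E g s y₁ y₂) (h1 : z₁ - y₁ ∈ Dv 1)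
    (h2 : z₂ - y₂ ∈ Dv 1) : Gd E g s z₁ z₂ := by
  obtain ⟨x, hx⟩ := h
  exact ⟨x, fun i => by rw [cc_congr i h1, cc_congr i h2]; exact hx i⟩

theorem Gd.add (T : TD fun i => ev (E i)) {g s : Gam F} {y₁ y₂ : V} (h : Gd E g s y₁ y₂)
    (j : Fin 3) : Gd E g s (y₁ + T.nn g (tv j)) (y₂ + T.nn s (tv j)) := by
  obtain ⟨x, hx⟩ := h
  obtain ⟨i, k, hji, hjk, hik⟩ := exists_two j
  let x' := rf (E j) + (rf (E j) - rf (E i)) * (rf (E j) - rf (E k)) / (x - rf (E j))
  have hx' : am x' = ev (E j) + (ev (E j) - ev (E i)) * (ev (E j) - ev (E k)) / (am x - ev (E j)) := by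
    simp only [x', map_add, map_div₀, map_mul, map_sub, rf_eq]
  have f1 : ∀ (t : Gam F) l, t (am x - ev (E l)) = am x - ev (E l) := fun t l => by
    rw [map_sub, gam_ev, t.commutes]
  have f2 : ∀ (t : Gam F) l m, t (ev (E l) - ev (E m)) = ev (E l) - ev (E m) := fun t l m => by
    rw [map_sub, gam_ev, gam_ev]
  have hz : ∀ a b c d : ZMod (2 ^ 1), a + b + c = 0 → d + c + a = b + d := by decide
  have hz' : ∀ a b c d : ZMod (2 ^ 1), a + b + c = 0 → b + c + d = d + a := by decide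
  have h1 : ∀ i k, j ≠ i → j ≠ k → i ≠ k → am x' = ev (E j) + (ev (E j) - ev (E i)) *
      (ev (E j) - ev (E k)) / (am x - ev (E j)) → am x' - ev (E i) ≠ 0 ∧ ∀ (t : Gam F) y,
      (∀ l, sg (am x - ev (E l)) t = cc l y) →
      sg (am x' - ev (E i)) t = cc i (y + T.nn t (tv j)) := by
    intro i k hji hjk hik hx'
    have e1 : am x' - ev (E i) = (ev (E j) - ev (E i)) * (am x - ev (E k)) / (am x - ev (E j)) := by
      have := (hx j).1
      rw [hx']
      field_simp
      ring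
    have n1 := T.ene j i hji
    refine ⟨by rw [e1]; exact div_ne_zero (mul_ne_zero n1 (hx k).1) (hx j).1, fun t y hy => ?_⟩
    rw [e1, sg_div (by rw [map_mul, f1, f2]) (mul_ne_zero n1 (hx k).1) (f1 t j) (hx j).1,
      sg_mul_left (f2 t j i) n1 (f1 t k) (hx k).1, hy, hy, cc_add,
      T.cc_nn t hji.symm (x := tv j) (by simp)]
    exact hz _ _ _ _ (cc_sum hji hjk hik y)
  have h2 : am x' - ev (E j) ≠ 0 ∧ ∀ (t : Gam F) y, (∀ l, sg (am x - ev (E l)) t = cc l y) →
      sg (am x' - ev (E j)) t = cc j (y + T.nn t (tv j)) := by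
    have e1 : am x' - ev (E j) =
        (ev (E j) - ev (E i)) * (ev (E j) - ev (E k)) / (am x - ev (E j)) := by
      rw [hx', add_sub_cancel_left]
    have n1 := T.ene j i hji
    have n2 := T.ene j k hjk
    refine ⟨by rw [e1]; exact div_ne_zero (mul_ne_zero n1 n2) (hx j).1, fun t y hy => ?_⟩
    rw [e1, sg_div (by rw [map_mul, f2, f2]) (mul_ne_zero n1 n2) (f1 t j) (hx j).1,
      sg_mul_left (f2 t j i) n1 (f2 t j k) n2, hy, cc_add,
      ← T.cc_nn t hji.symm (x := tv j) (by simp), ← T.cc_nn t hjk.symm (x := tv j) (by simp)]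
    exact hz' _ _ _ _ (cc_sum hji hjk hik _)
  have h3 : ∀ l, am x' - ev (E l) ≠ 0 ∧ ∀ (t : Gam F) y, (∀ l, sg (am x - ev (E l)) t = cc l y) →
      sg (am x' - ev (E l)) t = cc l (y + T.nn t (tv j)) := by
    intro l
    have : l = j ∨ l = i ∨ l = k := by omega
    rcases this with rfl | rfl | rfl
    exacts [h2, h1 l k hji hjk hik hx', h1 l i hjk hji hik.symm (by rw [hx', mul_comm])]
  exact ⟨x', fun l => ⟨(h3 l).1, (h3 l).2 g y₁ fun l => (hx l).2.1,
    (h3 l).2 s y₂ fun l => (hx l).2.2⟩⟩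

variable {O : ValuationSubring (Om F)} {c : kk F} {g s : Gam F}

theorem gd_zero (hO : Over O (some c)) {p : F[X]} (hp : p ≠ 0) (hc : aeval c p = 0)
    (hg : g ∈ St O) (hs : s ∈ St O) : Gd E g s 0 0 := by
  have h0 := ev_ne hp
  have hv : O.valuation (ev p) < 1 := by simpa [hc] using ev_sub hO p
  refine ⟨(rf p)⁻¹ ^ 2, fun i => ?_⟩
  have e1 : am ((rf p)⁻¹ ^ 2) - ev (E i) = (ev p)⁻¹ ^ 2 * (1 - ev (E i) * ev p * ev p) := by
    rw [am, map_pow, map_inv₀, rf_eq]
    field_simp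
  have h1 : O.valuation (1 - ev (E i) * ev p * ev p - 1) < 1 := by
    rw [sub_sub_cancel_left, Valuation.map_neg]
    exact val_mul_lt O (val_mul_le O (ev_le hO _) hv.le) hv
  have h2 : 1 - ev (E i) * ev p * ev p ≠ 0 := fun e => by simp [e] at h1
  have h3 : ∀ t ∈ St O, sg (am ((rf p)⁻¹ ^ 2) - ev (E i)) t = cc i 0 := by
    intro t ht
    have f1 : t (ev p)⁻¹ = (ev p)⁻¹ := by rw [map_inv₀, gam_ev]
    have f2 : t (1 - ev (E i) * ev p * ev p) = 1 - ev (E i) * ev p * ev p := by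
      simp only [map_sub, map_one, map_mul, gam_ev]
    rw [e1, sg_mul_left (by rw [map_pow, f1]) (pow_ne_zero _ (inv_ne_zero h0)) f2 h2,
      sg_sq f1 (inv_ne_zero h0), sg_one_unit ht f2 h1, cc_of_Dv i (zero_mem _), add_zero]
  exact ⟨by rw [e1]; exact mul_ne_zero (pow_ne_zero _ (inv_ne_zero h0)) h2, h3 g hg, h3 s hs⟩

theorem gd_conic {i j k : Fin 3} (hm : MP (fun i => ev (E i)) O (some c) i j k) {p : F[X]}
    (hp : p ≠ 0) (hc : aeval c p = 0) (hg : g ∈ Ine O) {Q : ℕ} (hQ : 0 < Q) (hs : Fr s Q)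
    (hst : s ∈ St O) (h3 : ∀ b : F[X], aeval c b ≠ 0 → ∃ h : F[X], ∀ y : kk F, y ^ Q = y →
      y ^ 2 ≠ aeval c h ^ 2 - aeval c b) : Gd E g s 0 (tv k) := by
  have hO := hm.ov
  obtain ⟨h, hh⟩ := h3 (E i - E k) fun e => by
    have := ev_sub hO (E i - E k)
    rw [e] at this
    exact this.ne (by simpa [ev] using hm.vik)
  obtain ⟨y, hy0, hy⟩ : ∃ y : F[X], y ≠ 0 ∧ aeval c y = aeval c h := by
    by_cases h0 : h = 0
    · exact ⟨p, hp, by rw [hc, h0, map_zero]⟩
    · exact ⟨h, h0, rfl⟩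
  have e1 : am (rf (E k) + rf y ^ 2) = ev (E k) + ev y ^ 2 := by
    rw [am, map_add, map_pow, rf_eq, rf_eq]
  have h1 : ∀ l, l ≠ k → O.valuation (ev (E i) - ev (E l)) < 1 →
      ev (E k) + ev y ^ 2 - ev (E l) ≠ 0 ∧ sg (ev (E k) + ev y ^ 2 - ev (E l)) g = cc l 0 ∧
      sg (ev (E k) + ev y ^ 2 - ev (E l)) s = cc l (tv k) := by
    intro l hl hv
    have f1 : ∀ t : Gam F, t (ev (E k) + ev y ^ 2 - ev (E l)) = ev (E k) + ev y ^ 2 - ev (E l) :=
      fun t => by simp only [map_sub, map_add, map_pow, gam_ev]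
    have h2 := Valuation.map_add_lt _ (ev_sub hO (y ^ 2 - (E i - E k))) hv
    rw [show aeval c (y ^ 2 - (E i - E k)) = aeval c h ^ 2 - aeval c (E i - E k) by
      rw [map_sub, map_pow, hy]] at h2
    obtain ⟨h4, h5⟩ := sg_nonsq hO hs hst (f1 s) (d := aeval c h ^ 2 - aeval c (E i - E k)) (by
      convert h2 using 2
      simp only [ev, map_sub, map_pow]
      ring) hh hQ
    refine ⟨fun e => by simp [e] at h4, ?_, ?_⟩
    · rw [cc_of_Dv l (zero_mem _)]
      exact hO.kap_unit prim_one hg (f1 g) h4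
    · rw [h5, cc_tv, if_neg hl]
  refine ⟨rf (E k) + rf y ^ 2, fun l => ?_⟩
  rw [e1]
  have : l = i ∨ l = j ∨ l = k := by
    have := hm.ij; have := hm.ik; have := hm.jk
    omega
  rcases this with rfl | rfl | rfl
  · exact h1 l hm.ik (by simp)
  · exact h1 l hm.jk hm.lt
  · rw [add_sub_cancel_left, sg_sq (gam_ev g y) (ev_ne hy0), sg_sq (gam_ev s y) (ev_ne hy0),
      cc_of_Dv l (zero_mem _), cc_tv, if_pos rfl]
    exact ⟨pow_ne_zero _ (ev_ne hy0), rfl, rfl⟩

/-- The cocycle extends to `s` with value `w`. -/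
def Ext {e : Fin 3 → Om F} (T : TD e) (a : Gam F → V) (s : Gam F) (w : V) : Prop :=
  ∀ g ∈ Geo F, tw T s a g = a g + (T.ro g w - w)

theorem Fr.sg_neg_one {Q : ℕ} (hs : Fr s (2 * Q + 1)) : sg (-1) s = Q := by
  obtain ⟨y, hy⟩ := exists_sq (-1 : Om F)
  refine sg_eq (by simp) hy ?_
  rw [hs.root (m := 4) (by norm_num) (by rw [show 4 = 2 * 2 by rfl, pow_mul, hy]; simp),
    ch_nat prim_one, pow_succ, pow_mul, hy]

theorem gd_local (hd : ∀ g ∈ Geo F, dt (T.ro g) = 1) {a : Gam F → V} (hl : LT T a)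
    (hO : Over O (some c)) {p : F[X]} (hp : p ≠ 0) (hc : aeval c p = 0) (hg : g ∈ Ine O)
    (hg1 : sg (pl (some c)) g = 1) {Q : ℕ} (hQ : Odd Q) (hs : Fr s Q) (hst : s ∈ St O)
    (hcQ : c ^ Q = c) (h3 : ∀ b : F[X], aeval c b ≠ 0 → ∃ h : F[X], ∀ y : kk F, y ^ Q = y →
      y ^ 2 ≠ aeval c h ^ 2 - aeval c b) {w : V} (hw : Ext T a s w)
    (hcl : TwistAt T O (some c) ∨ ∃ i j k, MP (fun i => ev (E i)) O (some c) i j k) :
    Gd E g s (a g) w := by
  have h0 : Gd E g s 0 0 := gd_zero hO hp hc hg.2 hst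
  have hg' := st_conj hst hg
  have hrel := hw _ hg'.1
  unfold tw at hrel
  rw [show s⁻¹ * (s * g * s⁻¹) * s = g by group] at hrel
  have hpl : s (pl (some c)) = pl (some c) := hs.pl (by exact_mod_cast congrArg Subtype.val hcQ)
  have hkap : ∀ {n : ℕ} {z : Om F}, IsPrimitiveRoot z (2 ^ n) →
      kap z n (pl (some c)) (s * g * s⁻¹) = Q * kap z n (pl (some c)) g := fun hz => by
    have := kap_conj hz (hs.root (by positivity) hz.pow_eq_one) hg.1 (geo_pl hg.1 (some c))
      (pl_ne _)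
    rwa [hpl] at this
  obtain ⟨Q', rfl⟩ := hQ
  have hg1' : sg (pl (some c)) (s * g * s⁻¹) = 1 := by
    rw [sg, hkap prim_one]
    change _ * sg _ _ = _
    rw [hg1]
    push_cast
    generalize (Q' : ZMod (2 ^ 1)) = u
    revert u
    decide
  rcases hcl with h | ⟨i, j, k, hm⟩
  · obtain ⟨a₀, ha⟩ := loc_twist hl hO h
    have n1 : sg (pl (some c)) g ≠ 0 := by rw [hg1]; decide
    have n2 : sg (pl (some c)) (s * g * s⁻¹) ≠ 0 := by rw [hg1']; decide
    rw [ha g hg, ha _ hg', h _ hg', if_neg n1, if_neg n2, if_neg n2] at hrel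
    rw [ha g hg, if_neg n1]
    have e1 : T.nn s a₀ = -w := T.nn_eq (by rw [hrel]; module)
    have e2 : T.nn g a₀ = -a₀ := T.nn_eq (by rw [h g hg, if_neg n1]; module)
    have hneg : ∀ y z : V, -y - z ∈ Dv 1 → y - z ∈ Dv 1 := fun y z hyz => by
      convert add_mem hyz (two_smul_Dv y) using 1
      module
    by_cases h1 : a₀ ∈ Dv 1
    · have h2 := T.nn_congr s (x := a₀) (y := 0) (by simpa using h1)
      rw [e1, T.nn_eq (x := 0) (y := 0) (by simp)] at h2
      exact h0.congr (by simpa using h1) (hneg _ _ h2)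
    · obtain ⟨j, hj⟩ := prim_tv h1
      refine (h0.add T j).congr ?_ ?_
      · rw [zero_add]
        exact hneg _ _ (e2 ▸ T.nn_congr g hj)
      · rw [zero_add]
        exact hneg _ _ (e1 ▸ T.nn_congr s hj)
  · obtain ⟨r, b, ht⟩ := hm.exists_tv hd
    obtain ⟨a₀, ha⟩ := loc_mult hl hm ht
    obtain ⟨z, hz⟩ := exists_prim (F := F) 2
    obtain ⟨u, hu⟩ := ht.exists_u hO hz
    obtain ⟨t, ht'⟩ : (2 : ℤ_[2]) ^ 2 ∣ b (s * g * s⁻¹) - (2 * Q' + 1 : ℕ) * b g := by
      rw [← red_eq, map_mul, map_natCast, hu g hg, hu _ hg', hkap hz]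
      ring
    have hb := (ht.par hm hg).trans hg1
    have hb' := (ht.par hm hg').trans hg1'
    rw [ha g hg, ha _ hg', ht.hb _ hg', map_smul, T.nn_spec] at hrel
    have e1 : (a₀ * b g) • T.nn s r =
        (a₀ * (Q' * b g + 2 * t) + b (s * g * s⁻¹) * om r w) • r := by
      apply two_pow_smul_inj (n := 1)
      push_cast at ht'
      linear_combination (norm := module) hrel + (a₀ * ht') • r
    have e2 := congrArg (cc i) e1
    have e3 : red 1 (om r w) = cc k w := by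
      rw [cc, red_eq]
      convert dvd_sub (om_dvd_left ht.hr w) (om_dvd_left (two_smul_Dv w) (tv k)) using 1
      simp only [om, Prod.fst_sub, Prod.snd_sub, Prod.smul_fst, Prod.smul_snd, smul_eq_mul]
      ring
    have e4 : sg (ev (E k) - ev (E i)) s = Q' + sg (ev (E i) - ev (E k)) s := by
      rw [← neg_sub, ← neg_one_mul, sg_mul_left (fix_neg_one s) (by simp)
        (by rw [map_sub, gam_ev, gam_ev]) (T.ene i k hm.ik), hs.sg_neg_one]
    rw [cc_smul, cc_smul, T.cc_nn s hm.ik ht.hr, ht.cc i, if_neg hm.ik, e4] at e2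
    simp only [map_add, map_mul, map_natCast, hb, hb', e3, map_ofNat] at e2
    have e5 : cc k w = red 1 a₀ * sg (ev (E i) - ev (E k)) s := by
      revert e2
      generalize cc k w = x₁
      generalize red 1 a₀ = x₂
      generalize sg (ev (E i) - ev (E k)) s = x₃
      generalize (Q' : ZMod (2 ^ 1)) = x₄
      generalize red 1 t = x₅
      revert x₁ x₂ x₃ x₄ x₅
      decide
    have hcase : ∀ y, cc k y = 0 → Gd E g s 0 y := by
      intro y hy
      by_cases h1 : y ∈ Dv 1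
      · exact h0.congr (by simp) (by simpa using h1)
      · obtain ⟨l, hl⟩ := prim_tv h1
        rw [cc_congr k hl, cc_tv] at hy
        obtain rfl : k = l := by
          by_contra h2
          rw [if_neg h2] at hy
          exact absurd hy (by decide)
        exact (gd_conic hm hp hc hg (by omega) hs hst h3).congr (by simp) hl
    rw [ha g hg]
    obtain ⟨d, rfl | rfl⟩ := parity a₀
    · rw [red_even, zero_mul] at e5
      exact (hcase w e5).congr (by rw [sub_zero, mul_assoc, mul_smul]; exact two_smul_Dv _)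
        (by simp)
    · rw [red_odd, one_mul, ← T.cc_nn s hm.ik.symm (x := tv i) (by simp)] at e5
      refine ((hcase (w - T.nn s (tv i)) (by rw [cc_sub, e5, sub_self])).add T i).congr ?_
        (by simp)
      have h1 : T.nn g (tv i) = (b g * om r (tv i)) • r := T.nn_eq (by
        rw [ht.hb g hg, smul_smul, mul_assoc])
      obtain ⟨f, hf⟩ := odd_of_red (a := om r (tv i)) ((ht.cc i).trans (if_neg hm.ik))
      rw [h1, hf]
      convert two_smul_Dv (((d - f) * b g) • r) using 1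
      module

end

end Pool.Agent.Lib.MP_16ef92_ag
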