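import Mathlib
import Pool.Agent.Lib.MP_16ef92_ag.Sel

set_option autoImplicit false
set_option linter.unusedSectionVars false
set_option linter.unusedVariables false

namespace Pool.Agent.Lib.MP_16ef92_ag

open Polynomial
open scoped Classical

noncomputable section

variable {F : Type} [Field F] [Clos F] [Fintype F] [hq : Fact (Odd (Fintype.card F))]

/-- The three roots. -/
def EE (A B D : F[X]) : Fin 3 → F[X] := ![0, D * A, D * B]

/-- The hypotheses on the family. -/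
structure Fam (A B D : F[X]) : Prop where
  sq : Squarefree (A * B * (A - B) * D)
  dB : B.natDegree = A.natDegree
  dC : (A - B).natDegree = A.natDegree
  dD : Even (A.natDegree + D.natDegree)

variable {A B D : F[X]}

theorem Fam.ne (h : Fam A B D) : A ≠ 0 ∧ B ≠ 0 ∧ A - B ≠ 0 ∧ D ≠ 0 := by
  simpa [mul_ne_zero_iff, and_assoc] using h.sq.ne_zero

theorem EE_diff (P : F[X] → Prop) (hneg : ∀ p, P p → P (-p)) (hA : P (D * A)) (hB : P (D * B))
    (hC : P (D * (A - B))) {i j : Fin 3} (hij : i ≠ j) : P (EE A B D i - EE A B D j) := by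
  have h1 := hneg _ hA
  have h2 := hneg _ hB
  have h3 := hneg _ hC
  rw [mul_sub] at hC h3
  rw [neg_sub] at h3
  fin_cases i <;> fin_cases j <;> simp [EE] at hij ⊢ <;> assumption

variable {T : TD fun i => ev (EE A B D i)}

theorem good_of (T : TD fun i => ev (EE A B D i)) {O : ValuationSubring (Om F)}
    {x : Option (kk F)} (hO : Over O x) {g : Gam F} (hg : g ∈ Ine O) {u : Om F} (hu0 : u ≠ 0)
    {s : ℤ_[2]} {s' : Om F} (hs : s = 1 ∧ s' = 1 ∨ s = -1 ∧ s' = -1) (hu : g u = s' * u)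
    (hA : O.valuation (ev (D * A) / u ^ 2) = 1) (hB : O.valuation (ev (D * B) / u ^ 2) = 1)
    (hC : O.valuation (ev (D * (A - B)) / u ^ 2) = 1) (y : V) : T.ro g y = s • y := by
  refine T.good hO hg hu0 hs hu (fun i => ?_) (fun i j hij => ?_) y
  · fin_cases i
    exacts [by simp [EE], hA.le, hB.le]
  · have := EE_diff (fun p => O.valuation (ev p / u ^ 2) = 1)
      (fun p hp => by rwa [ev, map_neg, neg_div, Valuation.map_neg]) hA hB hC hij
    rwa [ev, map_sub] at this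

theorem Fam.good_inf (h : Fam A B D) (T : TD fun i => ev (EE A B D i))
    {O : ValuationSubring (Om F)} (hO : Over O none) : GoodAt T O := by
  obtain ⟨hA, hB, hC, hD⟩ := h.ne
  obtain ⟨m, hm⟩ := h.dD
  have h1 : ∀ p : F[X], p ≠ 0 → p.natDegree = A.natDegree →
      O.valuation (ev (D * p) / (tt F ^ m) ^ 2) = 1 := fun p hp hd => by
    have := val_inf_poly hO (mul_ne_zero hD hp)
    rwa [natDegree_mul hD hp, hd, add_comm, hm, ← mul_two, pow_mul] at this
  intro g hg y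
  simpa using good_of T hO hg (pow_ne_zero m tt_ne) (Or.inl ⟨rfl, rfl⟩)
    (by rw [map_pow, gam_tt, one_mul]) (h1 A hA rfl) (h1 B hB h.dB) (h1 _ hC h.dC) y

theorem good_fin (T : TD fun i => ev (EE A B D i)) {O : ValuationSubring (Om F)} {c : kk F}
    (hO : Over O (some c)) (hc : aeval c (A * B * (A - B) * D) ≠ 0) : GoodAt T O := by
  simp only [map_mul, mul_ne_zero_iff] at hc
  have h1 : ∀ p : F[X], aeval c p ≠ 0 → O.valuation (ev (D * p) / 1 ^ 2) = 1 := fun p hp => by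
    rw [one_pow, div_one]
    exact over_ev hO (by rw [map_mul]; exact mul_ne_zero hc.2 hp)
  intro g hg y
  simpa using good_of T hO hg one_ne_zero (Or.inl ⟨rfl, rfl⟩) (by simp) (h1 A hc.1.1.1)
    (h1 B hc.1.1.2) (h1 _ hc.1.2) y

theorem Fam.bad (h : Fam A B D) (T : TD fun i => ev (EE A B D i)) {c : kk F}
    (hc : aeval c (A * B * (A - B) * D) = 0) :
    (aeval c D = 0 ∧ ∀ O, Over O (some c) → TwistAt T O (some c)) ∨ (aeval c D ≠ 0 ∧
      ∃ i j k, ∀ O, Over O (some c) → MP (fun i => ev (EE A B D i)) O (some c) i j k) := by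
  by_cases hD : aeval c D = 0
  · refine Or.inl ⟨hD, fun O hO g hg y => ?_⟩
    obtain ⟨h1, h2⟩ := simple_root (p := D) (q := A * B * (A - B)) (by rw [mul_comm]; exact h.sq) hD
    simp only [map_mul, mul_ne_zero_iff] at h1
    obtain ⟨u, hu⟩ := exists_sq (pl (some c))
    have hu0 : u ≠ 0 := fun e => pl_ne (some c) (by rw [← hu, e]; simp)
    have h3 : ∀ p : F[X], aeval c p ≠ 0 → O.valuation (ev (D * p) / u ^ 2) = 1 := fun p hp => by
      rw [hu, ev, map_mul, map_div₀, map_mul, over_ev hO hp, mul_one, h2 O hO, div_self hO.val_ne]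
    split_ifs with h4
    · simpa using good_of T hO hg hu0 (Or.inl ⟨rfl, rfl⟩)
        (by rw [sg_fix_root (geo_pl hg.1 _) (pl_ne _) hu h4, one_mul]) (h3 A h1.1.1)
        (h3 B h1.1.2) (h3 _ h1.2) y
    · simpa using good_of T hO hg hu0 (Or.inr ⟨rfl, rfl⟩)
        (by rw [sg_neg_root (geo_pl hg.1 _) (pl_ne _) hu ((z2_cases _).resolve_left h4),
          neg_one_mul]) (h3 A h1.1.1) (h3 B h1.1.2) (h3 _ h1.2) y
  refine Or.inr ⟨hD, ?_⟩
  have h1 : ∀ p q s : F[X], p * D * (q * s) = A * B * (A - B) * D → aeval c p = 0 →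
      ∀ O, Over O (some c) → O.valuation (ev (D * p)) = O.valuation (pl (some c)) ∧
        O.valuation (ev (D * q)) = 1 := by
    intro p q s e hp O hO
    obtain ⟨h2, h3⟩ := simple_root (c := c) (p := D * p) (q := q * s)
      (by rw [mul_comm D, e]; exact h.sq) (by rw [map_mul, hp, mul_zero])
    rw [map_mul] at h2
    exact ⟨h3 O hO, over_ev hO (by rw [map_mul]; exact mul_ne_zero hD (left_ne_zero_of_mul h2))⟩
  simp only [map_mul, mul_eq_zero, hD, or_false] at hc
  rcases hc with (hc | hc) | hc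
  · refine ⟨0, 1, 2, fun O hO => ?_⟩
    obtain ⟨h2, h3⟩ := h1 A B (A - B) (by ring) hc O hO
    exact ⟨hO, by decide, by decide, by decide, by simpa [EE] using h2, by simpa [EE] using h3⟩
  · refine ⟨0, 2, 1, fun O hO => ?_⟩
    obtain ⟨h2, h3⟩ := h1 B A (A - B) (by ring) hc O hO
    exact ⟨hO, by decide, by decide, by decide, by simpa [EE] using h2, by simpa [EE] using h3⟩
  · refine ⟨1, 2, 0, fun O hO => ?_⟩
    obtain ⟨h2, h3⟩ := h1 (A - B) A B (by ring) hc O hO
    exact ⟨hO, by decide, by decide, by decide, by simpa [EE, mul_sub] using h2,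
      by simpa [EE] using h3⟩

theorem Fam.cls (h : Fam A B D) (T : TD fun i => ev (EE A B D i)) :
    Cls T fun x => ∃ c, x = some c ∧ aeval c D = 0 := by
  intro x
  cases x with
  | none => exact Or.inl fun O hO => h.good_inf T hO
  | some c =>
    by_cases hc : aeval c (A * B * (A - B) * D) = 0
    · rcases h.bad T hc with ⟨h1, h2⟩ | ⟨h1, h2⟩
      · exact Or.inr (Or.inl ⟨⟨c, rfl, h1⟩, h2⟩)
      · exact Or.inr (Or.inr ⟨by simpa using h1, h2⟩)
    · exact Or.inl fun O hO => good_fin T hO hc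

theorem cc_ro {e : Fin 3 → Om F} (T : TD e) (i : Fin 3) (g : Gam F) (y : V) :
    cc i (T.ro g y) = cc i y := cc_congr i (T.triv g y)

theorem sg_prod {g : Gam F} (hg : g ∈ Geo F) (Z : Finset (kk F)) :
    sg (∏ c ∈ Z, pl (some c)) g = ∑ c ∈ Z, sg (pl (some c)) g := by
  induction Z using Finset.induction_on with
  | empty => simpa using sg_sq (g := g) (y := 1) (map_one g) one_ne_zero
  | insert a Z ha ih =>
    rw [Finset.prod_insert ha, Finset.sum_insert ha, sg_mul_left (geo_pl hg _) (pl_ne _)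
      (by rw [map_prod]; exact Finset.prod_congr rfl fun c _ => geo_pl hg _)
      (Finset.prod_ne_zero_iff.2 fun c _ => pl_ne _), ih]

/-- The polynomial that represents a Frobenius invariant quadratic character. -/
theorem exists_poly {s : Gam F} (hs : Fr s (Fintype.card F)) {N : F[X]} (hN : N ≠ 0)
    (f : Gam F → ZMod (2 ^ 1)) (hm : ∀ g ∈ Geo F, ∀ h ∈ Geo F, f (g * h) = f g + f h)
    (hn : Near fun g => g ∈ Geo F → f g = 0) (hinv : ∀ g ∈ Geo F, f (s⁻¹ * g * s) = f g)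
    (hinf : ∀ O, Over O none → ∀ g ∈ Ine O, f g = 0)
    (hfin : ∀ c O, Over O (some c) → aeval c N ≠ 0 → ∀ g ∈ Ine O, f g = 0) (w : ZMod (2 ^ 1)) :
    ∃ d : F[X], d ∣ N ∧ Even d.natDegree ∧ (∀ g ∈ Geo F, sg (ev d) g = f g) ∧ sg (ev d) s = w ∧
      ∀ c, aeval c d = 0 ↔ ∃ O, Over O (some c) ∧ ∃ g ∈ Ine O, f g ≠ 0 := by
  obtain ⟨v, hv⟩ := global_char prim_one f hm hn
  have hv1 : ∀ c ∈ v.support, v c = 1 := fun c hc =>
    (z2_cases _).resolve_left (Finsupp.mem_support_iff.1 hc)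
  have hZ : ∀ c, c ∈ v.support ↔ ∃ O, Over O (some c) ∧ ∃ g ∈ Ine O, f g ≠ 0 := by
    intro c
    constructor
    · intro hc
      obtain ⟨O, hO⟩ := exists_over (some c)
      obtain ⟨g, hg, h1⟩ := hO.exists_sg
      refine ⟨O, hO, g, hg, ?_⟩
      rw [hv g hg.1, hO.sum_fin prim_one hg, hv1 c hc, one_mul]
      exact fun e => absurd (h1.symm.trans e) (by decide)
    · rintro ⟨O, hO, g, hg, h1⟩
      rw [hv g hg.1, hO.sum_fin prim_one hg] at h1
      exact Finsupp.mem_support_iff.2 (left_ne_zero_of_mul h1)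
  have hst : ∀ t : Gam F, (∀ g ∈ Geo F, f (t⁻¹ * g * t) = f g) → ∀ c, ck t c ∈ v.support →
      c ∈ v.support := by
    intro t ht c hc
    obtain ⟨O, hO, g, hg, h1⟩ := (hZ _).1 hc
    exact (hZ c).2 ⟨cm t O, over_cm hO, _, conj_ine (fun _ => mem_cm) hg, by rwa [ht g hg.1]⟩
  have hinv' : ∀ g ∈ Geo F, f (s⁻¹⁻¹ * g * s⁻¹) = f g := fun g hg => by
    rw [← hinv _ (geo_conj hg s⁻¹)]
    congr 1
    group
  have hck : ∀ (t : Gam F) c, ck t⁻¹ (ck t c) = c := fun t c => Subtype.ext (inv_apply_self t c)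
  have hck' : ∀ c, ck s (ck s⁻¹ c) = c := fun c => Subtype.ext (self_apply_inv s c)
  let P : (kk F)[X] := ∏ c ∈ v.support, (X - C c)
  let k : kk F →+* kk F :=
    { toFun := ck s
      map_one' := Subtype.ext (map_one s)
      map_mul' := fun a b => Subtype.ext (map_mul s _ _)
      map_zero' := Subtype.ext (map_zero s)
      map_add' := fun a b => Subtype.ext (map_add s _ _) }
  have hP : P.map k = P := by
    simp only [P, Polynomial.map_prod, Polynomial.map_sub, map_X, map_C]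
    refine Finset.prod_nbij' (ck s) (ck s⁻¹) (fun c hc => hst _ hinv' _ (by rwa [hck]))
      (fun c hc => hst _ hinv _ (by rwa [hck'])) (fun c _ => hck s c)
      (fun c _ => hck' c) fun c _ => rfl
  obtain ⟨p, hp⟩ := (mem_lifts (f := algebraMap F (kk F)) P).1 ((lifts_iff_coeff_lifts P).2 fun n =>
    fixed_mem_range _ (Subtype.ext (by
      have := congrArg (fun q : (kk F)[X] => ((coeff q n : kk F) : Om F)) hP
      simp only [coeff_map] at this
      push_cast
      rw [← hs]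
      exact this)))
  have hmon : P.Monic := monic_prod_of_monic _ _ fun c _ => monic_X_sub_C c
  have hp0 : p ≠ 0 := fun e => hmon.ne_zero (by rw [← hp, e, Polynomial.map_zero])
  have hroot : ∀ c, aeval c p = 0 ↔ c ∈ v.support := fun c => by
    rw [← eval_map_algebraMap, hp]
    simp [P, eval_prod, Finset.prod_eq_zero_iff, sub_eq_zero]
  have hev : ev p = ∏ c ∈ v.support, pl (some c) := by
    rw [ev, ← aeval_map_algebraMap (kk F), hp]
    simp [P, pl]
  have hsg : ∀ g ∈ Geo F, sg (ev p) g = f g := fun g hg => by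
    rw [hev, sg_prod hg, hv g hg, Finsupp.sum]
    exact Finset.sum_congr rfl fun c hc => by rw [hv1 c hc, one_mul]; rfl
  have hdvd : p ∣ N := by
    rw [← map_dvd_map' (algebraMap F (kk F)), hp]
    refine Finset.prod_dvd_of_coprime (fun a _ b _ hab =>
      isCoprime_X_sub_C_of_isUnit_sub (sub_ne_zero.2 hab).isUnit) fun c hc => ?_
    rw [dvd_iff_isRoot, IsRoot, eval_map_algebraMap]
    by_contra h1
    obtain ⟨O, hO, g, hg, h2⟩ := (hZ c).1 hc
    exact h2 (hfin c O hO h1 g hg)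
  have hdeg : Even p.natDegree := by
    obtain ⟨O, hO⟩ := exists_over (F := F) none
    obtain ⟨g, hg, h1⟩ := hO.exists_sg
    have h2 := hO.kap_val prim_one hg (gam_ev g p) (j := -p.natDegree) (by
      have := val_inf_poly hO hp0
      rw [map_div₀, div_eq_one_iff_eq (by simp [tt_ne])] at this
      rw [this]
      simp [pl])
    change sg _ _ = _ * sg _ _ at h2
    rw [hsg g hg.1, hinf O hO g hg, h1, mul_one, eq_comm, Int.cast_neg, neg_eq_zero,
      Int.cast_natCast, ZMod.natCast_eq_zero_iff] at h2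
    exact even_iff_two_dvd.2 h2
  by_cases hw : sg (ev p) s = w
  · exact ⟨p, hdvd, hdeg, hsg, hw, fun c => (hroot c).trans (hZ c)⟩
  obtain ⟨n, hn⟩ := exists_nonsq hq.out
  have hn0 : n ≠ 0 := fun e => hn (e ▸ IsSquare.zero)
  have h1 : ev (C n * p) = (algebraMap F (kk F) n : Om F) * ev p := by simp [ev]
  have h2 : algebraMap F (kk F) n ≠ 0 := (_root_.map_ne_zero _).2 hn0
  have h2' : (algebraMap F (kk F) n : Om F) ≠ 0 := fun e => h2 (Subtype.ext e)
  have h3 : ∀ g : Gam F, g (algebraMap F (kk F) n) = algebraMap F (kk F) n := fun g => by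
    simpa using gam_ev g (C n)
  refine ⟨C n * p, (isUnit_C.2 hn0.isUnit).mul_left_dvd.2 hdvd, by rwa [natDegree_C_mul hn0],
    fun g hg => ?_, ?_, fun c => ?_⟩
  · rw [h1, sg_mul_left (h3 g) h2' (gam_ev g p) (ev_ne hp0), hsg g hg, sg,
      kap_const prim_one hg h2, zero_add]
  · have h4 : sg (algebraMap F (kk F) n : Om F) s = 1 := by
      refine (z2_cases _).resolve_left fun h => hn ?_
      obtain ⟨y, hy⟩ := exists_sq (algebraMap F (kk F) n : Om F)
      have h5 := sg_fix_root (h3 s) h2' hy h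
      obtain ⟨u, rfl⟩ := root_mem_kk two_pos hy
      rw [hs u] at h5
      obtain ⟨a, ha⟩ := fixed_mem_range (algebraMap F (Om F)) h5
      refine ⟨a, (algebraMap F (Om F)).injective ?_⟩
      rw [map_mul, ha, ← sq, hy]
      rfl
    rw [h1, sg_mul_left (h3 s) h2' (gam_ev s p) (ev_ne hp0), h4]
    revert hw
    generalize sg (ev p) s = u
    revert u w
    decide
  · rw [map_mul, aeval_C, mul_eq_zero, or_iff_right h2]
    exact (hroot c).trans (hZ c)

theorem Ext.geo {e : Fin 3 → Om F} {T : TD e} {a : Gam F → V} (ha : Cy T a) {g : Gam F}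
    (hg : g ∈ Geo F) : Ext T a g (a g) := by
  intro h hh
  have h1 := ha.mul g hg _ (geo_conj hh g)
  rw [show g * (g⁻¹ * h * g) = h * g by group, ha.mul h hh g hg] at h1
  unfold tw
  linear_combination (norm := module) -h1

theorem Ext.mul {e : Fin 3 → Om F} {T : TD e} {a : Gam F → V} {s t : Gam F} {w u : V}
    (hs : Ext T a s w) (ht : Ext T a t u) : Ext T a (s * t) (w + T.ro s u) := by
  intro g hg
  have h1 := congrArg (T.ro s) (ht _ (geo_conj hg s))
  have h2 := hs g hg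
  unfold tw at *
  rw [map_add, h2, map_sub, ← ro_mul, ← ro_mul, show s * (s⁻¹ * g * s) = g * s by group,
    ro_mul g] at h1
  rw [show (s * t)⁻¹ * g * (s * t) = t⁻¹ * (s⁻¹ * g * s) * t by group, h1, map_add]
  abel

theorem sg_of_isSquare {d p : F[X]} (hd : d ≠ 0) (hp : p ≠ 0) (h : IsSquare (d * p)) (g : Gam F) :
    sg (ev d) g = sg (ev p) g := by
  obtain ⟨y, hy⟩ := h
  have hy0 : y ≠ 0 := fun e => mul_ne_zero hd hp (by rw [hy, e, zero_mul])
  have h1 := sg_sq (gam_ev g y) (ev_ne hy0)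
  rw [sq, ← map_mul, ← hy, map_mul, sg_mul_left (gam_ev g d) (ev_ne hd) (gam_ev g p) (ev_ne hp)] at h1
  rw [eq_neg_of_add_eq_zero_left h1, neg_z2]

/-- An invariant class in the image of `s - 1` is, modulo 2, the class of a torsion point. -/
theorem Fam.key (h : Fam A B D) (T : TD fun i => ev (EE A B D i))
    (hSel : ∀ d₁ d₂, IsSel A B D d₁ d₂ → 4 ∣ wt D d₁ d₂ → IsTorsImage A B D d₁ d₂)
    {s : Gam F} (hs : Fr s (Fintype.card F)) {a y : Gam F → V} (ha : Cy T a) (hl : LT T a)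
    (hy : Cy T y) (hly : LT T y) {w m : V} (hw : Ext T a s w) {N : ℕ}
    (hm : ∀ g ∈ Geo F, (2 : ℤ_[2]) ^ N • a g = tw T s y g - y g + (T.ro g m - m)) :
    ∃ t : V, (∀ g ∈ Geo F, a g - T.nn g t ∈ Dv 1) ∧ w - T.nn s t ∈ Dv 1 := by
  have hd : ∀ g ∈ Geo F, dt (T.ro g) = 1 := fun g hg => T.dt_geo hs hg
  obtain ⟨hA, hB, hC, hD⟩ := h.ne
  have hpoly := fun i : Fin 3 => exists_poly hs h.sq.ne_zero (fun g => cc i (a g))
    (fun g hg l hl => by rw [ha.mul g hg l hl, cc_add, cc_ro])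
    ((ha.near 1).mono fun g hg hg' => cc_of_Dv i (hg hg'))
    (fun g hg => by
      have := congrArg (cc i) (hw g hg)
      rwa [tw, cc_ro, cc_add, cc_sub, cc_ro, sub_self, add_zero] at this)
    (fun O hO g hg => by rw [loc_good hl hO (h.good_inf T hO) hg, cc_of_Dv i (zero_mem _)])
    (fun c O hO hc g hg => by rw [loc_good hl hO (good_fin T hO hc) hg, cc_of_Dv i (zero_mem _)])
    (cc i w)
  obtain ⟨d₁, hd1, he1, hg1, hs1, hr1⟩ := hpoly 0
  obtain ⟨d₂, hd2, he2, hg2, hs2, hr2⟩ := hpoly 1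
  have n1 : d₁ ≠ 0 := ne_zero_of_dvd_ne_zero h.sq.ne_zero hd1
  have n2 : d₂ ≠ 0 := ne_zero_of_dvd_ne_zero h.sq.ne_zero hd2
  let R : Gam F → V → Prop := fun t u => sg (ev d₁) t = cc 0 u ∧ sg (ev d₂) t = cc 1 u
  have hRm : ∀ t t' u u', R t u → R t' u' → R (t * t') (u + T.ro t u') := fun t t' u u' h1 h2 =>
    ⟨by rw [sg_mul (gam_ev _ _) (gam_ev _ _) (ev_ne n1), cc_add, cc_ro, h1.1, h2.1],
      by rw [sg_mul (gam_ev _ _) (gam_ev _ _) (ev_ne n2), cc_add, cc_ro, h1.2, h2.2]⟩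
  have hRp : ∀ n, ∃ u, Ext T a (s ^ n) u ∧ R (s ^ n) u := by
    intro n
    induction n with
    | zero => exact ⟨a 1, Ext.geo ha (one_mem _), hg1 1 (one_mem _), hg2 1 (one_mem _)⟩
    | succ n ih =>
      obtain ⟨u, h1, h2⟩ := ih
      rw [pow_succ']
      exact ⟨_, hw.mul h1, hRm _ _ _ _ ⟨hs1, hs2⟩ h2⟩
  have hsel : IsSel A B D d₁ d₂ := by
    refine ⟨hd1, hd2, he1, he2, fun p hp hpN => ?_⟩
    obtain ⟨c, hc⟩ := IsAlgClosed.exists_aeval_eq_zero (kk F) p (degree_pos_of_irreducible hp).ne'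
    obtain ⟨O, hO⟩ := exists_over (some c)
    obtain ⟨g, hg, hsg⟩ := hO.exists_sg
    obtain ⟨n, k1, k2, k3⟩ := residue c
    obtain ⟨g₀, hg₀, hst⟩ := (hs.pow n).exists_st (by exact_mod_cast congrArg Subtype.val k1) hO
    have hf := (hs.pow n).geo_mul hg₀
    obtain ⟨u, hu1, hu2⟩ := hRp n
    have hu3 := hRm _ _ _ _ ⟨hg1 g₀ hg₀, hg2 g₀ hg₀⟩ hu2
    obtain ⟨x, hx⟩ := gd_local hd hl hO hp.ne_zero hc hg hsg hq.out.pow hf hst k1 k3
      ((Ext.geo ha hg₀).mul hu1)
      ((h.bad T ((irr_dvd hp hc).1 hpN)).imp (fun h => h.2 O hO)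
        fun ⟨_, i, j, k, h⟩ => ⟨i, j, k, h O hO⟩)
    have key : ∀ (i : Fin 3) (d : F[X]), d ≠ 0 → sg (ev d) g = cc i (a g) →
        sg (ev d) (g₀ * s ^ n) = cc i (a g₀ + T.ro g₀ u) →
        LocSq p (rf d * (x - rf (EE A B D i))) := by
      intro i d hd0 h1 h2
      have e1 : algebraMap _ (Om F) (rf d * (x - rf (EE A B D i))) =
          ev d * (am x - ev (EE A B D i)) := by rw [map_mul, map_sub, rf_eq, rf_eq]
      have h3 : ∀ t : Gam F, sg (algebraMap _ (Om F) (rf d * (x - rf (EE A B D i)))) t =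
          sg (ev d) t + sg (am x - ev (EE A B D i)) t := fun t => by
        rw [e1, sg_mul_left (gam_ev t d) (ev_ne hd0) (by rw [map_sub, gam_ev, t.commutes]) (hx i).1]
      have h4 : ∀ z : ZMod (2 ^ 1), z + z = 0 := by decide
      refine locSq_of_sg hp hc hO hg hsg hf hst k2 (fun e => ?_) (by rw [h3, h1, (hx i).2.1, h4])
        (by rw [h3, h2, (hx i).2.2, h4])
      rw [e, map_zero] at e1
      exact mul_ne_zero (ev_ne hd0) (hx i).1 e1.symm
    have h5 : ∀ t u, R t u → sg (ev (d₁ * d₂)) t = cc 2 u := fun t u h => by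
      rw [ev, map_mul, sg_mul_left (gam_ev _ _) (ev_ne n1) (gam_ev _ _) (ev_ne n2), h.1, h.2, cc0,
        cc1, cc2, add_comm]
    exact ⟨x, by simpa [EE] using key 0 d₁ n1 (hg1 g hg.1) hu3.1, key 1 d₂ n2 (hg2 g hg.1) hu3.2,
      key 2 _ (mul_ne_zero n1 n2) (h5 _ _ ⟨hg1 g hg.1, hg2 g hg.1⟩) (h5 _ _ hu3)⟩
  have hwt : 4 ∣ wt D d₁ d₂ := by
    obtain ⟨z, hz⟩ := exists_prim (F := F) (N + 3)
    have hlb := lb_two hd hl (h.cls T)
    obtain ⟨l, hl'⟩ := exists_pair hz hd ha (ha.smul 2) hl hlb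
    have h0 := pair_four hz hd (hs.root (by positivity) hz.pow_eq_one) hq.out ha hy hly hlb hw hm hl'
    have hL : lcm d₁ d₂ ∣ A * B * (A - B) * D := lcm_dvd hd1 hd2
    have hsq := h.sq.squarefree_of_dvd hL
    let Z := ((lcm d₁ d₂).rootSet_finite (kk F)).toFinset
    have hZ : ∀ c, c ∈ Z ↔ aeval c (lcm d₁ d₂) = 0 := fun c => by
      rw [Set.Finite.mem_toFinset, mem_rootSet_of_ne hsq.ne_zero]
    have hZ' : ∀ c : kk F, aeval c (lcm d₁ d₂) = 0 ↔ aeval c d₁ = 0 ∨ aeval c d₂ = 0 := fun c =>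
      ⟨fun h => by
        rw [← mul_eq_zero, ← map_mul]
        exact aeval_eq_zero_of_dvd_aeval_eq_zero (lcm_dvd_mul d₁ d₂) h,
      fun h => h.elim (aeval_eq_zero_of_dvd_aeval_eq_zero (dvd_lcm_left _ _))
        (aeval_eq_zero_of_dvd_aeval_eq_zero (dvd_lcm_right _ _))⟩
    have h1 := weight_four (p := N + 1) hz hd ha hl (h.cls T) (Z.map ⟨some, Option.some_injective _⟩)
      (by
        intro x
        cases x with
        | none =>
          simp only [Finset.mem_map, Function.Embedding.coeFn_mk, reduceCtorEq, and_false,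
            exists_false, false_iff]
          rintro ⟨O, hO, g, hg, h1⟩
          exact h1 (by rw [loc_good hl hO (h.good_inf T hO) hg]; exact zero_mem _)
        | some c =>
          simp only [Finset.mem_map, Function.Embedding.coeFn_mk, Option.some.injEq,
            exists_eq_right]
          rw [hZ, hZ', hr1, hr2]
          constructor
          · rintro (⟨O, hO, g, hg, h1⟩ | ⟨O, hO, g, hg, h1⟩) <;>
              exact ⟨O, hO, g, hg, fun h2 => h1 (cc_of_Dv _ h2)⟩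
          · rintro ⟨O, hO, g, hg, h1⟩
            by_cases h2 : cc 0 (a g) = 0
            · exact Or.inr ⟨O, hO, g, hg, fun h3 => h1 (Dv_of_cc (by decide) h2 h3)⟩
            · exact Or.inl ⟨O, hO, g, hg, h2⟩) hl' h0
    simp only [Finset.filter_map, Finset.card_map] at h1
    unfold wt
    rw [deg_eq_card hsq Z hZ, deg_eq_card (hsq.squarefree_of_dvd (gcd_dvd_left _ D)) _ fun c => ?_]
    · exact h1
    · simp only [Finset.mem_filter, Function.comp, Function.Embedding.coeFn_mk, Option.some.injEq,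
        exists_eq_left', hZ]
      constructor
      · rintro ⟨h1, h2⟩
        obtain ⟨u, v, huv⟩ := exists_gcd_eq_mul_add_mul (lcm d₁ d₂) D
        rw [huv, map_add, map_mul, map_mul, h1, h2, zero_mul, zero_mul, add_zero]
      · exact fun h => ⟨aeval_eq_zero_of_dvd_aeval_eq_zero (gcd_dvd_left _ _) h,
          aeval_eq_zero_of_dvd_aeval_eq_zero (gcd_dvd_right _ _) h⟩
  suffices H : ∃ t, ∀ g, R g (T.nn g t) by
    obtain ⟨t, ht⟩ := H
    refine ⟨t, fun g hg => Dv_of_cc (i := 0) (j := 1) (by decide) ?_ ?_,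
      Dv_of_cc (i := 0) (j := 1) (by decide) ?_ ?_⟩
    · rw [cc_sub, ← hg1 g hg, (ht g).1, sub_self]
    · rw [cc_sub, ← hg2 g hg, (ht g).2, sub_self]
    · rw [cc_sub, ← hs1, (ht s).1, sub_self]
    · rw [cc_sub, ← hs2, (ht s).2, sub_self]
  have hnn : ∀ g (i j : Fin 3), i ≠ j → cc i (T.nn g (tv j)) = sg (ev (EE A B D j - EE A B D i)) g :=
    fun g i j hij => by rw [T.cc_nn g hij (by simp), ev, ev, ev, map_sub]
  have hsq : ∀ (g : Gam F) (p q : F[X]), p ≠ 0 → q ≠ 0 →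
      sg (ev (p * q)) g = sg (ev (D * p)) g + sg (ev (D * q)) g := by
    intro g p q hp hq
    rw [← sg_mul_left (gam_ev _ _) (ev_ne (mul_ne_zero hD hp)) (gam_ev _ _)
      (ev_ne (mul_ne_zero hD hq)), ← map_mul]
    exact sg_of_isSquare (mul_ne_zero hp hq) (mul_ne_zero (mul_ne_zero hD hp) (mul_ne_zero hD hq))
      ⟨D * p * q, by ring⟩ g
  have hz : ∀ a b c : ZMod (2 ^ 1), a + b + c = 0 → b + c = a := by decide
  rcases hSel d₁ d₂ hsel hwt with ⟨h1, h2⟩ | ⟨h1, h2⟩ | ⟨h1, h2⟩ | ⟨h1, h2⟩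
  · refine ⟨0, fun g => ?_⟩
    have h3 : sg (ev (1 : F[X])) g = 0 := by
      simpa using sg_sq (g := g) (y := 1) (map_one g) one_ne_zero
    rw [T.nn_eq (x := 0) (y := 0) (by simp)]
    exact ⟨by rw [sg_of_isSquare n1 one_ne_zero (by simpa using h1), h3, cc_of_Dv _ (zero_mem _)],
      by rw [sg_of_isSquare n2 one_ne_zero (by simpa using h2), h3, cc_of_Dv _ (zero_mem _)]⟩
  · refine ⟨tv 0, fun g => ⟨?_, ?_⟩⟩
    · rw [sg_of_isSquare n1 (mul_ne_zero hA hB) h1, ← hz _ _ _ (cc_sum (i := 0) (j := 1) (k := 2)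
        (by decide) (by decide) (by decide) _), hnn g 1 0 (by decide), hnn g 2 0 (by decide),
        ← neg_mul_neg, hsq g _ _ (neg_ne_zero.2 hA) (neg_ne_zero.2 hB)]
      simp [EE]
    · rw [sg_of_isSquare n2 (neg_ne_zero.2 (mul_ne_zero hD hA)) h2, hnn g 1 0 (by decide)]
      simp [EE]
  · refine ⟨tv 1, fun g => ⟨?_, ?_⟩⟩
    · rw [sg_of_isSquare n1 (mul_ne_zero hD hA) h1, hnn g 0 1 (by decide)]
      simp [EE]
    · rw [sg_of_isSquare n2 (mul_ne_zero hA hC) h2, ← hz _ _ _ (cc_sum (i := 1) (j := 0) (k := 2)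
        (by decide) (by decide) (by decide) _), hnn g 0 1 (by decide), hnn g 2 1 (by decide),
        hsq g _ _ hA hC]
      simp [EE, mul_sub]
  · refine ⟨tv 2, fun g => ⟨?_, ?_⟩⟩
    · rw [sg_of_isSquare n1 (mul_ne_zero hD hB) h1, hnn g 0 2 (by decide)]
      simp [EE]
    · rw [sg_of_isSquare n2 (neg_ne_zero.2 (mul_ne_zero hD hC)) h2, hnn g 1 2 (by decide)]
      simp [EE, mul_sub]

end

end Pool.Agent.Lib.MP_16ef92_ag
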