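import Mathlib
import Pool.Agent.Lib.MP_16ef92_ag.Key

set_option autoImplicit false
set_option linter.unusedSectionVars false
set_option linter.unusedVariables false

namespace Pool.Agent.Lib.MP_16ef92_ag

open Polynomial
open scoped Classical

noncomputable section

variable {F : Type} [Field F] [Clos F] [Fintype F] [hq : Fact (Odd (Fintype.card F))]

section div

variable {e : Fin 3 → Om F} {T : TD e}

theorem two_smul_inj {x y : V} (h : (2 : ℤ_[2]) • x = (2 : ℤ_[2]) • y) : x = y :=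
  smul_right_injective V two_ne_zero h

theorem nn_two (g : Gam F) (t : V) : (2 : ℤ_[2]) • T.nn g t = T.ro g t - t := by
  rw [T.nn_spec g t, add_sub_cancel_left]

theorem Cy.tw {y : Gam F → V} (hy : Cy T y) (s : Gam F) : Cy T (tw T s y) :=
  ⟨fun g hg h hh => by
    unfold MP_16ef92_ag.tw
    rw [show s⁻¹ * (g * h) * s = s⁻¹ * g * s * (s⁻¹ * h * s) by group,
      hy.mul _ (geo_conj hg s) _ (geo_conj hh s), map_add, ← ro_mul s, ← ro_mul g,
      show s * (s⁻¹ * g * s) = g * s by group],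
    fun n => ((hy.near n).conj s).mono fun g hg hg' => map_Dv _ (hg (geo_conj hg' s))⟩

theorem Cy.sub {a b : Gam F → V} (ha : Cy T a) (hb : Cy T b) : Cy T fun g => a g - b g :=
  ⟨fun g hg h hh => by rw [ha.mul g hg h hh, hb.mul g hg h hh, map_sub]; abel,
    fun n => ((ha.near n).and (hb.near n)).mono fun g hg hg' => sub_mem (hg.1 hg') (hg.2 hg')⟩

theorem LT.smul {a : Gam F → V} (ha : LT T a) (c : ℤ_[2]) : LT T fun g => c • a g :=
  fun O x hO => by
    obtain ⟨j, m, hm⟩ := ha O x hO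
    exact ⟨j, c • m, fun g hg => by rw [smul_comm, hm g hg, map_smul, smul_sub]⟩

theorem LT.sub {a b : Gam F → V} (ha : LT T a) (hb : LT T b) : LT T fun g => a g - b g :=
  fun O x hO => by
    obtain ⟨j, m, hm⟩ := ha O x hO
    obtain ⟨l, n, hn⟩ := hb O x hO
    refine ⟨j + l, (2 : ℤ_[2]) ^ l • m - (2 : ℤ_[2]) ^ j • n, fun g hg => ?_⟩
    rw [map_sub, map_smul, map_smul, pow_add]
    linear_combination (norm := module) (2 : ℤ_[2]) ^ l • hm g hg - (2 : ℤ_[2]) ^ j • hn g hg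

theorem LT.tw {a : Gam F → V} (ha : LT T a) (s : Gam F) : LT T (tw T s a) := fun O x hO => by
  obtain ⟨j, m, hm⟩ := ha (cm s O) (x.map (ck s⁻¹)) (over_cm (by rwa [ck_inv]))
  refine ⟨j, T.ro s m, fun g hg => ?_⟩
  unfold MP_16ef92_ag.tw
  rw [← map_smul, hm _ (conj_ine (fun z => mem_cm) hg), map_sub, ← ro_mul, ← ro_mul,
    show s * (s⁻¹ * g * s) = g * s by group]

theorem halve {a : Gam F → V} {s : Gam F} {w t : V} (ha : Cy T a) (hl : LT T a) (hw : Ext T a s w)
    (h1 : ∀ g ∈ Geo F, a g - T.nn g t ∈ Dv 1) (h2 : w - T.nn s t ∈ Dv 1) :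
    ∃ b u, Cy T b ∧ LT T b ∧ Ext T b s u ∧ ∀ g ∈ Geo F, a g = (2 : ℤ_[2]) • b g + T.nn g t := by
  have hb : ∀ g, ∃ z : V, g ∈ Geo F → a g = (2 : ℤ_[2]) • z + T.nn g t := by
    intro g
    by_cases hg : g ∈ Geo F
    · obtain ⟨z, hz⟩ := mem_Dv_iff.1 (h1 g hg)
      exact ⟨z, fun _ => by rw [← sub_eq_iff_eq_add, hz, pow_one]⟩
    · exact ⟨0, fun h => (hg h).elim⟩
  choose b hb using hb
  obtain ⟨u, hu⟩ := mem_Dv_iff.1 h2
  rw [pow_one, sub_eq_iff_eq_add] at hu
  have hnn : ∀ g h, T.nn (g * h) t = T.nn g t + T.ro g (T.nn h t) := fun g h => two_smul_inj (by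
    rw [smul_add, ← map_smul, nn_two, nn_two, nn_two, map_sub, ro_mul]
    abel)
  refine ⟨b, u, ⟨fun g hg h hh => two_smul_inj ?_, fun n => ?_⟩, fun O x hO => ?_,
    fun g hg => two_smul_inj ?_, hb⟩
  · have := ha.mul g hg h hh
    rw [hb _ (mul_mem hg hh), hb g hg, hb h hh, hnn, map_add, map_smul] at this
    linear_combination (norm := module) this
  · refine ((ha.near (1 + n)).and (T.near (1 + (1 + n)))).mono fun g hg hg' => ?_
    have h3 := hg.2 t
    rw [← nn_two, ← pow_one (2 : ℤ_[2]), smul_mem_Dv_iff] at h3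
    have h4 := sub_mem (hg.1 hg') h3
    rwa [hb g hg', add_sub_cancel_right, ← pow_one (2 : ℤ_[2]), smul_mem_Dv_iff] at h4
  · obtain ⟨j, m, hm⟩ := hl O x hO
    refine ⟨j + 2, (2 : ℤ_[2]) • m - (2 : ℤ_[2]) ^ j • t, fun g hg => ?_⟩
    have h3 := hm g hg
    rw [hb g hg.1] at h3
    rw [map_sub, map_smul, map_smul, pow_add]
    linear_combination (norm := module) (2 : ℤ_[2]) • h3 - (2 : ℤ_[2]) ^ j • nn_two (T := T) g t
  · have h3 := hw g hg
    have h4 := hnn s (s⁻¹ * g * s)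
    rw [show s * (s⁻¹ * g * s) = g * s by group, hnn] at h4
    unfold tw at h3 ⊢
    rw [hb _ (geo_conj hg s), hb g hg, hu, map_add, map_smul, map_add, map_smul] at h3
    linear_combination (norm := module) h3 + h4

end div

variable {A B D : F[X]}

theorem Fam.main (h : Fam A B D) (T : TD fun i => ev (EE A B D i))
    (hSel : ∀ d₁ d₂, IsSel A B D d₁ d₂ → 4 ∣ wt D d₁ d₂ → IsTorsImage A B D d₁ d₂)
    {s : Gam F} (hs : Fr s (Fintype.card F)) {y : Gam F → V} (hy : Cy T y) (hly : LT T y) {j : ℕ}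
    {w : V} (hw : Ext T (fun g => (2 : ℤ_[2]) ^ j • (tw T s y g - y g)) s w) :
    ∃ m : V, ∀ g ∈ Geo F, (2 : ℤ_[2]) ^ (j + 1) • (tw T s y g - y g) = T.ro g m - m := by
  have key : ∀ n, ∃ a u m, Cy T a ∧ LT T a ∧ Ext T a s u ∧ ∀ g ∈ Geo F,
      (2 : ℤ_[2]) ^ (j + 1) • (tw T s y g - y g) = (2 : ℤ_[2]) ^ (n + 1) • a g + (T.ro g m - m) := by
    intro n
    induction n with
    | zero =>
      exact ⟨_, w, 0, ((hy.tw s).sub hy).smul _, ((hly.tw s).sub hly).smul _, hw, fun g _ => by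
        rw [map_zero]
        module⟩
    | succ n ih =>
      obtain ⟨a, u, m, ha, hl, hu, hm⟩ := ih
      obtain ⟨t, h1, h2⟩ := h.key T hSel hs ha hl (hy.smul (2 ^ (j + 1))) (hly.smul _) hu
        (N := n + 1) (m := -m) fun g hg => by
          have := hm g hg
          unfold tw at this ⊢
          rw [map_smul, map_neg]
          linear_combination (norm := module) -this
      obtain ⟨b, u', hb, hlb, hu', h3⟩ := halve ha hl hu h1 h2
      refine ⟨b, u', m + (2 : ℤ_[2]) ^ n • t, hb, hlb, hu', fun g hg => ?_⟩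
      rw [hm g hg, h3 g hg, map_add, map_smul]
      linear_combination (norm := module) (2 : ℤ_[2]) ^ n • nn_two (T := T) g t
  obtain ⟨m, hm⟩ := lim (fun n m => ∀ g ∈ Geo F,
      (2 : ℤ_[2]) ^ (j + 1) • (tw T s y g - y g) - (T.ro g m - m) ∈ Dv n)
    (fun n => by
      obtain ⟨a, u, m, -, -, -, hm⟩ := key n
      exact ⟨m, fun g hg => by
        rw [hm g hg, add_sub_cancel_right]
        exact Dv_mono n.le_succ (smul_mem_Dv _ _)⟩)
    (fun n m hm g hg => Dv_mono n.le_succ (hm g hg)) (fun n m m' hm h1 g hg => by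
      convert add_mem (sub_mem (hm g hg) (map_Dv (T.ro g) h1)) h1 using 1
      rw [map_sub]
      abel)
  exact ⟨m, fun g hg => sub_eq_zero.1 (eq_zero_of_Dv fun n => hm n g hg)⟩

theorem Fam.cub (h : Fam A B D) : Cub ((curve A B D).baseChange (Om F)).toAffine
    (ev (EE A B D 0)) (ev (EE A B D 1)) (ev (EE A B D 2)) := by
  obtain ⟨hA, hB, hC, hD⟩ := h.ne
  have e1 := rf_eq (D * A)
  have e2 := rf_eq (D * B)
  refine ⟨map_zero (algebraMap (RatFunc F) (Om F)), map_zero (algebraMap (RatFunc F) (Om F)),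
    ?_, ?_, ?_, ?_, ?_, ?_, two_ne⟩
  · change algebraMap (RatFunc F) (Om F) (-(rf (D * A) + rf (D * B))) = _
    rw [map_neg, map_add, e1, e2]
    simp [EE]
  · change algebraMap (RatFunc F) (Om F) (rf (D * A) * rf (D * B)) = _
    rw [map_mul, e1, e2]
    simp [EE]
  · change algebraMap (RatFunc F) (Om F) 0 = _
    simp [EE]
  · simpa [EE] using ev_ne (mul_ne_zero hD hA)
  · simpa [EE] using ev_ne (mul_ne_zero hD hB)
  · simpa [EE, mul_sub] using ev_ne (mul_ne_zero hD hC)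

theorem Fam.final (h : Fam A B D)
    (hSel : ∀ d₁ d₂, IsSel A B D d₁ d₂ → 4 ∣ wt D d₁ d₂ → IsTorsImage A B D d₁ d₂)
    {s : Gam F} (hs : ∀ c : Om F, IsAlgebraic F c → s c = c ^ Fintype.card F)
    {c : Gam F → ℕ → Pt (curve A B D)} (hc : IsClass c) (h2 : IsNull (subOne s (subOne s c))) :
    IsNull (subOne s c) := by
  obtain ⟨T, ev', hin, hsurj, hker, hro⟩ := exists_TD h.cub fun g i => gam_ev g _
  have hinj : ∀ x y, ev' x = ev' y → x = y := fun x y e => by
    rw [← sub_eq_zero]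
    exact eq_zero_of_Dv fun n => (hker n _).1 (by rw [map_sub, e, sub_self]; rfl)
  have hpow : ∀ (j : ℕ) x, ev' ((2 : ℤ_[2]) ^ j • x) = 2 ^ j • ev' x := fun j x => by
    rw [← map_nsmul, ← Nat.cast_smul_eq_nsmul ℤ_[2]]
    simp
  have hy : ∀ g, ∃ x, g ∈ Geo F → ev' x = c g := by
    intro g
    by_cases hg : g ∈ Geo F
    · exact (hsurj _ (hc.mem g hg)).imp fun x hx _ => hx
    · exact ⟨0, fun h => (hg h).elim⟩
  choose y hy using hy
  have hCy : ∀ g ∈ Geo F, ∀ l ∈ Geo F, y (g * l) = y g + T.ro g (y l) := fun g hg l hl =>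
    hinj _ _ (by rw [map_add, hro, hy _ (mul_mem hg hl), hy g hg, hy l hl, hc.mul g hg l hl])
  have h1 : y 1 = 0 := by
    have := hCy 1 (one_mem _) 1 (one_mem _)
    rwa [mul_one, ro_one, left_eq_add] at this
  have hcy : Cy T y := ⟨hCy, fun n =>
    (Near.of_locConst (Geo F) (fun g => c g n) (hc.cont n)).mono fun g hg hg' => (hker n _).1 (by
      rw [hy g hg', hg hg', ← hy 1 (one_mem _), h1, map_zero]
      rfl)⟩
  have hlt : LT T y := fun O x hO => by
    obtain ⟨j, m, hm, h3⟩ := hc.loc O hO.ne_top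
    obtain ⟨m, rfl⟩ := hsurj m hm
    exact ⟨j, m, fun g hg => hinj _ _ (by rw [hpow, map_sub, hro, hy g hg.1, h3 g hg.1 hg.2])⟩
  have hsub : ∀ (a : Gam F → V) (d : Gam F → ℕ → Pt (curve A B D)), (∀ g ∈ Geo F, ev' (a g) = d g) →
      ∀ g ∈ Geo F, ev' (tw T s a g - a g) = subOne s d g := fun a d had g hg => by
    rw [map_sub, tw, hro, had _ (geo_conj hg s), had g hg]
    rfl
  obtain ⟨j, w, hw, h3⟩ := isNull_iff.1 h2
  obtain ⟨w, rfl⟩ := hsurj w hw
  obtain ⟨m, hm⟩ := h.main T hSel (fun c => hs c (kk_alg c)) hcy hlt (j := j) (w := w) (by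
    intro g hg
    have h4 := hinj _ (T.ro g w - w) (by
      rw [hpow, hsub _ _ (hsub y c hy) g hg, h3 g hg, map_sub, hro])
    rw [← h4]
    unfold tw
    rw [map_smul]
    module)
  exact isNull_iff.2 ⟨j + 1, ev' m, hin m, fun g hg => by
    rw [← hsub y c hy g hg, ← hpow, hm g hg, map_sub, hro]⟩

end

end Pool.Agent.Lib.MP_16ef92_ag
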