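import Mathlib

set_option autoImplicit false
set_option linter.unusedSectionVars false
set_option linter.unusedVariables false

namespace Pool.Agent.Lib.MP_16ef92_ag

noncomputable section

variable {K G : Type} [Field K] [LinearOrderedCommGroupWithZero G] {v : Valuation K G}

/-- `z / w` is a one-unit. -/
def Nr (v : Valuation K G) (z w : K) : Prop := v (z - w) < v w

/-- `z` is a square times a one-unit. -/
def LS (v : Valuation K G) (z : K) : Prop := ∃ y, Nr v z (y ^ 2)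

/-- `z` is nonzero of even valuation. -/
def Ev (v : Valuation K G) (z : K) : Prop := ∃ g : G, g ≠ 0 ∧ v z = g ^ 2

theorem Nr.eq {z w : K} (h : Nr v z w) : v z = v w := v.map_eq_of_sub_lt h

theorem Nr.pos {z w : K} (h : Nr v z w) : 0 < v w := lt_of_le_of_lt zero_le h

theorem Nr.symm {z w : K} (h : Nr v z w) : Nr v w z := by
  unfold Nr at *
  rwa [v.map_sub_swap, Nr.eq h]

theorem Nr.trans {z w u : K} (h : Nr v z w) (h' : Nr v w u) : Nr v z u := by
  have := v.map_add_lt (lt_of_lt_of_eq h h'.eq) h'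
  rwa [sub_add_sub_cancel] at this

theorem Nr.rfl {z : K} (h : v z ≠ 0) : Nr v z z := by
  unfold Nr
  rw [sub_self, map_zero]
  exact zero_lt_iff.2 h

theorem Nr.mul {z w z' w' : K} (h : Nr v z w) (h' : Nr v z' w') : Nr v (z * z') (w * w') := by
  unfold Nr
  rw [show z * z' - w * w' = (z - w) * z' + w * (z' - w') by ring, map_mul]
  refine v.map_add_lt ?_ ?_
  · rw [map_mul, h'.eq]
    exact mul_lt_mul_of_pos_right h h'.pos
  · rw [map_mul]
    exact mul_lt_mul_of_pos_left h' h.pos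

theorem LS.ne {z : K} (h : LS v z) : v z ≠ 0 := by
  obtain ⟨y, hy⟩ := h
  rw [hy.eq]
  exact hy.pos.ne'

theorem LS.mul {z w : K} (h : LS v z) (h' : LS v w) : LS v (z * w) := by
  obtain ⟨y, hy⟩ := h
  obtain ⟨y', hy'⟩ := h'
  exact ⟨y * y', mul_pow y y' 2 ▸ hy.mul hy'⟩

theorem LS.nr {z w : K} (h : LS v z) (h' : Nr v w z) : LS v w := h.imp fun _ hy => h'.trans hy

theorem LS.sq {y : K} (h : v y ≠ 0) : LS v (y ^ 2) := ⟨y, Nr.rfl (by rw [map_pow]; exact pow_ne_zero _ h)⟩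

theorem LS.div_sq {z w : K} (h : LS v (z * w ^ 2)) : LS v z := by
  have h0 : v w ≠ 0 := fun e => h.ne (by simp [e])
  have hw : w ≠ 0 := fun e => h0 (by simp [e])
  have := h.mul (LS.sq (y := w⁻¹) (by simpa using hw))
  rwa [mul_assoc, ← mul_pow, mul_inv_cancel₀ hw, one_pow, mul_one] at this

theorem LS.repl {d z w : K} (h : LS v (d * z)) (h' : Nr v z w) : LS v (d * w) :=
  h.nr ((Nr.rfl fun e => h.ne (by simp [e])).mul h'.symm)

theorem LS.ev {z : K} (h : LS v z) : Ev v z := by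
  obtain ⟨y, hy⟩ := h
  exact ⟨v y, fun e => hy.pos.ne' (by simp [e]), by rw [hy.eq, map_pow]⟩

theorem Ev.mul {z w : K} (h : Ev v z) (h' : Ev v w) : Ev v (z * w) := by
  obtain ⟨g, h0, hg⟩ := h
  obtain ⟨g', h0', hg'⟩ := h'
  exact ⟨g * g', mul_ne_zero h0 h0', by rw [map_mul, hg, hg', mul_pow]⟩

theorem Ev.div_sq {z w : K} (h : Ev v (z * w ^ 2)) : Ev v z := by
  obtain ⟨g, h0, hg⟩ := h
  have h1 : v w ≠ 0 := fun e => pow_ne_zero 2 h0 (by rw [← hg]; simp [e])
  refine ⟨g / v w, div_ne_zero h0 h1, ?_⟩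
  rw [div_pow, ← hg, map_mul, map_pow, mul_div_cancel_right₀ _ (pow_ne_zero _ h1)]

theorem Ev.of_eq {z w : K} (h : Ev v z) (e : v w = v z) : Ev v w := by
  obtain ⟨g, h0, hg⟩ := h
  exact ⟨g, h0, e.trans hg⟩

theorem Ev.cancel {z w : K} (h : Ev v (z * w)) (h' : Ev v w) : Ev v z :=
  Ev.div_sq (w := w) (by rw [pow_two, ← mul_assoc]; exact h.mul h')

theorem Ev.one {z : K} (h : v z = 1) : Ev v z := ⟨1, one_ne_zero, by simpa using h⟩

theorem nr_sub {x e : K} (h : v e < v x) : Nr v (x - e) x := by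
  unfold Nr
  rwa [sub_sub_cancel_left, v.map_neg]

theorem nr_sub' {x e : K} (h : v x < v e) : Nr v (x - e) (-e) := by
  unfold Nr
  rwa [sub_neg_eq_add, sub_add_cancel, v.map_neg]

/-- The local image at an additive place. -/
theorem loc_add {D a b d₁ d₂ x : K} (hD : ¬ Ev v D) (hD0 : v D ≠ 0) (ha : v a = 1) (hb : v b = 1)
    (hc : v (a - b) = 1) (h1 : LS v (d₁ * x)) (h2 : LS v (d₂ * (x - D * a)))
    (h3 : LS v (d₁ * d₂ * (x - D * b))) :
    (LS v d₁ ∧ LS v d₂) ∨ (LS v (d₁ * (a * b)) ∧ LS v (d₂ * (-(D * a)))) ∨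
      (LS v (d₁ * (D * a)) ∧ LS v (d₂ * (a * (a - b)))) ∨
      (LS v (d₁ * (D * b)) ∧ LS v (d₂ * (-(D * (a - b))))) := by
  have ea : v (D * a) = v D := by rw [map_mul, ha, mul_one]
  have eb : v (D * b) = v D := by rw [map_mul, hb, mul_one]
  have ec : v (D * a - D * b) = v D := by rw [← mul_sub, map_mul, hc, mul_one]
  rcases lt_trichotomy (v D) (v x) with h | h | h
  · have h2' := h2.repl (nr_sub (ea ▸ h))
    have h3' := h3.repl (nr_sub (eb ▸ h))
    refine Or.inl ⟨LS.div_sq (w := d₂ * x) ?_, LS.div_sq (w := d₁ * x) ?_⟩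
    · convert h2'.mul h3' using 1
      ring
    · convert h1.mul h3' using 1
      ring
  · by_cases h4 : v (x - D * a) < v D
    · have h5 : Nr v x (D * a) := by unfold Nr; rwa [ea]
      have h6 : Nr v (x - D * b) (D * a - D * b) := by
        unfold Nr
        rwa [ec, sub_sub_sub_cancel_right]
      refine Or.inr (Or.inr (Or.inl ⟨h1.repl h5, LS.div_sq (w := d₁ * D) ?_⟩))
      convert (h1.repl h5).mul (h3.repl h6) using 1
      ring
    by_cases h7 : v (x - D * b) < v D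
    · have h5 : Nr v x (D * b) := by unfold Nr; rwa [eb]
      have h6 : Nr v (x - D * a) (-(D * (a - b))) := by
        unfold Nr
        rw [v.map_neg, mul_sub, ec]
        convert h7 using 2
        ring
      exact Or.inr (Or.inr (Or.inr ⟨h1.repl h5, h2.repl h6⟩))
    exfalso
    have h8 : v (x - D * a) = v D := le_antisymm (v.map_sub_le h.ge ea.le) (not_lt.1 h4)
    have h9 : v (x - D * b) = v D := le_antisymm (v.map_sub_le h.ge eb.le) (not_lt.1 h7)
    refine hD (Ev.div_sq (w := d₁ * d₂ * D) (((h1.mul h2).mul h3).ev.of_eq ?_))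
    simp only [map_mul, map_pow, h8, h9, ← h]
    rw [pow_two]
    ac_rfl
  · have h2' := h2.repl (nr_sub' (ea ▸ h))
    have h3' := h3.repl (nr_sub' (eb ▸ h))
    refine Or.inr (Or.inl ⟨LS.div_sq (w := d₂ * D) ?_, h2'⟩)
    convert h2'.mul h3' using 1
    ring

/-- At a multiplicative place the coordinate of the isolated root has even valuation. -/
theorem loc_mul {e₁ e₂ e₃ d₁ d₂ d₃ x : K} (h13 : v (e₃ - e₁) = 1) (h23 : v (e₃ - e₂) = 1)
    (h1 : LS v (d₁ * (x - e₁))) (h2 : LS v (d₂ * (x - e₂))) (h3 : LS v (d₃ * (x - e₃)))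
    (hd : Ev v (d₁ * d₂ * d₃)) : Ev v d₃ := by
  rcases lt_trichotomy (v (x - e₃)) 1 with h | h | h
  · have e1 : v (x - e₁) = 1 := by
      rw [← sub_add_sub_cancel x e₃ e₁, v.map_add_eq_of_lt_right (h13 ▸ h), h13]
    have e2 : v (x - e₂) = 1 := by
      rw [← sub_add_sub_cancel x e₃ e₂, v.map_add_eq_of_lt_right (h23 ▸ h), h23]
    have := (h1.ev.cancel (Ev.one e1)).mul (h2.ev.cancel (Ev.one e2))
    rw [mul_comm] at hd
    exact hd.cancel this
  · exact h3.ev.cancel (Ev.one h)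
  · have e1 : v (x - e₁) = v (x - e₃) := by
      rw [← sub_add_sub_cancel x e₃ e₁, v.map_add_eq_of_lt_left (h13 ▸ h)]
    have e2 : v (x - e₂) = v (x - e₃) := by
      rw [← sub_add_sub_cancel x e₃ e₂, v.map_add_eq_of_lt_left (h23 ▸ h)]
    have h4 : Ev v (d₁ * d₂) := Ev.div_sq (w := x - e₃) ((h1.mul h2).ev.of_eq (by
      simp only [map_mul, map_pow, e1, e2]
      rw [pow_two]
      ac_rfl))
    rw [mul_comm] at hd
    exact hd.cancel h4

end

end Pool.Agent.Lib.MP_16ef92_ag
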