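import Mathlib

set_option autoImplicit false

namespace Pool.Agent.Lib.MP_16ef92_ag

open Polynomial

variable {F : Type} [Field F]

/-- `z` is a square modulo `p`. -/
def SqMod (p z : F[X]) : Prop := ∃ y : F[X], p ∣ z - y ^ 2

/-- `N` has no factorisation of the second kind in the sense of Redei and Reichardt: if `N = d e`
with `d` of even degree, `d` a square modulo every prime factor of `e` and `e` a square modulo
every prime factor of `d`, then `d` or `e` is constant. -/
def NoSecondKind (N : F[X]) : Prop :=
  ∀ d e : F[X], N = d * e → Even d.natDegree → (∀ p, Irreducible p → p ∣ e → SqMod p d) →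
    (∀ p, Irreducible p → p ∣ d → SqMod p e) → IsUnit d ∨ IsUnit e

end Pool.Agent.Lib.MP_16ef92_ag
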