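import Mathlib
import Pool.Agent.Lib.MP_16ef92_ag.DefsRed

set_option autoImplicit false
set_option linter.unusedSectionVars false
set_option linter.unusedVariables false

namespace Pool.Agent.Lib.MP_16ef92_ag

open Polynomial

noncomputable section

variable {F : Type} [Field F] [Fintype F] [hq : Fact (Odd (Fintype.card F))]

theorem ringChar_ne_two : ringChar F ≠ 2 := fun h => by
  have h1 := FiniteField.even_card_of_char_two h
  have h2 := Nat.odd_iff.1 hq.out
  omega

theorem isSquare_of_mul {K : Type} [Field K] {a b : K} (ha : IsSquare a) (h0 : a ≠ 0)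
    (h : IsSquare (a * b)) : IsSquare b := by
  have := h.mul ha.inv
  rwa [mul_comm a, mul_assoc, mul_inv_cancel₀ h0, mul_one] at this

theorem norm_isSquare {E : Type} [Field E] [Finite E] [Algebra F E] {z : E}
    (h : IsSquare (Algebra.norm F z)) : IsSquare z := by
  classical
  rcases eq_or_ne z 0 with rfl | h0
  · exact IsSquare.zero
  obtain ⟨g, hg⟩ := IsCyclic.exists_monoid_generator (α := Eˣ)
  have hp : ∀ w : E, w ≠ 0 → ∃ n : ℕ, w = (g : E) ^ n := fun w hw => by
    obtain ⟨n, hn⟩ := hg (Units.mk0 w hw)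
    exact ⟨n, by simpa using (congrArg Units.val hn).symm⟩
  obtain ⟨n, rfl⟩ := hp z h0
  rcases Nat.even_or_odd n with hn | ⟨k, rfl⟩
  · exact hn.isSquare_pow _
  exfalso
  have hg0 : Algebra.norm F (g : E) ≠ 0 := Algebra.norm_ne_zero_iff.2 g.ne_zero
  rw [map_pow, pow_succ] at h
  have h1 := isSquare_of_mul ((even_two_mul k).isSquare_pow _) (pow_ne_zero _ hg0) h
  obtain ⟨a, ha⟩ := FiniteField.exists_nonsquare (ringChar_ne_two (F := F))
  obtain ⟨w, rfl⟩ := FiniteField.norm_surjective F E a
  rcases eq_or_ne w 0 with rfl | hw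
  · exact ha (by rw [Algebra.norm_zero]; exact IsSquare.zero)
  obtain ⟨m, rfl⟩ := hp w hw
  exact ha (by rw [map_pow]; exact h1.pow m)

theorem sqMod_iff {p z : F[X]} : SqMod p z ↔ IsSquare (AdjoinRoot.mk p z) := by
  constructor
  · rintro ⟨y, hy⟩
    exact ⟨AdjoinRoot.mk p y, by rw [← map_mul, AdjoinRoot.mk_eq_mk, ← sq]; exact hy⟩
  · rintro ⟨y, hy⟩
    obtain ⟨y, rfl⟩ := AdjoinRoot.mk_surjective y
    exact ⟨y, by rw [← AdjoinRoot.mk_eq_mk, sq, map_mul]; exact hy⟩

theorem res_norm {p : F[X]} [hp : Fact (Irreducible p)] (z : F[X]) :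
    resultant p z = p.leadingCoeff ^ z.natDegree * Algebra.norm F (AdjoinRoot.mk p z) := by
  classical
  let L := AlgebraicClosure F
  have hp0 := hp.out.ne_zero
  have : FiniteDimensional F (AdjoinRoot p) := (AdjoinRoot.powerBasis hp0).finite
  apply (algebraMap F L).injective
  have hi := (algebraMap F L).injective
  have h1 := resultant_eq_prod_eval (p.map (algebraMap F L)) (z.map (algebraMap F L)) z.natDegree
    natDegree_map_le (IsAlgClosed.splits _)
  rw [natDegree_map_eq_of_injective hi, resultant_map_map, leadingCoeff_map_of_injective hi] at h1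
  rw [h1, map_mul, map_pow, Algebra.norm_eq_prod_embeddings F L]
  congr 1
  rw [Fintype.prod_equiv (AdjoinRoot.equiv L F p hp0) _ (fun x => aeval (x : L) z) (fun σ => ?_)]
  · rw [Finset.prod_mem_multiset _ _ (fun x => aeval x z) (fun _ => rfl),
      Finset.prod_eq_multiset_prod, Multiset.toFinset_val, Multiset.dedup_eq_self.2]
    · simp [aroots_def, eval_map_algebraMap]
    · exact nodup_roots ((separable_map _).2 (PerfectField.separable_of_irreducible hp.out))
  · rw [← AdjoinRoot.aeval_eq, ← aeval_algHom_apply]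
    congr 1

theorem sqMod_res {p z : F[X]} (hp : Irreducible p) (hz : Even z.natDegree) :
    SqMod p z ↔ IsSquare (resultant p z) := by
  have : Fact (Irreducible p) := ⟨hp⟩
  have : FiniteDimensional F (AdjoinRoot p) := (AdjoinRoot.powerBasis hp.ne_zero).finite
  have : Finite (AdjoinRoot p) := Module.finite_of_finite F
  rw [sqMod_iff, res_norm]
  constructor
  · intro h
    exact (hz.isSquare_pow _).mul (h.map _)
  · intro h
    exact norm_isSquare (isSquare_of_mul (hz.isSquare_pow _)
      (pow_ne_zero _ (leadingCoeff_ne_zero.2 hp.ne_zero)) h)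

theorem res_isSquare {z : F[X]} (hz : Even z.natDegree) (f : F[X]) (hf : f ≠ 0)
    (h : ∀ p, Irreducible p → p ∣ f → SqMod p z) : IsSquare (resultant f z) := by
  induction f using WfDvdMonoid.induction_on_irreducible with
  | zero => exact (hf rfl).elim
  | unit u hu =>
    obtain ⟨r, -, rfl⟩ := isUnit_iff.1 hu
    rw [natDegree_C, resultant_C_zero_left]
    exact hz.isSquare_pow _
  | mul a p ha hp ih =>
    rw [natDegree_mul hp.ne_zero ha, resultant_mul_left _ _ _ _ le_rfl]
    exact ((sqMod_res hp hz).1 (h p hp (dvd_mul_right _ _))).mul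
      (ih ha fun r hr hd => h r hr (hd.mul_left _))

/-- Reciprocity: the last symbol is determined by the others. -/
theorem recip {d e A : F[X]} (hA : Irreducible A) (hd0 : d ≠ 0) (he0 : e ≠ 0) (hde : IsCoprime e d)
    (hd : Even d.natDegree) (he : Even (A * e).natDegree)
    (h1 : ∀ p, Irreducible p → p ∣ e → SqMod p d) (h2 : ∀ p, Irreducible p → p ∣ d → SqMod p (A * e)) :
    SqMod A d := by
  have h3 := res_isSquare he d hd0 h2
  rw [resultant_comm, (hd.mul_right _).neg_one_pow, one_mul, natDegree_mul hA.ne_zero he0,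
    resultant_mul_left _ _ _ _ le_rfl, mul_comm] at h3
  exact (sqMod_res hA hd).2
    (isSquare_of_mul (res_isSquare hd e he0 h1) (resultant_ne_zero _ _ hde) h3)

theorem const_sq {p u : F[X]} (hp : Irreducible p) (ho : Odd p.natDegree) (hu : IsUnit u)
    (h : SqMod p u) : IsSquare u := by
  obtain ⟨r, hr, rfl⟩ := isUnit_iff.1 hu
  have h1 := (sqMod_res hp (by simp)).1 h
  rw [natDegree_C, resultant_C_zero_right] at h1
  obtain ⟨k, hk⟩ := ho
  rw [hk, pow_succ] at h1
  exact (isSquare_of_mul ((even_two_mul k).isSquare_pow _) (pow_ne_zero _ hr.ne_zero) h1).map C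

end

end Pool.Agent.Lib.MP_16ef92_ag
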