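import Mathlib
import Pool.Agent.Lib.MP_16ef92_ag.DefsSel
import Pool.Agent.Lib.MP_16ef92_ag.Rec
import Pool.Agent.Lib.MP_16ef92_ag.Nr

set_option autoImplicit false
set_option linter.unusedSectionVars false
set_option linter.unusedVariables false

namespace Pool.Agent.Lib.MP_16ef92_ag

open Polynomial IsDedekindDomain

noncomputable section

section gen

variable {K G : Type} [Field K] [LinearOrderedCommGroupWithZero G] {v : Valuation K G}

/-- The pair is locally the image of a torsion point. -/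
def Tq (v : Valuation K G) (D a b d₁ d₂ : K) : Prop :=
  (LS v d₁ ∧ LS v d₂) ∨ (LS v (d₁ * (a * b)) ∧ LS v (d₂ * (-(D * a)))) ∨
    (LS v (d₁ * (D * a)) ∧ LS v (d₂ * (a * (a - b)))) ∨
    (LS v (d₁ * (D * b)) ∧ LS v (d₂ * (-(D * (a - b)))))

theorem LS.msq {z z' : K} (h : LS v z) (w : K) (hw : v w ≠ 0) (e : z' = z * w ^ 2) : LS v z' :=
  e ▸ h.mul (LS.sq hw)

theorem LS.dsq {z z' : K} (h : LS v z) (w : K) (e : z = z' * w ^ 2) : LS v z' :=
  LS.div_sq (e ▸ h)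

variable {D a b d₁ d₂ : K}

theorem Tq.dsq {w₁ w₂ : K} (h : Tq v D a b (d₁ * w₁ ^ 2) (d₂ * w₂ ^ 2)) : Tq v D a b d₁ d₂ := by
  rcases h with h | h | h | h
  · exact Or.inl ⟨h.1.div_sq, h.2.div_sq⟩
  · exact Or.inr (Or.inl ⟨h.1.dsq w₁ (by ring), h.2.dsq w₂ (by ring)⟩)
  · exact Or.inr (Or.inr (Or.inl ⟨h.1.dsq w₁ (by ring), h.2.dsq w₂ (by ring)⟩))
  · exact Or.inr (Or.inr (Or.inr ⟨h.1.dsq w₁ (by ring), h.2.dsq w₂ (by ring)⟩))

variable (hD : v D ≠ 0) (ha : v a ≠ 0) (hb : v b ≠ 0) (hc : v (a - b) ≠ 0)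
include hD ha hb hc

theorem Tq.t1 (h : Tq v D a b d₁ d₂) : Tq v D a b (d₁ * (a * b)) (d₂ * (-(D * a))) := by
  rcases h with h | h | h | h
  · exact Or.inr (Or.inl ⟨h.1.msq (a * b) (by simp [*]) (by ring),
      h.2.msq (D * a) (by simp [*]) (by ring)⟩)
  · exact Or.inl h
  · exact Or.inr (Or.inr (Or.inr ⟨h.1.msq b hb (by ring), h.2.msq D hD (by ring)⟩))
  · exact Or.inr (Or.inr (Or.inl ⟨h.1.msq a ha (by ring), h.2.msq a ha (by ring)⟩))

theorem Tq.t2 (h : Tq v D a b d₁ d₂) : Tq v D a b (d₁ * (D * a)) (d₂ * (a * (a - b))) := by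
  rcases h with h | h | h | h
  · exact Or.inr (Or.inr (Or.inl ⟨h.1.msq (D * a) (by rw [map_mul]; exact mul_ne_zero hD ha)
      (by ring), h.2.msq (a * (a - b)) (by rw [map_mul]; exact mul_ne_zero ha hc) (by ring)⟩))
  · exact Or.inr (Or.inr (Or.inr ⟨h.1.msq D hD (by ring), h.2.msq (a - b) hc (by ring)⟩))
  · exact Or.inl h
  · exact Or.inr (Or.inl ⟨h.1.msq a ha (by ring), h.2.msq a ha (by ring)⟩)

theorem Tq.t3 (h : Tq v D a b d₁ d₂) : Tq v D a b (d₁ * (D * b)) (d₂ * (-(D * (a - b)))) := by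
  rcases h with h | h | h | h
  · exact Or.inr (Or.inr (Or.inr ⟨h.1.msq (D * b) (by rw [map_mul]; exact mul_ne_zero hD hb)
      (by ring), h.2.msq (D * (a - b)) (by rw [map_mul]; exact mul_ne_zero hD hc) (by ring)⟩))
  · exact Or.inr (Or.inr (Or.inl ⟨h.1.msq D hD (by ring), h.2.msq (a - b) hc (by ring)⟩))
  · exact Or.inr (Or.inl ⟨h.1.msq b hb (by ring), h.2.msq D hD (by ring)⟩)
  · exact Or.inl h

end gen

variable {F : Type} [Field F] {p : F[X]}

/-- The valuation of `F(t)` at an irreducible polynomial. -/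
def vp (hp : Irreducible p) : Valuation (RatFunc F) (WithZero (Multiplicative ℤ)) :=
  HeightOneSpectrum.valuation (RatFunc F) (R := F[X])
    ⟨Ideal.span {p}, (Ideal.span_singleton_prime hp.ne_zero).2 hp.prime, by simpa using hp.ne_zero⟩

variable (hp : Irreducible p)

theorem vp_le (a : F[X]) : vp hp (rf a) ≤ 1 := HeightOneSpectrum.valuation_le_one _ a

theorem vp_lt (a : F[X]) : vp hp (rf a) < 1 ↔ p ∣ a :=
  (HeightOneSpectrum.valuation_lt_one_iff_mem _ a).trans Ideal.mem_span_singleton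

theorem vp_one {a : F[X]} (h : ¬ p ∣ a) : vp hp (rf a) = 1 :=
  le_antisymm (vp_le hp a) (not_lt.1 ((vp_lt hp a).not.2 h))

theorem vp_ne {a : F[X]} (h : a ≠ 0) : vp hp (rf a) ≠ 0 :=
  (Valuation.ne_zero_iff _).2 (RatFunc.algebraMap_ne_zero h)

theorem vp_self : vp hp (rf p) = WithZero.exp (-1 : ℤ) :=
  (HeightOneSpectrum.valuation_of_algebraMap _ p).trans
    (HeightOneSpectrum.intValuation_singleton _ hp.ne_zero rfl)

theorem not_ev {a z : F[X]} (h : ¬ p ∣ a) (e : z = p * a) : ¬ Ev (vp hp) (rf z) := by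
  rintro ⟨g, h0, hg⟩
  rw [e, rf, map_mul, map_mul, vp_one hp h, mul_one, vp_self, ← WithZero.exp_log h0,
    ← WithZero.exp_nsmul, WithZero.exp_inj] at hg
  simp only [nsmul_eq_mul, Nat.cast_ofNat] at hg
  omega

theorem LocSq.ls {z : RatFunc F} (h : LocSq p z) : LS (vp hp) z := by
  obtain ⟨y, a, b, hy, hb, rfl⟩ := h
  refine ⟨y, ?_⟩
  have h0 : vp hp (y ^ 2) ≠ 0 := (Valuation.ne_zero_iff _).2 (pow_ne_zero _ hy)
  have := (Nr.rfl h0).mul (show Nr (vp hp) (1 + rf p * rf a / rf b) 1 by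
    unfold Nr
    rw [add_sub_cancel_left, map_div₀, vp_one hp hb, div_one, map_one, ← map_mul, vp_lt]
    exact dvd_mul_right _ _)
  rwa [mul_one] at this

theorem SqMod.ls {a : F[X]} (h : SqMod p a) (ha : ¬ p ∣ a) : LS (vp hp) (rf a) := by
  obtain ⟨y, hy⟩ := h
  refine ⟨rf y, ?_⟩
  unfold Nr
  rw [← map_pow, ← map_sub, vp_one hp (a := y ^ 2) (fun h => ha (by simpa using dvd_add hy h)), vp_lt]
  exact hy

theorem LS.sqMod {a : F[X]} (h : LS (vp hp) (rf a)) : SqMod p a := by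
  by_cases ha : p ∣ a
  · exact ⟨0, by simpa using ha⟩
  obtain ⟨y, hy⟩ := h
  have h1 : vp hp (y ^ 2) = 1 := hy.eq ▸ vp_one hp ha
  have hd0 := RatFunc.denom_ne_zero y
  have hy' : y * rf y.denom = rf y.num := by
    conv_lhs => rw [← RatFunc.num_div_denom y]
    simp only [RatFunc.num_div_denom]
    rw [← eq_div_iff (RatFunc.algebraMap_ne_zero hd0), RatFunc.num_div_denom]
  have h2 : vp hp y = 1 := by
    rw [map_pow] at h1
    exact (pow_eq_one_iff_of_nonneg zero_le two_ne_zero).1 h1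
  have hd : ¬ p ∣ y.denom := fun hd => by
    have h3 : vp hp (rf y.num) < 1 := by
      rw [← hy', map_mul, h2, one_mul, vp_lt]
      exact hd
    exact hp.not_isUnit ((RatFunc.isCoprime_num_denom y).isUnit_of_dvd' ((vp_lt hp _).1 h3) hd)
  have h4 : p ∣ a * y.denom ^ 2 - y.num ^ 2 := by
    rw [← vp_lt hp, rf, map_sub, map_mul, map_pow, map_pow]
    change vp hp (rf a * rf y.denom ^ 2 - rf y.num ^ 2) < 1
    rw [← hy', mul_pow, ← sub_mul, map_mul, map_pow, vp_one hp hd, one_pow, mul_one, ← h1]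
    exact hy
  obtain ⟨s, t, hst⟩ := hp.coprime_iff_not_dvd.2 hd
  obtain ⟨k, hk⟩ := h4
  refine ⟨t * y.num, k * t ^ 2 + a * s * (1 + t * y.denom), ?_⟩
  linear_combination t ^ 2 * hk - a * (1 + t * y.denom) * hst

end

end Pool.Agent.Lib.MP_16ef92_ag
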