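import Mathlib
import Pool.Agent.Lib.MP_16ef92_ag.Red

set_option autoImplicit false
set_option linter.unusedSectionVars false
set_option linter.unusedVariables false

namespace Pool.Agent.Lib.MP_16ef92_ag

open Polynomial

noncomputable section

open scoped Classical

variable {F : Type} [Field F] [Fintype F] [hq : Fact (Odd (Fintype.card F))]

/-- The hypotheses on the family. -/
structure TF (A B D : F[X]) : Prop where
  sq : Squarefree (A * B * (A - B) * D)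
  iA : Irreducible A
  iB : Irreducible B
  iC : Irreducible (A - B)
  dB : B.natDegree = A.natDegree
  dC : (A - B).natDegree = A.natDegree
  n4 : ¬ 4 ∣ A.natDegree
  par : Even (A.natDegree + D.natDegree)
  odd : ∃ p, Irreducible p ∧ p ∣ D ∧ Odd p.natDegree
  spl : ∀ p, Irreducible p → p ∣ D →
    SqMod p (A * B) ∨ ∀ p', Irreducible p' → p' ∣ D → Odd p'.natDegree → p' ∣ p
  r1 : NoSecondKind (D * A)
  r2 : NoSecondKind (-(D * A))

theorem sqf_not {N a b p : F[X]} (h : Squarefree N) (hp : Irreducible p) (hN : a * b ∣ N)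
    (ha : p ∣ a) (hb : p ∣ b) : False :=
  hp.not_isUnit (h p ((mul_dvd_mul ha hb).trans hN))

theorem odd_factor (g : F[X]) (h : Odd g.natDegree) :
    ∃ p, Irreducible p ∧ p ∣ g ∧ Odd p.natDegree := by
  induction g using WfDvdMonoid.induction_on_irreducible with
  | zero => simp at h
  | unit u hu => simp [natDegree_eq_zero_of_isUnit hu] at h
  | mul a p ha hp ih =>
    rw [natDegree_mul hp.ne_zero ha] at h
    by_cases h1 : Odd p.natDegree
    · exact ⟨p, hp, dvd_mul_right _ _, h1⟩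
    · obtain ⟨r, h2, h3, h4⟩ := ih (by
        rw [Nat.odd_iff] at *
        omega)
      exact ⟨r, h2, h3.mul_left _, h4⟩

variable {A B D p : F[X]}

theorem TF.sD (h : TF A B D) : Squarefree D := h.sq.of_mul_right

theorem TF.D0 (h : TF A B D) : D ≠ 0 := h.sD.ne_zero

theorem TF.nA (h : TF A B D) (hp : Irreducible p) (hD : p ∣ D) : ¬ p ∣ A := fun h1 =>
  sqf_not h.sq hp ⟨B * (A - B), by ring⟩ h1 hD

theorem TF.nB (h : TF A B D) (hp : Irreducible p) (hD : p ∣ D) : ¬ p ∣ B := fun h1 =>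
  sqf_not h.sq hp ⟨A * (A - B), by ring⟩ h1 hD

theorem TF.nC (h : TF A B D) (hp : Irreducible p) (hD : p ∣ D) : ¬ p ∣ A - B := fun h1 =>
  sqf_not h.sq hp ⟨A * B, by ring⟩ h1 hD

/-- The local condition in polynomial form. -/
def TP (hp : Irreducible p) (A B D d₁ d₂ : F[X]) : Prop :=
  (LS (vp hp) (rf d₁) ∧ LS (vp hp) (rf d₂)) ∨
    (LS (vp hp) (rf (d₁ * (A * B))) ∧ LS (vp hp) (rf (d₂ * (-(D * A))))) ∨
    (LS (vp hp) (rf (d₁ * (D * A))) ∧ LS (vp hp) (rf (d₂ * (A * (A - B))))) ∨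
    (LS (vp hp) (rf (d₁ * (D * B))) ∧ LS (vp hp) (rf (d₂ * (-(D * (A - B))))))

theorem tp_iff (hp : Irreducible p) {d₁ d₂ : F[X]} :
    TP hp A B D d₁ d₂ ↔ Tq (vp hp) (rf D) (rf A) (rf B) (rf d₁) (rf d₂) := by
  simp only [TP, Tq, rf, map_mul, map_neg, map_sub]

theorem TF.force (h : TF A B D) (hp : Irreducible p) (hD : p ∣ D) {e z u : F[X]} (hu : ¬ p ∣ u)
    (hz : z = e * (D * u)) (hl : LS (vp hp) (rf z)) : p ∣ e := by
  by_contra he
  obtain ⟨f, hf⟩ := hD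
  have hf' : ¬ p ∣ f := fun h1 => sqf_not h.sD hp (hf ▸ dvd_rfl) dvd_rfl h1
  refine not_ev hp (a := e * (f * u)) (fun h1 => ?_) (by rw [hz, hf]; ring) hl.ev
  rcases hp.prime.dvd_or_dvd h1 with h2 | h2
  · exact he h2
  · exact (hp.prime.dvd_or_dvd h2).elim hf' hu

theorem TF.force' (h : TF A B D) (hp : Irreducible p) {e z u : F[X]} (he : e ∣ D) (hu : ¬ p ∣ u)
    (hz : z = e * u) (hl : LS (vp hp) (rf z)) : ¬ p ∣ e := by
  rintro ⟨f, hf⟩
  have hf' : ¬ p ∣ f := fun h1 => sqf_not h.sD hp (hf ▸ he) dvd_rfl h1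
  exact not_ev hp (a := f * u) (fun h1 => (hp.prime.dvd_or_dvd h1).elim hf' hu)
    (by rw [hz, hf]; ring) hl.ev

theorem ls_dsq (hp : Irreducible p) {z z' : F[X]} (h : LS (vp hp) (rf z)) (w : F[X])
    (e : z = z' * w ^ 2) : LS (vp hp) (rf z') :=
  h.dsq (rf w) (by rw [e, rf, map_mul, map_pow])

theorem ls_mul (hp : Irreducible p) {z z' : F[X]} (h : LS (vp hp) (rf z)) (h' : LS (vp hp) (rf z')) :
    LS (vp hp) (rf (z * z')) := by
  rw [rf, map_mul]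
  exact h.mul h'

theorem TF.unit (h : TF A B D) {u e f : F[X]} (hu : IsUnit u) (hN : NoSecondKind (u * (D * A)))
    (hef : D = e * f) (he : Even e.natDegree) (h1 : ∀ p, Irreducible p → p ∣ f → SqMod p e)
    (h2 : ∀ p, Irreducible p → p ∣ e → SqMod p (A * (u * f))) : IsUnit e := by
  have he0 : e ≠ 0 := fun h0 => h.D0 (by rw [hef, h0, zero_mul])
  have hf0 : f ≠ 0 := fun h0 => h.D0 (by rw [hef, h0, mul_zero])
  have h3 : ∀ p, Irreducible p → p ∣ u * f → SqMod p e := fun p hp hd =>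
    h1 p hp (hu.dvd_mul_left.1 hd)
  have h4 : SqMod A e := recip h.iA he0 (mul_ne_zero hu.ne_zero hf0)
    ((isCoprime_mul_unit_left_left hu _ _).2 (isRelPrime_iff_isCoprime.1
      (squarefree_mul_iff.1 (hef ▸ h.sD)).1.symm)) he (by
      have h5 := h.par
      rw [hef, natDegree_mul he0 hf0] at h5
      rw [natDegree_mul h.iA.ne_zero (mul_ne_zero hu.ne_zero hf0), natDegree_mul hu.ne_zero hf0,
        natDegree_eq_zero_of_isUnit hu]
      rw [Nat.even_iff] at he h5 ⊢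
      omega) h3 h2
  refine (hN e (A * (u * f)) (by rw [hef]; ring) he (fun p hp hd => ?_) h2).resolve_right
    fun h5 => h.iA.not_isUnit (isUnit_of_mul_isUnit_left h5)
  rcases hp.prime.dvd_or_dvd hd with h5 | h5
  · obtain ⟨y, hy⟩ := h4
    exact ⟨y, h5.trans hy⟩
  · exact h3 p hp h5

theorem TF.unit' (h : TF A B D) {u e : F[X]} (hu : IsUnit u) (hN : NoSecondKind (u * (D * A)))
    (he : e ∣ D) (g : Even e.natDegree) (hT : ∀ p (hp : Irreducible p), p ∣ D →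
      LS (vp hp) (rf e) ∨ LS (vp hp) (rf (e * (u * (D * A))))) : IsUnit e := by
  obtain ⟨k, e1⟩ := id he
  refine h.unit hu hN e1 g (fun p hp hd => ?_) (fun p hp hd => ?_)
  · have hD : p ∣ D := e1 ▸ hd.mul_left _
    rcases hT p hp hD with t | t
    · exact t.sqMod hp
    · exact (sqf_not h.sD hp e1.symm.dvd (h.force hp hD (u := u * A)
        (fun h3 => h.nA hp hD (hu.dvd_mul_left.1 h3)) (by ring) t) hd).elim
  · rcases hT p hp (hd.trans he) with t | t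
    · exact (h.force' hp he (fun h3 => hp.not_isUnit (isUnit_of_dvd_one h3)) (mul_one _).symm t
        hd).elim
    · exact (ls_dsq hp t e (by rw [e1]; ring)).sqMod hp

theorem TF.nAB (h : TF A B D) (hp : Irreducible p) (hD : p ∣ D) : ¬ p ∣ A * B := fun h3 =>
  (hp.prime.dvd_or_dvd h3).elim (h.nA hp hD) (h.nB hp hD)

theorem TF.f1 (h : TF A B D) (hp : Irreducible p) (hD : p ∣ D) {e : F[X]}
    (hl : LS (vp hp) (rf (e * (-(D * A))))) : p ∣ e :=
  h.force hp hD (u := -A) (by simpa using h.nA hp hD) (by ring) hl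

theorem TF.f3 (h : TF A B D) (hp : Irreducible p) (hD : p ∣ D) {e : F[X]}
    (hl : LS (vp hp) (rf (e * (-(D * (A - B)))))) : p ∣ e :=
  h.force hp hD (u := -(A - B)) (fun h3 => h.nC hp hD (dvd_neg.1 h3)) (by ring) hl

theorem TF.core (h : TF A B D) {e₁ e₂ : F[X]} (h1 : e₁ ∣ D) (h2 : e₂ ∣ D)
    (g1 : Even e₁.natDegree) (g2 : Even e₂.natDegree)
    (spl : ∀ p (hp : Irreducible p), p ∣ e₂ → SqMod p (A * B))
    (hT : ∀ p (hp : Irreducible p), p ∣ D → TP hp A B D e₁ e₂) : IsSquare e₁ ∧ IsSquare e₂ := by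
  have u1 : IsUnit e₁ := by
    refine h.unit' isUnit_one (by simpa using h.r1) h1 g1 fun p hp hD => ?_
    rcases hT p hp hD with t | t | t | t
    · exact Or.inl t.1
    · exact Or.inl (ls_dsq hp (ls_mul hp t.1 ((spl p hp (h.f1 hp hD t.2)).ls hp (h.nAB hp hD)))
        (A * B) (by ring))
    · exact Or.inr (by simpa only [one_mul] using t.1)
    · exact Or.inr (ls_dsq hp (ls_mul hp t.1 ((spl p hp (h.f3 hp hD t.2)).ls hp (h.nAB hp hD)))
        B (by ring))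
  have n3 : ∀ p (hp : Irreducible p), ¬ p ∣ e₁ := fun p hp h3 =>
    hp.not_isUnit (isUnit_of_dvd_unit h3 u1)
  have u2 : IsUnit e₂ := by
    refine h.unit' isUnit_one.neg (by simpa using h.r2) h2 g2 fun p hp hD => ?_
    rcases hT p hp hD with t | t | t | t
    · exact Or.inl t.2
    · exact Or.inr (by simpa only [neg_one_mul] using t.2)
    · exact (n3 p hp (h.force hp hD (h.nA hp hD) rfl t.1)).elim
    · exact (n3 p hp (h.force hp hD (h.nB hp hD) rfl t.1)).elim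
  obtain ⟨p₀, i0, d0, o0⟩ := h.odd
  rcases hT p₀ i0 d0 with t | t | t | t
  · exact ⟨const_sq i0 o0 u1 (t.1.sqMod i0), const_sq i0 o0 u2 (t.2.sqMod i0)⟩
  · exact (i0.not_isUnit (isUnit_of_dvd_unit (h.f1 i0 d0 t.2) u2)).elim
  · exact (n3 _ i0 (h.force i0 d0 (h.nA i0 d0) rfl t.1)).elim
  · exact (n3 _ i0 (h.force i0 d0 (h.nB i0 d0) rfl t.1)).elim

theorem TF.spl_of (h : TF A B D) {e p₀ : F[X]} (he : e ∣ D) (i0 : Irreducible p₀) (d0 : p₀ ∣ D)
    (o0 : Odd p₀.natDegree) (n2 : ¬ p₀ ∣ e) : ∀ p, Irreducible p → p ∣ e → SqMod p (A * B) :=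
  fun p hp hd => (h.spl p hp (hd.trans he)).resolve_right fun h3 => n2 ((h3 p₀ i0 d0 o0).trans hd)

theorem TF.spl_even (h : TF A B D) (hD : Even D.natDegree) :
    ∀ p, Irreducible p → p ∣ D → SqMod p (A * B) := fun p hp hd => by
  refine (h.spl p hp hd).resolve_right fun h3 => ?_
  obtain ⟨p₀, i0, ⟨g, hg⟩, o0⟩ := h.odd
  have g0 : g ≠ 0 := fun h0 => h.D0 (by rw [hg, h0, mul_zero])
  have h4 := natDegree_mul i0.ne_zero g0
  rw [← hg] at h4
  obtain ⟨p₁, i1, d1, o1⟩ := odd_factor g (by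
    rw [Nat.odd_iff] at *
    rw [Nat.even_iff] at hD
    omega)
  have a0 := i0.associated_of_dvd hp (h3 p₀ i0 ⟨g, hg⟩ o0)
  have a1 := i1.associated_of_dvd hp (h3 p₁ i1 (hg ▸ d1.mul_left _) o1)
  exact sqf_not h.sD hp (hg ▸ dvd_rfl) a0.symm.dvd (a1.symm.dvd.trans d1)

theorem TF.core' (h : TF A B D) (hD : Even D.natDegree) {e d₁ d₂ t w : F[X]} (he : e ∣ D)
    (g : Even e.natDegree) (ht : t = 1 ∨ t = A * B ∨ t = D * A ∨ t = D * B)
    (k : d₁ * t = e * (A * B) * w ^ 2)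
    (hT : ∀ p (hp : Irreducible p), p ∣ D → TP hp A B D d₁ d₂) : IsUnit e := by
  refine h.unit' isUnit_one (by simpa using h.r1) he g fun p hp hD' => ?_
  have s := (h.spl_even hD p hp hD').ls hp (h.nAB hp hD')
  have h1 : LS (vp hp) (rf d₁) ∨ LS (vp hp) (rf (d₁ * (D * A))) := by
    rcases hT p hp hD' with t | t | t | t
    · exact Or.inl t.1
    · exact Or.inl (ls_dsq hp (ls_mul hp t.1 s) (A * B) (by ring))
    · exact Or.inr t.1
    · exact Or.inr (ls_dsq hp (ls_mul hp t.1 s) B (by ring))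
  have sq : ∀ y : F[X], y ≠ 0 → LS (vp hp) (rf (y ^ 2)) := fun y hy => by
    rw [rf, map_pow]
    exact LS.sq (vp_ne hp hy)
  have hA := h.iA.ne_zero
  have hB := h.iB.ne_zero
  have h2 : LS (vp hp) (rf (d₁ * t)) ∨ LS (vp hp) (rf (d₁ * t * (D * A))) := by
    rcases ht with rfl | rfl | rfl | rfl <;> rcases h1 with h1 | h1
    · exact Or.inl (by simpa only [mul_one] using h1)
    · exact Or.inr (by simpa only [mul_one] using h1)
    · exact Or.inl (ls_mul hp h1 s)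
    · exact Or.inr (by convert ls_mul hp h1 s using 2; ring)
    · exact Or.inr (by convert ls_mul hp h1 (sq _ (mul_ne_zero h.D0 hA)) using 2; ring)
    · exact Or.inl h1
    · exact Or.inr (by convert ls_mul hp (ls_mul hp h1 s) (sq _ h.D0) using 2; ring)
    · exact Or.inl (ls_dsq hp (ls_mul hp h1 s) A (by ring))
  rw [k] at h2
  rcases h2 with h2 | h2
  · exact Or.inl (ls_dsq hp (ls_mul hp h2 s) (A * B * w) (by ring))
  · exact Or.inr (ls_dsq hp (ls_mul hp h2 s) (A * B * w) (by ring))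

theorem TF.strip {P M d : F[X]} (hP : Irreducible P) (hs : Squarefree (P * M)) (hd : d ∣ P * M) :
    ∃ (a : ℕ) (e : F[X]), (a = 0 ∧ ¬ P ∣ d ∨ a = 1 ∧ P ∣ d) ∧ d = P ^ a * e ∧ e ∣ M := by
  by_cases h : P ∣ d
  · obtain ⟨e, he⟩ := id h
    exact ⟨1, e, Or.inr ⟨rfl, h⟩, by rw [pow_one, he],
      (mul_dvd_mul_iff_left hP.ne_zero).1 (he ▸ hd)⟩
  · exact ⟨0, d, Or.inl ⟨rfl, h⟩, by simp,
      (hP.coprime_iff_not_dvd.2 h).symm.dvd_of_dvd_mul_left hd⟩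

theorem TF.cop (h : TF A B D) :
    IsCoprime A B ∧ IsCoprime A (A - B) ∧ IsCoprime B (A - B) ∧ IsCoprime (A * B * (A - B)) D := by
  refine ⟨h.iA.coprime_iff_not_dvd.2 fun h1 => sqf_not h.sq h.iA ⟨(A - B) * D, by ring⟩ dvd_rfl h1,
    h.iA.coprime_iff_not_dvd.2 fun h1 => sqf_not h.sq h.iA ⟨B * D, by ring⟩ dvd_rfl h1,
    h.iB.coprime_iff_not_dvd.2 fun h1 => sqf_not h.sq h.iB ⟨A * D, by ring⟩ dvd_rfl h1,
    isRelPrime_iff_isCoprime.1 (squarefree_mul_iff.1 h.sq).1⟩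

theorem TF.wt_eq (h : TF A B D) {e₁ e₂ : F[X]} (h1 : e₁ ∣ D) (h2 : e₂ ∣ D) (a b c : ℕ) :
    wt D (A ^ a * (B ^ b * e₁)) (A ^ a * ((A - B) ^ c * e₂)) =
      (a + b + c) * A.natDegree + 2 * (lcm e₁ e₂).natDegree := by
  obtain ⟨c1, c2, c3, c4⟩ := h.cop
  have hM : lcm e₁ e₂ ∣ D := lcm_dvd h1 h2
  have hM0 : lcm e₁ e₂ ≠ 0 := ne_zero_of_dvd_ne_zero h.D0 hM
  have cL : IsCoprime (A ^ a * B ^ b * (A - B) ^ c) D :=
    ((c4.of_mul_left_left.of_mul_left_left.pow_left).mul_left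
      c4.of_mul_left_left.of_mul_left_right.pow_left).mul_left c4.of_mul_left_right.pow_left
  have k1 : Associated (lcm (A ^ a * (B ^ b * e₁)) (A ^ a * ((A - B) ^ c * e₂)))
      (A ^ a * B ^ b * (A - B) ^ c * lcm e₁ e₂) := by
    refine associated_of_dvd_dvd (lcm_dvd ?_ ?_) ((cL.of_isCoprime_of_dvd_right hM).mul_dvd ?_ ?_)
    · obtain ⟨k, hk⟩ := dvd_lcm_left e₁ e₂
      exact ⟨(A - B) ^ c * k, by rw [hk]; ring⟩
    · obtain ⟨k, hk⟩ := dvd_lcm_right e₁ e₂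
      exact ⟨B ^ b * k, by rw [hk]; ring⟩
    · refine ((c2.pow).mul_left c3.pow).mul_dvd (Dvd.dvd.trans ⟨e₁, by ring⟩ (dvd_lcm_left _ _))
        (Dvd.dvd.trans ⟨A ^ a * e₂, by ring⟩ (dvd_lcm_right _ _))
    · exact lcm_dvd (Dvd.dvd.trans ⟨A ^ a * B ^ b, by ring⟩ (dvd_lcm_left _ _))
        (Dvd.dvd.trans ⟨A ^ a * (A - B) ^ c, by ring⟩ (dvd_lcm_right _ _))
  have k2 : Associated (gcd (lcm (A ^ a * (B ^ b * e₁)) (A ^ a * ((A - B) ^ c * e₂))) D)
      (lcm e₁ e₂) := by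
    refine associated_of_dvd_dvd ?_ (dvd_gcd ((dvd_mul_left _ _).trans k1.symm.dvd) hM)
    exact (cL.of_isCoprime_of_dvd_right (gcd_dvd_right _ _)).symm.dvd_of_dvd_mul_left
      ((gcd_dvd_left _ _).trans k1.dvd)
  have hA := pow_ne_zero a h.iA.ne_zero
  have hB := pow_ne_zero b h.iB.ne_zero
  have hC := pow_ne_zero c h.iC.ne_zero
  unfold wt
  rw [natDegree_eq_of_degree_eq (degree_eq_degree_of_associated k2),
    natDegree_eq_of_degree_eq (degree_eq_degree_of_associated k1),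
    natDegree_mul (mul_ne_zero (mul_ne_zero hA hB) hC) hM0, natDegree_mul (mul_ne_zero hA hB) hC,
    natDegree_mul hA hB, natDegree_pow, natDegree_pow, natDegree_pow, h.dB, h.dC]
  ring

theorem TF.loc (h : TF A B D) {d₁ d₂ : F[X]} (hS : IsSel A B D d₁ d₂) :
    (∀ p (hp : Irreducible p), p ∣ D → TP hp A B D d₁ d₂) ∧ ¬ (A - B) ∣ d₁ ∧ ¬ B ∣ d₂ ∧
      (A ∣ d₁ ↔ A ∣ d₂) := by
  obtain ⟨h1, h2, -, -, h3⟩ := hS
  obtain ⟨c1, c2, c3, c4⟩ := h.cop
  have n1 := ne_zero_of_dvd_ne_zero h.sq.ne_zero h1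
  have n2 := ne_zero_of_dvd_ne_zero h.sq.ne_zero h2
  have ev : ∀ p (hp : Irreducible p), Ev (vp hp) (rf ((d₁ * d₂) ^ 2)) := fun p hp => by
    rw [rf, map_pow]
    exact (LS.sq (vp_ne hp (mul_ne_zero n1 n2))).ev
  have nd : ∀ p a b : F[X], Irreducible p → IsCoprime p a → IsCoprime p b → ¬ p ∣ a * b :=
    fun p a b hp k1 k2 => hp.coprime_iff_not_dvd.1 (k1.mul_right k2)
  have sf : ∀ p d, Irreducible p → d ∣ A * B * (A - B) * D → ∀ e, d = p * e → ¬ p ∣ e :=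
    fun p d hp hd e he h4 => sqf_not h.sq hp (he ▸ hd) dvd_rfl h4
  refine ⟨fun p hp hD => ?_, ?_, ?_, ?_⟩
  · obtain ⟨x, t1, t2, t3⟩ := h3 p hp (hD.mul_left _)
    obtain ⟨f, hf⟩ := id hD
    rw [tp_iff]
    refine loc_add (x := x) (not_ev hp (fun h4 => sqf_not h.sD hp (hf ▸ dvd_rfl) dvd_rfl h4) hf)
      (vp_ne hp h.D0) (vp_one hp (h.nA hp hD)) (vp_one hp (h.nB hp hD))
      (by rw [rf, rf, ← map_sub]; exact vp_one hp (h.nC hp hD)) (t1.ls hp) ?_ ?_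
    · simpa only [rf, map_mul] using t2.ls hp
    · simpa only [rf, map_mul] using t3.ls hp
  · rintro ⟨e, he⟩
    obtain ⟨x, t1, t2, t3⟩ := h3 _ h.iC ⟨A * B * D, by ring⟩
    have cD := c4.of_mul_left_right
    refine not_ev h.iC (sf _ _ h.iC h1 e he) he (loc_mul (x := x) (e₃ := 0) ?_ ?_ (t2.ls h.iC)
      (t3.ls h.iC) (by simpa using t1.ls h.iC) ?_)
    · rw [zero_sub, Valuation.map_neg]
      exact vp_one _ (nd _ _ _ h.iC cD c2.symm)
    · rw [zero_sub, Valuation.map_neg]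
      exact vp_one _ (nd _ _ _ h.iC cD c3.symm)
    · convert ev _ h.iC using 1
      simp only [rf, map_mul, map_pow]
      ring
  · rintro ⟨e, he⟩
    obtain ⟨x, t1, t2, t3⟩ := h3 _ h.iB ⟨A * (A - B) * D, by ring⟩
    have cD := c4.of_mul_left_left.of_mul_left_right
    refine not_ev h.iB (sf _ _ h.iB h2 e he) he (loc_mul (x := x) (e₁ := 0) (d₁ := rf d₁) ?_ ?_
      (by simpa using t1.ls h.iB) (t3.ls h.iB) (t2.ls h.iB) ?_)
    · rw [sub_zero]
      exact vp_one _ (nd _ _ _ h.iB cD c1.symm)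
    · rw [rf, rf, ← map_sub, ← mul_sub]
      exact vp_one _ (nd _ _ _ h.iB cD c3)
    · convert ev _ h.iB using 1
      simp only [rf, map_mul, map_pow]
      ring
  · obtain ⟨x, t1, t2, t3⟩ := h3 _ h.iA ⟨B * (A - B) * D, by ring⟩
    have cD := c4.of_mul_left_left.of_mul_left_left
    have h4 : Ev (vp h.iA) (rf (d₁ * d₂)) := by
      refine loc_mul (x := x) (e₁ := 0) (d₁ := rf d₁) ?_ ?_
        (by simpa using t1.ls h.iA) (t2.ls h.iA) (t3.ls h.iA) ?_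
      · rw [sub_zero]
        exact vp_one _ (nd _ _ _ h.iA cD c1)
      · rw [Valuation.map_sub_swap, rf, rf, ← map_sub, ← mul_sub]
        exact vp_one _ (nd _ _ _ h.iA cD c2)
      · convert ev _ h.iA using 1
        simp only [rf, map_mul, map_pow]
        ring
    constructor
    · rintro ⟨e, he⟩
      by_contra h5
      exact not_ev h.iA (a := e * d₂) (fun h6 => (h.iA.prime.dvd_or_dvd h6).elim
        (sf _ _ h.iA h1 e he) h5) (by rw [he]; ring) h4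
    · rintro ⟨e, he⟩
      by_contra h5
      exact not_ev h.iA (a := e * d₁) (fun h6 => (h.iA.prime.dvd_or_dvd h6).elim
        (sf _ _ h.iA h2 e he) h5) (by rw [he]; ring) h4

theorem TF.shift (h : TF A B D) {d₁ d₂ e₁ e₂ w₁ w₂ t₁ t₂ : F[X]}
    (hT : ∀ p (hp : Irreducible p), p ∣ D → TP hp A B D d₁ d₂)
    (ht : ∀ p (hp : Irreducible p), vp hp (rf D) ≠ 0 → vp hp (rf A) ≠ 0 → vp hp (rf B) ≠ 0 →
      vp hp (rf A - rf B) ≠ 0 → Tq (vp hp) (rf D) (rf A) (rf B) (rf d₁) (rf d₂) →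
      Tq (vp hp) (rf D) (rf A) (rf B) (rf (d₁ * t₁)) (rf (d₂ * t₂)))
    (k1 : d₁ * t₁ = e₁ * w₁ ^ 2) (k2 : d₂ * t₂ = e₂ * w₂ ^ 2) :
    ∀ p (hp : Irreducible p), p ∣ D → TP hp A B D e₁ e₂ := fun p hp hD => by
  have := ht p hp (vp_ne hp h.D0) (vp_ne hp h.iA.ne_zero) (vp_ne hp h.iB.ne_zero)
    (by rw [rf, rf, ← map_sub]; exact vp_ne hp h.iC.ne_zero) ((tp_iff hp).1 (hT p hp hD))
  rw [k1, k2] at this
  simp only [rf, map_mul, map_pow] at this
  exact (tp_iff hp).2 this.dsq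

theorem TF.sel (h : TF A B D) (d₁ d₂ : F[X]) (hS : IsSel A B D d₁ d₂) (hw : 4 ∣ wt D d₁ d₂) :
    IsTorsImage A B D d₁ d₂ := by
  obtain ⟨hT, nC, nB, hA⟩ := h.loc hS
  obtain ⟨h1, h2, g1, g2, -⟩ := hS
  have s1 : Squarefree (A * (B * ((A - B) * D))) := by simpa only [mul_assoc] using h.sq
  have s2 : Squarefree (A * ((A - B) * (B * D))) := by
    convert h.sq using 1
    ring
  obtain ⟨a, x₁, ha, k1, m1⟩ := TF.strip h.iA s1 (d := d₁) (by simpa only [mul_assoc] using h1)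
  obtain ⟨b, e₁, hb, rfl, m1'⟩ := TF.strip h.iB s1.of_mul_right m1
  obtain ⟨a', x₂, ha', k2, m2⟩ := TF.strip h.iA s2 (d := d₂) (by convert h2 using 1; ring)
  obtain ⟨c, e₂, hc, rfl, m2'⟩ := TF.strip h.iC s2.of_mul_right m2
  obtain rfl : a = a' := by
    rcases ha with ⟨rfl, ha⟩ | ⟨rfl, ha⟩ <;> rcases ha' with ⟨rfl, ha'⟩ | ⟨rfl, ha'⟩ <;> tauto
  have q1 : e₁ ∣ D := (h.iC.coprime_iff_not_dvd.2 fun h3 => nC
    (k1 ▸ (h3.mul_left _).mul_left _)).symm.dvd_of_dvd_mul_left m1'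
  have q2 : e₂ ∣ D := (h.iB.coprime_iff_not_dvd.2 fun h3 => nB
    (k2 ▸ (h3.mul_left _).mul_left _)).symm.dvd_of_dvd_mul_left m2'
  have z1 := ne_zero_of_dvd_ne_zero h.D0 q1
  have z2 := ne_zero_of_dvd_ne_zero h.D0 q2
  subst k1 k2
  rw [h.wt_eq q1 q2] at hw
  rw [natDegree_mul (pow_ne_zero _ h.iA.ne_zero) (mul_ne_zero (pow_ne_zero _ h.iB.ne_zero) z1),
    natDegree_mul (pow_ne_zero _ h.iB.ne_zero) z1, natDegree_pow, natDegree_pow, h.dB,
    Nat.even_iff] at g1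
  rw [natDegree_mul (pow_ne_zero _ h.iA.ne_zero) (mul_ne_zero (pow_ne_zero _ h.iC.ne_zero) z2),
    natDegree_mul (pow_ne_zero _ h.iC.ne_zero) z2, natDegree_pow, natDegree_pow, h.dC,
    Nat.even_iff] at g2
  have n4 := h.n4
  have par := Nat.even_iff.1 h.par
  have hM : lcm e₁ e₂ ∣ D := lcm_dvd q1 q2
  have hM0 : lcm e₁ e₂ ≠ 0 := ne_zero_of_dvd_ne_zero h.D0 hM
  obtain ⟨f₁, w1⟩ := id q1
  obtain ⟨f₂, w2⟩ := id q2
  have y1 : f₁ ≠ 0 := fun h0 => h.D0 (by rw [w1, h0, mul_zero])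
  have y2 : f₂ ≠ 0 := fun h0 => h.D0 (by rw [w2, h0, mul_zero])
  have v1 : D.natDegree = e₁.natDegree + f₁.natDegree := by rw [← natDegree_mul z1 y1, ← w1]
  have v2 : D.natDegree = e₂.natDegree + f₂.natDegree := by rw [← natDegree_mul z2 y2, ← w2]
  have r1 : f₁ ∣ D := w1 ▸ dvd_mul_left _ _
  have r2 : -f₂ ∣ D := neg_dvd.2 (w2 ▸ dvd_mul_left _ _)
  have x2 : ∀ p, Irreducible p → p ∣ e₂ → ¬ p ∣ -f₂ := fun p hp h3 h4 =>
    sqf_not h.sD hp (w2 ▸ dvd_rfl) h3 (dvd_neg.1 h4)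
  have l1 := natDegree_le_of_dvd hM h.D0
  have l2 := natDegree_le_of_dvd (dvd_lcm_left e₁ e₂) hM0
  have l3 : IsUnit e₁ → (lcm e₁ e₂).natDegree = e₂.natDegree := fun hu =>
    le_antisymm (natDegree_le_of_dvd (lcm_dvd hu.dvd dvd_rfl) z2)
      (natDegree_le_of_dvd (dvd_lcm_right e₁ e₂) hM0)
  have part : ∀ e g : F[X], lcm e₁ e₂ = e * g → (lcm e₁ e₂).natDegree % 2 = 1 →
      e.natDegree % 2 = 0 → ∃ p, Irreducible p ∧ p ∣ D ∧ Odd p.natDegree ∧ ¬ p ∣ e ∧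
        (p ∣ e₁ ∨ p ∣ e₂) := fun e g hg h3 h4 => by
    have hg' := hM0
    rw [hg, mul_ne_zero_iff] at hg'
    have h5 := natDegree_mul hg'.1 hg'.2
    rw [← hg] at h5
    obtain ⟨p, hp, h6, h7⟩ := odd_factor g (by rw [Nat.odd_iff]; omega)
    have h8 : p ∣ lcm e₁ e₂ := hg ▸ h6.mul_left _
    exact ⟨p, hp, h8.trans hM, h7, fun h9 => sqf_not h.sD hp (hg ▸ hM) h9 h6,
      hp.prime.dvd_or_dvd (h8.trans (lcm_dvd_mul _ _))⟩
  have spl : ∀ e, e ∣ D → (D.natDegree % 2 = 1 →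
      ∃ p, Irreducible p ∧ p ∣ D ∧ Odd p.natDegree ∧ ¬ p ∣ e) →
      ∀ p, Irreducible p → p ∣ e → SqMod p (A * B) := fun e he h3 => by
    rcases Nat.mod_two_eq_zero_or_one D.natDegree with h4 | h4
    · exact fun p hp hd => h.spl_even (Nat.even_iff.2 h4) p hp (hd.trans he)
    · obtain ⟨p, h5, h6, h7, h8⟩ := h3 h4
      exact h.spl_of he h5 h6 h7 h8
  rcases ha with ⟨rfl, -⟩ | ⟨rfl, -⟩ <;> rcases hb with ⟨rfl, -⟩ | ⟨rfl, -⟩ <;>
    rcases hc with ⟨rfl, -⟩ | ⟨rfl, -⟩ <;> simp only [pow_zero, pow_one, one_mul] at hT ⊢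
  · refine Or.inl (h.core q1 q2 (by rw [Nat.even_iff]; omega) (by rw [Nat.even_iff]; omega)
      (spl _ q2 fun oD => ?_) hT)
    obtain ⟨g, hg⟩ := id hM
    have g0 : g ≠ 0 := fun h0 => h.D0 (by rw [hg, h0, mul_zero])
    have h5 := natDegree_mul hM0 g0
    rw [← hg] at h5
    obtain ⟨p, hp, h6, h7⟩ := odd_factor g (by rw [Nat.odd_iff]; omega)
    exact ⟨p, hp, hg ▸ h6.mul_left _, h7, fun h9 =>
      sqf_not h.sD hp hg.symm.dvd (h9.trans (dvd_lcm_right _ _)) h6⟩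
  · have := l3 (h.core' (by rw [Nat.even_iff]; omega) q1 (by rw [Nat.even_iff]; omega)
      (w := 1) (Or.inr (Or.inl rfl)) (by ring) hT)
    omega
  · have := natDegree_eq_zero_of_isUnit (h.core' (by rw [Nat.even_iff]; omega) r1
      (by rw [Nat.even_iff]; omega) (w := e₁) (Or.inr (Or.inr (Or.inl rfl))) (by rw [w1]; ring) hT)
    omega
  · have k1 : B * e₁ * (D * B) = f₁ * (B * e₁) ^ 2 := by rw [w1]; ring
    have k2 : (A - B) * e₂ * -(D * (A - B)) = -f₂ * ((A - B) * e₂) ^ 2 := by rw [w2]; ring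
    obtain ⟨t1, t2⟩ := h.core r1 r2 (by rw [Nat.even_iff]; omega)
      (by rw [natDegree_neg, Nat.even_iff]; omega) (spl _ r2 fun oD => by
        have h5 : (gcd e₁ e₂).natDegree + (lcm e₁ e₂).natDegree =
            e₁.natDegree + e₂.natDegree := by
          rw [← natDegree_mul (gcd_ne_zero_of_left z1) hM0, ← natDegree_mul z1 z2]
          exact natDegree_eq_of_degree_eq (degree_eq_degree_of_associated (gcd_mul_lcm _ _))
        obtain ⟨p, hp, h6, h7⟩ := odd_factor (gcd e₁ e₂) (by rw [Nat.odd_iff]; omega)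
        exact ⟨p, hp, (h6.trans (gcd_dvd_left _ _)).trans q1, h7,
          x2 p hp (h6.trans (gcd_dvd_right _ _))⟩)
      (h.shift hT (fun p hp a1 a2 a3 a4 a5 => by
        simpa only [rf, map_mul, map_neg, map_sub] using a5.t3 a1 a2 a3 a4) k1 k2)
    exact Or.inr (Or.inr (Or.inr ⟨k1 ▸ t1.mul (IsSquare.sq _), k2 ▸ t2.mul (IsSquare.sq _)⟩))
  · have := natDegree_eq_zero_of_isUnit (h.core' (by rw [Nat.even_iff]; omega) r1
      (by rw [Nat.even_iff]; omega) (w := e₁) (Or.inr (Or.inr (Or.inr rfl))) (by rw [w1]; ring) hT)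
    omega
  · have k1 : A * e₁ * (D * A) = f₁ * (A * e₁) ^ 2 := by rw [w1]; ring
    have k2 : A * ((A - B) * e₂) * (A * (A - B)) = e₂ * (A * (A - B)) ^ 2 := by ring
    obtain ⟨t1, t2⟩ := h.core r1 q2 (by rw [Nat.even_iff]; omega)
      (by rw [Nat.even_iff]; omega) (spl _ q2 fun oD => by
        obtain ⟨g, hg⟩ := dvd_lcm_right e₁ e₂
        obtain ⟨p, hp, h6, h7, h8, h9⟩ := part e₂ g hg (by omega) (by omega)
        exact ⟨p, hp, h6, h7, h8⟩)
      (h.shift hT (fun p hp a1 a2 a3 a4 a5 => by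
        simpa only [rf, map_mul, map_neg, map_sub] using a5.t2 a1 a2 a3 a4) k1 k2)
    exact Or.inr (Or.inr (Or.inl ⟨k1 ▸ t1.mul (IsSquare.sq _), k2 ▸ t2.mul (IsSquare.sq _)⟩))
  · have k1 : A * (B * e₁) * (A * B) = e₁ * (A * B) ^ 2 := by ring
    have k2 : A * e₂ * -(D * A) = -f₂ * (A * e₂) ^ 2 := by rw [w2]; ring
    obtain ⟨t1, t2⟩ := h.core q1 r2 (by rw [Nat.even_iff]; omega)
      (by rw [natDegree_neg, Nat.even_iff]; omega) (spl _ r2 fun oD => by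
        obtain ⟨g, hg⟩ := dvd_lcm_left e₁ e₂
        obtain ⟨p, hp, h6, h7, h8, h9⟩ := part e₁ g hg (by omega) (by omega)
        exact ⟨p, hp, h6, h7, x2 p hp (h9.resolve_left h8)⟩)
      (h.shift hT (fun p hp a1 a2 a3 a4 a5 => by
        simpa only [rf, map_mul, map_neg, map_sub] using a5.t1 a1 a2 a3 a4) k1 k2)
    exact Or.inr (Or.inl ⟨k1 ▸ t1.mul (IsSquare.sq _), k2 ▸ t2.mul (IsSquare.sq _)⟩)
  · have := l3 (h.core' (by rw [Nat.even_iff]; omega) q1 (by rw [Nat.even_iff]; omega)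
      (w := 1) (Or.inl rfl) (by ring) hT)
    omega

end

end Pool.Agent.Lib.MP_16ef92_ag
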